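import Pool.Agent.Lib.MP_e5ebf6_mp.MechFloor

/-! Module Bloch: power sums of the zeros of the trace of a period-`q` Schrödinger operator. -/

open Set
noncomputable section
namespace Sturm

/-- the Schrödinger operator on all functions -/
def hopL (V : ℤ → ℝ) : (ℤ → ℂ) →ₗ[ℂ] (ℤ → ℂ) where
  toFun ψ n := ψ (n + 1) + ψ (n - 1) + (V n : ℂ) * ψ n
  map_add' f g := by funext n; simp; ring
  map_smul' c f := by funext n; simp; ring

theorem hopL_apply (V : ℤ → ℝ) (ψ : ℤ → ℂ) (n : ℤ) :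
    hopL V ψ n = ψ (n + 1) + ψ (n - 1) + (V n : ℂ) * ψ n := rfl

theorem hop_iter (V : ℤ → ℝ) (ψ : ℤ → ℂ) (k : ℕ) : ∀ (n : ℤ) (S : Finset ℤ),
    Finset.Icc (n - k) (n + k) ⊆ S → ((hopL V) ^ k) ψ n = ∑ a ∈ S, (wk V k a n : ℂ) * ψ a := by
  induction k with
  | zero =>
    intro n S hS
    have hn : n ∈ S := hS (by simp)
    simp only [pow_zero, Module.End.one_apply, wk]
    rw [Finset.sum_eq_single n]
    · simp
    · intro a _ ha; simp [ha]
    · intro h; exact absurd hn h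
  | succ k ih =>
    intro n S hS
    have h1 := ih (n + 1) S (fun a ha => hS (by
      simp only [Finset.mem_Icc] at ha ⊢; push_cast; constructor <;> omega))
    have h2 := ih (n - 1) S (fun a ha => hS (by
      simp only [Finset.mem_Icc] at ha ⊢; push_cast; constructor <;> omega))
    have h3 := ih n S (fun a ha => hS (by
      simp only [Finset.mem_Icc] at ha ⊢; push_cast; constructor <;> omega))
    rw [pow_succ', Module.End.mul_apply, hopL_apply, h1, h2, h3, Finset.mul_sum,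
      ← Finset.sum_add_distrib, ← Finset.sum_add_distrib]
    apply Finset.sum_congr rfl
    intro a _
    simp only [wk]
    push_cast
    ring

/-- index modulo `q` -/
def ixq (q : ℕ) (hq : 1 ≤ q) (n : ℤ) : Fin q :=
  ⟨(n % (q : ℤ)).toNat, by
    have h1 := Int.emod_nonneg n (b := (q : ℤ)) (by omega)
    have h2 := Int.emod_lt_of_pos n (b := (q : ℤ)) (by omega)
    omega⟩

theorem ixq_val (q : ℕ) (hq : 1 ≤ q) (n : ℤ) : ((ixq q hq n : Fin q) : ℕ) = (n % (q : ℤ)).toNat :=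
  rfl

theorem ixq_valZ (q : ℕ) (hq : 1 ≤ q) (n : ℤ) :
    (((ixq q hq n : Fin q) : ℕ) : ℤ) = n % (q : ℤ) := by
  rw [ixq_val, Int.toNat_of_nonneg (Int.emod_nonneg n (by omega))]

/-- twisted extension -/
def extL (q : ℕ) (hq : 1 ≤ q) : (Fin q → ℂ) →ₗ[ℂ] (ℤ → ℂ) where
  toFun f n := Complex.I ^ (n / (q : ℤ)) * f (ixq q hq n)
  map_add' f g := by funext n; simp; ring
  map_smul' c f := by funext n; simp; ring

theorem extL_apply (q : ℕ) (hq : 1 ≤ q) (f : Fin q → ℂ) (n : ℤ) :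
    extL q hq f n = Complex.I ^ (n / (q : ℤ)) * f (ixq q hq n) := rfl

theorem ixq_nat (q : ℕ) (hq : 1 ≤ q) (j : Fin q) : ixq q hq ((j : ℕ) : ℤ) = j := by
  apply Fin.ext
  have hj := j.2
  rw [ixq_val, Int.emod_eq_of_lt (by omega) (by omega)]
  simp

theorem extL_nat (q : ℕ) (hq : 1 ≤ q) (f : Fin q → ℂ) (j : Fin q) :
    extL q hq f ((j : ℕ) : ℤ) = f j := by
  have hj := j.2
  rw [extL_apply, ixq_nat, Int.ediv_eq_zero_of_lt (by omega) (by omega)]
  simp

theorem extL_add (q : ℕ) (hq : 1 ≤ q) (f : Fin q → ℂ) (n : ℤ) :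
    extL q hq f (n + q) = Complex.I * extL q hq f n := by
  have hq0 : (q : ℤ) ≠ 0 := by omega
  rw [extL_apply, extL_apply]
  have h1 : (n + (q : ℤ)) / (q : ℤ) = n / (q : ℤ) + 1 := by
    rw [Int.add_ediv_of_dvd_right (dvd_refl _), Int.ediv_self hq0]
  have h2 : ixq q hq (n + q) = ixq q hq n := by
    apply Fin.ext
    rw [ixq_val, ixq_val, Int.add_emod_right]
  rw [h1, h2, zpow_add_one₀ Complex.I_ne_zero]
  ring

/-- twisted functions -/
def Twd (q : ℕ) (ψ : ℤ → ℂ) : Prop := ∀ n : ℤ, ψ (n + q) = Complex.I * ψ n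

theorem twd_mul (q : ℕ) (ψ : ℤ → ℂ) (h : Twd q ψ) (j : ℤ) (n : ℤ) :
    ψ (n + q * j) = Complex.I ^ j * ψ n := by
  induction j using Int.induction_on generalizing n with
  | zero => simp
  | succ i ih =>
    have : n + (q : ℤ) * (i + 1) = (n + q * i) + q := by ring
    rw [this, h, ih, zpow_add_one₀ Complex.I_ne_zero]
    ring
  | pred i ih =>
    have h1 := h (n + (q : ℤ) * (-i - 1))
    have h2 : n + (q : ℤ) * (-i - 1) + q = n + q * (-i) := by ring
    rw [h2, ih] at h1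
    rw [zpow_sub_one₀ Complex.I_ne_zero]
    have hI : Complex.I⁻¹ * Complex.I = 1 := inv_mul_cancel₀ Complex.I_ne_zero
    calc ψ (n + (q : ℤ) * (-i - 1)) = Complex.I⁻¹ * (Complex.I * ψ (n + (q : ℤ) * (-i - 1))) := by
          rw [← mul_assoc, hI, one_mul]
      _ = Complex.I ^ (-(i : ℤ)) * Complex.I⁻¹ * ψ n := by rw [← h1]; ring

theorem ext_res (q : ℕ) (hq : 1 ≤ q) (ψ : ℤ → ℂ) (h : Twd q ψ) :
    extL q hq (fun j : Fin q => ψ ((j : ℕ) : ℤ)) = ψ := by
  funext n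
  rw [extL_apply, ixq_valZ, ← twd_mul q ψ h]
  congr 1
  have := Int.emod_add_mul_ediv n (q : ℤ)
  omega

theorem twd_hop (V : ℤ → ℝ) (q : ℕ) (hV : ∀ n : ℤ, V (n + q) = V n) (ψ : ℤ → ℂ) (h : Twd q ψ) :
    Twd q (hopL V ψ) := by
  intro n
  rw [hopL_apply, hopL_apply, hV, h n]
  have h1 : n + (q : ℤ) + 1 = (n + 1) + q := by ring
  have h2 : n + (q : ℤ) - 1 = (n - 1) + q := by ring
  rw [h1, h2, h, h]
  ring

/-- the twisted periodic operator -/
def Jop (V : ℤ → ℝ) (q : ℕ) (hq : 1 ≤ q) : Module.End ℂ (Fin q → ℂ) where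
  toFun f j := hopL V (extL q hq f) ((j : ℕ) : ℤ)
  map_add' f g := by funext n; simp
  map_smul' c f := by funext n; simp

theorem Jop_apply (V : ℤ → ℝ) (q : ℕ) (hq : 1 ≤ q) (f : Fin q → ℂ) (j : Fin q) :
    Jop V q hq f j = hopL V (extL q hq f) ((j : ℕ) : ℤ) := rfl

theorem ext_Jop (V : ℤ → ℝ) (q : ℕ) (hq : 1 ≤ q) (hV : ∀ n : ℤ, V (n + q) = V n)
    (f : Fin q → ℂ) : extL q hq (Jop V q hq f) = hopL V (extL q hq f) := by
  have h : Twd q (hopL V (extL q hq f)) := twd_hop V q hV _ (fun n => extL_add q hq f n)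
  exact ext_res q hq _ h

theorem ext_Jop_pow (V : ℤ → ℝ) (q : ℕ) (hq : 1 ≤ q) (hV : ∀ n : ℤ, V (n + q) = V n) (k : ℕ)
    (f : Fin q → ℂ) : extL q hq (((Jop V q hq) ^ k) f) = ((hopL V) ^ k) (extL q hq f) := by
  induction k with
  | zero => simp
  | succ k ih =>
    rw [pow_succ', pow_succ', Module.End.mul_apply, Module.End.mul_apply, ext_Jop V q hq hV, ih]

theorem Jop_diag (V : ℤ → ℝ) (q : ℕ) (hq : 1 ≤ q) (hV : ∀ n : ℤ, V (n + q) = V n) (k : ℕ)
    (hk : k < q) (j : Fin q) :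
    (((Jop V q hq) ^ k) (Pi.single j (1 : ℂ))) j = (wk V k ((j : ℕ) : ℤ) ((j : ℕ) : ℤ) : ℂ) := by
  rw [← extL_nat q hq (((Jop V q hq) ^ k) (Pi.single j (1 : ℂ))) j, ext_Jop_pow V q hq hV k,
    hop_iter V _ k _ _ (Finset.Subset.refl _), Finset.sum_eq_single ((j : ℕ) : ℤ)]
  · rw [extL_nat]; simp
  · intro a ha hne
    rw [extL_apply]
    have hij : ixq q hq a ≠ j := by
      intro h
      apply hne
      have h1 := ixq_valZ q hq a
      rw [h] at h1
      simp only [Finset.mem_Icc] at ha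
      have h3 := Int.emod_add_mul_ediv a (q : ℤ)
      rw [← h1] at h3
      have h4 : a - ((j : ℕ) : ℤ) = q * (a / q) := by omega
      have hq' : (0 : ℤ) < q := by omega
      have h5 : a / (q : ℤ) = 0 := by
        by_contra hne0
        rcases lt_or_gt_of_ne hne0 with hlt | hgt
        · have : (q : ℤ) * (a / q) ≤ q * (-1) := by
            apply mul_le_mul_of_nonneg_left (by omega) hq'.le
          omega
        · have : (q : ℤ) * 1 ≤ q * (a / q) := by
            apply mul_le_mul_of_nonneg_left (by omega) hq'.le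
          omega
      rw [h5] at h4
      omega
    rw [Pi.single_eq_of_ne hij]
    simp
  · intro h
    exfalso
    apply h
    simp

theorem Jop_trace (V : ℤ → ℝ) (q : ℕ) (hq : 1 ≤ q) (hV : ∀ n : ℤ, V (n + q) = V n) (k : ℕ)
    (hk : k < q) :
    LinearMap.trace ℂ (Fin q → ℂ) ((Jop V q hq) ^ k)
      = ((∑ n ∈ Finset.range q, wk V k n n : ℝ) : ℂ) := by
  rw [LinearMap.trace_eq_matrix_trace ℂ (Pi.basisFun ℂ (Fin q)), Matrix.trace]
  rw [Finset.sum_range]
  push_cast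
  apply Finset.sum_congr rfl
  intro j _
  rw [Matrix.diag_apply, LinearMap.toMatrix_apply]
  simp only [Pi.basisFun_apply, Pi.basisFun_repr]
  exact Jop_diag V q hq hV k hk j

/-- the two components of the solution -/
def sol (V : ℤ → ℝ) (E : ℝ) (w0 w1 : ℂ) (n : ℕ) : ℂ × ℂ :=
  ((Tm V E n 0 0 : ℂ) * w0 + (Tm V E n 0 1 : ℂ) * w1,
    (Tm V E n 1 0 : ℂ) * w0 + (Tm V E n 1 1 : ℂ) * w1)

theorem sol_zero (V : ℤ → ℝ) (E : ℝ) (w0 w1 : ℂ) : sol V E w0 w1 0 = (w0, w1) := by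
  simp [sol, Tm]

theorem sol_succ (V : ℤ → ℝ) (E : ℝ) (w0 w1 : ℂ) (n : ℕ) :
    sol V E w0 w1 (n + 1)
      = (((E : ℂ) - V n) * (sol V E w0 w1 n).1 - (sol V E w0 w1 n).2, (sol V E w0 w1 n).1) := by
  simp only [sol, Tm, Matrix.mul_apply, Fin.sum_univ_two, Matrix.of_apply, Matrix.cons_val',
    Matrix.cons_val_zero, Matrix.cons_val_one, Matrix.cons_val_fin_one]
  ext <;> push_cast <;> ring

theorem eigen_vec (V : ℤ → ℝ) (q : ℕ) (hq : 1 ≤ q) (E : ℝ) (hE : (Tm V E q).trace = 0) :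
    ∃ f : Fin q → ℂ, f ≠ 0 ∧ Jop V q hq f = (E : ℂ) • f := by
  set M := Tm V E q with hM
  have hdet : M 0 0 * M 1 1 - M 0 1 * M 1 0 = 1 := by
    rw [← Matrix.det_fin_two, hM, Tm_det]
  have htr : M 0 0 + M 1 1 = 0 := by rw [← Matrix.trace_fin_two]; exact hE
  have hdetc : (M 0 0 : ℂ) * M 1 1 - (M 0 1 : ℂ) * M 1 0 = 1 := by exact_mod_cast hdet
  have htrc : (M 0 0 : ℂ) + M 1 1 = 0 := by exact_mod_cast htr
  have hI : Complex.I * Complex.I = -1 := Complex.I_mul_I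
  set w0 : ℂ := (M 0 0 : ℂ) + Complex.I with hw0
  set w1 : ℂ := (M 1 0 : ℂ) with hw1
  have hw0ne : w0 ≠ 0 := by
    intro h
    have := congrArg Complex.im h
    simp [hw0] at this
  have hq1 : (sol V E w0 w1 q).1 = Complex.I * w0 := by
    change (M 0 0 : ℂ) * w0 + (M 0 1 : ℂ) * w1 = Complex.I * w0
    rw [hw0, hw1]
    linear_combination (M 0 0 : ℂ) * htrc - hdetc - hI
  have hq2 : (sol V E w0 w1 q).2 = Complex.I * w1 := by
    change (M 1 0 : ℂ) * w0 + (M 1 1 : ℂ) * w1 = Complex.I * w1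
    rw [hw0, hw1]
    linear_combination (M 1 0 : ℂ) * htrc
  let f : Fin q → ℂ := fun j => (sol V E w0 w1 j).1
  have hf : ∀ j : Fin q, f j = (sol V E w0 w1 j).1 := fun j => rfl
  refine ⟨f, ?_, ?_⟩
  · intro h
    have h0 := congrFun h ⟨0, by omega⟩
    rw [hf] at h0
    simp only [sol_zero] at h0
    exact hw0ne h0
  · funext j
    have hj := j.2
    -- value at `j + 1`
    have hplus : extL q hq f (((j : ℕ) : ℤ) + 1) = (sol V E w0 w1 (j + 1)).1 := by
      by_cases hlt : (j : ℕ) + 1 < q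
      · have := extL_nat q hq f ⟨(j : ℕ) + 1, hlt⟩
        simp only at this
        push_cast at this
        rw [this]
      · have hjq : (j : ℕ) + 1 = q := by omega
        have h0 := extL_nat q hq f ⟨0, by omega⟩
        simp only [Nat.cast_zero] at h0
        have h1 := extL_add q hq f 0
        rw [h0] at h1
        have h2 : ((j : ℕ) : ℤ) + 1 = 0 + (q : ℤ) := by omega
        rw [h2, h1, hf, hjq, hq1]
        simp only [sol_zero]
    have hminus : extL q hq f (((j : ℕ) : ℤ) - 1) = (sol V E w0 w1 j).2 := by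
      by_cases h0 : (j : ℕ) = 0
      · have h1 := extL_add q hq f (((j : ℕ) : ℤ) - 1)
        have h2 : ((j : ℕ) : ℤ) - 1 + q = (((⟨q - 1, by omega⟩ : Fin q) : ℕ) : ℤ) := by
          simp only; omega
        rw [h2, extL_nat, hf] at h1
        have h3 : (sol V E w0 w1 (q - 1 + 1)).2 = (sol V E w0 w1 (q - 1)).1 := by
          rw [sol_succ]
        rw [Nat.sub_add_cancel hq, hq2] at h3
        simp only at h1
        rw [← h3] at h1
        have h4 := mul_left_cancel₀ Complex.I_ne_zero h1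
        rw [← h4, h0]
        simp only [sol_zero]
      · obtain ⟨i, hi⟩ := Nat.exists_eq_succ_of_ne_zero h0
        have h1 := extL_nat q hq f ⟨i, by omega⟩
        have h2 : ((j : ℕ) : ℤ) - 1 = ((i : ℕ) : ℤ) := by omega
        simp only at h1
        rw [h2, h1, hf, hi, Nat.succ_eq_add_one, sol_succ]
    rw [Jop_apply, hopL_apply, hplus, hminus, extL_nat, hf, sol_succ]
    simp only [Pi.smul_apply, smul_eq_mul]
    rw [hf]
    ring

theorem bloch (V : ℤ → ℝ) (q : ℕ) (hq : 1 ≤ q) (hV : ∀ n : ℤ, V (n + q) = V n) (k : ℕ) (hk : k < q)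
    (Z : Finset ℝ) (hZ : Z.card = q) (hZ0 : ∀ E ∈ Z, (Tm V E q).trace = 0) :
    ∑ E ∈ Z, E ^ k = ∑ n ∈ Finset.range q, wk V k n n := by
  choose! f hf0 hf using fun E (hE : E ∈ Z) => eigen_vec V q hq E (hZ0 E hE)
  have hev : ∀ i : Z, (Jop V q hq).HasEigenvector ((i : ℝ) : ℂ) (f i) := by
    intro i
    rw [Module.End.hasEigenvector_iff, Module.End.mem_eigenspace_iff]
    exact ⟨hf i i.2, hf0 i i.2⟩
  have hinj : Function.Injective (fun i : Z => ((i : ℝ) : ℂ)) := by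
    intro a c h
    exact Subtype.ext (Complex.ofReal_injective h)
  have hli := Module.End.eigenvectors_linearIndependent' (Jop V q hq) _ hinj _ hev
  have hcard : Fintype.card Z = Module.finrank ℂ (Fin q → ℂ) := by
    rw [Module.finrank_fin_fun, Fintype.card_coe, hZ]
  have : Nonempty Z := by
    rw [← Fintype.card_pos_iff, Fintype.card_coe]; omega
  let B := basisOfLinearIndependentOfCardEqFinrank hli hcard
  have hB : ∀ i, B i = f i := fun i => by
    simp [B]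
  have htr : LinearMap.trace ℂ (Fin q → ℂ) ((Jop V q hq) ^ k) = ∑ i : Z, ((i : ℝ) : ℂ) ^ k := by
    rw [LinearMap.trace_eq_matrix_trace ℂ B, Matrix.trace]
    apply Finset.sum_congr rfl
    intro i _
    rw [Matrix.diag_apply, LinearMap.toMatrix_apply, hB, (hev i).pow_apply, ← hB, map_smul]
    simp
  rw [Jop_trace V q hq hV k hk] at htr
  have h2 : ((∑ E ∈ Z, E ^ k : ℝ) : ℂ) = ∑ i : Z, ((i : ℝ) : ℂ) ^ k := by
    push_cast
    rw [← Finset.sum_coe_sort Z]
  rw [← h2] at htr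
  exact (Complex.ofReal_injective htr).symm

/-- the potential at a rational frequency is periodic -/
theorem vfl_periodic (lam : ℝ) (p q : ℕ) (hq : 1 ≤ q) (n : ℤ) :
    vfl lam ((p : ℝ) / q) 0 (n + q) = vfl lam ((p : ℝ) / q) 0 n := by
  have hq0 : (q : ℝ) ≠ 0 := by positivity
  unfold vfl
  have h1 : (((n + q : ℤ) : ℝ) + 1) * ((p : ℝ) / q) + 0
      = ((n : ℝ) + 1) * ((p : ℝ) / q) + 0 + (p : ℕ) := by
    push_cast; field_simp; ring
  have h2 : ((n + q : ℤ) : ℝ) * ((p : ℝ) / q) + 0 = (n : ℝ) * ((p : ℝ) / q) + 0 + (p : ℕ) := by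
    push_cast; field_simp; ring
  rw [h1, h2, Int.floor_add_natCast, Int.floor_add_natCast]
  push_cast
  ring

end Sturm
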