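import Pool.Agent.Lib.MP_e5ebf6_mp.SignRel

/-! Module BlockRel: the Plücker relations between consecutive chain elements. -/

noncomputable section
namespace Sturm

theorem blockRel_RR_nonneg (lam : ℝ) : 0 ≤ RR lam := Real.sqrt_nonneg _

/-- bound for the gradient -/
theorem blockRel_grad {lam x y z : ℝ} (h : kap ((x, y, z) : St ℝ) = 4 + lam ^ 2)
    (hx : |x| < 2) (hy : |y| < 2) : |2 * z - x * y| ≤ 2 * RR lam := by
  have hR := RR_sq lam
  have hR0 := blockRel_RR_nonneg lam
  apply abs_le_of_sq_le_sq _ (by linarith)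
  simp only [kap] at h
  have hx2 : x ^ 2 < 4 := by
    have := sq_lt_sq' (by linarith [(abs_lt.mp hx).1]) (abs_lt.mp hx).2
    linarith
  have hy2 : y ^ 2 < 4 := by
    have := sq_lt_sq' (by linarith [(abs_lt.mp hy).1]) (abs_lt.mp hy).2
    linarith
  nlinarith [sq_nonneg x, sq_nonneg y, mul_nonneg (sq_nonneg x) (sub_nonneg.mpr hy2.le),
    mul_nonneg (sq_nonneg y) (sub_nonneg.mpr hx2.le)]

/-- the cross product at level `j` -/
theorem blockRel_crs {lam : ℝ} (l : List ℕ) (φ : ℝ) (j : ℕ) :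
    ∃ ω : ℝ, |ω| = |deriv (TR lam l) φ| ∧
      crs (deriv (str lam (l.drop j)) φ) (dfwd (l.take j) (str lam l φ) (D0 (str lam l φ))) =
        sgrad ω (str lam (l.drop j) φ) := by
  refine ⟨(-1) ^ (l.take j).length * (deriv (str lam l) φ).1, ?_, ?_⟩
  · rw [abs_mul, abs_pow, abs_neg, abs_one, one_pow, one_mul, deriv_TR]
  · have h1 := crs_D0 (str lam l φ) (deriv (str lam l) φ) (tang_deriv_str lam l φ)
    have h2 := crs_dfwd (l.take j) (str lam l φ) (deriv (str lam l) φ) (D0 (str lam l φ)) _ h1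
    rw [dfwd_deriv_str, fwd_take_str] at h2
    exact h2

/-- consecutive elliptic main levels (opposite sides) -/
theorem rel_opposite {lam : ℝ} (hlam : 0 < lam) (l : List ℕ) (hl : Pos l) (φ : ℝ)
    (hx : |TR lam l φ| < RR lam) (j b : ℕ) (l' : List ℕ) (h : l.drop j = b :: l') (hne : l' ≠ [])
    (hA : |(str lam (b :: l') φ).1| < 2) (hB : |(str lam (b :: l') φ).2.1| < 2) :
    |(deriv (str lam (b :: l')) φ).1| *
        |(dfwd (l.take j) (str lam l φ) (D0 (str lam l φ))).2.1| +
      |(deriv (str lam (b :: l')) φ).2.1| *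
        |(dfwd (l.take j) (str lam l φ) (D0 (str lam l φ))).1| ≤
      2 * RR lam * |deriv (TR lam l) φ| := by
  obtain ⟨ε, hε, hsign⟩ := sign_rel hlam l hl φ hx
  obtain ⟨ω, hω, hcrs⟩ := blockRel_crs (lam := lam) l φ j
  rw [h] at hcrs
  -- the next level
  obtain ⟨b', l'', rfl⟩ : ∃ b' l'', l' = b' :: l'' := by
    cases l' with
    | nil => exact absurd rfl hne
    | cons b' l'' => exact ⟨b', l'', rfl⟩
  have hdrop : l.drop (j + 1) = b' :: l'' := by
    rw [← List.drop_drop, h]
    rfl
  have htake : l.take (j + 1) = l.take j ++ [b] := by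
    have h1 : j < l.length := by
      by_contra hcon
      push Not at hcon
      rw [List.drop_eq_nil_of_le hcon] at h
      exact absurd h (by simp)
    have h2 : l[j] = b := by
      have h3 := List.drop_eq_getElem_cons h1
      rw [h] at h3
      have := List.cons.inj h3
      exact this.1.symm
    rw [List.take_succ_eq_append_getElem h1, h2]
  have hlevel : fwd (l.take j) (str lam l φ) = str lam (b :: b' :: l'') φ := by
    rw [fwd_take_str, h]
  have hnext : str lam (b' :: l'') φ = fwd1 b (str lam (b :: b' :: l'') φ) := by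
    rw [fwd1_str]
  have hb' : 1 ≤ b' := by
    apply hl
    have : b' ∈ l.drop (j + 1) := by rw [hdrop]; simp
    exact List.mem_of_mem_drop this
  have hDnext : (dfwd (l.take (j + 1)) (str lam l φ) (D0 (str lam l φ))).1 =
      (dfwd (l.take j) (str lam l φ) (D0 (str lam l φ))).2.1 := by
    rw [htake, dfwd_append]
    rfl
  have hτ : deriv (str lam (b :: b' :: l'')) φ =
      dfwd (l.take j) (str lam l φ) (deriv (str lam l) φ) := by
    rw [dfwd_deriv_str, h]
  have hτnext : (deriv (str lam (b' :: l'')) φ).1 = (deriv (str lam (b :: b' :: l'')) φ).2.1 := by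
    have h1 : deriv (str lam (b' :: l'')) φ =
        dfwd (l.take (j + 1)) (str lam l φ) (deriv (str lam l) φ) := by
      rw [dfwd_deriv_str, hdrop]
    rw [h1, hτ, htake, dfwd_append]
    rfl
  -- signs
  have hs1 := hsign (j + 1) b' l'' hdrop 0 (Or.inl (by omega)) (by omega) (by
    show |(str lam (b' :: l'') φ).1| < 2
    rw [hnext]
    exact hB)
  simp only [duu] at hs1
  rw [hDnext, hτnext, pow_succ] at hs1
  have hs0 : 0 ≤ ε * (-1) ^ j *
      (dfwd (l.take j) (str lam l φ) (D0 (str lam l φ))).1 *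
      (deriv (str lam (b :: b' :: l'')) φ).1 := by
    by_cases hj : j = 0
    · subst hj
      simp [dfwd, D0]
    · have := hsign j b (b' :: l'') h 0 (Or.inl (hl b (List.mem_of_mem_drop (by rw [h]; simp)))) (fun hh => hj hh.1) hA
      simp only [duu] at this
      exact this.le
  have h3 := congrArg (fun v : St ℝ => v.2.2) hcrs
  simp only [crs, sgrad] at h3
  have hkz : |kz (str lam (b :: b' :: l'') φ)| ≤ 2 * RR lam :=
    blockRel_grad (kap_str lam (b :: b' :: l'') φ) hA hB
  set Dx := (dfwd (l.take j) (str lam l φ) (D0 (str lam l φ))).1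
  set Dy := (dfwd (l.take j) (str lam l φ) (D0 (str lam l φ))).2.1
  set tx := (deriv (str lam (b :: b' :: l'')) φ).1
  set ty := (deriv (str lam (b :: b' :: l'')) φ).2.1
  have hE : (ε * (-1) ^ j) ^ 2 = 1 := by
    rw [mul_pow, ← pow_mul, mul_comm j 2, pow_mul]
    rcases hε with h | h <;> simp [h]
  have hprod : (tx * Dy) * (ty * Dx) ≤ 0 := by
    have h5 : 0 ≤ (ε * (-1) ^ j * Dx * tx) * (ε * ((-1) ^ j * -1) * Dy * ty) :=
      mul_nonneg hs0 hs1.le
    have h6 : (ε * (-1) ^ j * Dx * tx) * (ε * ((-1) ^ j * -1) * Dy * ty) =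
        -((ε * (-1) ^ j) ^ 2 * ((tx * Dy) * (ty * Dx))) := by ring
    rw [h6, hE, one_mul] at h5
    linarith
  have h7 : |tx| * |Dy| + |ty| * |Dx| = |tx * Dy - ty * Dx| := by
    rw [← abs_mul, ← abs_mul]
    rcases le_total 0 (tx * Dy) with ha | ha <;> rcases le_total 0 (ty * Dx) with hb | hb
    · have h8 : (tx * Dy) * (ty * Dx) = 0 := le_antisymm hprod (mul_nonneg ha hb)
      rcases mul_eq_zero.mp h8 with h9 | h9
      · rw [h9]; simp
      · rw [h9]; simp
    · rw [abs_of_nonneg ha, abs_of_nonpos hb, abs_of_nonneg (by linarith)]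
      ring
    · rw [abs_of_nonpos ha, abs_of_nonneg hb, abs_of_nonpos (by linarith)]
      ring
    · have h8 : (tx * Dy) * (ty * Dx) = 0 := le_antisymm hprod (mul_nonneg_of_nonpos_of_nonpos ha hb)
      rcases mul_eq_zero.mp h8 with h9 | h9
      · rw [h9]; simp
      · rw [h9]; simp
  rw [h7, h3, abs_mul, hω, mul_comm]
  exact mul_le_mul_of_nonneg_right hkz (abs_nonneg _)

/-- consecutive elements of a block (same side) -/
theorem rel_same {lam : ℝ} (hlam : 0 < lam) (l : List ℕ) (hl : Pos l) (φ : ℝ)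
    (hx : |TR lam l φ| < RR lam) (j b : ℕ) (l' : List ℕ) (h : l.drop j = b :: l')
    (p : ℕ) (hp : p + 1 < b ∨ (p + 1 = b ∧ l' ≠ []))
    (hA : |uu (str lam (b :: l') φ) p| < 2) (hB : |uu (str lam (b :: l') φ) (p + 1)| < 2) :
    |duu (str lam (b :: l') φ) (deriv (str lam (b :: l')) φ) p| *
        |duu (str lam (b :: l') φ) (dfwd (l.take j) (str lam l φ) (D0 (str lam l φ))) (p + 1)| -
      |duu (str lam (b :: l') φ) (deriv (str lam (b :: l')) φ) (p + 1)| *
        |duu (str lam (b :: l') φ) (dfwd (l.take j) (str lam l φ) (D0 (str lam l φ))) p| ≤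
      2 * RR lam * |deriv (TR lam l) φ| := by
  obtain ⟨ω, hω, hcrs⟩ := blockRel_crs (lam := lam) l φ j
  rw [h] at hcrs
  have h2 := crs_node _ _ _ _ hcrs p
  have h3 := congrArg (fun v : St ℝ => v.2.1) h2
  simp only [crs, sgrad] at h3
  have hky : |ky ((uu (str lam (b :: l') φ) p, (str lam (b :: l') φ).2.1,
      uu (str lam (b :: l') φ) (p + 1)) : St ℝ)| ≤ 2 * RR lam := by
    have hk := kap_node (str lam (b :: l') φ) p
    rw [kap_str] at hk
    have hk' : kap ((uu (str lam (b :: l') φ) p, uu (str lam (b :: l') φ) (p + 1),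
        (str lam (b :: l') φ).2.1) : St ℝ) = 4 + lam ^ 2 := by
      rw [← hk]
      simp only [kap]
      ring
    have := blockRel_grad hk' hA hB
    simp only [ky]
    exact this
  set Dp := duu (str lam (b :: l') φ) (dfwd (l.take j) (str lam l φ) (D0 (str lam l φ))) p
  set Dq := duu (str lam (b :: l') φ) (dfwd (l.take j) (str lam l φ) (D0 (str lam l φ))) (p + 1)
  set tp := duu (str lam (b :: l') φ) (deriv (str lam (b :: l')) φ) p
  set tq := duu (str lam (b :: l') φ) (deriv (str lam (b :: l')) φ) (p + 1)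
  rw [← abs_mul, ← abs_mul]
  have h4 : |tp * Dq| - |tq * Dp| ≤ |tq * Dp - tp * Dq| := by
    rw [abs_sub_comm]
    exact abs_sub_abs_le_abs_sub _ _
  refine h4.trans ?_
  rw [h3, abs_mul, hω, mul_comm]
  exact mul_le_mul_of_nonneg_right hky (abs_nonneg _)

end Sturm
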