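import Pool.Agent.Lib.MP_e5ebf6_mp.Defs

/-! Module Cone: the cone `PC σ` of definite traceless real 2×2 matrices. -/

noncomputable section
namespace Sturm

private theorem cone_form {Y : M2 ℝ} (h : Y 0 0 + Y 1 1 = 0) :
    Y = !![Y 0 0, Y 0 1; Y 1 0, -(Y 0 0)] := by
  ext i j
  fin_cases i <;> fin_cases j
  · rfl
  · rfl
  · rfl
  · show Y 1 1 = -(Y 0 0)
    linarith

private theorem cone_det {Y : M2 ℝ} (h : Y 0 0 + Y 1 1 = 0) :
    Y.det = -(Y 0 0) ^ 2 - Y 0 1 * Y 1 0 := by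
  rw [Matrix.det_fin_two]
  have : Y 1 1 = -(Y 0 0) := by linarith
  rw [this]
  ring

/-- the bilinear form of two elements of the cone -/
private theorem cone_bil {a b c a' b' c' d d' : ℝ} (hc : 0 < c * c')
    (hd : d = -a ^ 2 - b * c) (hd' : d' = -a' ^ 2 - b' * c') (h0 : 0 ≤ d) (h0' : 0 ≤ d') :
    2 * (Real.sqrt d * Real.sqrt d') ≤ -2 * a * a' - b * c' - b' * c := by
  have h1 := Real.sq_sqrt h0
  have h2 := Real.sq_sqrt h0'
  set s := Real.sqrt d with hs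
  set s' := Real.sqrt d' with hs'
  have h3 : c * c' * ((-2 * a * a' - b * c' - b' * c) - 2 * (s * s')) =
      (s * c' - s' * c) ^ 2 + (a * c' - a' * c) ^ 2 := by
    have e1 : b * c = -a ^ 2 - s ^ 2 := by rw [h1]; linarith
    have e2 : b' * c' = -a' ^ 2 - s' ^ 2 := by rw [h2]; linarith
    have : c * c' * ((-2 * a * a' - b * c' - b' * c) - 2 * (s * s')) =
        -2 * a * a' * (c * c') - (b * c) * c' ^ 2 - (b' * c') * c ^ 2 - 2 * s * s' * (c * c') := by
      ring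
    rw [this, e1, e2]
    ring
  have h4 : 0 ≤ c * c' * ((-2 * a * a' - b * c' - b' * c) - 2 * (s * s')) := by
    rw [h3]; positivity
  have h5 := nonneg_of_mul_nonneg_right h4 hc
  linarith

private theorem cone_sq {σ : ℝ} (hσ : σ = 1 ∨ σ = -1) : σ * σ = 1 := by
  rcases hσ with h | h <;> rw [h] <;> norm_num

/-- the cone is convex and `√det` is superadditive on it -/
theorem PC.add {σ : ℝ} (hσ : σ = 1 ∨ σ = -1) {Y Z : M2 ℝ} (hY : PC σ Y) (hZ : PC σ Z) :
    PC σ (Y + Z) ∧ Real.sqrt Y.det + Real.sqrt Z.det ≤ Real.sqrt (Y + Z).det := by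
  obtain ⟨t1, s1, d1⟩ := hY
  obtain ⟨t2, s2, d2⟩ := hZ
  have t3 : (Y + Z) 0 0 + (Y + Z) 1 1 = 0 := by
    simp only [Matrix.add_apply]
    linarith
  have hcc : 0 < Y 1 0 * Z 1 0 := by
    have h := mul_pos s1 s2
    have e : σ * Y 1 0 * (σ * Z 1 0) = (σ * σ) * (Y 1 0 * Z 1 0) := by ring
    rw [e, cone_sq hσ, one_mul] at h
    exact h
  have hb := cone_bil hcc (cone_det t1) (cone_det t2) d1.le d2.le
  have e : (Y + Z).det = Y.det + Z.det +
      (-2 * Y 0 0 * Z 0 0 - Y 0 1 * Z 1 0 - Z 0 1 * Y 1 0) := by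
    rw [cone_det t3, cone_det t1, cone_det t2]
    simp only [Matrix.add_apply]
    ring
  have n1 := Real.sqrt_nonneg Y.det
  have n2 := Real.sqrt_nonneg Z.det
  have n3 := mul_nonneg n1 n2
  refine ⟨⟨t3, ?_, ?_⟩, ?_⟩
  · simp only [Matrix.add_apply]
    linarith
  · rw [e]
    linarith
  · apply Real.le_sqrt_of_sq_le
    rw [add_sq, Real.sq_sqrt d1.le, Real.sq_sqrt d2.le, e]
    linarith

theorem adjugate_det_one {g : M2 ℝ} (hg : g.det = 1) : g.adjugate.det = 1 := by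
  rw [Matrix.det_adjugate, hg, one_pow]

private theorem cone_adjadj (g : M2 ℝ) : g.adjugate.adjugate = g := by
  rw [Matrix.adjugate_adjugate g (by simp)]
  simp

/-- conjugation invariance -/
theorem PC.conj {σ : ℝ} (hσ : σ = 1 ∨ σ = -1) {Y g : M2 ℝ} (hg : g.det = 1) (hY : PC σ Y) :
    PC σ (g.adjugate * Y * g) ∧ (g.adjugate * Y * g).det = Y.det := by
  obtain ⟨t1, s1, d1⟩ := hY
  have hdet : (g.adjugate * Y * g).det = Y.det := by
    rw [Matrix.det_mul, Matrix.det_mul, hg, adjugate_det_one hg, one_mul, mul_one]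
  refine ⟨⟨?_, ?_, by rw [hdet]; exact d1⟩, hdet⟩
  · have h := Matrix.trace_mul_cycle g.adjugate Y g
    rw [Matrix.mul_adjugate, hg, one_smul, one_mul, Matrix.trace_fin_two, Matrix.trace_fin_two,
      t1] at h
    exact h
  · have h11 : Y 1 1 = -(Y 0 0) := by linarith
    have hval : (g.adjugate * Y * g) 1 0 =
        Y 1 0 * g 0 0 ^ 2 - 2 * Y 0 0 * g 0 0 * g 1 0 - Y 0 1 * g 1 0 ^ 2 := by
      rw [Matrix.adjugate_fin_two]
      simp only [Matrix.mul_apply, Fin.sum_univ_two, Matrix.of_apply, Matrix.cons_val', Matrix.cons_val_zero,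
        Matrix.cons_val_one, Matrix.cons_val_fin_one]
      rw [h11]
      ring
    rw [cone_det t1] at d1
    have hc : Y 1 0 * (g.adjugate * Y * g) 1 0 =
        (Y 1 0 * g 0 0 - Y 0 0 * g 1 0) ^ 2 + (-(Y 0 0) ^ 2 - Y 0 1 * Y 1 0) * g 1 0 ^ 2 := by
      rw [hval]
      ring
    have hpos : 0 < Y 1 0 * (g.adjugate * Y * g) 1 0 := by
      rw [hc]
      by_cases hr : g 1 0 = 0
      · have hp : g 0 0 ≠ 0 := by
          intro hp
          rw [Matrix.det_fin_two, hr, hp] at hg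
          norm_num at hg
        have hc0 : Y 1 0 ≠ 0 := by
          intro h
          rw [h, mul_zero] at s1
          exact lt_irrefl _ s1
        rw [hr]
        have : 0 < (Y 1 0 * g 0 0) ^ 2 := by positivity
        nlinarith
      · have : 0 < (-(Y 0 0) ^ 2 - Y 0 1 * Y 1 0) * g 1 0 ^ 2 := by positivity
        nlinarith [sq_nonneg (Y 1 0 * g 0 0 - Y 0 0 * g 1 0)]
    have h2 : 0 < (σ * Y 1 0) * (σ * (g.adjugate * Y * g) 1 0) := by
      have e : (σ * Y 1 0) * (σ * (g.adjugate * Y * g) 1 0) =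
          (σ * σ) * (Y 1 0 * (g.adjugate * Y * g) 1 0) := by ring
      rw [e, cone_sq hσ, one_mul]
      exact hpos
    exact (mul_pos_iff_of_pos_left s1).1 h2

theorem PC.conj' {σ : ℝ} (hσ : σ = 1 ∨ σ = -1) {Y g : M2 ℝ} (hg : g.det = 1) (hY : PC σ Y) :
    PC σ (g * Y * g.adjugate) ∧ (g * Y * g.adjugate).det = Y.det := by
  have h := PC.conj hσ (g := g.adjugate) (adjugate_det_one hg) hY
  rw [cone_adjadj] at h
  exact h

theorem PC.neg {σ : ℝ} {Y : M2 ℝ} (hY : PC σ Y) : PC (-σ) (-Y) := by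
  obtain ⟨t1, s1, d1⟩ := hY
  refine ⟨?_, ?_, ?_⟩
  · simp only [Matrix.neg_apply]
    linarith
  · simp only [Matrix.neg_apply]
    linarith
  · rw [Matrix.det_neg, Fintype.card_fin]
    norm_num
    exact d1

/-- trace pairing of an elliptic matrix with an element of the cone -/
theorem PC.tr_mul {σ : ℝ} (hσ : σ = 1 ∨ σ = -1) {W Y : M2 ℝ} (hW : W.det = 1)
    (ht : |W.trace| < 2) (hY : PC σ Y) :
    σ * W 1 0 * (W * Y).trace < 0 ∧
      Real.sqrt (4 - W.trace ^ 2) * Real.sqrt Y.det ≤ |(W * Y).trace| := by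
  obtain ⟨t1, s1, d1⟩ := hY
  have h11 : Y 1 1 = -(Y 0 0) := by linarith
  have ht2 : W.trace ^ 2 < 4 := by
    have := abs_lt.1 ht
    nlinarith
  have htr : (W * Y).trace = (W 0 0 - W 1 1) * Y 0 0 + W 0 1 * Y 1 0 + W 1 0 * Y 0 1 := by
    rw [Matrix.trace_fin_two]
    simp only [Matrix.mul_apply, Fin.sum_univ_two]
    rw [h11]
    ring
  have hdet0 : 1 - W.trace ^ 2 / 4 = -((W 0 0 - W 1 1) / 2) ^ 2 - W 0 1 * W 1 0 := by
    rw [Matrix.det_fin_two] at hW
    rw [Matrix.trace_fin_two]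
    linear_combination -hW
  have hd0 : 0 < 1 - W.trace ^ 2 / 4 := by linarith
  have hw : W 1 0 ≠ 0 := by
    intro h
    rw [hdet0, h] at hd0
    nlinarith [sq_nonneg ((W 0 0 - W 1 1) / 2)]
  have hsq : Real.sqrt (4 - W.trace ^ 2) = 2 * Real.sqrt (1 - W.trace ^ 2 / 4) := by
    have e : 4 - W.trace ^ 2 = 2 ^ 2 * (1 - W.trace ^ 2 / 4) := by ring
    rw [e, Real.sqrt_mul (by positivity), Real.sqrt_sq (by norm_num)]
  have hsd : 0 < Real.sqrt (1 - W.trace ^ 2 / 4) * Real.sqrt Y.det :=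
    mul_pos (Real.sqrt_pos.2 hd0) (Real.sqrt_pos.2 d1)
  have hcne : Y 1 0 ≠ 0 := by
    intro h
    rw [h, mul_zero] at s1
    exact lt_irrefl _ s1
  have hσσ := cone_sq hσ
  rcases lt_or_gt_of_ne (mul_ne_zero hw hcne) with hneg | hpos
  · have hb := cone_bil (a := -((W 0 0 - W 1 1) / 2)) (b := -(W 0 1)) (c := -(W 1 0))
      (a' := Y 0 0) (b' := Y 0 1) (c' := Y 1 0) (d := 1 - W.trace ^ 2 / 4) (d' := Y.det)
      (by linarith) (by rw [hdet0]; ring) (cone_det t1) hd0.le d1.le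
    have e : -2 * -((W 0 0 - W 1 1) / 2) * Y 0 0 - -(W 0 1) * Y 1 0 - Y 0 1 * -(W 1 0) =
        (W * Y).trace := by rw [htr]; ring
    rw [e] at hb
    have htp : 0 < (W * Y).trace := by linarith
    refine ⟨?_, ?_⟩
    · have h1 : σ * W 1 0 < 0 := by
        have h2 : (σ * W 1 0) * (σ * Y 1 0) < 0 := by
          have e2 : (σ * W 1 0) * (σ * Y 1 0) = (σ * σ) * (W 1 0 * Y 1 0) := by ring
          rw [e2, hσσ, one_mul]
          exact hneg
        by_contra h3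
        push Not at h3
        have := mul_nonneg h3 s1.le
        linarith
      exact mul_neg_of_neg_of_pos h1 htp
    · rw [hsq, abs_of_pos htp]
      linarith
  · have hb := cone_bil (a := (W 0 0 - W 1 1) / 2) (b := W 0 1) (c := W 1 0)
      (a' := Y 0 0) (b' := Y 0 1) (c' := Y 1 0) (d := 1 - W.trace ^ 2 / 4) (d' := Y.det)
      hpos hdet0 (cone_det t1) hd0.le d1.le
    have e : -2 * ((W 0 0 - W 1 1) / 2) * Y 0 0 - W 0 1 * Y 1 0 - Y 0 1 * W 1 0 =
        -(W * Y).trace := by rw [htr]; ring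
    rw [e] at hb
    have htn : (W * Y).trace < 0 := by linarith
    refine ⟨?_, ?_⟩
    · have h1 : 0 < σ * W 1 0 := by
        have h2 : 0 < (σ * W 1 0) * (σ * Y 1 0) := by
          have e2 : (σ * W 1 0) * (σ * Y 1 0) = (σ * σ) * (W 1 0 * Y 1 0) := by ring
          rw [e2, hσσ, one_mul]
          exact hpos
        by_contra h3
        push Not at h3
        have := mul_nonpos_of_nonpos_of_nonneg h3 s1.le
        linarith
      exact mul_neg_of_pos_of_neg h1 htn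
    · rw [hsq, abs_of_neg htn]
      linarith

/-- weak versions -/
theorem PC0.add {σ : ℝ} (hσ : σ = 1 ∨ σ = -1) {Y Z : M2 ℝ} (hY : PC0 σ Y) (hZ : PC0 σ Z) :
    PC0 σ (Y + Z) ∧ Real.sqrt Y.det + Real.sqrt Z.det ≤ Real.sqrt (Y + Z).det := by
  have hz : Real.sqrt (0 : M2 ℝ).det = 0 := by
    rw [Matrix.det_zero, Real.sqrt_zero]
  rcases hY with hY | rfl
  · rcases hZ with hZ | rfl
    · have h := PC.add hσ hY hZ
      exact ⟨Or.inl h.1, h.2⟩
    · rw [add_zero, hz, add_zero]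
      exact ⟨Or.inl hY, le_rfl⟩
  · rw [zero_add, hz, zero_add]
    exact ⟨hZ, le_rfl⟩

theorem PC0.add_left {σ : ℝ} (hσ : σ = 1 ∨ σ = -1) {Y Z : M2 ℝ} (hY : PC σ Y) (hZ : PC0 σ Z) :
    PC σ (Y + Z) := by
  rcases hZ with hZ | rfl
  · exact (PC.add hσ hY hZ).1
  · rw [add_zero]
    exact hY

theorem PC0.conj {σ : ℝ} (hσ : σ = 1 ∨ σ = -1) {Y g : M2 ℝ} (hg : g.det = 1) (hY : PC0 σ Y) :
    PC0 σ (g.adjugate * Y * g) ∧ (g.adjugate * Y * g).det = Y.det := by
  rcases hY with hY | rfl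
  · have h := PC.conj hσ hg hY
    exact ⟨Or.inl h.1, h.2⟩
  · rw [mul_zero, zero_mul]
    exact ⟨Or.inr rfl, rfl⟩

theorem PC0.conj' {σ : ℝ} (hσ : σ = 1 ∨ σ = -1) {Y g : M2 ℝ} (hg : g.det = 1) (hY : PC0 σ Y) :
    PC0 σ (g * Y * g.adjugate) ∧ (g * Y * g.adjugate).det = Y.det := by
  rcases hY with hY | rfl
  · have h := PC.conj' hσ hg hY
    exact ⟨Or.inl h.1, h.2⟩
  · rw [mul_zero, zero_mul]
    exact ⟨Or.inr rfl, rfl⟩

theorem PC0.neg {σ : ℝ} {Y : M2 ℝ} (hY : PC0 σ Y) : PC0 (-σ) (-Y) := by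
  rcases hY with hY | rfl
  · exact Or.inl hY.neg
  · exact Or.inr neg_zero

end Sturm
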