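import Pool.Agent.Lib.MP_e5ebf6_mp.TMBasic
import Pool.Agent.Lib.MP_e5ebf6_mp.Cone

/-! Module BwdCone: positivity is preserved (with alternating signs) by the backward moves. -/

noncomputable section
namespace Sturm

/-- sizes under backward moves, started from `(0, 1)` -/
def ee : List ℕ → ℕ × ℕ
  | [] => (0, 1)
  | b :: l => ((ee l).2 + b * (ee l).1, (ee l).1)

namespace TM

private theorem bc_det_pow {B : M2 ℝ} (hB : B.det = 1) (i : ℕ) : (B ^ i).det = 1 := by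
  rw [Matrix.det_pow, hB, one_pow]

private theorem bc_neg {σ : ℝ} {Y : M2 ℝ} (hY : PC0 (-σ) Y) : PC0 σ (-Y) := by
  have h := hY.neg
  rwa [neg_neg] at h

private theorem bc_neg' {σ : ℝ} {Y : M2 ℝ} (hY : PC (-σ) Y) : PC σ (-Y) := by
  have h := hY.neg
  rwa [neg_neg] at h

private theorem bc_det_neg (Y : M2 ℝ) : (-Y).det = Y.det := by
  rw [Matrix.det_neg, Fintype.card_fin]
  norm_num

private theorem bc_sum_neg (A Y : M2 ℝ) (b : ℕ) :
    -(∑ i ∈ Finset.range b, A ^ (i + 1) * Y * (A ^ (i + 1)).adjugate) =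
      ∑ i ∈ Finset.range b, A ^ (i + 1) * (-Y) * (A ^ (i + 1)).adjugate := by
  rw [← Finset.sum_neg_distrib]
  exact Finset.sum_congr rfl fun i _ => by rw [mul_neg, neg_mul]

private theorem bc_sum0 {σ : ℝ} (hσ : σ = 1 ∨ σ = -1) {A Y : M2 ℝ} (hA : A.det = 1)
    (hY : PC0 σ Y) (b : ℕ) :
    PC0 σ (∑ i ∈ Finset.range b, A ^ (i + 1) * Y * (A ^ (i + 1)).adjugate) ∧
      (b : ℝ) * Real.sqrt Y.det ≤
        Real.sqrt (∑ i ∈ Finset.range b, A ^ (i + 1) * Y * (A ^ (i + 1)).adjugate).det := by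
  induction b with
  | zero =>
    rw [Finset.sum_range_zero, Nat.cast_zero, zero_mul]
    exact ⟨Or.inr rfl, Real.sqrt_nonneg _⟩
  | succ b ih =>
    have h := PC0.conj' hσ (bc_det_pow hA (b + 1)) hY
    have h2 := PC0.add hσ ih.1 h.1
    rw [Finset.sum_range_succ]
    refine ⟨h2.1, le_trans ?_ h2.2⟩
    rw [h.2]
    push_cast
    have := ih.2
    linarith

private theorem bc_sum1 {σ : ℝ} (hσ : σ = 1 ∨ σ = -1) {A Y : M2 ℝ} (hA : A.det = 1)
    (hY : PC σ Y) (b : ℕ) (hb : 1 ≤ b) :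
    PC σ (∑ i ∈ Finset.range b, A ^ (i + 1) * Y * (A ^ (i + 1)).adjugate) := by
  obtain ⟨c, rfl⟩ : ∃ c, b = c + 1 := ⟨b - 1, by omega⟩
  rw [Finset.sum_range_succ, add_comm]
  exact PC0.add_left hσ (PC.conj' hσ (bc_det_pow hA (c + 1)) hY).1
    (bc_sum0 hσ hA (Or.inl hY) c).1

theorem lba_PC0 {σ : ℝ} (hσ : σ = 1 ∨ σ = -1) {P : TM ℝ} (h : P.Good) (hA : PC0 (-σ) P.LA)
    (hB : PC0 σ P.LB) (b : ℕ) :
    PC0 σ (lba b P) ∧
      Real.sqrt P.LB.det + b * Real.sqrt P.LA.det ≤ Real.sqrt (lba b P).det := by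
  have h1 := PC0.conj' hσ (bc_det_pow h.dA b) hB
  have h2 := bc_sum0 hσ h.dA (bc_neg hA) b
  have h3 := PC0.add hσ h1.1 h2.1
  unfold lba
  rw [sub_eq_add_neg, bc_sum_neg]
  refine ⟨h3.1, le_trans ?_ h3.2⟩
  rw [h1.2]
  have := h2.2
  rw [bc_det_neg] at this
  linarith

private theorem lba_PC {σ : ℝ} (hσ : σ = 1 ∨ σ = -1) {P : TM ℝ} (h : P.Good)
    (hA : PC (-σ) P.LA) (hB : PC0 σ P.LB) (b : ℕ) (hb : 1 ≤ b) : PC σ (lba b P) := by
  have h1 := PC0.conj' hσ (bc_det_pow h.dA b) hB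
  have h2 := bc_sum1 hσ h.dA (bc_neg' hA) b hb
  unfold lba
  rw [sub_eq_add_neg, bc_sum_neg, add_comm]
  exact PC0.add_left hσ h2 h1.1

private theorem bc_sign {σ : ℝ} (hσ : σ = 1 ∨ σ = -1) (k : ℕ) :
    σ * (-1) ^ k = 1 ∨ σ * (-1) ^ k = -1 := by
  rcases neg_one_pow_eq_or ℝ k with h | h <;> rcases hσ with h' | h' <;> rw [h, h'] <;> norm_num

/-- started with `LA = 0`, `LB ∈ PC σ` -/
theorem prevs_PC0 {σ : ℝ} (hσ : σ = 1 ∨ σ = -1) {P : TM ℝ} (h : P.Good) (hA : P.LA = 0)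
    (hB : PC σ P.LB) (l : List ℕ) :
    PC0 (-σ * (-1) ^ l.length) (prevs l P).LA ∧ PC0 (σ * (-1) ^ l.length) (prevs l P).LB ∧
      ((ee l).1 : ℝ) * Real.sqrt P.LB.det ≤ Real.sqrt (prevs l P).LA.det ∧
      ((ee l).2 : ℝ) * Real.sqrt P.LB.det ≤ Real.sqrt (prevs l P).LB.det := by
  induction l with
  | nil =>
    refine ⟨Or.inr hA, ?_, ?_, ?_⟩
    · rw [List.length_nil, pow_zero, mul_one]
      exact Or.inl hB
    · simp [ee]
    · simp [ee, prevs]
  | cons b l ih =>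
    obtain ⟨i1, i2, i3, i4⟩ := ih
    have e1 : -σ * (-1) ^ l.length = -(σ * (-1) ^ l.length) := by ring
    have e2 : σ * (-1) ^ (b :: l).length = -(σ * (-1) ^ l.length) := by
      rw [List.length_cons, pow_succ]
      ring
    have e3 : -σ * (-1) ^ (b :: l).length = σ * (-1) ^ l.length := by
      rw [List.length_cons, pow_succ]
      ring
    rw [e1] at i1
    have h1 := lba_PC0 (bc_sign hσ l.length) (good_prevs l h) i1 i2 b
    rw [e2, e3]
    refine ⟨h1.1, i1, ?_, i3⟩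
    refine le_trans ?_ h1.2
    show (((ee l).2 + b * (ee l).1 : ℕ) : ℝ) * Real.sqrt P.LB.det ≤
      Real.sqrt (prevs l P).LB.det + b * Real.sqrt (prevs l P).LA.det
    have h2 := mul_le_mul_of_nonneg_left i3 (Nat.cast_nonneg (α := ℝ) b)
    push_cast
    linarith

end TM

open TM

/-- the `φ`-derivatives: `LA` is strictly positive, `LB` weakly negative (alternating) -/
theorem tmr_PC (lam : ℝ) (l : List ℕ) (hl : Pos l) (φ : ℝ) :
    PC ((-1) ^ l.length) (tmr lam l φ).LA ∧ PC0 (-(-1) ^ l.length) (tmr lam l φ).LB := by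
  induction l with
  | nil =>
    refine ⟨?_, Or.inr rfl⟩
    show PC ((-1) ^ 0) (!![0, -1; 1, 0] : M2 ℝ)
    refine ⟨by simp, by simp, by simp [Matrix.det_fin_two]⟩
  | cons b l ih =>
    obtain ⟨i1, i2⟩ := ih fun c hc => hl c (List.mem_cons_of_mem _ hc)
    have e1 : ((-1 : ℝ)) ^ (b :: l).length = -(-1) ^ l.length := by
      rw [List.length_cons, pow_succ]
      ring
    have hs : (-(-1 : ℝ) ^ l.length) = 1 ∨ (-(-1 : ℝ) ^ l.length) = -1 := by
      rcases neg_one_pow_eq_or ℝ l.length with h | h <;> rw [h] <;> norm_num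
    rw [e1, neg_neg]
    refine ⟨?_, Or.inl i1⟩
    refine lba_PC hs (tmr_good lam l φ) ?_ i2 b (hl b List.mem_cons_self)
    rw [neg_neg]
    exact i1

theorem tmr_PC_LB (lam : ℝ) (l : List ℕ) (hl : Pos l) (hne : l ≠ []) (φ : ℝ) :
    PC (-(-1) ^ l.length) (tmr lam l φ).LB := by
  cases l with
  | nil => exact absurd rfl hne
  | cons b l =>
    have h := (tmr_PC lam l (fun c hc => hl c (List.mem_cons_of_mem _ hc)) φ).1
    have e1 : -((-1 : ℝ)) ^ (b :: l).length = (-1) ^ l.length := by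
      rw [List.length_cons, pow_succ]
      ring
    rw [e1]
    exact h

/-- node version: the logarithmic derivative of `A B^p` -/
theorem tmr_lab_PC (lam : ℝ) (b : ℕ) (l : List ℕ) (hl : Pos (b :: l)) (φ : ℝ) (p : ℕ)
    (hp : p < b ∨ (p = b ∧ l ≠ [])) :
    PC ((-1) ^ (b :: l).length) (TM.lab p (tmr lam (b :: l) φ)) := by
  have hl' : Pos l := fun c hc => hl c (List.mem_cons_of_mem _ hc)
  have e1 : ((-1 : ℝ)) ^ (b :: l).length = -(-1) ^ l.length := by
    rw [List.length_cons, pow_succ]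
    ring
  have hle : p ≤ b := by
    rcases hp with h | h
    · exact h.le
    · exact h.1.le
  have h1 : TM.lab p (tmr lam (b :: l) φ) = TM.lba (b - p) (tmr lam l φ) :=
    TM.lab_prev b p hle (tmr_good lam l φ)
  rw [h1, e1]
  have hs : (-(-1 : ℝ) ^ l.length) = 1 ∨ (-(-1 : ℝ) ^ l.length) = -1 := by
    rcases neg_one_pow_eq_or ℝ l.length with h | h <;> rw [h] <;> norm_num
  obtain ⟨i1, i2⟩ := tmr_PC lam l hl' φ
  rcases hp with h | ⟨h, hne⟩
  · refine lba_PC hs (tmr_good lam l φ) ?_ i2 (b - p) (by omega)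
    rw [neg_neg]
    exact i1
  · subst h
    have h2 : TM.lba (p - p) (tmr lam l φ) = (tmr lam l φ).LB := by
      unfold TM.lba
      simp
    rw [h2]
    exact tmr_PC_LB lam l hl' hne φ

/-- continuant recursion at the end of the list -/
theorem ee_append (l : List ℕ) (b c c' : ℕ) :
    (ee (l ++ [b, c])).1 = b * (ee (l ++ [c'])).1 + (ee l).1 := by
  have h : (ee (l ++ [b, c])).1 = b * (ee (l ++ [c'])).1 + (ee l).1 ∧
      (ee (l ++ [b, c])).2 = b * (ee (l ++ [c'])).2 + (ee l).2 := by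
    induction l with
    | nil => simp [ee]
    | cons a l ih =>
      obtain ⟨i1, i2⟩ := ih
      refine ⟨?_, i1⟩
      show (ee (l ++ [b, c])).2 + a * (ee (l ++ [b, c])).1 =
        b * ((ee (l ++ [c'])).2 + a * (ee (l ++ [c'])).1) + ((ee l).2 + a * (ee l).1)
      rw [i1, i2]
      ring
  exact h.1

end Sturm
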