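import Pool.Agent.Lib.MP_e5ebf6_mp.HolderInf

/-! Module Closeness: comparison of the distances of two leaves on passages of two levels. -/

open Complex Metric Set
noncomputable section
namespace Sturm

private theorem cl_sd_comm (s t : St ℝ) : sd s t = sd t s := by
  unfold sd
  rw [abs_sub_comm s.1, abs_sub_comm s.2.1, abs_sub_comm s.2.2]

private theorem cl_sd_tri (s t u : St ℝ) : sd s u ≤ sd s t + sd t u := by
  unfold sd
  have h1 := abs_sub_le s.1 t.1 u.1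
  have h2 := abs_sub_le s.2.1 t.2.1 u.2.1
  have h3 := abs_sub_le s.2.2 t.2.2 u.2.2
  linarith

private theorem cl_sd_nonneg (s t : St ℝ) : 0 ≤ sd s t := by
  unfold sd
  positivity

private theorem cl_fst_le (s t : St ℝ) : |s.1 - t.1| ≤ sd s t := by
  unfold sd
  have h2 := abs_nonneg (s.2.1 - t.2.1)
  have h3 := abs_nonneg (s.2.2 - t.2.2)
  linarith

private theorem cl_rpow {q B e e' : ℝ} (hq : 0 ≤ q) (hqB : q ≤ B) (hB : 1 ≤ B) (he' : 0 < e')
    (hee : e' ≤ e) (he : e ≤ 1) : q ^ e ≤ B * q ^ e' := by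
  rcases le_or_gt q 1 with h1 | h1
  · rcases hq.eq_or_lt with h0 | h0
    · rw [← h0, Real.zero_rpow (by linarith), Real.zero_rpow he'.ne']
      simp
    · have h2 : q ^ e ≤ q ^ e' := Real.rpow_le_rpow_of_exponent_ge h0 h1 hee
      have h3 : 0 ≤ q ^ e' := Real.rpow_nonneg hq _
      nlinarith
  · have h0 : 0 < q := by linarith
    have h2 : q ^ e = q ^ (e - e') * q ^ e' := by
      rw [← Real.rpow_add h0]
      ring_nf
    rw [h2]
    have h3 : 0 ≤ q ^ e' := Real.rpow_nonneg hq _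
    have h4 : q ^ (e - e') ≤ B := by
      calc q ^ (e - e') ≤ q ^ (1 : ℝ) :=
            Real.rpow_le_rpow_of_exponent_le h1.le (by linarith)
        _ = q := Real.rpow_one q
        _ ≤ B := hqB
    exact mul_le_mul_of_nonneg_right h4 h3

/-- Lipschitz comparison between two levels (both directions) -/
theorem level_lip {lam : ℝ} (hlam : 0 < lam) (b : ℕ → ℕ) (hb : ∀ k, 1 ≤ b k) (i j : ℕ) :
    ∃ C : ℝ, 1 ≤ C ∧ ∀ M : ℕ, i + j + 1 ≤ M → ∀ φ ψ : ℝ,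
      |TR lam ((lM b M).drop i) φ| < RR lam → |TR lam ((lM b M).drop i) ψ| < RR lam →
        sd (str lam ((lM b M).drop j) φ) (str lam ((lM b M).drop j) ψ) ≤
          C * sd (str lam ((lM b M).drop i) φ) (str lam ((lM b M).drop i) ψ) := by
  rcases le_total i j with hij | hij
  · obtain ⟨C, hC, h⟩ := node_lip hlam (shf i b) (fun k => hb _) (j - i) 0 (hb _)
    refine ⟨C, hC, fun M hM φ ψ h1 h2 => ?_⟩
    have e1 : (lM b M).drop i = lM (shf i b) (M - i) := drop_lM b M i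
    have e2 : ndl (shf i b) (M - i) (j - i) 0 = (lM b M).drop j := by
      rw [ndl_zero _ _ _ (by omega), ← e1, List.drop_drop]
      congr 1
      omega
    have h3 := (h (M - i) (by omega) φ ψ).1
    rw [← e1, e2] at h3
    exact h3 h1 h2
  · obtain ⟨C, hC, h⟩ := node_lip hlam (shf j b) (fun k => hb _) (i - j) 0 (hb _)
    refine ⟨C, hC, fun M hM φ ψ h1 h2 => ?_⟩
    have e1 : (lM b M).drop j = lM (shf j b) (M - j) := drop_lM b M j
    have e2 : ndl (shf j b) (M - j) (i - j) 0 = (lM b M).drop i := by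
      rw [ndl_zero _ _ _ (by omega), ← e1, List.drop_drop]
      congr 1
      omega
    have h3 := (h (M - j) (by omega) φ ψ).2
    rw [← e1, e2] at h3
    exact h3 h1 h2

theorem closeness {lam : ℝ} (hlam : 0 < lam) (b : ℕ → ℕ) (hb : ∀ k, 1 ≤ b k) (i j : ℕ) (ε : ℝ)
    (hε : 0 < ε) (hε1 : ε < 1) :
    ∃ C w : ℝ, 1 ≤ C ∧ 0 < w ∧ ∃ M0 : ℕ, ∀ M : ℕ, M0 ≤ M →
      ∀ g₁ g₂ h₁ h₂ : ℂ → ℂ,
        Passage lam ((lM b M).drop i) g₁ → Passage lam ((lM b M).drop i) g₂ →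
        Passage lam ((lM b M).drop j) h₁ → Passage lam ((lM b M).drop j) h₂ →
      ∀ t₁ t₂ s₁ s₂ : ℝ, |t₁| ≤ 2 → |t₂| ≤ 2 → |s₁| ≤ 2 → |s₂| ≤ 2 →
        gr g₁ t₁ = gr h₁ s₁ → gr g₂ t₂ = gr h₂ s₂ → |t₁ - t₂| ≤ w → |s₁ - s₂| ≤ w →
        qd lam ((lM b M).drop i) g₁ g₂ 2 ≤
          C * qd lam ((lM b M).drop j) h₁ h₂ 2 ^ (1 - ε) := by
  have hR := two_lt_RR hlam
  have hvr : 2 < vr lam := by unfold vr; linarith
  have hvR : vr lam < RR lam := by unfold vr; linarith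
  have hK1 : 1 ≤ K0 lam := by unfold K0; nlinarith
  obtain ⟨Ci, hCi, Mi, hi⟩ := holder_inf hlam (shf i b) (fun k => hb _) (ε / 2)
    (by linarith) (by linarith)
  obtain ⟨Cj, hCj, Mj, hj⟩ := holder_inf hlam (shf j b) (fun k => hb _) (ε / 2)
    (by linarith) (by linarith)
  obtain ⟨D, hD, hDl⟩ := level_lip hlam b hb j i
  obtain ⟨L, hL, hLip⟩ := passage_lip hlam
  set A : ℝ := (D + L * D) * Cj with hA
  have hA1 : 1 ≤ A := by
    rw [hA]
    have h1 : 1 ≤ D + L * D := by nlinarith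
    nlinarith
  have hA0 : 0 < A := by linarith
  refine ⟨Ci * (A * (4 * K0 lam)), (vr lam - 2) / (D * L),
    one_le_mul_of_one_le_of_one_le hCi (one_le_mul_of_one_le_of_one_le hA1 (by linarith)),
    div_pos (by linarith) (by positivity), i + j + 1 + Mi + Mj, ?_⟩
  intro M hM g₁ g₂ h₁ h₂ pg1 pg2 ph1 ph2 t₁ t₂ s₁ s₂ ht1 ht2 hs1 hs2 e1 e2 hw1 hw2
  have posM : Pos (lM b M) := lM_pos hb M
  have posd : ∀ k, Pos ((lM b M).drop k) := fun k c hc => posM c (List.mem_of_mem_drop hc)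
  have hdl := hDl M (by omega)
  set li := (lM b M).drop i with hli
  set lj := (lM b M).drop j with hlj
  have eli : li = lM (shf i b) (M - i) := drop_lM b M i
  have elj : lj = lM (shf j b) (M - j) := drop_lM b M j
  -- real points
  have bR : ∀ {t : ℝ}, |t| ≤ 2 → |t| < RR lam := fun h => lt_of_le_of_lt h hR
  have bv : ∀ {t : ℝ}, |t| ≤ 2 → |t| ≤ vr lam := fun h => h.trans hvr.le
  have Tg1 : TR lam li (gr g₁ t₁) = t₁ := (passage_ofReal li pg1 (bR ht1)).2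
  have Tg2 : TR lam li (gr g₂ t₂) = t₂ := (passage_ofReal li pg2 (bR ht2)).2
  have Th2 : ∀ s : ℝ, |s| ≤ 2 → TR lam lj (gr h₂ s) = s := fun s hs =>
    (passage_ofReal lj ph2 (bR hs)).2
  have Th1 : ∀ s : ℝ, |s| ≤ 2 → TR lam lj (gr h₁ s) = s := fun s hs =>
    (passage_ofReal lj ph1 (bR hs)).2
  -- path along `h₂` from `s₂` to `s₁`
  have hseg : ∀ u ∈ Icc (0 : ℝ) 1, |s₂ + u * (s₁ - s₂)| ≤ 2 := by
    intro u hu
    have h1 : s₂ + u * (s₁ - s₂) = (1 - u) * s₂ + u * s₁ := by ring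
    rw [h1]
    calc |(1 - u) * s₂ + u * s₁| ≤ |(1 - u) * s₂| + |u * s₁| := abs_add_le _ _
      _ = (1 - u) * |s₂| + u * |s₁| := by
          rw [abs_mul, abs_mul, abs_of_nonneg (by linarith [hu.2] : (0:ℝ) ≤ 1 - u),
            abs_of_nonneg hu.1]
      _ ≤ (1 - u) * 2 + u * 2 := by
          have h2 := hu.1
          have h3 := hu.2
          gcongr
      _ = 2 := by ring
  have hnear : ∀ u ∈ Icc (0 : ℝ) 1, |TR lam li (gr h₂ (s₂ + u * (s₁ - s₂)))| ≤ vr lam := by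
    intro u hu
    have h1 := hLip lj (posd j) h₂ ph2 (s₂ + u * (s₁ - s₂)) s₂ (bv (hseg u hu)) (bv hs2)
    have h2 := hdl (gr h₂ (s₂ + u * (s₁ - s₂))) (gr h₂ s₂)
      (by rw [Th2 _ (hseg u hu)]; exact bR (hseg u hu)) (by rw [Th2 _ hs2]; exact bR hs2)
    have h3 := cl_fst_le (str lam li (gr h₂ (s₂ + u * (s₁ - s₂)))) (str lam li (gr h₂ s₂))
    have h4 : |s₂ + u * (s₁ - s₂) - s₂| ≤ (vr lam - 2) / (D * L) := by
      have h5 : s₂ + u * (s₁ - s₂) - s₂ = u * (s₁ - s₂) := by ring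
      rw [h5, abs_mul, abs_of_nonneg hu.1]
      calc u * |s₁ - s₂| ≤ 1 * |s₁ - s₂| := by gcongr; exact hu.2
        _ = |s₁ - s₂| := one_mul _
        _ ≤ _ := hw2
    have h6 : D * (L * |s₂ + u * (s₁ - s₂) - s₂|) ≤ vr lam - 2 := by
      calc D * (L * |s₂ + u * (s₁ - s₂) - s₂|) ≤ D * (L * ((vr lam - 2) / (D * L))) := by gcongr
        _ = vr lam - 2 := by field_simp
    have h7 : |TR lam li (gr h₂ (s₂ + u * (s₁ - s₂))) - t₂| ≤ vr lam - 2 := by
      have h8 : TR lam li (gr h₂ s₂) = t₂ := by rw [← e2]; exact Tg2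
      rw [← h8]
      calc |TR lam li (gr h₂ (s₂ + u * (s₁ - s₂))) - TR lam li (gr h₂ s₂)|
          ≤ sd (str lam li (gr h₂ (s₂ + u * (s₁ - s₂)))) (str lam li (gr h₂ s₂)) := h3
        _ ≤ D * sd (str lam lj (gr h₂ (s₂ + u * (s₁ - s₂)))) (str lam lj (gr h₂ s₂)) := h2
        _ ≤ D * (L * |s₂ + u * (s₁ - s₂) - s₂|) := by gcongr
        _ ≤ vr lam - 2 := h6
    have h9 := abs_sub_abs_le_abs_sub (TR lam li (gr h₂ (s₂ + u * (s₁ - s₂)))) t₂
    linarith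
  have hpath := passage_path hlam li (posd i) pg2 (γ := fun u => gr h₂ (s₂ + u * (s₁ - s₂)))
    (a := 0) (b := 1) zero_le_one
    (by
      have hc := continuousOn_gr hlam lj (posd j) ph2
      refine hc.comp (by fun_prop) ?_
      intro u hu
      exact abs_lt.1 (bR (hseg u hu)))
    (fun u hu => lt_of_le_of_lt (hnear u hu) hvR)
    (by
      have h0 : s₂ + 0 * (s₁ - s₂) = s₂ := by ring
      rw [h0, ← e2, Tg2])
    1 (right_mem_Icc.2 zero_le_one)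
  have h1s : s₂ + 1 * (s₁ - s₂) = s₁ := by ring
  have hn1 := hnear 1 (right_mem_Icc.2 zero_le_one)
  beta_reduce at hpath
  rw [h1s] at hpath hn1
  set ψ := gr h₂ s₁ with hψ
  set t' := TR lam li ψ with ht'
  -- the distance at `s₁`
  set ρ := qd lam lj h₁ h₂ s₁ with hρ
  have hρ0 : 0 ≤ ρ := cl_sd_nonneg _ _
  have hρ1 : sd (str lam li (gr g₁ t₁)) (str lam li ψ) ≤ D * ρ := by
    have h2 := hdl (gr h₁ s₁) ψ (by rw [Th1 _ hs1]; exact bR hs1)
      (by rw [hψ, Th2 _ hs1]; exact bR hs1)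
    rw [e1]
    exact h2
  have ht'1 : |t' - t₁| ≤ D * ρ := by
    have h2 := cl_fst_le (str lam li ψ) (str lam li (gr g₁ t₁))
    have h3 : (str lam li (gr g₁ t₁)).1 = t₁ := Tg1
    rw [h3, cl_sd_comm] at h2
    exact h2.trans hρ1
  have hq1 : qd lam li g₁ g₂ t₁ ≤ (D + L * D) * ρ := by
    have h2 := cl_sd_tri (str lam li (gr g₁ t₁)) (str lam li ψ) (str lam li (gr g₂ t₁))
    have h3 := hLip li (posd i) g₂ pg2 t' t₁ hn1 (bv ht1)
    rw [hpath] at h3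
    have h4 : L * |t' - t₁| ≤ L * (D * ρ) := by gcongr
    unfold qd
    nlinarith
  have hqb : ∀ (l : List ℕ), Pos l → ∀ u v : ℂ → ℂ, Passage lam l u → Passage lam l v →
      qd lam l u v 2 ≤ 4 * K0 lam := by
    intro l hl u v pu pv
    have b2 : |(2:ℝ)| < RR lam := by rw [abs_of_pos (by norm_num)]; exact hR
    obtain ⟨a1, a2, a3⟩ := passage_bound hlam l hl pu b2
    obtain ⟨c1, c2, c3⟩ := passage_bound hlam l hl pv b2
    unfold qd sd
    rw [a1, c1, sub_self, abs_zero]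
    have := abs_sub (str lam l (gr u 2)).2.1 (str lam l (gr v 2)).2.1
    have := abs_sub (str lam l (gr u 2)).2.2 (str lam l (gr v 2)).2.2
    linarith
  set q := qd lam lj h₁ h₂ 2 with hq
  have hq0 : 0 ≤ q := cl_sd_nonneg _ _
  have hqB : q ≤ 4 * K0 lam := hqb lj (posd j) _ _ ph1 ph2
  have hj1 : ρ ≤ Cj * q ^ (1 - ε / 2) := by
    have h2 := hj (M - j) (by omega) h₁ h₂ (by rw [← elj]; exact ph1) (by rw [← elj]; exact ph2)
      2 s₁ (by simp) hs1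
    rw [← elj] at h2
    exact h2
  have hi1 : qd lam li g₁ g₂ 2 ≤ Ci * qd lam li g₁ g₂ t₁ ^ (1 - ε / 2) := by
    have h2 := hi (M - i) (by omega) g₁ g₂ (by rw [← eli]; exact pg1) (by rw [← eli]; exact pg2)
      t₁ 2 ht1 (by simp)
    rw [← eli] at h2
    exact h2
  have he : (0:ℝ) ≤ 1 - ε / 2 := by linarith
  have hq00 : 0 ≤ qd lam li g₁ g₂ t₁ := cl_sd_nonneg _ _
  have h5 : qd lam li g₁ g₂ t₁ ≤ A * q ^ (1 - ε / 2) := by
    calc qd lam li g₁ g₂ t₁ ≤ (D + L * D) * ρ := hq1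
      _ ≤ (D + L * D) * (Cj * q ^ (1 - ε / 2)) := by gcongr
      _ = A * q ^ (1 - ε / 2) := by rw [hA]; ring
  have hqe : 0 ≤ q ^ (1 - ε / 2) := Real.rpow_nonneg hq0 _
  have hex1 : 1 - ε ≤ (1 - ε / 2) * (1 - ε / 2) := by
    have := sq_nonneg ε
    linarith
  have hex2 : (1 - ε / 2) * (1 - ε / 2) ≤ 1 := by
    have h7 := mul_le_of_le_one_left he (show 1 - ε / 2 ≤ 1 by linarith)
    linarith
  have h6 : qd lam li g₁ g₂ t₁ ^ (1 - ε / 2) ≤ A * (4 * K0 lam * q ^ (1 - ε)) := by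
    calc qd lam li g₁ g₂ t₁ ^ (1 - ε / 2) ≤ (A * q ^ (1 - ε / 2)) ^ (1 - ε / 2) :=
          Real.rpow_le_rpow hq00 h5 he
      _ = A ^ (1 - ε / 2) * (q ^ (1 - ε / 2)) ^ (1 - ε / 2) := Real.mul_rpow hA0.le hqe
      _ = A ^ (1 - ε / 2) * q ^ ((1 - ε / 2) * (1 - ε / 2)) := by rw [← Real.rpow_mul hq0]
      _ ≤ A ^ (1 : ℝ) * (4 * K0 lam * q ^ (1 - ε)) := by
          have h7 : A ^ (1 - ε / 2) ≤ A ^ (1 : ℝ) :=
            Real.rpow_le_rpow_of_exponent_le hA1 (by linarith)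
          have h8 : q ^ ((1 - ε / 2) * (1 - ε / 2)) ≤ 4 * K0 lam * q ^ (1 - ε) :=
            cl_rpow hq0 hqB (by linarith) (by linarith) hex1 hex2
          have h9 : 0 ≤ q ^ ((1 - ε / 2) * (1 - ε / 2)) := Real.rpow_nonneg hq0 _
          exact mul_le_mul h7 h8 h9 (by positivity)
      _ = A * (4 * K0 lam * q ^ (1 - ε)) := by rw [Real.rpow_one]
  calc qd lam li g₁ g₂ 2 ≤ Ci * qd lam li g₁ g₂ t₁ ^ (1 - ε / 2) := hi1
    _ ≤ Ci * (A * (4 * K0 lam * q ^ (1 - ε))) := by gcongr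
    _ = Ci * (A * (4 * K0 lam)) * q ^ (1 - ε) := by ring

end Sturm
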