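import Pool.Agent.Lib.MP_e5ebf6_mp.Words

/-! Module Contract: words are strictly contracting for `Im φ > 0`. -/

noncomputable section
namespace Sturm

/-- the Hermitian form `-Im (v₀ conj v₁)` -/
def hq (v : Fin 2 → ℂ) : ℝ := -(v 0 * (starRingEnd ℂ) (v 1)).im

def nsq (v : Fin 2 → ℂ) : ℝ := ‖v 0‖ ^ 2 + ‖v 1‖ ^ 2

private lemma ct_fp (v : Fin 2 → ℂ) : ‖v 0 + Complex.I * v 1‖ ^ 2 = nsq v - 2 * hq v := by
  unfold hq nsq
  simp only [Complex.sq_norm, Complex.normSq_apply]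
  simp
  ring

private lemma ct_fm (v : Fin 2 → ℂ) : ‖v 0 - Complex.I * v 1‖ ^ 2 = nsq v + 2 * hq v := by
  unfold hq nsq
  simp only [Complex.sq_norm, Complex.normSq_apply]
  simp
  ring

private lemma ct_nsq_nonneg (v : Fin 2 → ℂ) : 0 ≤ nsq v := by
  unfold nsq; positivity

/-- the rotated vector -/
private def ct_rot (φ : ℂ) (v : Fin 2 → ℂ) : Fin 2 → ℂ :=
  ![Complex.cos φ * v 0 - Complex.sin φ * v 1, Complex.sin φ * v 0 + Complex.cos φ * v 1]

private lemma ct_rot_p (φ : ℂ) (v : Fin 2 → ℂ) :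
    ct_rot φ v 0 + Complex.I * ct_rot φ v 1 =
      Complex.exp (φ * Complex.I) * (v 0 + Complex.I * v 1) := by
  rw [Complex.exp_mul_I]
  simp only [ct_rot, Matrix.cons_val_zero, Matrix.cons_val_one]
  linear_combination (-(Complex.sin φ * v 1)) * Complex.I_mul_I

private lemma ct_rot_m (φ : ℂ) (v : Fin 2 → ℂ) :
    ct_rot φ v 0 - Complex.I * ct_rot φ v 1 =
      Complex.exp (-φ * Complex.I) * (v 0 - Complex.I * v 1) := by
  rw [Complex.exp_mul_I, Complex.cos_neg, Complex.sin_neg]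
  simp only [ct_rot, Matrix.cons_val_zero, Matrix.cons_val_one]
  linear_combination (-(Complex.sin φ * v 1)) * Complex.I_mul_I

private lemma ct_norm_exp (φ : ℂ) : ‖Complex.exp (φ * Complex.I)‖ ^ 2 = Real.exp (-(2 * φ.im)) := by
  rw [Complex.norm_exp, ← Real.exp_nat_mul]
  congr 1
  simp

private lemma ct_rot_vals (φ : ℂ) (v : Fin 2 → ℂ) :
    nsq (ct_rot φ v) - 2 * hq (ct_rot φ v) = Real.exp (-(2 * φ.im)) * (nsq v - 2 * hq v) ∧
    nsq (ct_rot φ v) + 2 * hq (ct_rot φ v) = Real.exp (2 * φ.im) * (nsq v + 2 * hq v) := by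
  constructor
  · rw [← ct_fp, ← ct_fp, ct_rot_p, norm_mul, mul_pow, ct_norm_exp]
  · rw [← ct_fm, ← ct_fm, ct_rot_m, norm_mul, mul_pow, ct_norm_exp]
    simp

private lemma ct_rot_hq (φ : ℂ) (v : Fin 2 → ℂ) :
    hq (ct_rot φ v) = Real.cosh (2 * φ.im) * hq v + Real.sinh (2 * φ.im) / 2 * nsq v := by
  obtain ⟨h1, h2⟩ := ct_rot_vals φ v
  rw [Real.cosh_eq, Real.sinh_eq]
  linear_combination (h2 - h1) / 4

private lemma ct_rot_nsq (φ : ℂ) (hφ : 0 < φ.im) (v : Fin 2 → ℂ) :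
    Real.exp (-(2 * φ.im)) * nsq v ≤ nsq (ct_rot φ v) := by
  obtain ⟨h1, h2⟩ := ct_rot_vals φ v
  have h3 : 0 ≤ nsq v + 2 * hq v := by rw [← ct_fm]; positivity
  have h4 : Real.exp (-(2 * φ.im)) ≤ Real.exp (2 * φ.im) := Real.exp_le_exp.mpr (by linarith)
  nlinarith [mul_le_mul_of_nonneg_right h4 h3]

private lemma ct_rr (lam : ℝ) : (RR lam + lam) / 2 * ((RR lam - lam) / 2) = 1 := by
  have := RR_sq lam
  linear_combination this / 4

private lemma ct_true (lam : ℝ) (φ : ℂ) (v : Fin 2 → ℂ) :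
    (Lt lam φ true).mulVec v = ![(((RR lam + lam) / 2 : ℝ) : ℂ) * ct_rot φ v 0,
      (((RR lam - lam) / 2 : ℝ) : ℂ) * ct_rot φ v 1] := by
  ext i
  fin_cases i
  · simp [Lt, Matrix.mulVec, dotProduct, Fin.sum_univ_two, ct_rot]
    ring
  · simp [Lt, Matrix.mulVec, dotProduct, Fin.sum_univ_two, ct_rot]
    ring

private lemma ct_true_hq (lam : ℝ) (φ : ℂ) (v : Fin 2 → ℂ) :
    hq ((Lt lam φ true).mulVec v) =
      Real.cosh (2 * φ.im) * hq v + Real.sinh (2 * φ.im) / 2 * nsq v := by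
  rw [← ct_rot_hq, ct_true]
  generalize ct_rot φ v = u
  have h := ct_rr lam
  generalize (RR lam + lam) / 2 = a at *
  generalize (RR lam - lam) / 2 = b at *
  unfold hq
  simp
  linear_combination (u 0).re * (u 1).im * h - (u 0).im * (u 1).re * h

private lemma ct_true_nsq (lam : ℝ) (φ : ℂ) (hφ : 0 < φ.im) :
    ∃ m : ℝ, 0 < m ∧ ∀ v, m * nsq v ≤ nsq ((Lt lam φ true).mulVec v) := by
  have h := ct_rr lam
  have h1 : (RR lam + lam) / 2 ≠ 0 := left_ne_zero_of_mul (by rw [h]; exact one_ne_zero)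
  have h2 : (RR lam - lam) / 2 ≠ 0 := right_ne_zero_of_mul (by rw [h]; exact one_ne_zero)
  refine ⟨min (((RR lam + lam) / 2) ^ 2) (((RR lam - lam) / 2) ^ 2) * Real.exp (-(2 * φ.im)),
    mul_pos (lt_min (by positivity) (by positivity)) (Real.exp_pos _), fun v => ?_⟩
  have h3 := ct_rot_nsq φ hφ v
  rw [ct_true]
  generalize ct_rot φ v = u at *
  have h4 : nsq ![(((RR lam + lam) / 2 : ℝ) : ℂ) * u 0, (((RR lam - lam) / 2 : ℝ) : ℂ) * u 1] =
      ((RR lam + lam) / 2) ^ 2 * ‖u 0‖ ^ 2 + ((RR lam - lam) / 2) ^ 2 * ‖u 1‖ ^ 2 := by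
    unfold nsq
    simp only [Matrix.cons_val_zero, Matrix.cons_val_one, norm_mul, Complex.norm_real, mul_pow,
      Real.norm_eq_abs, sq_abs]
  rw [h4, mul_assoc]
  have h5 : 0 ≤ min (((RR lam + lam) / 2) ^ 2) (((RR lam - lam) / 2) ^ 2) := by positivity
  calc _ ≤ min (((RR lam + lam) / 2) ^ 2) (((RR lam - lam) / 2) ^ 2) * nsq u :=
        mul_le_mul_of_nonneg_left h3 h5
    _ = min (((RR lam + lam) / 2) ^ 2) (((RR lam - lam) / 2) ^ 2) * ‖u 0‖ ^ 2 +
        min (((RR lam + lam) / 2) ^ 2) (((RR lam - lam) / 2) ^ 2) * ‖u 1‖ ^ 2 := by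
          unfold nsq; ring
    _ ≤ _ := by
      gcongr
      · exact min_le_left _ _
      · exact min_le_right _ _

private lemma ct_false (lam : ℝ) (φ : ℂ) (v : Fin 2 → ℂ) :
    hq ((Lt lam φ false).mulVec v) = hq v ∧ nsq ((Lt lam φ false).mulVec v) = nsq v := by
  have h : (Lt lam φ false).mulVec v = ![v 1, - v 0] := by
    ext i
    fin_cases i
    · simp [Lt, Matrix.mulVec, dotProduct, Fin.sum_univ_two]
    · simp [Lt, Matrix.mulVec, dotProduct, Fin.sum_univ_two]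
  rw [h]
  constructor
  · unfold hq
    simp
    ring
  · unfold nsq
    simp
    ring

private lemma ct_ind (lam : ℝ) (φ : ℂ) (hφ : 0 < φ.im) (w : List Bool) :
    ∃ C c m : ℝ, 1 ≤ C ∧ 0 ≤ c ∧ 0 < m ∧ (true ∈ w → Real.cosh (2 * φ.im) ≤ C ∧ 0 < c) ∧
      (∀ v : Fin 2 → ℂ, C * hq v + c * nsq v ≤ hq ((wpr lam φ w).mulVec v)) ∧
      ∀ v : Fin 2 → ℂ, m * nsq v ≤ nsq ((wpr lam φ w).mulVec v) := by
  induction w with
  | nil =>
    refine ⟨1, 0, 1, le_refl _, le_refl _, one_pos, by simp, fun v => ?_, fun v => ?_⟩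
    · simp [wpr]
    · simp [wpr]
  | cons a w ih =>
    obtain ⟨C, c, m, hC, hc, hm, hw, h1, h2⟩ := ih
    have hmv : ∀ v, (wpr lam φ (a :: w)).mulVec v = (Lt lam φ a).mulVec ((wpr lam φ w).mulVec v) := by
      intro v
      rw [Matrix.mulVec_mulVec, wpr, wpr, List.map_cons, List.prod_cons]
    cases a with
    | false =>
      refine ⟨C, c, m, hC, hc, hm, ?_, fun v => ?_, fun v => ?_⟩
      · intro h
        exact hw (by simpa using h)
      · rw [hmv, (ct_false lam φ _).1]; exact h1 v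
      · rw [hmv, (ct_false lam φ _).2]; exact h2 v
    | true =>
      obtain ⟨μ, hμ, hμ2⟩ := ct_true_nsq lam φ hφ
      have hch : 1 ≤ Real.cosh (2 * φ.im) := Real.one_le_cosh _
      have hsh : 0 < Real.sinh (2 * φ.im) := Real.sinh_pos_iff.mpr (by linarith)
      refine ⟨Real.cosh (2 * φ.im) * C, Real.cosh (2 * φ.im) * c + Real.sinh (2 * φ.im) / 2 * m,
        μ * m, ?_, by positivity, by positivity, ?_, fun v => ?_, fun v => ?_⟩
      · nlinarith
      · intro _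
        refine ⟨by nlinarith, by positivity⟩
      · rw [hmv, ct_true_hq]
        have h3 := mul_le_mul_of_nonneg_left (h1 v) (by linarith : (0:ℝ) ≤ Real.cosh (2 * φ.im))
        have h4 := mul_le_mul_of_nonneg_left (h2 v) (by linarith : (0:ℝ) ≤ Real.sinh (2 * φ.im) / 2)
        linarith
      · rw [hmv, mul_assoc]
        exact le_trans (mul_le_mul_of_nonneg_left (h2 v) hμ.le) (hμ2 _)

theorem wpr_contract (lam : ℝ) (φ : ℂ) (hφ : 0 < φ.im) (w : List Bool) (hw : true ∈ w) :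
    ∃ C c : ℝ, Real.cosh (2 * φ.im) ≤ C ∧ 0 < c ∧
      ∀ v : Fin 2 → ℂ, C * hq v + c * nsq v ≤ hq ((wpr lam φ w).mulVec v) := by
  obtain ⟨C, c, m, _, _, _, h, h1, _⟩ := ct_ind lam φ hφ w
  exact ⟨C, c, (h hw).1, (h hw).2, h1⟩

private lemma ct_nsq_pos {v : Fin 2 → ℂ} (hv : v ≠ 0) : 0 < nsq v := by
  unfold nsq
  by_cases h0 : v 0 = 0
  · have h1 : v 1 ≠ 0 := by
      intro h1
      apply hv
      ext i
      fin_cases i
      · exact h0
      · exact h1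
    have : 0 < ‖v 1‖ := norm_pos_iff.mpr h1
    positivity
  · have : 0 < ‖v 0‖ := norm_pos_iff.mpr h0
    positivity

private lemma ct_hq_smul (a : ℂ) (v : Fin 2 → ℂ) : hq (a • v) = ‖a‖ ^ 2 * hq v := by
  unfold hq
  simp only [Complex.sq_norm, Complex.normSq_apply]
  simp
  ring

/-- the dominant eigenvalue satisfies `C ≤ |Λ|²` -/
theorem contract_eig {W : M2 ℂ} (hW : W.det = 1) {C c : ℝ} (hC : 1 < C) (hc : 0 < c)
    (h : ∀ v : Fin 2 → ℂ, C * hq v + c * nsq v ≤ hq (W.mulVec v)) {Λ : ℂ} (hΛ : 1 ≤ ‖Λ‖)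
    (ht : W.trace = Λ + Λ⁻¹) : C ≤ ‖Λ‖ ^ 2 := by
  by_contra hlt
  push Not at hlt
  have hΛ0 : Λ ≠ 0 := by
    intro h0
    rw [h0, norm_zero] at hΛ
    linarith
  -- eigenvector
  have hdet : (W - Λ • (1 : M2 ℂ)).det = 0 := by
    rw [Matrix.det_fin_two] at hW ⊢
    rw [Matrix.trace_fin_two] at ht
    simp only [Matrix.sub_apply, Matrix.smul_apply, Matrix.one_apply, smul_eq_mul]
    simp
    have h1 : Λ * Λ⁻¹ = 1 := mul_inv_cancel₀ hΛ0
    linear_combination hW - Λ * ht - h1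
  obtain ⟨v, hv0, hv⟩ := Matrix.exists_mulVec_eq_zero_iff.mpr hdet
  have hWv : W.mulVec v = Λ • v := by
    rw [Matrix.sub_mulVec, Matrix.smul_mulVec, Matrix.one_mulVec, sub_eq_zero] at hv
    exact hv
  have hn := ct_nsq_pos hv0
  have ha : hq v < 0 := by
    have h1 := h v
    rw [hWv, ct_hq_smul] at h1
    by_contra hcon
    push Not at hcon
    nlinarith [mul_pos hc hn]
  -- the conjugate vector
  set u : Fin 2 → ℂ := ![(starRingEnd ℂ) (v 0), (starRingEnd ℂ) (v 1)] with hu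
  have hδ : v 0 * (starRingEnd ℂ) (v 1) - v 1 * (starRingEnd ℂ) (v 0) ≠ 0 := by
    intro h0
    have h1 := congrArg Complex.im h0
    simp at h1
    unfold hq at ha
    simp at ha
    linarith
  set δ : ℂ := v 0 * (starRingEnd ℂ) (v 1) - v 1 * (starRingEnd ℂ) (v 0) with hδdef
  -- decomposition of `W u`
  have hW0 : W 0 0 * v 0 + W 0 1 * v 1 = Λ * v 0 := by
    have := congrFun hWv 0
    simpa [Matrix.mulVec, dotProduct, Fin.sum_univ_two] using this
  have hW1 : W 1 0 * v 0 + W 1 1 * v 1 = Λ * v 1 := by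
    have := congrFun hWv 1
    simpa [Matrix.mulVec, dotProduct, Fin.sum_univ_two] using this
  have hWd : W 0 0 * W 1 1 - W 0 1 * W 1 0 = 1 := by
    rw [Matrix.det_fin_two] at hW; exact hW
  obtain ⟨τ, hτ⟩ : ∃ τ : ℂ, W.mulVec u = Λ⁻¹ • u + τ • v := by
    obtain ⟨x, hx⟩ : ∃ x, x = (starRingEnd ℂ) (v 0) := ⟨_, rfl⟩
    obtain ⟨y, hy⟩ : ∃ y, y = (starRingEnd ℂ) (v 1) := ⟨_, rfl⟩
    rw [← hx, ← hy] at hδdef hu
    obtain ⟨P, hP⟩ : ∃ P, P = W 0 0 * x + W 0 1 * y := ⟨_, rfl⟩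
    obtain ⟨Q, hQ⟩ : ∃ Q, Q = W 1 0 * x + W 1 1 * y := ⟨_, rfl⟩
    have hk0 : Λ * (Q * v 0 - P * v 1) = δ := by
      rw [hP, hQ, hδdef]
      linear_combination (-(W 1 0 * x + W 1 1 * y)) * hW0 + (W 0 0 * x + W 0 1 * y) * hW1 +
        (v 0 * y - v 1 * x) * hWd
    have hk : Q * v 0 - P * v 1 = Λ⁻¹ * δ := by
      rw [← hk0, inv_mul_cancel_left₀ hΛ0]
    obtain ⟨τ, hτδ⟩ : ∃ τ, τ * δ = P * y - Q * x := ⟨(P * y - Q * x) / δ, div_mul_cancel₀ _ hδ⟩
    refine ⟨τ, ?_⟩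
    ext i
    fin_cases i
    · simp only [Matrix.mulVec, dotProduct, Fin.sum_univ_two, hu, Pi.add_apply, Pi.smul_apply,
        smul_eq_mul, Matrix.cons_val_zero, Matrix.cons_val_one, Fin.zero_eta]
      rw [← hP]
      apply mul_right_cancel₀ hδ
      rw [hδdef] at hk hτδ ⊢
      linear_combination x * hk - v 0 * hτδ
    · simp only [Matrix.mulVec, dotProduct, Fin.sum_univ_two, hu, Pi.add_apply, Pi.smul_apply,
        smul_eq_mul, Matrix.cons_val_zero, Matrix.cons_val_one, Fin.mk_one]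
      rw [← hQ]
      apply mul_right_cancel₀ hδ
      rw [hδdef] at hk hτδ ⊢
      linear_combination y * hk - v 1 * hτδ
  have hq2 : hq (W.mulVec u) = (‖τ‖ ^ 2 - ‖Λ⁻¹‖ ^ 2) * hq v := by
    rw [hτ]
    unfold hq
    simp only [Complex.sq_norm, Complex.normSq_apply]
    simp [hu]
    ring
  have hqu : hq u = - hq v := by
    unfold hq
    simp [hu]
    ring
  have hnu : nsq u = nsq v := by
    unfold nsq
    simp [hu]
  have h2 := h u
  rw [hq2, hqu, hnu] at h2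
  have h3 : ‖Λ⁻¹‖ ^ 2 ≤ 1 := by
    rw [norm_inv]
    have : ‖Λ‖⁻¹ ≤ 1 := inv_le_one_of_one_le₀ hΛ
    have h0 : 0 ≤ ‖Λ‖⁻¹ := by positivity
    nlinarith
  nlinarith [mul_pos hc hn, sq_nonneg ‖τ‖]

/-- every complex number is `Λ + Λ⁻¹` with `1 ≤ |Λ|` -/
private lemma ct_exists_eig (t : ℂ) : ∃ Λ : ℂ, 1 ≤ ‖Λ‖ ∧ t = Λ + Λ⁻¹ := by
  obtain ⟨s, hs⟩ := IsAlgClosed.exists_pow_nat_eq (t ^ 2 - 4) (n := 2) (by norm_num)
  set x := (t + s) / 2 with hx
  have h1 : x * (t - x) = 1 := by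
    rw [hx]
    linear_combination (-1 / 4) * hs
  have hx0 : x ≠ 0 := left_ne_zero_of_mul (by rw [h1]; exact one_ne_zero)
  have hinv : x⁻¹ = t - x := by
    exact (eq_inv_of_mul_eq_one_right h1).symm
  by_cases hn : 1 ≤ ‖x‖
  · exact ⟨x, hn, by rw [hinv]; ring⟩
  · refine ⟨x⁻¹, ?_, by rw [inv_inv, hinv]; ring⟩
    rw [norm_inv]
    push Not at hn
    exact one_le_inv₀ (norm_pos_iff.mpr hx0) |>.mpr hn.le

/-- growth lemma: consequences of strict contraction for the trace -/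
theorem contract_trace {W : M2 ℂ} (hW : W.det = 1) {C c : ℝ} (hC : 1 < C) (hc : 0 < c)
    (h : ∀ v : Fin 2 → ℂ, C * hq v + c * nsq v ≤ hq (W.mulVec v)) :
    (∀ t : ℝ, |t| ≤ 2 → W.trace ≠ t) ∧ Real.sqrt C - 1 ≤ ‖W.trace‖ := by
  obtain ⟨Λ, hΛ, ht⟩ := ct_exists_eig W.trace
  have hCΛ := contract_eig hW hC hc h hΛ ht
  have hΛ1 : 1 < ‖Λ‖ := by
    by_contra hcon
    push Not at hcon
    nlinarith [norm_nonneg Λ]
  constructor
  · intro t ht2 heq
    rw [ht] at heq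
    -- `Λ` is real
    have hns : 1 < Complex.normSq Λ := by
      rw [← Complex.sq_norm]; nlinarith
    have him := congrArg Complex.im heq
    have hre := congrArg Complex.re heq
    simp only [Complex.add_im, Complex.inv_im, Complex.ofReal_im, Complex.add_re, Complex.inv_re,
      Complex.ofReal_re] at him hre
    have hΛim : Λ.im = 0 := by
      have h1 : Λ.im * (Complex.normSq Λ - 1) = 0 := by
        field_simp at him
        linarith
      rcases mul_eq_zero.mp h1 with h2 | h2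
      · exact h2
      · linarith
    have hns2 : Complex.normSq Λ = Λ.re * Λ.re := by
      rw [Complex.normSq_apply, hΛim]; ring
    have hre0 : Λ.re ≠ 0 := by
      intro h0
      rw [hns2, h0] at hns
      norm_num at hns
    rw [hns2] at hre hns
    have h3 : t * Λ.re = Λ.re ^ 2 + 1 := by
      rw [← hre]
      field_simp
    have h4 := abs_le.mp ht2
    have h5 : t ^ 2 ≤ 4 := by nlinarith [h4.1, h4.2]
    have h6 : (Λ.re ^ 2 + 1) ^ 2 ≤ 4 * Λ.re ^ 2 := by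
      rw [← h3]
      nlinarith [mul_le_mul_of_nonneg_right h5 (sq_nonneg Λ.re)]
    have h7 : 0 < (Λ.re ^ 2 - 1) ^ 2 := by
      have : 0 < Λ.re ^ 2 - 1 := by nlinarith
      positivity
    nlinarith
  · have h1 : ‖Λ‖ ≤ ‖W.trace‖ + 1 := by
      have h2 : Λ = W.trace - Λ⁻¹ := by rw [ht]; ring
      have h3 : ‖Λ⁻¹‖ ≤ 1 := by
        rw [norm_inv]
        exact inv_le_one_of_one_le₀ hΛ
      calc ‖Λ‖ = ‖W.trace - Λ⁻¹‖ := by rw [← h2]
        _ ≤ ‖W.trace‖ + ‖Λ⁻¹‖ := norm_sub_le _ _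
        _ ≤ _ := by linarith
    have h2 : Real.sqrt C ≤ ‖Λ‖ := by
      rw [← Real.sqrt_sq (norm_nonneg Λ)]
      exact Real.sqrt_le_sqrt hCΛ
    linarith

end Sturm
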