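import Pool.Agent.Lib.MP_e5ebf6_mp.Defs

/-! Module StateAlg: elementary algebra of the state maps. -/

noncomputable section
namespace Sturm

section
variable {K : Type*} [CommRing K]

theorem uu_bwd1 (b p : ℕ) (hp : p ≤ b + 1) (s : St K) : uu (bwd1 b s) p = ww s (b + 1 - p) := by
  induction p using Nat.strong_induction_on with
  | _ p ih =>
    match p, ih, hp with
    | 0, _, _ => rfl
    | 1, _, _ => rfl
    | p + 2, ih, hp =>
      have h0 := ih p (by omega) (by omega)
      have h1 := ih (p + 1) (by omega) (by omega)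
      have h2 : uu (bwd1 b s) (p + 2) = s.1 * uu (bwd1 b s) (p + 1) - uu (bwd1 b s) p := rfl
      rw [h2, h0, h1]
      obtain ⟨q, hq⟩ : ∃ q, b + 1 = p + 2 + q := ⟨b + 1 - (p + 2), by omega⟩
      rw [hq, show p + 2 + q - (p + 1) = q + 1 by omega, show p + 2 + q - p = q + 2 by omega,
        show p + 2 + q - (p + 2) = q by omega]
      have h3 : ww s (q + 2) = s.1 * ww s (q + 1) - ww s q := rfl
      rw [h3]
      ring

private theorem ww_fwd1 (b p : ℕ) (hp : p ≤ b + 1) (s : St K) :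
    ww (fwd1 b s) p = uu s (b + 1 - p) := by
  induction p using Nat.strong_induction_on with
  | _ p ih =>
    match p, ih, hp with
    | 0, _, _ => rfl
    | 1, _, _ => rfl
    | p + 2, ih, hp =>
      have h0 := ih p (by omega) (by omega)
      have h1 := ih (p + 1) (by omega) (by omega)
      have h2 : ww (fwd1 b s) (p + 2) = s.2.1 * ww (fwd1 b s) (p + 1) - ww (fwd1 b s) p := rfl
      rw [h2, h0, h1]
      obtain ⟨q, hq⟩ : ∃ q, b + 1 = p + 2 + q := ⟨b + 1 - (p + 2), by omega⟩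
      rw [hq, show p + 2 + q - (p + 1) = q + 1 by omega, show p + 2 + q - p = q + 2 by omega,
        show p + 2 + q - (p + 2) = q by omega]
      have h3 : uu s (q + 2) = s.2.1 * uu s (q + 1) - uu s q := rfl
      rw [h3]
      ring

theorem fwd1_bwd1 (b : ℕ) (s : St K) : fwd1 b (bwd1 b s) = s := by
  have h1 := uu_bwd1 b b (by omega) s
  have h2 := uu_bwd1 b (b + 1) le_rfl s
  rw [show b + 1 - b = 1 by omega] at h1
  rw [Nat.sub_self] at h2
  show ((bwd1 b s).2.1, uu (bwd1 b s) b, uu (bwd1 b s) (b + 1)) = s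
  rw [h1, h2]
  rfl

theorem bwd1_fwd1 (b : ℕ) (s : St K) : bwd1 b (fwd1 b s) = s := by
  have h1 := ww_fwd1 b b (by omega) s
  have h2 := ww_fwd1 b (b + 1) le_rfl s
  rw [show b + 1 - b = 1 by omega] at h1
  rw [Nat.sub_self] at h2
  show (ww (fwd1 b s) (b + 1), (fwd1 b s).1, ww (fwd1 b s) b) = s
  rw [h1, h2]
  rfl

/-- the surface is preserved along the chain `uu` -/
private theorem kap_node' (s : St K) (p : ℕ) :
    uu s p ^ 2 + s.2.1 ^ 2 + uu s (p + 1) ^ 2 - uu s p * s.2.1 * uu s (p + 1) = kap s := by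
  induction p with
  | zero => rfl
  | succ p ih =>
    have h : uu s (p + 1 + 1) = s.2.1 * uu s (p + 1) - uu s p := rfl
    rw [h, ← ih]
    ring

theorem kap_fwd1 (b : ℕ) (s : St K) : kap (fwd1 b s) = kap s := by
  rw [← kap_node' s b]
  show s.2.1 ^ 2 + uu s b ^ 2 + uu s (b + 1) ^ 2 - s.2.1 * uu s b * uu s (b + 1) = _
  ring

theorem kap_bwd1 (b : ℕ) (s : St K) : kap (bwd1 b s) = kap s := by
  rw [← kap_fwd1 b (bwd1 b s), fwd1_bwd1]

theorem kap_fwd (l : List ℕ) (s : St K) : kap (fwd l s) = kap s := by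
  induction l generalizing s with
  | nil => rfl
  | cons b l ih => exact (ih (fwd1 b s)).trans (kap_fwd1 b s)

theorem kap_bwd (l : List ℕ) (s : St K) : kap (bwd l s) = kap s := by
  induction l with
  | nil => rfl
  | cons b l ih => exact (kap_bwd1 b (bwd l s)).trans ih

theorem fwd_bwd (l : List ℕ) (s : St K) : fwd l (bwd l s) = s := by
  induction l with
  | nil => rfl
  | cons b l ih =>
    show fwd l (fwd1 b (bwd1 b (bwd l s))) = s
    rw [fwd1_bwd1, ih]

theorem bwd_fwd (l : List ℕ) (s : St K) : bwd l (fwd l s) = s := by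
  induction l generalizing s with
  | nil => rfl
  | cons b l ih =>
    show bwd1 b (bwd l (fwd l (fwd1 b s))) = s
    rw [ih, bwd1_fwd1]

/-- the surface is preserved along the chain `uu` -/
theorem kap_node (s : St K) (p : ℕ) : kap ((uu s p, s.2.1, uu s (p + 1)) : St K) = kap s :=
  kap_node' s p

theorem fwd_append (l m : List ℕ) (s : St K) : fwd (l ++ m) s = fwd m (fwd l s) := by
  induction l generalizing s with
  | nil => rfl
  | cons b l ih => exact ih (fwd1 b s)

theorem bwd_append (l m : List ℕ) (s : St K) : bwd (l ++ m) s = bwd l (bwd m s) := by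
  induction l with
  | nil => rfl
  | cons b l ih =>
    show bwd1 b (bwd (l ++ m) s) = bwd1 b (bwd l (bwd m s))
    rw [ih]

end

theorem RR_sq (lam : ℝ) : RR lam ^ 2 = 4 + lam ^ 2 :=
  Real.sq_sqrt (by positivity)

private theorem RR_pos (lam : ℝ) : 0 < RR lam := Real.sqrt_pos.2 (by positivity)

theorem two_lt_RR {lam : ℝ} (h : 0 < lam) : 2 < RR lam := by
  apply Real.lt_sqrt_of_sq_lt
  have : 0 < lam ^ 2 := by positivity
  linarith

private theorem kap_topC (lam : ℝ) (φ : ℂ) : kap (topC lam φ) = 4 + (lam : ℂ) ^ 2 := by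
  have h1 : ((RR lam : ℂ)) ^ 2 = 4 + (lam : ℂ) ^ 2 := by
    have := congrArg (fun r : ℝ => (r : ℂ)) (RR_sq lam)
    push_cast at this
    exact this
  have h2 := Complex.sin_sq_add_cos_sq φ
  show ((RR lam : ℂ) * Complex.cos φ) ^ 2 + (0 : ℂ) ^ 2 + (-((RR lam : ℂ) * Complex.sin φ)) ^ 2 -
    ((RR lam : ℂ) * Complex.cos φ) * 0 * (-((RR lam : ℂ) * Complex.sin φ)) = _
  linear_combination (RR lam : ℂ) ^ 2 * h2 + h1

private theorem kap_topR (lam φ : ℝ) : kap (topR lam φ) = 4 + lam ^ 2 := by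
  have h1 := RR_sq lam
  have h2 := Real.sin_sq_add_cos_sq φ
  show (RR lam * Real.cos φ) ^ 2 + (0 : ℝ) ^ 2 + (-(RR lam * Real.sin φ)) ^ 2 -
    (RR lam * Real.cos φ) * 0 * (-(RR lam * Real.sin φ)) = _
  linear_combination RR lam ^ 2 * h2 + h1

theorem kap_st (lam : ℝ) (l : List ℕ) (φ : ℂ) : kap (st lam l φ) = 4 + (lam : ℂ) ^ 2 :=
  (kap_bwd l _).trans (kap_topC lam φ)

theorem kap_str (lam : ℝ) (l : List ℕ) (φ : ℝ) : kap (str lam l φ) = 4 + lam ^ 2 :=
  (kap_bwd l _).trans (kap_topR lam φ)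

theorem st_cons (lam : ℝ) (b : ℕ) (l : List ℕ) (φ : ℂ) :
    st lam (b :: l) φ = bwd1 b (st lam l φ) := rfl

theorem str_cons (lam : ℝ) (b : ℕ) (l : List ℕ) (φ : ℝ) :
    str lam (b :: l) φ = bwd1 b (str lam l φ) := rfl

theorem fwd1_st (lam : ℝ) (b : ℕ) (l : List ℕ) (φ : ℂ) :
    fwd1 b (st lam (b :: l) φ) = st lam l φ := by
  rw [st_cons, fwd1_bwd1]

theorem fwd1_str (lam : ℝ) (b : ℕ) (l : List ℕ) (φ : ℝ) :
    fwd1 b (str lam (b :: l) φ) = str lam l φ := by
  rw [str_cons, fwd1_bwd1]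

/-- levels: the state at level `j` is obtained by `j` forward moves -/
theorem fwd_take_str (lam : ℝ) (l : List ℕ) (j : ℕ) (φ : ℝ) :
    fwd (l.take j) (str lam l φ) = str lam (l.drop j) φ := by
  induction l generalizing j with
  | nil => simp [fwd]
  | cons b l ih =>
    cases j with
    | zero => rfl
    | succ j =>
      rw [List.take_succ_cons, List.drop_succ_cons, ← ih j]
      show fwd (l.take j) (fwd1 b (str lam (b :: l) φ)) = _
      rw [fwd1_str]

theorem fwd_take_st (lam : ℝ) (l : List ℕ) (j : ℕ) (φ : ℂ) :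
    fwd (l.take j) (st lam l φ) = st lam (l.drop j) φ := by
  induction l generalizing j with
  | nil => simp [fwd]
  | cons b l ih =>
    cases j with
    | zero => rfl
    | succ j =>
      rw [List.take_succ_cons, List.drop_succ_cons, ← ih j]
      show fwd (l.take j) (fwd1 b (st lam (b :: l) φ)) = _
      rw [fwd1_st]

theorem fwd_str (lam : ℝ) (l : List ℕ) (φ : ℝ) : fwd l (str lam l φ) = topR lam φ :=
  fwd_bwd l _

/-- naturality -/
private theorem ww_map {K L : Type*} [CommRing K] [CommRing L] (f : K →+* L) (s : St K) (p : ℕ) :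
    ww ((f s.1, f s.2.1, f s.2.2) : St L) p = f (ww s p) := by
  induction p using Nat.strong_induction_on with
  | _ p ih =>
    match p, ih with
    | 0, _ => rfl
    | 1, _ => rfl
    | p + 2, ih =>
      have h0 := ih p (by omega)
      have h1 := ih (p + 1) (by omega)
      have h2 : ww s (p + 2) = s.1 * ww s (p + 1) - ww s p := rfl
      rw [h2, map_sub, map_mul, ← h0, ← h1]
      rfl

private theorem bwd_map {K L : Type*} [CommRing K] [CommRing L] (f : K →+* L) (l : List ℕ)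
    (s : St K) : bwd l ((f s.1, f s.2.1, f s.2.2) : St L) =
      (f (bwd l s).1, f (bwd l s).2.1, f (bwd l s).2.2) := by
  induction l with
  | nil => rfl
  | cons b l ih =>
    show bwd1 b (bwd l _) = _
    rw [ih]
    show (ww _ (b + 1), f (bwd l s).1, ww _ b) = _
    rw [ww_map, ww_map]
    rfl

/-- real points -/
theorem st_ofReal (lam : ℝ) (l : List ℕ) (φ : ℝ) :
    st lam l (φ : ℂ) = (((str lam l φ).1 : ℂ), ((str lam l φ).2.1 : ℂ), ((str lam l φ).2.2 : ℂ)) := by
  have h := bwd_map Complex.ofRealHom l (topR lam φ)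
  have h1 : topC lam (φ : ℂ) = ((Complex.ofRealHom (topR lam φ).1,
      Complex.ofRealHom (topR lam φ).2.1, Complex.ofRealHom (topR lam φ).2.2) : St ℂ) := by
    show (((RR lam : ℂ) * Complex.cos φ, 0, -((RR lam : ℂ) * Complex.sin φ)) : St ℂ) =
      (((RR lam * Real.cos φ : ℝ) : ℂ), ((0 : ℝ) : ℂ), ((-(RR lam * Real.sin φ) : ℝ) : ℂ))
    push_cast
    rfl
  show bwd l (topC lam (φ : ℂ)) = _
  rw [h1, h]
  rfl

theorem TT_ofReal (lam : ℝ) (l : List ℕ) (φ : ℝ) : TT lam l (φ : ℂ) = (TR lam l φ : ℂ) := by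
  unfold TT TR
  rw [st_ofReal]

/-- complex conjugation -/
theorem st_conj (lam : ℝ) (l : List ℕ) (φ : ℂ) :
    st lam l ((starRingEnd ℂ) φ) = ((starRingEnd ℂ) (st lam l φ).1, (starRingEnd ℂ) (st lam l φ).2.1,
      (starRingEnd ℂ) (st lam l φ).2.2) := by
  have h := bwd_map (starRingEnd ℂ) l (topC lam φ)
  have h1 : topC lam ((starRingEnd ℂ) φ) = (((starRingEnd ℂ) (topC lam φ).1,
      (starRingEnd ℂ) (topC lam φ).2.1, (starRingEnd ℂ) (topC lam φ).2.2) : St ℂ) := by
    show (((RR lam : ℂ) * Complex.cos ((starRingEnd ℂ) φ), 0,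
        -((RR lam : ℂ) * Complex.sin ((starRingEnd ℂ) φ))) : St ℂ) =
      ((starRingEnd ℂ) ((RR lam : ℂ) * Complex.cos φ), (starRingEnd ℂ) 0,
        (starRingEnd ℂ) (-((RR lam : ℂ) * Complex.sin φ)))
    rw [map_mul, map_neg, map_mul, map_zero, Complex.conj_ofReal, Complex.cos_conj,
      Complex.sin_conj]
  show bwd l (topC lam ((starRingEnd ℂ) φ)) = _
  rw [h1, h]
  rfl

/-- intermediate nodes -/
theorem node_st (lam : ℝ) (b p : ℕ) (hp : p ≤ b) (l : List ℕ) (φ : ℂ) :
    st lam ((b - p) :: l) φ =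
      (uu (st lam (b :: l) φ) p, (st lam (b :: l) φ).2.1, uu (st lam (b :: l) φ) (p + 1)) := by
  rw [st_cons, st_cons, uu_bwd1 b p (by omega), uu_bwd1 b (p + 1) (by omega),
    show b + 1 - p = b - p + 1 by omega, show b + 1 - (p + 1) = b - p by omega]
  rfl

theorem node_str (lam : ℝ) (b p : ℕ) (hp : p ≤ b) (l : List ℕ) (φ : ℝ) :
    str lam ((b - p) :: l) φ =
      (uu (str lam (b :: l) φ) p, (str lam (b :: l) φ).2.1, uu (str lam (b :: l) φ) (p + 1)) := by
  rw [str_cons, str_cons, uu_bwd1 b p (by omega), uu_bwd1 b (p + 1) (by omega),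
    show b + 1 - p = b - p + 1 by omega, show b + 1 - (p + 1) = b - p by omega]
  rfl

/-- a state whose last trace vanishes lies on the circle -/
theorem exists_circle_real (lam : ℝ) (l : List ℕ) (s : St ℝ) (hk : kap s = 4 + lam ^ 2)
    (h0 : (fwd l s).2.1 = 0) : ∃ φ : ℝ, str lam l φ = s := by
  have hk' : kap (fwd l s) = 4 + lam ^ 2 := (kap_fwd l s).trans hk
  have hb := bwd_fwd l s
  generalize hs' : fwd l s = s' at *
  obtain ⟨x, y, z⟩ := s'
  have hy : y = 0 := h0
  subst hy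
  have hR := RR_pos lam
  have h1 : x ^ 2 + z ^ 2 = RR lam ^ 2 := by
    rw [RR_sq, ← hk']
    show _ = x ^ 2 + (0 : ℝ) ^ 2 + z ^ 2 - x * 0 * z
    ring
  have h2 : ‖(⟨x / RR lam, -z / RR lam⟩ : ℂ)‖ = 1 := by
    rw [Complex.norm_def, Complex.normSq_mk, Real.sqrt_eq_one]
    field_simp
    linarith
  obtain ⟨φ, hφ⟩ := (Complex.norm_eq_one_iff _).1 h2
  refine ⟨φ, ?_⟩
  have h3 := congrArg Complex.re hφ
  have h4 := congrArg Complex.im hφ
  rw [Complex.exp_ofReal_mul_I_re] at h3
  rw [Complex.exp_ofReal_mul_I_im] at h4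
  have h5 : topR lam φ = ((x, 0, z) : St ℝ) := by
    show ((RR lam * Real.cos φ, 0, -(RR lam * Real.sin φ)) : St ℝ) = (x, 0, z)
    rw [h3, h4]
    have e1 : RR lam * (x / RR lam) = x := by field_simp
    have e2 : -(RR lam * (-z / RR lam)) = z := by field_simp
    simp only [e1, e2]
  show bwd l (topR lam φ) = s
  rw [h5, hb]

theorem exists_circle_complex (lam : ℝ) (l : List ℕ) (s : St ℂ) (hk : kap s = 4 + (lam : ℂ) ^ 2)
    (h0 : (fwd l s).2.1 = 0) : ∃ φ : ℂ, st lam l φ = s := by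
  have hk' : kap (fwd l s) = 4 + (lam : ℂ) ^ 2 := (kap_fwd l s).trans hk
  have hb := bwd_fwd l s
  generalize hs' : fwd l s = s' at *
  obtain ⟨x, y, z⟩ := s'
  have hy : y = 0 := h0
  subst hy
  have hR : (RR lam : ℂ) ≠ 0 := by
    have := (RR_pos lam).ne'
    exact_mod_cast this
  have hRR : ((RR lam : ℂ)) ^ 2 = 4 + (lam : ℂ) ^ 2 := by
    have := congrArg (fun r : ℝ => (r : ℂ)) (RR_sq lam)
    push_cast at this
    exact this
  have h1 : x ^ 2 + z ^ 2 = (RR lam : ℂ) ^ 2 := by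
    rw [hRR, ← hk']
    show _ = x ^ 2 + (0 : ℂ) ^ 2 + z ^ 2 - x * 0 * z
    ring
  have hI : Complex.I ^ 2 = -1 := Complex.I_sq
  have hprod : (x - Complex.I * z) * (x + Complex.I * z) = (RR lam : ℂ) ^ 2 := by
    linear_combination h1 - z ^ 2 * hI
  have hw0 : x - Complex.I * z ≠ 0 := by
    intro h
    rw [h, zero_mul] at hprod
    exact pow_ne_zero 2 hR hprod.symm
  set w := (x - Complex.I * z) / (RR lam : ℂ) with hw
  have hwne : w ≠ 0 := div_ne_zero hw0 hR
  have hexp : Complex.exp (Complex.log w) = w := Complex.exp_log hwne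
  have hwinv : Complex.exp (-Complex.log w) = (x + Complex.I * z) / (RR lam : ℂ) := by
    rw [Complex.exp_neg, hexp, hw, inv_div, div_eq_div_iff hw0 hR]
    linear_combination -hprod
  refine ⟨-Complex.I * Complex.log w, ?_⟩
  have e1 : (-Complex.I * Complex.log w) * Complex.I = Complex.log w := by
    linear_combination -Complex.log w * hI
  have hc : Complex.cos (-Complex.I * Complex.log w) = x / RR lam := by
    rw [Complex.cos, e1, neg_mul, e1, hexp, hwinv, hw]
    ring
  have hsn : Complex.sin (-Complex.I * Complex.log w) = -z / RR lam := by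
    rw [Complex.sin, neg_mul (-Complex.I * Complex.log w), e1, hexp, hwinv, hw]
    field_simp
    linear_combination (2 * z) * hI
  have h5 : topC lam (-Complex.I * Complex.log w) = ((x, 0, z) : St ℂ) := by
    show (((RR lam : ℂ) * Complex.cos (-Complex.I * Complex.log w), 0,
      -((RR lam : ℂ) * Complex.sin (-Complex.I * Complex.log w))) : St ℂ) = (x, 0, z)
    rw [hc, hsn]
    have e1 : (RR lam : ℂ) * (x / RR lam) = x := by field_simp
    have e2 : -((RR lam : ℂ) * (-z / RR lam)) = z := by field_simp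
    simp only [e1, e2]
  show bwd l (topC lam _) = s
  rw [h5, hb]

/-- `φ` is determined by the state up to `2π` -/
theorem st_inj (lam : ℝ) (l : List ℕ) (φ ψ : ℂ) (h : st lam l φ = st lam l ψ) :
    ∃ k : ℤ, ψ = φ + 2 * Real.pi * k := by
  have h1 : topC lam φ = topC lam ψ := by
    have := congrArg (fwd l) h
    rwa [st, st, fwd_bwd, fwd_bwd] at this
  have hR : (RR lam : ℂ) ≠ 0 := by
    have := (RR_pos lam).ne'
    exact_mod_cast this
  have hc : Complex.cos φ = Complex.cos ψ := mul_left_cancel₀ hR (congrArg (fun s : St ℂ => s.1) h1)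
  have hs : Complex.sin φ = Complex.sin ψ :=
    mul_left_cancel₀ hR (neg_injective (congrArg (fun s : St ℂ => s.2.2) h1))
  have he : Complex.exp (ψ * Complex.I) = Complex.exp (φ * Complex.I) := by
    rw [Complex.exp_mul_I, Complex.exp_mul_I, hc, hs]
  obtain ⟨n, hn⟩ := Complex.exp_eq_exp_iff_exists_int.1 he
  refine ⟨n, ?_⟩
  apply mul_right_cancel₀ Complex.I_ne_zero
  rw [hn]
  ring

theorem st_periodic (lam : ℝ) (l : List ℕ) (φ : ℂ) : st lam l (φ + 2 * Real.pi) = st lam l φ := by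
  unfold st topC
  rw [Complex.cos_add_two_pi, Complex.sin_add_two_pi]

end Sturm
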