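import Pool.Agent.Lib.MP_e5ebf6_mp.Defs
import Pool.Agent.Lib.MP_e5ebf6_mp.StateAlg

/-! Module Cross: tangent vectors, the invariant area form (via cross products), chain rule. -/

noncomputable section
namespace Sturm

section
variable {K : Type*} [CommRing K]

theorem tang_D0 (s : St K) : Tang s (D0 s) := by
  unfold Tang D0
  ring

/-- `τ × D0 = τ_x ∇κ` for tangent `τ` -/
theorem crs_D0 (s τ : St K) (h : Tang s τ) : crs τ (D0 s) = sgrad τ.1 s := by
  unfold Tang at h
  unfold crs D0 sgrad
  refine Prod.ext ?_ (Prod.ext ?_ ?_)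
  · simp only
    linear_combination -h
  · simp only
    ring
  · simp only
    ring

theorem cross_tang_node (s a : St K) (h : Tang s a) (p : ℕ) :
    Tang (uu s p, s.2.1, uu s (p + 1)) (duu s a p, a.2.1, duu s a (p + 1)) := by
  induction p with
  | zero => exact h
  | succ p ih =>
    unfold Tang kx ky kz at ih ⊢
    simp only [uu, duu] at ih ⊢
    linear_combination ih

theorem tang_dfwd1 (b : ℕ) (s a : St K) (h : Tang s a) : Tang (fwd1 b s) (dfwd1 b s a) := by
  have h1 := cross_tang_node s a h b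
  unfold Tang kx ky kz at h1 ⊢
  unfold fwd1 dfwd1
  simp only at h1 ⊢
  linear_combination h1

/-- node version (no sign change) -/
theorem crs_node (s a c : St K) (ω : K) (h : crs a c = sgrad ω s) (p : ℕ) :
    crs (duu s a p, a.2.1, duu s a (p + 1)) (duu s c p, c.2.1, duu s c (p + 1)) =
      sgrad ω (uu s p, s.2.1, uu s (p + 1)) := by
  induction p with
  | zero => exact h
  | succ p ih =>
    unfold crs sgrad kx ky kz at ih ⊢
    simp only [Prod.mk.injEq] at ih ⊢
    obtain ⟨h1, h2, h3⟩ := ih
    have e1 : uu s (p + 1 + 1) = s.2.1 * uu s (p + 1) - uu s p := rfl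
    have e2 : duu s a (p + 1 + 1) =
      a.2.1 * uu s (p + 1) + s.2.1 * duu s a (p + 1) - duu s a p := rfl
    have e3 : duu s c (p + 1 + 1) =
      c.2.1 * uu s (p + 1) + s.2.1 * duu s c (p + 1) - duu s c p := rfl
    rw [e1, e2, e3]
    refine ⟨?_, ?_, ?_⟩
    · linear_combination s.2.1 * h1 + h3
    · linear_combination uu s (p + 1) * h1 + h2
    · linear_combination -h1

/-- one full move changes the sign of the area form -/
theorem crs_dfwd1 (b : ℕ) (s a c : St K) (ω : K) (h : crs a c = sgrad ω s) :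
    crs (dfwd1 b s a) (dfwd1 b s c) = sgrad (-ω) (fwd1 b s) := by
  have h0 := crs_node s a c ω h b
  unfold crs sgrad kx ky kz at h0 ⊢
  unfold dfwd1 fwd1
  simp only [Prod.mk.injEq] at h0 ⊢
  obtain ⟨h1, h2, h3⟩ := h0
  refine ⟨?_, ?_, ?_⟩
  · linear_combination -h2
  · linear_combination -h1
  · linear_combination -h3

theorem crs_dfwd (l : List ℕ) (s a c : St K) (ω : K) (h : crs a c = sgrad ω s) :
    crs (dfwd l s a) (dfwd l s c) = sgrad ((-1) ^ l.length * ω) (fwd l s) := by
  induction l generalizing s a c ω with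
  | nil => simpa [dfwd, fwd] using h
  | cons b l ih =>
    have h1 := ih _ _ _ _ (crs_dfwd1 b s a c ω h)
    have h2 : (-1 : K) ^ (b :: l).length * ω = (-1) ^ l.length * (-ω) := by
      rw [List.length_cons, pow_succ]; ring
    rw [h2]
    exact h1

theorem tang_dfwd (l : List ℕ) (s a : St K) (h : Tang s a) : Tang (fwd l s) (dfwd l s a) := by
  induction l generalizing s a with
  | nil => exact h
  | cons b l ih => exact ih _ _ (tang_dfwd1 b s a h)

theorem dfwd_append (l m : List ℕ) (s a : St K) :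
    dfwd (l ++ m) s a = dfwd m (fwd l s) (dfwd l s a) := by
  induction l generalizing s a with
  | nil => rfl
  | cons b l ih => exact ih _ _

end

section deriv
variable {𝕜 : Type*} [NontriviallyNormedField 𝕜]

theorem cross_fst {E F : Type*} [NormedAddCommGroup E] [NormedSpace 𝕜 E] [NormedAddCommGroup F]
    [NormedSpace 𝕜 F] {s : 𝕜 → E × F} {ds : E × F} {x : 𝕜} (h : HasDerivAt s ds x) :
    HasDerivAt (fun t => (s t).1) ds.1 x := by
  have h1 := (HasFDerivAt.fst h.hasFDerivAt).hasDerivAt
  simpa using h1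

theorem cross_snd {E F : Type*} [NormedAddCommGroup E] [NormedSpace 𝕜 E] [NormedAddCommGroup F]
    [NormedSpace 𝕜 F] {s : 𝕜 → E × F} {ds : E × F} {x : 𝕜} (h : HasDerivAt s ds x) :
    HasDerivAt (fun t => (s t).2) ds.2 x := by
  have h1 := (HasFDerivAt.snd h.hasFDerivAt).hasDerivAt
  simpa using h1

theorem hasDerivAt_uu {s : 𝕜 → St 𝕜} {ds : St 𝕜} {x : 𝕜} (h : HasDerivAt s ds x) (p : ℕ) :
    HasDerivAt (fun t => uu (s t) p) (duu (s x) ds p) x := by
  have h1 := cross_fst h
  have h2 := cross_fst (cross_snd h)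
  have h3 := cross_snd (cross_snd h)
  have key : ∀ p, HasDerivAt (fun t => uu (s t) p) (duu (s x) ds p) x ∧
      HasDerivAt (fun t => uu (s t) (p + 1)) (duu (s x) ds (p + 1)) x := by
    intro p
    induction p with
    | zero => exact ⟨h1, h3⟩
    | succ p ih =>
      refine ⟨ih.2, ?_⟩
      have h4 := (h2.mul ih.2).sub ih.1
      exact h4
  exact (key p).1

theorem hasDerivAt_fwd1 {s : 𝕜 → St 𝕜} {ds : St 𝕜} {x : 𝕜} (h : HasDerivAt s ds x) (b : ℕ) :
    HasDerivAt (fun t => fwd1 b (s t)) (dfwd1 b (s x) ds) x :=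
  (cross_fst (cross_snd h)).prodMk ((hasDerivAt_uu h b).prodMk (hasDerivAt_uu h (b + 1)))

theorem hasDerivAt_fwd {s : 𝕜 → St 𝕜} {ds : St 𝕜} {x : 𝕜} (h : HasDerivAt s ds x)
    (l : List ℕ) : HasDerivAt (fun t => fwd l (s t)) (dfwd l (s x) ds) x := by
  induction l generalizing s ds with
  | nil => exact h
  | cons b l ih => exact ih (hasDerivAt_fwd1 h b)

/-- derivative of the surface equation -/
theorem tang_of_hasDerivAt {s : 𝕜 → St 𝕜} {ds : St 𝕜} {x : 𝕜} {c : 𝕜}
    (h : HasDerivAt s ds x) (hk : ∀ t, kap (s t) = c) : Tang (s x) ds := by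
  have h1 := cross_fst h
  have h2 := cross_fst (cross_snd h)
  have h3 := cross_snd (cross_snd h)
  have h4 := (((h1.mul h1).add (h2.mul h2)).add (h3.mul h3)).sub ((h1.mul h2).mul h3)
  have h5 : HasDerivAt (fun _ : 𝕜 => c) 0 x := hasDerivAt_const x c
  have h6 : (fun _ : 𝕜 => c) = ((((fun t => (s t).1) * fun t => (s t).1) +
      (fun t => (s t).2.1) * fun t => (s t).2.1) + (fun t => (s t).2.2) * fun t => (s t).2.2) -
      ((fun t => (s t).1) * fun t => (s t).2.1) * fun t => (s t).2.2 := by
    funext t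
    have h7 := hk t
    unfold kap at h7
    simp only [Pi.sub_apply, Pi.add_apply, Pi.mul_apply]
    rw [← h7]
    ring
  rw [h6] at h5
  have h8 := h5.unique h4
  simp only [Pi.mul_apply] at h8
  unfold Tang kx ky kz
  linear_combination -h8

/-- derivative of `ww` exists -/
theorem cross_ww {s : 𝕜 → St 𝕜} (h : Differentiable 𝕜 s) (p : ℕ) :
    Differentiable 𝕜 (fun t => ww (s t) p) := by
  have h1 : Differentiable 𝕜 (fun t => (s t).1) := h.fst
  have h2 : Differentiable 𝕜 (fun t => (s t).2.1) := h.snd.fst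
  have h3 : Differentiable 𝕜 (fun t => (s t).2.2) := h.snd.snd
  have key : ∀ p, Differentiable 𝕜 (fun t => ww (s t) p) ∧
      Differentiable 𝕜 (fun t => ww (s t) (p + 1)) := by
    intro p
    induction p with
    | zero => exact ⟨h3, h2⟩
    | succ p ih => exact ⟨ih.2, (h1.mul ih.2).sub ih.1⟩
  exact (key p).1

theorem cross_bwd {s : 𝕜 → St 𝕜} (h : Differentiable 𝕜 s) (l : List ℕ) :
    Differentiable 𝕜 (fun t => bwd l (s t)) := by
  induction l with
  | nil => exact h
  | cons b l ih => exact (cross_ww ih (b + 1)).prodMk (ih.fst.prodMk (cross_ww ih b))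

end deriv

/-- the circle maps are differentiable everywhere -/
theorem differentiable_str (lam : ℝ) (l : List ℕ) : Differentiable ℝ (str lam l) := by
  refine cross_bwd ?_ l
  unfold topR
  exact (by fun_prop : Differentiable ℝ fun φ => RR lam * Real.cos φ).prodMk
    ((differentiable_const _).prodMk
      (by fun_prop : Differentiable ℝ fun φ => -(RR lam * Real.sin φ)))

theorem differentiable_st (lam : ℝ) (l : List ℕ) : Differentiable ℂ (st lam l) := by
  refine cross_bwd ?_ l
  unfold topC
  exact (by fun_prop : Differentiable ℂ fun φ => (RR lam : ℂ) * Complex.cos φ).prodMk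
    ((differentiable_const _).prodMk
      (by fun_prop : Differentiable ℂ fun φ => -((RR lam : ℂ) * Complex.sin φ)))

/-- derivative along the circle at a later level is the image of the derivative at level 0 -/
theorem dfwd_deriv_str (lam : ℝ) (l : List ℕ) (j : ℕ) (φ : ℝ) :
    dfwd (l.take j) (str lam l φ) (deriv (str lam l) φ) = deriv (str lam (l.drop j)) φ := by
  have h1 := hasDerivAt_fwd (differentiable_str lam l φ).hasDerivAt (l.take j)
  have h2 : (fun t => fwd (l.take j) (str lam l t)) = str lam (l.drop j) := by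
    funext t
    exact fwd_take_str lam l j t
  rw [h2] at h1
  exact h1.deriv.symm

theorem deriv_TR (lam : ℝ) (l : List ℕ) (φ : ℝ) :
    deriv (TR lam l) φ = (deriv (str lam l) φ).1 :=
  (cross_fst (differentiable_str lam l φ).hasDerivAt).deriv

theorem tang_deriv_str (lam : ℝ) (l : List ℕ) (φ : ℝ) :
    Tang (str lam l φ) (deriv (str lam l) φ) :=
  tang_of_hasDerivAt (differentiable_str lam l φ).hasDerivAt (fun t => kap_str lam l t)

end Sturm
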