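import Mathlib

/-!
# Sturmian operators: trace maps, circles `C_l`, passages (definitions)

Conventions.  A *state* is a triple `(x, y, z)`, to be thought of as `(tr A, tr B, tr AB)` for
`A, B ∈ SL₂`.  `kap = x² + y² + z² - xyz`; the relevant surface is `kap = 4 + lam²`.
For an exponent `b ≥ 1` the move is `(A, B) ↦ (B, A B^b)`.
-/

open Complex Metric Set MeasureTheory Filter Topology

noncomputable section
namespace Sturm

/-- a state `(x, y, z)` -/
abbrev St (K : Type*) := K × K × K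

section alg
variable {K : Type*} [CommRing K]

def kap (s : St K) : K := s.1 ^ 2 + s.2.1 ^ 2 + s.2.2 ^ 2 - s.1 * s.2.1 * s.2.2
/-- partial derivatives of `kap` -/
def kx (s : St K) : K := 2 * s.1 - s.2.1 * s.2.2
def ky (s : St K) : K := 2 * s.2.1 - s.1 * s.2.2
def kz (s : St K) : K := 2 * s.2.2 - s.1 * s.2.1

/-- `uu s p = tr (A B^p)` -/
def uu (s : St K) : ℕ → K
  | 0 => s.1
  | 1 => s.2.2
  | (p + 2) => s.2.1 * uu s (p + 1) - uu s p

/-- `ww s (p+1) = tr (B A^{-p})`, `ww s 0 = tr (A B)` -/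
def ww (s : St K) : ℕ → K
  | 0 => s.2.2
  | 1 => s.2.1
  | (p + 2) => s.1 * ww s (p + 1) - ww s p

/-- state of `(B, A B^b)` from the state of `(A, B)` -/
def fwd1 (b : ℕ) (s : St K) : St K := (s.2.1, uu s b, uu s (b + 1))
/-- state of `(B A^{-b}, A)` from the state of `(A, B)` -/
def bwd1 (b : ℕ) (s : St K) : St K := (ww s (b + 1), s.1, ww s b)

def fwd : List ℕ → St K → St K
  | [], s => s
  | b :: l, s => fwd l (fwd1 b s)

def bwd : List ℕ → St K → St K
  | [], s => s
  | b :: l, s => bwd1 b (bwd l s)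

/-- tangent map of `uu` -/
def duu (s ds : St K) : ℕ → K
  | 0 => ds.1
  | 1 => ds.2.2
  | (p + 2) => ds.2.1 * uu s (p + 1) + s.2.1 * duu s ds (p + 1) - duu s ds p

def dfwd1 (b : ℕ) (s ds : St K) : St K := (ds.2.1, duu s ds b, duu s ds (b + 1))
def dfwd : List ℕ → St K → St K → St K
  | [], _, ds => ds
  | b :: l, s, ds => dfwd l (fwd1 b s) (dfwd1 b s ds)

/-- the (double) twist vector about `A` -/
def D0 (s : St K) : St K := (0, kz s, - ky s)

/-- cross product -/
def crs (a b : St K) : St K :=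
  (a.2.1 * b.2.2 - a.2.2 * b.2.1, a.2.2 * b.1 - a.1 * b.2.2, a.1 * b.2.1 - a.2.1 * b.1)

/-- `ω • ∇ kap (s)` -/
def sgrad (ω : K) (s : St K) : St K := (ω * kx s, ω * ky s, ω * kz s)

/-- tangency to the level surfaces of `kap` -/
def Tang (s a : St K) : Prop := kx s * a.1 + ky s * a.2.1 + kz s * a.2.2 = 0

end alg

/-- the word counts: number of letters `A` and of letters `B` in the last element `B_top`
obtained from `(A, B)` by the moves of the list -/
def nAB : List ℕ → ℕ × ℕ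
  | [] => (0, 1)
  | b :: l => ((nAB l).2, (nAB l).1 + b * (nAB l).2)

def nB (l : List ℕ) : ℕ := (nAB l).2

/-- all exponents are positive -/
def Pos (l : List ℕ) : Prop := ∀ b ∈ l, 1 ≤ b

/-- the radius `R = √(4 + lam²)` -/
def RR (lam : ℝ) : ℝ := Real.sqrt (4 + lam ^ 2)
/-- bound for the coordinates -/
def K0 (lam : ℝ) : ℝ := RR lam ^ 2 + 2 * RR lam
/-- a radius strictly between `2` and `R` -/
def vr (lam : ℝ) : ℝ := (2 + RR lam) / 2

/-- the top state: `tr B = 0` -/
def topC (lam : ℝ) (φ : ℂ) : St ℂ := ((RR lam : ℂ) * cos φ, 0, -((RR lam : ℂ) * sin φ))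
def topR (lam φ : ℝ) : St ℝ := (RR lam * Real.cos φ, 0, -(RR lam * Real.sin φ))

/-- the circle `C_l` (complexified), seen at the base level -/
def st (lam : ℝ) (l : List ℕ) (φ : ℂ) : St ℂ := bwd l (topC lam φ)
/-- the real circle -/
def str (lam : ℝ) (l : List ℕ) (φ : ℝ) : St ℝ := bwd l (topR lam φ)

/-- `T = tr A` on the complex circle -/
def TT (lam : ℝ) (l : List ℕ) (φ : ℂ) : ℂ := (st lam l φ).1
/-- `T = tr A` on the real circle -/
def TR (lam : ℝ) (l : List ℕ) (φ : ℝ) : ℝ := (str lam l φ).1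

/-- a passage: an inverse branch of `T` on the disc of radius `R` which is real on the reals -/
structure Passage (lam : ℝ) (l : List ℕ) (g : ℂ → ℂ) : Prop where
  diff : DifferentiableOn ℂ g (ball 0 (RR lam))
  inv : ∀ w ∈ ball (0 : ℂ) (RR lam), TT lam l (g w) = w
  real : ∀ t : ℝ, |t| < RR lam → (g (t : ℂ)).im = 0

/-- the real point of the circle on the passage `g` with `tr A = t` -/
def gr (g : ℂ → ℂ) (t : ℝ) : ℝ := (g (t : ℂ)).re

/-- (ℓ¹) distance of two states -/
def sd (s t : St ℝ) : ℝ := |s.1 - t.1| + |s.2.1 - t.2.1| + |s.2.2 - t.2.2|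

/-- distance of two passages over `t` -/
def qd (lam : ℝ) (l : List ℕ) (g₁ g₂ : ℂ → ℂ) (t : ℝ) : ℝ :=
  sd (str lam l (gr g₁ t)) (str lam l (gr g₂ t))

/-- first `M` entries of a sequence -/
def lM (b : ℕ → ℕ) (M : ℕ) : List ℕ := (List.range M).map b

/-- shifted sequence -/
def shf (j : ℕ) (b : ℕ → ℕ) : ℕ → ℕ := fun k => b (k + j)

/-- the state of the energy line -/
def eline (lam : ℝ) {K : Type*} [CommRing K] [Algebra ℝ K] (E : K) : St K :=
  (2, E, E - algebraMap ℝ K lam)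

/-- zeros of the last trace on the energy line -/
def Zs (lam : ℝ) (l : List ℕ) : Set ℝ := {E : ℝ | (fwd l ((2, E, E - lam) : St ℝ)).2.1 = 0}

/-- 2×2 matrices -/
abbrev M2 (K : Type*) := Matrix (Fin 2) (Fin 2) K

/-- the positive cone of traceless matrices (definite type), with sign `σ` -/
def PC (σ : ℝ) (Y : M2 ℝ) : Prop := Y 0 0 + Y 1 1 = 0 ∧ 0 < σ * Y 1 0 ∧ 0 < Y.det
def PC0 (σ : ℝ) (Y : M2 ℝ) : Prop := PC σ Y ∨ Y = 0

/-- pair of matrices with (left) logarithmic derivatives `LA = A⁻¹ A'`, `LB = B⁻¹ B'` -/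
structure TM (K : Type*) where
  A : M2 K
  B : M2 K
  LA : M2 K
  LB : M2 K

namespace TM
variable {K : Type*} [CommRing K]

structure Good (P : TM K) : Prop where
  dA : P.A.det = 1
  dB : P.B.det = 1
  tA : P.LA.trace = 0
  tB : P.LB.trace = 0

/-- the state -/
def stt (P : TM K) : St K := (P.A.trace, P.B.trace, (P.A * P.B).trace)
/-- its derivative -/
def dst (P : TM K) : St K :=
  ((P.A * P.LA).trace, (P.B * P.LB).trace, (P.A * P.LA * P.B + P.A * P.B * P.LB).trace)

/-- logarithmic derivative of `A B^b` -/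
def lab (b : ℕ) (P : TM K) : M2 K :=
  (P.B ^ b).adjugate * P.LA * P.B ^ b +
    ∑ i ∈ Finset.range b, (P.B ^ i).adjugate * P.LB * P.B ^ i

def next (b : ℕ) (P : TM K) : TM K := ⟨P.B, P.A * P.B ^ b, P.LB, lab b P⟩

/-- logarithmic derivative of `B A^{-b}` -/
def lba (b : ℕ) (P : TM K) : M2 K :=
  P.A ^ b * P.LB * (P.A ^ b).adjugate -
    ∑ i ∈ Finset.range b, P.A ^ (i + 1) * P.LA * (P.A ^ (i + 1)).adjugate

def prev (b : ℕ) (P : TM K) : TM K := ⟨P.B * (P.A.adjugate) ^ b, P.A, lba b P, P.LA⟩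

def nexts : List ℕ → TM K → TM K
  | [], P => P
  | b :: l, P => nexts l (next b P)

def prevs : List ℕ → TM K → TM K
  | [], P => P
  | b :: l, P => prev b (prevs l P)

end TM

/-- the top matrices `D · Rot φ` and `J` with their `φ`-derivatives -/
def tmTop (lam φ : ℝ) : TM ℝ where
  A := !![(RR lam + lam) / 2 * Real.cos φ, -((RR lam + lam) / 2 * Real.sin φ);
          (RR lam - lam) / 2 * Real.sin φ, (RR lam - lam) / 2 * Real.cos φ]
  B := !![0, -1; 1, 0]
  LA := !![0, -1; 1, 0]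
  LB := 0

/-- matrices (and `φ`-derivatives) of the circle at the base level -/
def tmr (lam : ℝ) (l : List ℕ) (φ : ℝ) : TM ℝ := TM.prevs l (tmTop lam φ)

end Sturm
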