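import Pool.Agent.Lib.MP_e5ebf6_mp.StateAlg

/-! Module Escape: the escape lemma (complex) and its consequences. -/

noncomputable section
namespace Sturm

private theorem esc_uu (s : St ℂ) (p : ℕ) :
    ‖s.2.1‖ * ‖uu s (p + 1)‖ - ‖uu s p‖ ≤ ‖uu s (p + 2)‖ := by
  have h : uu s (p + 2) = s.2.1 * uu s (p + 1) - uu s p := rfl
  rw [h, ← norm_mul]
  exact norm_sub_norm_le _ _

private theorem esc_diff (s : St ℂ) (hy : 2 ≤ ‖s.2.1‖) (p : ℕ) :
    ‖uu s (p + 1)‖ - ‖uu s p‖ ≤ ‖uu s (p + 2)‖ - ‖uu s (p + 1)‖ := by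
  have h1 := esc_uu s p
  have h2 : 2 * ‖uu s (p + 1)‖ ≤ ‖s.2.1‖ * ‖uu s (p + 1)‖ :=
    mul_le_mul_of_nonneg_right hy (norm_nonneg _)
  linarith

private theorem esc_mono (s : St ℂ) (hy : 2 ≤ ‖s.2.1‖) (hx : ‖s.1‖ ≤ ‖s.2.2‖) (p : ℕ) :
    ‖uu s p‖ ≤ ‖uu s (p + 1)‖ := by
  induction p with
  | zero => exact hx
  | succ p ih =>
    have := esc_diff s hy p
    show ‖uu s (p + 1)‖ ≤ ‖uu s (p + 2)‖
    linarith

private theorem esc_fwd (l : List ℕ) : Pos l → ∀ s : St ℂ, 2 ≤ ‖s.2.1‖ → 2 ≤ ‖s.2.2‖ →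
    ‖s.1‖ ≤ ‖s.2.2‖ → 2 ≤ ‖(fwd l s).2.1‖ := by
  induction l with
  | nil => intro _ s hy _ _; exact hy
  | cons b l ih =>
    intro hl s hy hz hx
    have hb : 1 ≤ b := hl b (by simp)
    have hl' : Pos l := fun c hc => hl c (by simp [hc])
    obtain ⟨p, rfl⟩ : ∃ p, b = p + 1 := ⟨b - 1, by omega⟩
    have hmono := esc_mono s hy hx
    have h1 : ∀ q, 2 ≤ ‖uu s (q + 1)‖ := by
      intro q
      induction q with
      | zero => exact hz
      | succ q ihq => exact ihq.trans (hmono (q + 1))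
    have h2 := esc_uu s p
    have h3 := hmono p
    have h4 := h1 p
    show 2 ≤ ‖(fwd l (fwd1 (p + 1) s)).2.1‖
    refine ih hl' _ h4 (h1 (p + 1)) ?_
    show ‖s.2.1‖ ≤ ‖uu s (p + 2)‖
    have h5 : 2 * (‖s.2.1‖ - 1) ≤ (‖s.2.1‖ - 1) * ‖uu s (p + 1)‖ := by nlinarith
    nlinarith

/-- no point of the circle is escaping -/
theorem no_escape (lam : ℝ) (l : List ℕ) (hl : Pos l) (φ : ℂ) :
    ¬ (2 ≤ ‖(st lam l φ).2.1‖ ∧ 2 ≤ ‖(st lam l φ).2.2‖ ∧ ‖(st lam l φ).1‖ ≤ ‖(st lam l φ).2.2‖) := by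
  rintro ⟨hy, hz, hx⟩
  have h1 := esc_fwd l hl _ hy hz hx
  have h2 : fwd l (st lam l φ) = topC lam φ := fwd_bwd l _
  rw [h2] at h1
  have h3 : (topC lam φ).2.1 = 0 := rfl
  rw [h3, norm_zero] at h1
  linarith

private theorem esc_surf (lam : ℝ) (l : List ℕ) (φ : ℂ) :
    (st lam l φ).1 ^ 2 + (st lam l φ).2.1 ^ 2 + (st lam l φ).2.2 ^ 2 -
      (st lam l φ).1 * (st lam l φ).2.1 * (st lam l φ).2.2 = ((RR lam ^ 2 : ℝ) : ℂ) := by
  have h := kap_st lam l φ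
  rw [RR_sq]
  push_cast
  exact h

/-- coordinates are bounded where `|x| ≤ R` -/
theorem coord_bound {lam : ℝ} (hlam : 0 < lam) (l : List ℕ) (hl : Pos l) (φ : ℂ)
    (hx : ‖(st lam l φ).1‖ ≤ RR lam) :
    ‖(st lam l φ).2.1‖ ≤ K0 lam ∧ ‖(st lam l φ).2.2‖ ≤ K0 lam := by
  have hne := no_escape lam l hl φ
  have hs := esc_surf lam l φ
  have hR := two_lt_RR hlam
  have hRR : ‖((RR lam ^ 2 : ℝ) : ℂ)‖ = RR lam ^ 2 := by
    rw [Complex.norm_real, Real.norm_of_nonneg (sq_nonneg _)]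
  unfold K0
  set R := RR lam with hRdef
  generalize (st lam l φ).1 = x at *
  generalize (st lam l φ).2.1 = y at *
  generalize (st lam l φ).2.2 = z at *
  have hx0 := norm_nonneg x
  have hy0 := norm_nonneg y
  have hz0 := norm_nonneg z
  have hR2 : 4 < R ^ 2 := by nlinarith
  constructor
  · by_contra hc
    push Not at hc
    have hy2 : 2 ≤ ‖y‖ := by nlinarith
    have hyy : ‖y‖ ^ 2 ≤ R ^ 2 + ‖x‖ ^ 2 + ‖z‖ ^ 2 + ‖x‖ * ‖y‖ * ‖z‖ := by
      have h1 : y ^ 2 = ((R ^ 2 : ℝ) : ℂ) - x ^ 2 - z ^ 2 + x * y * z := by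
        linear_combination hs
      calc ‖y‖ ^ 2 = ‖y ^ 2‖ := (norm_pow _ _).symm
        _ = ‖((R ^ 2 : ℝ) : ℂ) - x ^ 2 - z ^ 2 + x * y * z‖ := by rw [h1]
        _ ≤ ‖((R ^ 2 : ℝ) : ℂ) - x ^ 2 - z ^ 2‖ + ‖x * y * z‖ := norm_add_le _ _
        _ ≤ (‖((R ^ 2 : ℝ) : ℂ) - x ^ 2‖ + ‖z ^ 2‖) + ‖x * y * z‖ := by
            gcongr
            exact norm_sub_le _ _
        _ ≤ ((‖((R ^ 2 : ℝ) : ℂ)‖ + ‖x ^ 2‖) + ‖z ^ 2‖) + ‖x * y * z‖ := by
            gcongr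
            exact norm_sub_le _ _
        _ = _ := by rw [hRR, norm_pow, norm_pow, norm_mul, norm_mul]
    by_cases hz : 2 ≤ ‖z‖
    · have hzx : ‖z‖ < ‖x‖ := by
        by_contra h
        exact hne ⟨hy2, hz, not_lt.1 h⟩
      have hzR : ‖z‖ < R := hzx.trans_le hx
      have h1 : ‖x‖ * ‖y‖ * ‖z‖ ≤ R * ‖y‖ * R := by gcongr
      have h2 : ‖x‖ ^ 2 ≤ R ^ 2 := by gcongr
      have h3 : ‖z‖ ^ 2 ≤ R ^ 2 := by gcongr
      have h4 : (R ^ 2 + 2 * R) * (2 * R) < ‖y‖ * (‖y‖ - R ^ 2) := by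
        have h5 : 2 * R < ‖y‖ - R ^ 2 := by linarith
        have h6 : (0 : ℝ) < 2 * R := by linarith
        calc (R ^ 2 + 2 * R) * (2 * R) < ‖y‖ * (2 * R) := by
              exact mul_lt_mul_of_pos_right hc h6
          _ ≤ ‖y‖ * (‖y‖ - R ^ 2) := by gcongr
      nlinarith
    · push Not at hz
      have h1 : ‖x‖ * ‖y‖ * ‖z‖ ≤ R * ‖y‖ * 2 := by gcongr
      have h2 : ‖x‖ ^ 2 ≤ R ^ 2 := by gcongr
      have h3 : ‖z‖ ^ 2 ≤ 2 ^ 2 := by gcongr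
      have h4 : (R ^ 2 + 2 * R) * R ^ 2 < ‖y‖ * (‖y‖ - 2 * R) := by
        have h5 : R ^ 2 < ‖y‖ - 2 * R := by linarith
        have h6 : (0 : ℝ) < R ^ 2 := by linarith
        calc (R ^ 2 + 2 * R) * R ^ 2 < ‖y‖ * R ^ 2 := by
              exact mul_lt_mul_of_pos_right hc h6
          _ ≤ ‖y‖ * (‖y‖ - 2 * R) := by gcongr
      have h7 : 8 * R ^ 2 ≤ (R ^ 2 + 2 * R) * R ^ 2 := by
        have : 8 ≤ R ^ 2 + 2 * R := by linarith
        exact mul_le_mul_of_nonneg_right this (sq_nonneg _)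
      nlinarith
  · by_contra hc
    push Not at hc
    have hz2 : 2 ≤ ‖z‖ := by nlinarith
    have hxz : ‖x‖ ≤ ‖z‖ := by nlinarith
    have hy2 : ‖y‖ < 2 := by
      by_contra h
      exact hne ⟨not_lt.1 h, hz2, hxz⟩
    have hzz : ‖z‖ ^ 2 ≤ R ^ 2 + ‖x‖ ^ 2 + ‖y‖ ^ 2 + ‖x‖ * ‖y‖ * ‖z‖ := by
      have h1 : z ^ 2 = ((R ^ 2 : ℝ) : ℂ) - x ^ 2 - y ^ 2 + x * y * z := by
        linear_combination hs
      calc ‖z‖ ^ 2 = ‖z ^ 2‖ := (norm_pow _ _).symm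
        _ = ‖((R ^ 2 : ℝ) : ℂ) - x ^ 2 - y ^ 2 + x * y * z‖ := by rw [h1]
        _ ≤ ‖((R ^ 2 : ℝ) : ℂ) - x ^ 2 - y ^ 2‖ + ‖x * y * z‖ := norm_add_le _ _
        _ ≤ (‖((R ^ 2 : ℝ) : ℂ) - x ^ 2‖ + ‖y ^ 2‖) + ‖x * y * z‖ := by
            gcongr
            exact norm_sub_le _ _
        _ ≤ ((‖((R ^ 2 : ℝ) : ℂ)‖ + ‖x ^ 2‖) + ‖y ^ 2‖) + ‖x * y * z‖ := by
            gcongr
            exact norm_sub_le _ _
        _ = _ := by rw [hRR, norm_pow, norm_pow, norm_mul, norm_mul]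
    have h1 : ‖x‖ * ‖y‖ * ‖z‖ ≤ R * 2 * ‖z‖ := by gcongr
    have h2 : ‖x‖ ^ 2 ≤ R ^ 2 := by gcongr
    have h3 : ‖y‖ ^ 2 ≤ 2 ^ 2 := by gcongr
    have h4 : (R ^ 2 + 2 * R) * R ^ 2 < ‖z‖ * (‖z‖ - 2 * R) := by
      have h5 : R ^ 2 < ‖z‖ - 2 * R := by linarith
      have h6 : (0 : ℝ) < R ^ 2 := by linarith
      calc (R ^ 2 + 2 * R) * R ^ 2 < ‖z‖ * R ^ 2 := by
            exact mul_lt_mul_of_pos_right hc h6
        _ ≤ ‖z‖ * (‖z‖ - 2 * R) := by gcongr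
    have h7 : 8 * R ^ 2 ≤ (R ^ 2 + 2 * R) * R ^ 2 := by
      have : 8 ≤ R ^ 2 + 2 * R := by linarith
      exact mul_le_mul_of_nonneg_right this (sq_nonneg _)
    nlinarith

private theorem esc_convex (a : ℕ → ℝ) (ha : ∀ q, a (q + 1) - a q ≤ a (q + 2) - a (q + 1)) (b : ℕ)
    (hb : a 0 < a b) : a b < a (b + 1) := by
  induction b with
  | zero => exact absurd hb (lt_irrefl _)
  | succ b ih =>
    have h1 := ha b
    show a (b + 1) < a (b + 2)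
    by_cases h : a 0 < a b
    · linarith [ih h]
    · linarith

/-- all later traces are bounded where `|x| ≤ R` -/
theorem later_bound {lam : ℝ} (hlam : 0 < lam) (l : List ℕ) (hl : Pos l) (φ : ℂ)
    (hx : ‖(st lam l φ).1‖ ≤ RR lam) (j : ℕ) (hj : j ≤ l.length) :
    ‖(st lam (l.drop j) φ).1‖ ≤ K0 lam := by
  have hR := two_lt_RR hlam
  have hK : RR lam ≤ K0 lam := by
    unfold K0
    nlinarith
  have hdrop : ∀ i, Pos (l.drop i) := fun i c hc => hl c (List.mem_of_mem_drop hc)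
  have hstep : ∀ i, (hi : i < l.length) →
      (st lam (l.drop (i + 1)) φ) = fwd1 (l[i]) (st lam (l.drop i) φ) := by
    intro i hi
    rw [List.drop_eq_getElem_cons hi, fwd1_st]
  induction j using Nat.strong_induction_on with
  | _ j ih =>
    match j, ih, hj with
    | 0, _, _ => simpa using hx.trans hK
    | 1, _, hj =>
      rw [hstep 0 (by omega)]
      show ‖(st lam (l.drop 0) φ).2.1‖ ≤ K0 lam
      simpa using (coord_bound hlam l hl φ hx).1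
    | j + 2, ih, hj =>
      have h0 := ih j (by omega) (by omega)
      have h1 := ih (j + 1) (by omega) (by omega)
      by_contra hc
      push Not at hc
      have h2 : (st lam (l.drop (j + 2)) φ).1 = (st lam (l.drop (j + 1)) φ).2.1 := by
        rw [hstep (j + 1) (by omega)]
        rfl
      rw [h2] at hc
      have h3 : RR lam < ‖(st lam (l.drop (j + 1)) φ).1‖ := by
        by_contra h
        exact absurd (coord_bound hlam _ (hdrop (j + 1)) φ (not_lt.1 h)).1 (not_le.2 hc)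
      have hs := hstep j (by omega)
      set s := st lam (l.drop j) φ with hsdef
      set b := l[j] with hb
      have h4 : (st lam (l.drop (j + 1)) φ).1 = s.2.1 := by rw [hs]; rfl
      have h5 : (st lam (l.drop (j + 1)) φ).2.1 = uu s b := by rw [hs]; rfl
      have h6 : (st lam (l.drop (j + 1)) φ).2.2 = uu s (b + 1) := by rw [hs]; rfl
      have hne := no_escape lam _ (hdrop (j + 1)) φ
      rw [h4] at h3 h1
      rw [h5] at hc
      rw [h4, h5, h6] at hne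
      have h7 := esc_convex (fun q => ‖uu s q‖) (esc_diff s (by linarith)) b (by
        show ‖s.1‖ < ‖uu s b‖
        linarith)
      exact hne ⟨by linarith, by linarith, by linarith⟩

theorem elliptic_or (lam : ℝ) (l : List ℕ) (hl : Pos l) (φ : ℂ)
    (hx : ‖(st lam l φ).1‖ ≤ 2) : ‖(st lam l φ).2.1‖ < 2 ∨ ‖(st lam l φ).2.2‖ < 2 := by
  by_contra hc
  push Not at hc
  exact no_escape lam l hl φ ⟨hc.1, hc.2, hx.trans hc.2⟩

/-- if `B` is not elliptic then the whole block `tr (A B^p)`, `1 ≤ p ≤ b`, is -/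
theorem elliptic_block (lam : ℝ) (b : ℕ) (l : List ℕ) (hl : Pos (b :: l)) (φ : ℂ)
    (hx : ‖(st lam (b :: l) φ).1‖ ≤ 2) (hy : 2 ≤ ‖(st lam (b :: l) φ).2.1‖) (p : ℕ)
    (hp1 : 1 ≤ p) (hpb : p ≤ b) : ‖uu (st lam (b :: l) φ) p‖ < 2 := by
  have hl' : Pos l := fun c hc => hl c (by simp [hc])
  have key : ∀ q, q + 1 ≤ b → ‖uu (st lam (b :: l) φ) q‖ ≤ 2 →
      ‖uu (st lam (b :: l) φ) (q + 1)‖ < 2 := by
    intro q hq h
    by_contra hc
    push Not at hc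
    have hpos : Pos ((b - q) :: l) := by
      intro c hc
      rcases List.mem_cons.1 hc with h | h
      · omega
      · exact hl' c h
    have hne := no_escape lam ((b - q) :: l) hpos φ
    rw [node_st lam b q (by omega)] at hne
    exact hne ⟨hy, hc, h.trans hc⟩
  obtain ⟨q, rfl⟩ : ∃ q, p = q + 1 := ⟨p - 1, by omega⟩
  induction q with
  | zero => exact key 0 hpb hx
  | succ q ih => exact key (q + 1) hpb (ih (by omega) (by omega)).le

end Sturm
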