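import Pool.Agent.Lib.MP_e5ebf6_mp.TMBasic
import Pool.Agent.Lib.MP_e5ebf6_mp.Cone

/-! Module FwdCone: positivity is preserved by the forward moves. -/

noncomputable section
namespace Sturm
namespace TM

private theorem fc_det_pow {B : M2 ℝ} (hB : B.det = 1) (i : ℕ) : (B ^ i).det = 1 := by
  rw [Matrix.det_pow, hB, one_pow]

private theorem fc_sum {σ : ℝ} (hσ : σ = 1 ∨ σ = -1) {B Y : M2 ℝ} (hB : B.det = 1)
    (hY : PC σ Y) (p : ℕ) :
    PC σ (∑ i ∈ Finset.range (p + 1), (B ^ i).adjugate * Y * B ^ i) ∧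
      ((p : ℝ) + 1) * Real.sqrt Y.det ≤
        Real.sqrt (∑ i ∈ Finset.range (p + 1), (B ^ i).adjugate * Y * B ^ i).det := by
  induction p with
  | zero =>
    have h := PC.conj hσ (fc_det_pow hB 0) hY
    rw [Finset.sum_range_one, h.2]
    refine ⟨h.1, ?_⟩
    simp
  | succ p ih =>
    have h := PC.conj hσ (fc_det_pow hB (p + 1)) hY
    have h2 := PC.add hσ ih.1 h.1
    rw [Finset.sum_range_succ]
    refine ⟨h2.1, le_trans ?_ h2.2⟩
    rw [h.2]
    push_cast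
    have := ih.2
    linarith

/-- positivity of `lab` -/
theorem lab_PC {σ : ℝ} (hσ : σ = 1 ∨ σ = -1) {P : TM ℝ} (h : P.Good) (hA : PC0 σ P.LA)
    (hB : PC σ P.LB) (p : ℕ) (hp : 1 ≤ p) :
    PC σ (lab p P) ∧ Real.sqrt P.LA.det + p * Real.sqrt P.LB.det ≤ Real.sqrt (lab p P).det := by
  obtain ⟨q, rfl⟩ : ∃ q, p = q + 1 := ⟨p - 1, by omega⟩
  have h1 := PC0.conj hσ (fc_det_pow h.dB (q + 1)) hA
  have h2 := fc_sum hσ h.dB hB q
  have h3 := PC0.add hσ h1.1 (Or.inl h2.1)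
  have h4 := PC0.add_left hσ h2.1 h1.1
  unfold lab
  refine ⟨by rw [add_comm]; exact h4, le_trans ?_ h3.2⟩
  rw [h1.2]
  push_cast
  have := h2.2
  linarith

private theorem fc_nexts {σ : ℝ} (hσ : σ = 1 ∨ σ = -1) (l : List ℕ) :
    ∀ {P : TM ℝ}, P.Good → PC0 σ P.LA → PC σ P.LB → Pos l →
    PC0 σ (nexts l P).LA ∧ PC σ (nexts l P).LB ∧
      ((nAB l).1 : ℝ) * Real.sqrt P.LA.det + ((nAB l).2 : ℝ) * Real.sqrt P.LB.det ≤
        Real.sqrt (nexts l P).LB.det := by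
  induction l with
  | nil =>
    intro P h hA hB _
    refine ⟨hA, hB, ?_⟩
    simp [nAB, nexts]
  | cons b l ih =>
    intro P h hA hB hl
    have hb : 1 ≤ b := hl b List.mem_cons_self
    have h1 := lab_PC hσ h hA hB b hb
    have h2 := ih (P := next b P) (good_next b h) (Or.inl hB) h1.1
      (fun c hc => hl c (List.mem_cons_of_mem _ hc))
    refine ⟨h2.1, h2.2.1, le_trans ?_ h2.2.2⟩
    show (((nAB l).2 : ℕ) : ℝ) * Real.sqrt P.LA.det +
      (((nAB l).1 + b * (nAB l).2 : ℕ) : ℝ) * Real.sqrt P.LB.det ≤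
      ((nAB l).1 : ℝ) * Real.sqrt P.LB.det + ((nAB l).2 : ℝ) * Real.sqrt (lab b P).det
    have h3 := mul_le_mul_of_nonneg_left h1.2 (Nat.cast_nonneg (α := ℝ) (nAB l).2)
    push_cast
    linarith

theorem nexts_PC {σ : ℝ} (hσ : σ = 1 ∨ σ = -1) {P : TM ℝ} (h : P.Good) (hA : PC0 σ P.LA)
    (hB : PC σ P.LB) (l : List ℕ) (hl : Pos l) :
    PC0 σ (nexts l P).LA ∧ PC σ (nexts l P).LB ∧
      (nB l : ℝ) * Real.sqrt P.LB.det ≤ Real.sqrt (nexts l P).LB.det := by
  have h1 := fc_nexts hσ l h hA hB hl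
  refine ⟨h1.1, h1.2.1, le_trans ?_ h1.2.2⟩
  have h2 : 0 ≤ ((nAB l).1 : ℝ) * Real.sqrt P.LA.det := by positivity
  unfold nB
  linarith

private theorem fc_LA {σ : ℝ} (hσ : σ = 1 ∨ σ = -1) (l : List ℕ) :
    ∀ {P : TM ℝ}, P.Good → PC σ P.LA → PC σ P.LB → Pos l → PC σ (nexts l P).LA := by
  induction l with
  | nil =>
    intro P _ hA _ _
    exact hA
  | cons b l ih =>
    intro P h hA hB hl
    have hb : 1 ≤ b := hl b List.mem_cons_self
    exact ih (P := next b P) (good_next b h) hB (lab_PC hσ h (Or.inl hA) hB b hb).1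
      (fun c hc => hl c (List.mem_cons_of_mem _ hc))

/-- after at least one move also `LA` is strictly positive -/
theorem nexts_PC_LA {σ : ℝ} (hσ : σ = 1 ∨ σ = -1) {P : TM ℝ} (h : P.Good) (hA : PC0 σ P.LA)
    (hB : PC σ P.LB) (l : List ℕ) (hl : Pos l) (hne : l ≠ []) : PC σ (nexts l P).LA := by
  cases l with
  | nil => exact absurd rfl hne
  | cons b l =>
    have hb : 1 ≤ b := hl b List.mem_cons_self
    exact fc_LA hσ l (P := next b P) (good_next b h) hB (lab_PC hσ h hA hB b hb).1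
      (fun c hc => hl c (List.mem_cons_of_mem _ hc))

end TM

theorem nB_pos (l : List ℕ) (hl : Pos l) : 1 ≤ nB l := by
  induction l with
  | nil => exact le_rfl
  | cons b l ih =>
    have hb : 1 ≤ b := hl b List.mem_cons_self
    have h1 : 1 ≤ (nAB l).2 := ih fun c hc => hl c (List.mem_cons_of_mem _ hc)
    show 1 ≤ (nAB l).1 + b * (nAB l).2
    nlinarith [Nat.zero_le (nAB l).1]

end Sturm
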