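import Pool.Agent.Lib.MP_e5ebf6_mp.Twist
import Pool.Agent.Lib.MP_e5ebf6_mp.FwdCone

/-! Module RealDeriv: lower bounds for derivatives (bracket inequality). -/

noncomputable section
namespace Sturm

/-- the last trace changes under the twist about `A`: general version for a real state -/
theorem twist_top_lower {lam : ℝ} (hlam : 0 < lam) (l : List ℕ) (hl : Pos l) (s : St ℝ)
    (hk : kap s = 4 + lam ^ 2) (hx : |s.1| < RR lam) (h0 : (fwd l s).2.1 = 0) :
    2 * (nB l : ℝ) * Real.sqrt (RR lam ^ 2 - s.1 ^ 2) ≤ |(dfwd l s (D0 s)).2.1| := by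
  obtain ⟨φ, rfl⟩ := exists_circle_real lam l s hk h0
  set P := tmr lam l φ with hP
  have hPg : P.Good := tmr_good lam l φ
  have hPs : P.stt = str lam l φ := tmr_stt lam l φ
  set Q := twP P.A P.B with hQ
  have hQg : Q.Good := twP_good hPg.dA hPg.dB
  have hQs : Q.stt = str lam l φ := by rw [← hPs]; rfl
  have hQd : Q.dst = D0 (str lam l φ) := by rw [← hQs]; exact twP_dst hPg.dA hPg.dB
  have hk' : kap (P.A.trace, P.B.trace, (P.A * P.B).trace) = 4 + lam ^ 2 := by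
    rw [← hPs] at hk
    exact hk
  have htr : P.A.trace = (str lam l φ).1 := by
    show P.stt.1 = _
    rw [hPs]
  have hx' : |P.A.trace| < RR lam := by rw [htr]; exact hx
  obtain ⟨σ, hσ, hPC⟩ : ∃ σ : ℝ, (σ = 1 ∨ σ = -1) ∧ PC σ (tw P.A P.B) := by
    rcases tw_PC hPg.dA hPg.dB hk' hx' with h | h
    · exact ⟨1, Or.inl rfl, h⟩
    · exact ⟨-1, Or.inr rfl, h⟩
  have hQA : PC0 σ Q.LA := Or.inr rfl
  have hQB : PC σ Q.LB := hPC
  obtain ⟨-, h2, h3⟩ := TM.nexts_PC hσ hQg hQA hQB l hl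
  have hB : (TM.nexts l Q).B = (tmTop lam φ).B := by
    rw [(TM.nexts_A_indep l Q P rfl rfl).2]
    show (TM.nexts l (TM.prevs l (tmTop lam φ))).B = _
    rw [TM.nexts_prevs l (TM.good_top lam φ)]
  have hd : (dfwd l (str lam l φ) (D0 (str lam l φ))).2.1 =
      ((TM.nexts l Q).B * (TM.nexts l Q).LB).trace := by
    rw [← hQd]
    nth_rewrite 1 [← hQs]
    rw [← TM.dst_nexts l hQg]
    rfl
  have hBt : (TM.nexts l Q).B.trace = 0 := by
    rw [hB]; simp [tmTop, Matrix.trace_fin_two]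
  have hdet := (TM.good_nexts l hQg).dB
  have h4 := (PC.tr_mul hσ hdet (by rw [hBt]; norm_num) h2).2
  rw [hBt] at h4
  have h5 : Real.sqrt (4 - (0 : ℝ) ^ 2) = 2 := by
    rw [show (4 : ℝ) - 0 ^ 2 = 2 ^ 2 by norm_num]
    exact Real.sqrt_sq (by norm_num)
  rw [h5] at h4
  have h6 : Q.LB.det = RR lam ^ 2 - (str lam l φ).1 ^ 2 := by
    show (tw P.A P.B).det = _
    rw [tw_det hPg.dA hPg.dB, hk', htr, RR_sq]
  rw [h6] at h3
  rw [hd]
  calc 2 * (nB l : ℝ) * Real.sqrt (RR lam ^ 2 - (str lam l φ).1 ^ 2)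
      = 2 * ((nB l : ℝ) * Real.sqrt (RR lam ^ 2 - (str lam l φ).1 ^ 2)) := by ring
    _ ≤ 2 * Real.sqrt (TM.nexts l Q).LB.det := by linarith
    _ ≤ _ := h4

/-- `|T'| ≥ n √(R² - T²)` on the real circle -/
theorem TR_deriv_lower {lam : ℝ} (hlam : 0 < lam) (l : List ℕ) (hl : Pos l) (φ : ℝ)
    (hx : |TR lam l φ| < RR lam) :
    (nB l : ℝ) * Real.sqrt (RR lam ^ 2 - TR lam l φ ^ 2) ≤ |deriv (TR lam l) φ| := by
  have hfw := fwd_str lam l φ
  have h1 := twist_top_lower hlam l hl (str lam l φ) (kap_str lam l φ) hx (by rw [hfw]; rfl)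
  have h2 := crs_dfwd l _ _ _ _ (crs_D0 _ _ (tang_deriv_str lam l φ))
  have h3 := dfwd_deriv_str lam l l.length φ
  rw [List.take_length, List.drop_length] at h3
  have h4 : deriv (str lam []) φ = (-(RR lam * Real.sin φ), 0, -(RR lam * Real.cos φ)) := by
    have h : HasDerivAt (fun φ : ℝ =>
        ((RR lam * Real.cos φ, 0, -(RR lam * Real.sin φ)) : ℝ × ℝ × ℝ))
        (RR lam * (-Real.sin φ), 0, -(RR lam * Real.cos φ)) φ :=
      ((Real.hasDerivAt_cos φ).const_mul _).prodMk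
        ((hasDerivAt_const φ (0 : ℝ)).prodMk ((Real.hasDerivAt_sin φ).const_mul _).neg)
    have h2 : str lam [] = (fun φ : ℝ =>
        ((RR lam * Real.cos φ, 0, -(RR lam * Real.sin φ)) : ℝ × ℝ × ℝ)) := by
      funext φ
      rfl
    rw [h2, h.deriv]
    simp
  rw [h3, h4, hfw] at h2
  rw [deriv_TR]
  set τ := (deriv (str lam l) φ).1 with hτ
  set D := dfwd l (str lam l φ) (D0 (str lam l φ)) with hD
  set ω : ℝ := (-1) ^ l.length * τ with hω
  have e1 : (crs ((-(RR lam * Real.sin φ), 0, -(RR lam * Real.cos φ)) : St ℝ) D).1 =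
      (sgrad ω (topR lam φ)).1 := by rw [h2]
  have e3 : (crs ((-(RR lam * Real.sin φ), 0, -(RR lam * Real.cos φ)) : St ℝ) D).2.2 =
      (sgrad ω (topR lam φ)).2.2 := by rw [h2]
  simp only [crs, sgrad, kx, kz, topR] at e1 e3
  have hR : RR lam ≠ 0 := by
    have := two_lt_RR hlam
    intro h
    rw [h] at this
    norm_num at this
  have e5 : RR lam * D.2.1 = RR lam * (2 * ω) := by
    have hsc := Real.sin_sq_add_cos_sq φ
    linear_combination Real.cos φ * e1 - Real.sin φ * e3 - (RR lam * D.2.1 - 2 * RR lam * ω) * hsc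
  have e6 : D.2.1 = 2 * ω := mul_left_cancel₀ hR e5
  have e7 : |D.2.1| = 2 * |τ| := by
    rw [e6, hω, abs_mul, abs_mul, abs_pow, abs_neg, abs_one, one_pow, one_mul, abs_two]
  rw [e7] at h1
  have h8 : TR lam l φ = (str lam l φ).1 := rfl
  rw [h8]
  nlinarith [h1]

end Sturm
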