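import Pool.Agent.Lib.MP_e5ebf6_mp.NonReal
import Pool.Agent.Lib.MP_e5ebf6_mp.RealDeriv
import Pool.Agent.Lib.MP_e5ebf6_mp.Escape

/-! Module ZsBasic: the zeros of the last trace on the energy line. -/

open Complex Metric Set
noncomputable section
namespace Sturm

section nat
variable {K L : Type*} [CommRing K] [CommRing L]

private def zbMap (f : K →+* L) (s : St K) : St L := (f s.1, f s.2.1, f s.2.2)

private theorem zb_uu (f : K →+* L) (s : St K) : ∀ p, f (uu s p) = uu (zbMap f s) p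
  | 0 => rfl
  | 1 => rfl
  | (p + 2) => by
      have h1 := zb_uu f s (p + 1)
      have h2 := zb_uu f s p
      show f (s.2.1 * uu s (p + 1) - uu s p) =
        (zbMap f s).2.1 * uu (zbMap f s) (p + 1) - uu (zbMap f s) p
      rw [map_sub, map_mul, h1, h2]
      rfl

private theorem zb_fwd (f : K →+* L) : ∀ (l : List ℕ) (s : St K),
    fwd l (zbMap f s) = zbMap f (fwd l s)
  | [], s => rfl
  | b :: l, s => by
      show fwd l (fwd1 b (zbMap f s)) = zbMap f (fwd l (fwd1 b s))
      rw [← zb_fwd f l (fwd1 b s)]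
      congr 1
      show (f s.2.1, uu (zbMap f s) b, uu (zbMap f s) (b + 1)) =
        (f s.2.1, f (uu s b), f (uu s (b + 1)))
      rw [zb_uu, zb_uu]

end nat

private theorem zb_kap {K : Type*} [CommRing K] (E c : K) :
    kap ((2, E, E - c) : St K) = 4 + c ^ 2 := by
  show (2 : K) ^ 2 + E ^ 2 + (E - c) ^ 2 - 2 * E * (E - c) = 4 + c ^ 2
  ring

theorem Zs_iff (lam : ℝ) (l : List ℕ) (E : ℝ) :
    E ∈ Zs lam l ↔ ∃ φ : ℝ, str lam l φ = (2, E, E - lam) := by
  constructor
  · intro h
    exact exists_circle_real lam l _ (zb_kap E lam) h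
  · rintro ⟨φ, hφ⟩
    show (fwd l ((2, E, E - lam) : St ℝ)).2.1 = 0
    rw [← hφ, fwd_str]
    rfl

theorem Zs_bound {lam : ℝ} (hlam : 0 < lam) (l : List ℕ) (hl : Pos l) {E : ℝ}
    (hE : E ∈ Zs lam l) : |E| ≤ K0 lam := by
  obtain ⟨φ, hφ⟩ := (Zs_iff lam l E).1 hE
  have hR := two_lt_RR hlam
  have h := coord_bound hlam l hl (φ : ℂ) (by
    rw [st_ofReal, hφ]
    simp only [Complex.norm_real, Real.norm_eq_abs]
    rw [abs_of_pos (by norm_num : (0:ℝ) < 2)]
    exact hR.le)
  have h1 := h.1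
  rw [st_ofReal, hφ] at h1
  simpa using h1

/-- the trace polynomial on the energy line -/
def xpol (lam : ℝ) (l : List ℕ) : Polynomial ℂ :=
  (fwd l ((2, Polynomial.X, Polynomial.X - Polynomial.C (lam : ℂ)) : St (Polynomial ℂ))).2.1

theorem xpol_eval (lam : ℝ) (l : List ℕ) (E : ℂ) :
    (xpol lam l).eval E = (fwd l ((2, E, E - lam) : St ℂ)).2.1 := by
  have h := zb_fwd (Polynomial.evalRingHom E) l
    ((2, Polynomial.X, Polynomial.X - Polynomial.C (lam : ℂ)) : St (Polynomial ℂ))
  have h2 : zbMap (Polynomial.evalRingHom E)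
      ((2, Polynomial.X, Polynomial.X - Polynomial.C (lam : ℂ)) : St (Polynomial ℂ)) =
      (2, E, E - lam) := by
    simp [zbMap]
  rw [h2] at h
  rw [h]
  rfl

private theorem zb_uu_monic (s : St (Polynomial ℂ)) (m n : ℕ) (hn : 1 ≤ n) (hx : s.1.Monic)
    (hy : s.2.1.Monic) (hz : s.2.2.Monic) (dx : s.1.natDegree = m) (dy : s.2.1.natDegree = n)
    (dz : s.2.2.natDegree = m + n) :
    ∀ p, (uu s p).Monic ∧ (uu s p).natDegree = m + p * n
  | 0 => ⟨hx, by rw [zero_mul, add_zero]; exact dx⟩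
  | 1 => ⟨hz, by rw [one_mul]; exact dz⟩
  | (p + 2) => by
      obtain ⟨h1, d1⟩ := zb_uu_monic s m n hn hx hy hz dx dy dz (p + 1)
      obtain ⟨h2, d2⟩ := zb_uu_monic s m n hn hx hy hz dx dy dz p
      have hm : (s.2.1 * uu s (p + 1)).Monic := hy.mul h1
      have dm : (s.2.1 * uu s (p + 1)).natDegree = m + (p + 2) * n := by
        rw [hy.natDegree_mul h1, dy, d1]
        ring
      have hlt : (uu s p).natDegree < (s.2.1 * uu s (p + 1)).natDegree := by
        rw [dm, d2]
        nlinarith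
      show (s.2.1 * uu s (p + 1) - uu s p).Monic ∧
        (s.2.1 * uu s (p + 1) - uu s p).natDegree = m + (p + 2) * n
      refine ⟨hm.sub_of_left (Polynomial.degree_lt_degree hlt), ?_⟩
      rw [Polynomial.natDegree_sub_eq_left_of_natDegree_lt hlt, dm]

private theorem zb_fwd_monic : ∀ (l : List ℕ), Pos l → ∀ (s : St (Polynomial ℂ)) (m n : ℕ),
    1 ≤ n → s.1.Monic → s.2.1.Monic → s.2.2.Monic → s.1.natDegree = m → s.2.1.natDegree = n →
    s.2.2.natDegree = m + n →
    (fwd l s).2.1.Monic ∧ (fwd l s).2.1.natDegree = (nAB l).1 * m + (nAB l).2 * n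
  | [], _, s, m, n, _, _, hy, _, _, dy, _ => ⟨hy, by
      show s.2.1.natDegree = 0 * m + 1 * n
      omega⟩
  | b :: l, hl, s, m, n, hn, hx, hy, hz, dx, dy, dz => by
      obtain ⟨h1, d1⟩ := zb_uu_monic s m n hn hx hy hz dx dy dz b
      obtain ⟨h2, d2⟩ := zb_uu_monic s m n hn hx hy hz dx dy dz (b + 1)
      have hb : 1 ≤ b := hl b (by simp)
      have hl' : Pos l := fun c hc => hl c (List.mem_cons_of_mem _ hc)
      have h0 : 1 ≤ m + b * n := by nlinarith
      obtain ⟨a1, a2⟩ := zb_fwd_monic l hl' (fwd1 b s) n (m + b * n) h0 hy h1 h2 dy d1 (by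
          show (uu s (b + 1)).natDegree = n + (m + b * n)
          rw [d2]
          ring)
      refine ⟨a1, ?_⟩
      show (fwd l (fwd1 b s)).2.1.natDegree = (nAB l).2 * m + ((nAB l).1 + b * (nAB l).2) * n
      rw [a2]
      ring

private theorem zb_first (lam : ℝ) : ∀ p : ℕ,
    (uu ((2, Polynomial.X, Polynomial.X - Polynomial.C (lam : ℂ)) : St (Polynomial ℂ))
      (p + 1)).Monic ∧
    (uu ((2, Polynomial.X, Polynomial.X - Polynomial.C (lam : ℂ)) : St (Polynomial ℂ))
      (p + 1)).natDegree = p + 1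
  | 0 => ⟨Polynomial.monic_X_sub_C _, Polynomial.natDegree_X_sub_C _⟩
  | 1 => by
      have e : uu ((2, Polynomial.X, Polynomial.X - Polynomial.C (lam : ℂ)) :
          St (Polynomial ℂ)) (1 + 1) =
          Polynomial.X * (Polynomial.X - Polynomial.C (lam : ℂ)) - 2 := rfl
      have hm : (Polynomial.X * (Polynomial.X - Polynomial.C (lam : ℂ))).Monic :=
        Polynomial.monic_X.mul (Polynomial.monic_X_sub_C _)
      have dm : (Polynomial.X * (Polynomial.X - Polynomial.C (lam : ℂ))).natDegree = 2 := by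
        rw [Polynomial.monic_X.natDegree_mul (Polynomial.monic_X_sub_C _),
          Polynomial.natDegree_X, Polynomial.natDegree_X_sub_C]
      have hlt : (2 : Polynomial ℂ).natDegree <
          (Polynomial.X * (Polynomial.X - Polynomial.C (lam : ℂ))).natDegree := by
        rw [dm]
        have : (2 : Polynomial ℂ) = Polynomial.C 2 := (map_ofNat Polynomial.C 2).symm
        rw [this, Polynomial.natDegree_C]
        norm_num
      rw [e]
      exact ⟨hm.sub_of_left (Polynomial.degree_lt_degree hlt), by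
        rw [Polynomial.natDegree_sub_eq_left_of_natDegree_lt hlt, dm]⟩
  | (p + 2) => by
      obtain ⟨h1, d1⟩ := zb_first lam (p + 1)
      obtain ⟨h2, d2⟩ := zb_first lam p
      have e : uu ((2, Polynomial.X, Polynomial.X - Polynomial.C (lam : ℂ)) :
          St (Polynomial ℂ)) (p + 2 + 1) =
          Polynomial.X * uu ((2, Polynomial.X, Polynomial.X - Polynomial.C (lam : ℂ)) :
          St (Polynomial ℂ)) (p + 1 + 1) - uu ((2, Polynomial.X,
          Polynomial.X - Polynomial.C (lam : ℂ)) : St (Polynomial ℂ)) (p + 1) := rfl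
      have hm := Polynomial.monic_X.mul h1
      have dm := Polynomial.monic_X.natDegree_mul h1
      rw [Polynomial.natDegree_X, d1] at dm
      have hlt := d2
      have hlt' : (uu ((2, Polynomial.X, Polynomial.X - Polynomial.C (lam : ℂ)) :
          St (Polynomial ℂ)) (p + 1)).natDegree < (Polynomial.X * uu ((2, Polynomial.X,
          Polynomial.X - Polynomial.C (lam : ℂ)) : St (Polynomial ℂ)) (p + 1 + 1)).natDegree := by
        rw [dm, d2]
        omega
      rw [e]
      refine ⟨hm.sub_of_left (Polynomial.degree_lt_degree hlt'), ?_⟩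
      rw [Polynomial.natDegree_sub_eq_left_of_natDegree_lt hlt', dm]
      omega

theorem xpol_monic (lam : ℝ) (l : List ℕ) (hl : Pos l) :
    (xpol lam l).Monic ∧ (xpol lam l).natDegree = nB l := by
  cases l with
  | nil => exact ⟨Polynomial.monic_X, Polynomial.natDegree_X⟩
  | cons b l =>
      have hb : 1 ≤ b := hl b (by simp)
      have hl' : Pos l := fun c hc => hl c (List.mem_cons_of_mem _ hc)
      obtain ⟨c, rfl⟩ := Nat.exists_eq_add_of_le' hb
      obtain ⟨h1, d1⟩ := zb_first lam c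
      obtain ⟨h2, d2⟩ := zb_first lam (c + 1)
      obtain ⟨a1, a2⟩ := zb_fwd_monic l hl' (fwd1 (c + 1)
        ((2, Polynomial.X, Polynomial.X - Polynomial.C (lam : ℂ)) : St (Polynomial ℂ)))
        1 (c + 1) (by omega) Polynomial.monic_X h1 h2 Polynomial.natDegree_X d1 (by
          show Polynomial.natDegree (uu (_ : St (Polynomial ℂ)) (c + 1 + 1)) = 1 + (c + 1)
          rw [d2]
          omega)
      refine ⟨a1, ?_⟩
      show Polynomial.natDegree (fwd l (fwd1 (c + 1) (_ : St (Polynomial ℂ)))).2.1 =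
        (nAB l).1 + (c + 1) * (nAB l).2
      rw [a2]
      ring

private theorem zb_duu_smul {K : Type*} [CommRing K] (s v : St K) (c : K) :
    ∀ p, duu s (c * v.1, c * v.2.1, c * v.2.2) p = c * duu s v p
  | 0 => rfl
  | 1 => rfl
  | (p + 2) => by
      have h1 := zb_duu_smul s v c (p + 1)
      have h2 := zb_duu_smul s v c p
      show c * v.2.1 * uu s (p + 1) + s.2.1 * duu s (c * v.1, c * v.2.1, c * v.2.2) (p + 1) -
        duu s (c * v.1, c * v.2.1, c * v.2.2) p =
        c * (v.2.1 * uu s (p + 1) + s.2.1 * duu s v (p + 1) - duu s v p)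
      rw [h1, h2]
      ring

private theorem zb_dfwd_smul {K : Type*} [CommRing K] (c : K) : ∀ (l : List ℕ) (s v : St K),
    dfwd l s (c * v.1, c * v.2.1, c * v.2.2) =
      (c * (dfwd l s v).1, c * (dfwd l s v).2.1, c * (dfwd l s v).2.2)
  | [], s, v => rfl
  | b :: l, s, v => by
      have h := zb_dfwd_smul c l (fwd1 b s) (dfwd1 b s v)
      show dfwd l (fwd1 b s) (dfwd1 b s (c * v.1, c * v.2.1, c * v.2.2)) = _
      have h2 : dfwd1 b s (c * v.1, c * v.2.1, c * v.2.2) =
          (c * (dfwd1 b s v).1, c * (dfwd1 b s v).2.1, c * (dfwd1 b s v).2.2) := by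
        show (c * v.2.1, duu s _ b, duu s _ (b + 1)) = _
        rw [zb_duu_smul, zb_duu_smul]
        rfl
      rw [h2, h]
      rfl

private theorem zb_sqrt {lam : ℝ} (hlam : 0 < lam) : Real.sqrt (RR lam ^ 2 - 2 ^ 2) = lam := by
  rw [RR_sq]
  have : (4 + lam ^ 2 - 2 ^ 2 : ℝ) = lam ^ 2 := by ring
  rw [this, Real.sqrt_sq hlam.le]

/-- the real derivative of the last trace on the energy line does not vanish at a zero -/
private theorem zb_deriv_real {lam : ℝ} (hlam : 0 < lam) (l : List ℕ) (hl : Pos l) (e : ℝ)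
    (h : (fwd l ((2, e, e - lam) : St ℝ)).2.1 = 0) :
    (dfwd l ((2, e, e - lam) : St ℝ) (0, 1, 1)).2.1 ≠ 0 := by
  intro h0
  have hR := two_lt_RR hlam
  have h1 := twist_top_lower hlam l hl ((2, e, e - lam) : St ℝ) (zb_kap e lam)
    (by
      show |(2:ℝ)| < RR lam
      rw [abs_of_pos (by norm_num : (0:ℝ) < 2)]
      exact hR) h
  have h2 : D0 ((2, e, e - lam) : St ℝ) =
      ((-2 * lam) * (0:ℝ), (-2 * lam) * (1:ℝ), (-2 * lam) * (1:ℝ)) := by
    show ((0:ℝ), 2 * (e - lam) - 2 * e, -(2 * e - 2 * (e - lam))) = _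
    refine Prod.ext ?_ (Prod.ext ?_ ?_)
    · show (0:ℝ) = -2 * lam * 0
      ring
    · show 2 * (e - lam) - 2 * e = -2 * lam * 1
      ring
    · show -(2 * e - 2 * (e - lam)) = -2 * lam * 1
      ring
  have h3 := zb_dfwd_smul (-2 * lam) l ((2, e, e - lam) : St ℝ) ((0, 1, 1) : St ℝ)
  have h4 : (dfwd l ((2, e, e - lam) : St ℝ) (D0 ((2, e, e - lam) : St ℝ))).2.1 = 0 := by
    rw [h2]
    have h5 := congrArg (fun p => p.2.1) h3
    simp only [] at h5
    exact h5.trans (by
      show -2 * lam * (dfwd l ((2, e, e - lam) : St ℝ) (0, 1, 1)).2.1 = 0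
      rw [h0, mul_zero])
  rw [h4, abs_zero] at h1
  have h5 : Real.sqrt (RR lam ^ 2 - ((2, e, e - lam) : St ℝ).1 ^ 2) = lam := zb_sqrt hlam
  rw [h5] at h1
  have h6 : (1:ℝ) ≤ nB l := by exact_mod_cast nB_pos l hl
  nlinarith

/-- all roots are real and simple -/
theorem xpol_roots {lam : ℝ} (hlam : 0 < lam) (l : List ℕ) (hl : Pos l) (E : ℂ)
    (h : (xpol lam l).eval E = 0) : E.im = 0 ∧ (Polynomial.derivative (xpol lam l)).eval E ≠ 0 := by
  rw [xpol_eval] at h
  obtain ⟨φ, hφ⟩ := exists_circle_complex lam l _ (zb_kap E (lam : ℂ)) h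
  have hT : TT lam l φ = 2 := by
    show (st lam l φ).1 = 2
    rw [hφ]
  have hφ0 : φ.im = 0 := by
    by_contra hne
    refine TT_not_band hlam l hl φ hne 2 (by rw [abs_of_pos (by norm_num : (0:ℝ) < 2)]) ?_
    rw [hT]
    norm_num
  have hφr : φ = (φ.re : ℂ) := by
    apply Complex.ext
    · simp
    · simpa using hφ0
  have hEr : E = (((str lam l φ.re).2.1 : ℝ) : ℂ) := by
    have h1 := hφ
    rw [hφr, st_ofReal] at h1
    exact (congrArg (fun p => p.2.1) h1).symm
  set e : ℝ := (str lam l φ.re).2.1 with he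
  refine ⟨by rw [hEr]; exact Complex.ofReal_im _, ?_⟩
  -- real version of the root
  have hcast : ∀ t : ℝ, (xpol lam l).eval (t : ℂ) =
      (((fwd l ((2, t, t - lam) : St ℝ)).2.1 : ℝ) : ℂ) := by
    intro t
    rw [xpol_eval]
    have h1 := zb_fwd Complex.ofRealHom l ((2, t, t - lam) : St ℝ)
    have h2 : zbMap Complex.ofRealHom ((2, t, t - lam) : St ℝ) = ((2, (t : ℂ), (t : ℂ) - lam)) := by
      simp [zbMap]
    rw [h2] at h1
    rw [h1]
    rfl
  have hreal : (fwd l ((2, e, e - lam) : St ℝ)).2.1 = 0 := by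
    have h1 := hcast e
    rw [← hEr, xpol_eval, h] at h1
    exact_mod_cast h1.symm
  have hne := zb_deriv_real hlam l hl e hreal
  have d1 : HasDerivAt (fun t : ℝ => ((2, t, t - lam) : St ℝ)) ((0, 1, 1) : St ℝ) e := by
    have a1 : HasDerivAt (fun _ : ℝ => (2:ℝ)) 0 e := hasDerivAt_const _ _
    have a2 : HasDerivAt (fun t : ℝ => t) 1 e := hasDerivAt_id _
    have a3 : HasDerivAt (fun t : ℝ => t - lam) 1 e := (hasDerivAt_id _).sub_const _
    exact a1.prodMk (a2.prodMk a3)
  have d2 := hasDerivAt_fwd d1 l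
  have d3 : HasDerivAt (fun t : ℝ => (fwd l ((2, t, t - lam) : St ℝ)).2.1)
      (dfwd l ((2, e, e - lam) : St ℝ) (0, 1, 1)).2.1 e := by
    have := (d2.hasFDerivAt.snd.fst).hasDerivAt
    simpa using this
  have d4 := d3.ofReal_comp
  have d5 : HasDerivAt (fun t : ℝ => (xpol lam l).eval (t : ℂ))
      ((Polynomial.derivative (xpol lam l)).eval (e : ℂ)) e :=
    ((xpol lam l).hasDerivAt (e : ℂ)).comp_ofReal
  have d6 : (fun t : ℝ => (xpol lam l).eval (t : ℂ)) =
      fun t : ℝ => (((fwd l ((2, t, t - lam) : St ℝ)).2.1 : ℝ) : ℂ) := funext hcast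
  rw [d6] at d5
  have d7 := d5.unique d4
  rw [hEr, d7]
  exact_mod_cast hne

private theorem zb_image {lam : ℝ} (hlam : 0 < lam) (l : List ℕ) (hl : Pos l) :
    (fun E : ℝ => (E : ℂ)) '' Zs lam l = ↑((xpol lam l).roots.toFinset) := by
  have hcast : ∀ t : ℝ, (xpol lam l).eval (t : ℂ) =
      (((fwd l ((2, t, t - lam) : St ℝ)).2.1 : ℝ) : ℂ) := by
    intro t
    rw [xpol_eval]
    have h1 := zb_fwd Complex.ofRealHom l ((2, t, t - lam) : St ℝ)
    have h2 : zbMap Complex.ofRealHom ((2, t, t - lam) : St ℝ) = ((2, (t : ℂ), (t : ℂ) - lam)) := by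
      simp [zbMap]
    rw [h2] at h1
    rw [h1]
    rfl
  have hne : xpol lam l ≠ 0 := (xpol_monic lam l hl).1.ne_zero
  ext z
  simp only [Set.mem_image, Finset.mem_coe, Multiset.mem_toFinset, Polynomial.mem_roots hne,
    Polynomial.IsRoot.def]
  constructor
  · rintro ⟨E, hE, rfl⟩
    have hE' : (fwd l ((2, E, E - lam) : St ℝ)).2.1 = 0 := hE
    rw [hcast, hE']
    simp
  · intro hz
    have him := (xpol_roots hlam l hl z hz).1
    have hzr : z = (z.re : ℂ) := by
      apply Complex.ext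
      · simp
      · simpa using him
    refine ⟨z.re, ?_, hzr.symm⟩
    have h1 := hcast z.re
    rw [← hzr, hz] at h1
    show (fwd l ((2, z.re, z.re - lam) : St ℝ)).2.1 = 0
    exact_mod_cast h1.symm

theorem Zs_finite {lam : ℝ} (hlam : 0 < lam) (l : List ℕ) (hl : Pos l) : (Zs lam l).Finite := by
  have h := zb_image hlam l hl
  have h2 : ((fun E : ℝ => (E : ℂ)) '' Zs lam l).Finite := by
    rw [h]
    exact Finset.finite_toSet _
  exact Set.Finite.of_finite_image h2 (Complex.ofReal_injective.injOn)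

theorem Zs_card {lam : ℝ} (hlam : 0 < lam) (l : List ℕ) (hl : Pos l) :
    (Zs lam l).ncard = nB l := by
  have hne : xpol lam l ≠ 0 := (xpol_monic lam l hl).1.ne_zero
  have h1 : (Zs lam l).ncard = ((fun E : ℝ => (E : ℂ)) '' Zs lam l).ncard :=
    (Set.ncard_image_of_injective _ Complex.ofReal_injective).symm
  have hnd : (xpol lam l).roots.Nodup := by
    rw [Multiset.nodup_iff_count_le_one]
    intro z
    rw [Polynomial.count_roots]
    by_contra hlt
    push Not at hlt
    have h2 := (Polynomial.one_lt_rootMultiplicity_iff_isRoot hne).1 hlt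
    exact (xpol_roots hlam l hl z h2.1).2 h2.2
  rw [h1, zb_image hlam l hl, Set.ncard_coe_finset, Multiset.toFinset_card_of_nodup hnd,
    ← (xpol_monic lam l hl).2]
  exact (IsAlgClosed.splits (xpol lam l)).natDegree_eq_card_roots.symm

private theorem zb_nAB_le : ∀ l : List ℕ, Pos l → (nAB l).1 ≤ (nAB l).2
  | [], _ => Nat.zero_le _
  | b :: l, hl => by
      have hb : 1 ≤ b := hl b (by simp)
      show (nAB l).2 ≤ (nAB l).1 + b * (nAB l).2
      nlinarith

/-- comparison of the counts of consecutive levels -/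
theorem nB_cons_le (b : ℕ) (l : List ℕ) (hl : Pos (b :: l)) :
    nB l ≤ nB (b :: l) ∧ nB (b :: l) ≤ (b + 1) * nB l := by
  have hb : 1 ≤ b := hl b (by simp)
  have hl' : Pos l := fun c hc => hl c (List.mem_cons_of_mem _ hc)
  have h := zb_nAB_le l hl'
  constructor
  · show (nAB l).2 ≤ (nAB l).1 + b * (nAB l).2
    nlinarith
  · show (nAB l).1 + b * (nAB l).2 ≤ (b + 1) * (nAB l).2
    nlinarith

private theorem zb_len : ∀ l : List ℕ, Pos l → l.length ≤ (nAB l).2 ∧ (l ≠ [] → 1 ≤ (nAB l).1)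
  | [], _ => ⟨Nat.zero_le _, fun h => absurd rfl h⟩
  | b :: l, hl => by
      have hb : 1 ≤ b := hl b (by simp)
      have hl' : Pos l := fun c hc => hl c (List.mem_cons_of_mem _ hc)
      obtain ⟨h1, h2⟩ := zb_len l hl'
      have h3 : 1 ≤ (nAB l).2 := nB_pos l hl'
      refine ⟨?_, fun _ => h3⟩
      show l.length + 1 ≤ (nAB l).1 + b * (nAB l).2
      rcases eq_or_ne l [] with rfl | hne
      · show 0 + 1 ≤ 0 + b * 1
        omega
      · have h4 := h2 hne
        nlinarith

/-- counts tend to infinity -/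
theorem nB_lM_tendsto (b : ℕ → ℕ) (hb : ∀ k, 1 ≤ b k) :
    Filter.Tendsto (fun M => nB (lM b M)) Filter.atTop Filter.atTop := by
  refine Filter.tendsto_atTop_mono (fun M => ?_) Filter.tendsto_id
  have hp : Pos (lM b M) := by
    intro c hc
    obtain ⟨k, _, rfl⟩ := List.mem_map.1 hc
    exact hb k
  have h := (zb_len (lM b M) hp).1
  have h2 : (lM b M).length = M := by simp [lM]
  rw [h2] at h
  exact h

end Sturm
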