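import Pool.Agent.Lib.MP_e5ebf6_mp.MechTrace
import Pool.Agent.Lib.MP_e5ebf6_mp.ZsBasic

/-! Module Digits: continued fraction digits.

PROOFS.
* `gauss_irr`: `1/α` is irrational (`Irrational.inv`), so is its fractional part
  (`irrational_sub_intCast`-type lemma), which lies in `[0,1)` and is not `0`.
* `gauss_iter_irr`: induction.
* `dig_pos`: `1 / (gaussMap^[k] α) > 1`, `Nat.le_floor`.
* `dig_shift`: `gaussMap^[k] (gaussMap^[i] α) = gaussMap^[k+i] α` (`Function.iterate_add_apply`).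
* `alpha_eq`: `1/α = ⌊1/α⌋ + fract (1/α)`, so `α = 1 / (dig α 0 + gaussMap α)`.
* `lM_dig_succ`: `lM (dig α) (M+1) = dig α 0 :: lM (dig (gaussMap α)) M`
  (`List.range_succ_eq_map`, `List.map_map`).
* `dig_err`: `|α q - p| < 1` for `(p,q) = nAB (lM (dig α) M)`: induction on `M` generalising `α`.
  `M = 0`: `(0,1)`, `|α| < 1`.  Step: `nAB (c :: l) = (q', p' + c q')` for `(p',q') = nAB l`, and with
  `y = gaussMap α`, `α (c + y) = 1`:
  `α (p' + c q') - q' = α p' + (α c - 1) q' = α p' - α y q' = - α (y q' - p')`, and `|α| ≤ 1`.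
* `ratio_tendsto`: `|α - p/q| < 1/q`, and `q = nB (lM (dig α) M) → ∞` (`nB_lM_tendsto`).
-/

open Filter Topology Set
noncomputable section
namespace Sturm

/-- the Gauss map -/
def gaussMap (α : ℝ) : ℝ := Int.fract (1 / α)

/-- the continued fraction digits: `α = [0; dig α 0, dig α 1, ...]` -/
def dig (α : ℝ) (k : ℕ) : ℕ := ⌊1 / (gaussMap^[k] α)⌋₊

theorem gauss_irr {α : ℝ} (h0 : 0 < α) (ha : Irrational α) :
    0 < gaussMap α ∧ gaussMap α < 1 ∧ Irrational (gaussMap α) := by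
  have h1 : Irrational (1 / α) := by
    rw [one_div]
    exact ha.inv
  have h2 : Irrational (gaussMap α) := by
    unfold gaussMap
    rw [← Int.self_sub_floor]
    exact h1.sub_intCast _
  refine ⟨lt_of_le_of_ne (Int.fract_nonneg _) ?_, Int.fract_lt_one _, h2⟩
  intro h
  exact h2.ne_zero h.symm

theorem gauss_iter_irr {α : ℝ} (h0 : 0 < α) (h1 : α < 1) (ha : Irrational α) (i : ℕ) :
    0 < gaussMap^[i] α ∧ gaussMap^[i] α < 1 ∧ Irrational (gaussMap^[i] α) := by
  induction i with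
  | zero => exact ⟨h0, h1, ha⟩
  | succ i ih =>
    rw [Function.iterate_succ_apply']
    exact gauss_irr ih.1 ih.2.2

theorem dig_pos {α : ℝ} (h0 : 0 < α) (h1 : α < 1) (ha : Irrational α) (k : ℕ) : 1 ≤ dig α k := by
  obtain ⟨g1, g2, -⟩ := gauss_iter_irr h0 h1 ha k
  unfold dig
  apply Nat.le_floor
  rw [Nat.cast_one]
  exact (one_le_div g1).2 g2.le

theorem dig_shift (α : ℝ) (i : ℕ) : dig (gaussMap^[i] α) = shf i (dig α) := by
  funext k
  unfold shf dig
  rw [Function.iterate_add_apply]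

theorem alpha_eq {α : ℝ} (h0 : 0 < α) : α * (dig α 0 + gaussMap α) = 1 := by
  have h1 : 0 ≤ 1 / α := by positivity
  have h2 : ((dig α 0 : ℕ) : ℝ) = (⌊1 / α⌋ : ℝ) := by
    unfold dig
    rw [Function.iterate_zero, id, natCast_floor_eq_intCast_floor h1]
  rw [h2]
  unfold gaussMap
  rw [Int.floor_add_fract]
  field_simp

theorem lM_dig_succ (α : ℝ) (M : ℕ) :
    lM (dig α) (M + 1) = dig α 0 :: lM (dig (gaussMap α)) M := by
  unfold lM
  rw [List.range_succ_eq_map, List.map_cons, List.map_map]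
  congr 1

theorem lM_dig_pos {α : ℝ} (h0 : 0 < α) (h1 : α < 1) (ha : Irrational α) (M : ℕ) :
    Pos (lM (dig α) M) := by
  intro b hb
  unfold lM at hb
  obtain ⟨k, -, rfl⟩ := List.mem_map.1 hb
  exact dig_pos h0 h1 ha k

theorem dig_err {α : ℝ} (h0 : 0 < α) (h1 : α < 1) (ha : Irrational α) (M : ℕ) :
    |α * (nAB (lM (dig α) M)).2 - (nAB (lM (dig α) M)).1| < 1 := by
  induction M generalizing α with
  | zero =>
    show |α * ((1 : ℕ) : ℝ) - ((0 : ℕ) : ℝ)| < 1
    rw [Nat.cast_one, Nat.cast_zero, mul_one, sub_zero, abs_of_pos h0]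
    exact h1
  | succ M ih =>
    obtain ⟨g1, g2, g3⟩ := gauss_irr h0 ha
    have h2 := ih g1 g2 g3
    have h3 := alpha_eq h0
    rw [lM_dig_succ]
    show |α * (((nAB (lM (dig (gaussMap α)) M)).1 + dig α 0 * (nAB (lM (dig (gaussMap α)) M)).2 :
      ℕ) : ℝ) - ((nAB (lM (dig (gaussMap α)) M)).2 : ℝ)| < 1
    have h4 : α * (((nAB (lM (dig (gaussMap α)) M)).1 +
        dig α 0 * (nAB (lM (dig (gaussMap α)) M)).2 : ℕ) : ℝ) -
        ((nAB (lM (dig (gaussMap α)) M)).2 : ℝ) =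
        -α * (gaussMap α * ((nAB (lM (dig (gaussMap α)) M)).2 : ℝ) -
          ((nAB (lM (dig (gaussMap α)) M)).1 : ℝ)) := by
      push_cast
      linear_combination ((nAB (lM (dig (gaussMap α)) M)).2 : ℝ) * h3
    rw [h4, abs_mul, abs_neg, abs_of_pos h0]
    have h5 := abs_nonneg (gaussMap α * ((nAB (lM (dig (gaussMap α)) M)).2 : ℝ) -
          ((nAB (lM (dig (gaussMap α)) M)).1 : ℝ))
    nlinarith

theorem ratio_tendsto {α : ℝ} (h0 : 0 < α) (h1 : α < 1) (ha : Irrational α) :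
    Tendsto (fun M => ((nAB (lM (dig α) M)).1 : ℝ) / (nAB (lM (dig α) M)).2) atTop (𝓝 α) := by
  have h2 : Tendsto (fun M => nB (lM (dig α) M)) atTop atTop :=
    nB_lM_tendsto (dig α) (dig_pos h0 h1 ha)
  have h3 : Tendsto (fun M => (1 : ℝ) / (nB (lM (dig α) M) : ℝ)) atTop (𝓝 0) :=
    tendsto_one_div_atTop_nhds_zero_nat.comp h2
  rw [tendsto_iff_dist_tendsto_zero]
  refine squeeze_zero (fun _ => dist_nonneg) (fun M => ?_) h3
  have hpos : (0 : ℝ) < ((nAB (lM (dig α) M)).2 : ℝ) := by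
    have := (nAB_coprime (lM (dig α) M) (lM_dig_pos h0 h1 ha M)).2
    exact_mod_cast this
  have h4 := dig_err h0 h1 ha M
  rw [Real.dist_eq]
  have h5 : ((nAB (lM (dig α) M)).1 : ℝ) / (nAB (lM (dig α) M)).2 - α =
      -(α * (nAB (lM (dig α) M)).2 - (nAB (lM (dig α) M)).1) / (nAB (lM (dig α) M)).2 := by
    field_simp
    ring
  rw [h5, abs_div, abs_neg, abs_of_pos hpos]
  unfold nB
  exact div_le_div_of_nonneg_right h4.le hpos.le

end Sturm
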