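import Pool.Agent.Lib.MP_e5ebf6_mp.ZtDefs

/-! Module TransferAbs: transport of covers through finite sets (pure measure theory). -/

open Metric Set MeasureTheory Filter Topology
noncomputable section
namespace Sturm

/-- the doubled open intervals of a finite family -/
private def taU (F : Finset (ℝ × ℝ)) : Set ℝ :=
  ⋃ p ∈ F, Ioo (p.1 - p.2 / 2) (p.1 + 3 * p.2 / 2)

/-- the index type of the groups -/
private abbrev taJ (T : ℕ) (F : Fin 2 → Finset (ℝ × ℝ)) : Type :=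
  Fin T × (Σ i : Fin 2, {p // p ∈ F i})

private theorem taU_open (F : Finset (ℝ × ℝ)) : IsOpen (taU F) :=
  isOpen_biUnion fun _ _ => isOpen_Ioo

/-- one finite step -/
private theorem ta_step (A : Set ℝ) (B : Fin 2 → Set ℝ) (hA : A.Finite) (hA' : A.Nonempty)
    (hB : ∀ i, (B i).Finite) (K : ℝ) (hK : A ⊆ Icc (-K) K) (T : ℕ) (C κ : ℝ) (hC : 1 ≤ C)
    (hκ : 0 < κ) (e : ℝ → ℝ) (s : ℝ → Fin 2) (τ : ℝ → Fin T)
    (he : ∀ E ∈ A, e E ∈ B (s E))
    (hd : ∀ E₁ ∈ A, ∀ E₂ ∈ A, s E₁ = s E₂ → τ E₁ = τ E₂ → |E₁ - E₂| ≤ C * |e E₁ - e E₂| ^ κ)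
    (F : Fin 2 → Finset (ℝ × ℝ)) (N : ℝ)
    (hN : ∀ i, ((B i \ taU (F i)).ncard : ℝ) ≤ N) :
    ∃ m : Fin T × (Σ i : Fin 2, {p // p ∈ F i}) → ℝ, (∀ j, m j ∈ Icc (-K) K) ∧
      ((A \ ⋃ j, Icc (m j) (m j + C * (2 * (j.2.2 : ℝ × ℝ).2) ^ κ)).ncard : ℝ) ≤ T * (2 * N) := by
  classical
  have hC0 : 0 < C := by linarith
  have hm : ∀ j : Fin T × (Σ i : Fin 2, {p // p ∈ F i}), ∃ m : ℝ, m ∈ Icc (-K) K ∧
      ∀ E ∈ A, s E = j.2.1 → τ E = j.1 →
        e E ∈ Ioo ((j.2.2 : ℝ × ℝ).1 - (j.2.2 : ℝ × ℝ).2 / 2)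
          ((j.2.2 : ℝ × ℝ).1 + 3 * (j.2.2 : ℝ × ℝ).2 / 2) →
        E ∈ Icc m (m + C * (2 * (j.2.2 : ℝ × ℝ).2) ^ κ) := by
    intro j
    set G : Set ℝ := {E | E ∈ A ∧ s E = j.2.1 ∧ τ E = j.1 ∧
      e E ∈ Ioo ((j.2.2 : ℝ × ℝ).1 - (j.2.2 : ℝ × ℝ).2 / 2)
          ((j.2.2 : ℝ × ℝ).1 + 3 * (j.2.2 : ℝ × ℝ).2 / 2)} with hG
    have hGA : G ⊆ A := fun E hE => hE.1
    rcases G.eq_empty_or_nonempty with hGe | hGn
    · obtain ⟨a, ha⟩ := hA'
      refine ⟨a, hK ha, fun E h1 h2 h3 h4 => ?_⟩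
      have : E ∈ G := ⟨h1, h2, h3, h4⟩
      rw [hGe] at this
      exact absurd this (Set.notMem_empty E)
    · obtain ⟨a, haG, hmin⟩ := Set.exists_min_image G id (hA.subset hGA) hGn
      refine ⟨a, hK (hGA haG), fun E h1 h2 h3 h4 => ⟨hmin E ⟨h1, h2, h3, h4⟩, ?_⟩⟩
      obtain ⟨b1, b2, b3, b4⟩ := haG
      have h5 := hd E h1 a b1 (h2.trans b2.symm) (h3.trans b3.symm)
      have h6 : |e E - e a| ≤ 2 * (j.2.2 : ℝ × ℝ).2 := by
        rw [abs_le]
        constructor <;> linarith [h4.1, h4.2, b4.1, b4.2]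
      have h7 : |e E - e a| ^ κ ≤ (2 * (j.2.2 : ℝ × ℝ).2) ^ κ :=
        Real.rpow_le_rpow (abs_nonneg _) h6 hκ.le
      have h8 : E - a ≤ |E - a| := le_abs_self _
      have h9 := mul_le_mul_of_nonneg_left h7 hC0.le
      linarith
  choose m hmK hm2 using hm
  refine ⟨m, hmK, ?_⟩
  set Bad : Set ℝ := {E | E ∈ A ∧ e E ∉ taU (F (s E))} with hBad
  have hsub : (A \ ⋃ j, Icc (m j) (m j + C * (2 * (j.2.2 : ℝ × ℝ).2) ^ κ)) ⊆ Bad := by
    rintro E ⟨hE, hE2⟩
    refine ⟨hE, fun hU => hE2 ?_⟩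
    rw [taU, mem_iUnion₂] at hU
    obtain ⟨p, hp, hpE⟩ := hU
    rw [mem_iUnion]
    exact ⟨(τ E, ⟨s E, ⟨p, hp⟩⟩), hm2 _ E hE rfl rfl hpE⟩
  have hBadfin : Bad.Finite := hA.subset fun E hE => hE.1
  have h1 : ((A \ ⋃ j, Icc (m j) (m j + C * (2 * (j.2.2 : ℝ × ℝ).2) ^ κ)).ncard : ℝ) ≤
      Bad.ncard := by
    exact_mod_cast Set.ncard_le_ncard hsub hBadfin
  refine h1.trans ?_
  have hfinD : ∀ i, (B i \ taU (F i)).Finite := fun i => (hB i).subset sdiff_subset
  have h2 : Bad.ncard ≤ T * ∑ i : Fin 2, (B i \ taU (F i)).ncard := by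
    rw [Set.ncard_eq_toFinset_card _ hBadfin]
    have hcard : ((Finset.univ : Finset (Fin T)) ×ˢ
        ((Finset.univ : Finset (Fin 2)).sigma fun i => (hfinD i).toFinset)).card =
        T * ∑ i : Fin 2, (B i \ taU (F i)).ncard := by
      rw [Finset.card_product, Finset.card_univ, Fintype.card_fin, Finset.card_sigma]
      congr 1
      refine Finset.sum_congr rfl fun i _ => ?_
      rw [Set.ncard_eq_toFinset_card _ (hfinD i)]
    rw [← hcard]
    refine Finset.card_le_card_of_injOn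
      (fun E => (τ E, (⟨s E, e E⟩ : Σ _ : Fin 2, ℝ))) ?_ ?_
    · intro E hE
      rw [Finset.mem_coe, Set.Finite.mem_toFinset] at hE
      rw [Finset.mem_coe, Finset.mem_product, Finset.mem_sigma, Set.Finite.mem_toFinset]
      exact ⟨Finset.mem_univ _, Finset.mem_univ _, he E hE.1, hE.2⟩
    · intro E₁ hE₁ E₂ hE₂ heq
      rw [Finset.mem_coe, Set.Finite.mem_toFinset] at hE₁ hE₂
      simp only [Prod.mk.injEq, Sigma.mk.injEq, heq_eq_eq] at heq
      obtain ⟨a1, a2, a3⟩ := heq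
      have := hd E₁ hE₁.1 E₂ hE₂.1 a2 a1
      rw [a3, sub_self, abs_zero, Real.zero_rpow hκ.ne', mul_zero] at this
      have h0 := abs_nonpos_iff.1 this
      linarith
  calc (Bad.ncard : ℝ) ≤ ((T * ∑ i : Fin 2, (B i \ taU (F i)).ncard : ℕ) : ℝ) := by
        exact_mod_cast h2
    _ = T * ∑ i : Fin 2, ((B i \ taU (F i)).ncard : ℝ) := by push_cast; rfl
    _ ≤ T * (2 * N) := by
        refine mul_le_mul_of_nonneg_left ?_ (Nat.cast_nonneg _)
        rw [Fin.sum_univ_two]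
        have := hN 0
        have := hN 1
        linarith

/-- few points of `B M` outside the doubled cover -/
private theorem ta_few (ν : Measure ℝ) (B : ℕ → Set ℝ) (hB : ∀ M, (B M).Finite)
    (hν : LimC B ν) (F : Finset (ℝ × ℝ)) (hF : ∀ p ∈ F, 0 < p.2) (ε : ℝ) (hε : 0 < ε)
    (hc : ν (⋃ p ∈ F, Icc p.1 (p.1 + p.2))ᶜ ≤ ENNReal.ofReal ε) :
    ∀ᶠ M in atTop, ((B M \ taU F).ncard : ℝ) ≤ 2 * ε * (B M).ncard := by
  have := hν.1
  set Cl : Set ℝ := ⋃ p ∈ F, Icc p.1 (p.1 + p.2) with hCl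
  have hClclosed : IsClosed Cl := by
    rw [hCl]
    exact F.finite_toSet.isClosed_biUnion fun p _ => isClosed_Icc
  have hClU : Cl ⊆ taU F := by
    intro x hx
    rw [hCl, mem_iUnion₂] at hx
    obtain ⟨p, hp, hx1, hx2⟩ := hx
    rw [taU, mem_iUnion₂]
    have := hF p hp
    exact ⟨p, hp, by constructor <;> linarith⟩
  obtain ⟨f, hf0, hf1, hf01⟩ := exists_continuous_zero_one_of_isClosed hClclosed
    (taU_open F).isClosed_compl (by
      rw [Set.disjoint_left]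
      intro x hx hx'
      exact hx' (hClU hx))
  have hlim := hν.2 f f.continuous ⟨1, fun x => by
    rw [abs_le]; constructor <;> linarith [(hf01 x).1, (hf01 x).2]⟩
  have hint : ∫ x, f x ∂ν ≤ ε := by
    have h1 : ∫ x, f x ∂ν ≤ ∫ x, (Clᶜ).indicator (fun _ => (1 : ℝ)) x ∂ν := by
      refine integral_mono_of_nonneg (Eventually.of_forall fun x => (hf01 x).1) ?_
        (Eventually.of_forall fun x => ?_)
      · exact (integrable_const (1 : ℝ)).indicator hClclosed.measurableSet.compl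
      · by_cases hx : x ∈ Cl
        · have : f x = 0 := hf0 hx
          rw [Set.indicator_of_notMem (by simpa using hx)]
          exact this.le
        · rw [Set.indicator_of_mem (by simpa using hx)]
          exact (hf01 x).2
    rw [integral_indicator hClclosed.measurableSet.compl, setIntegral_const, smul_eq_mul,
      mul_one] at h1
    refine h1.trans ?_
    rw [Measure.real]
    exact ENNReal.toReal_le_of_le_ofReal hε.le hc
  have hev : ∀ᶠ M in atTop, (∑ᶠ E ∈ B M, f E) / ((B M).ncard : ℝ) < 2 * ε :=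
    hlim.eventually (gt_mem_nhds (by linarith))
  filter_upwards [hev] with M hM
  have hfin : (B M \ taU F).Finite := (hB M).subset sdiff_subset
  have h1 : ((B M \ taU F).ncard : ℝ) ≤ ∑ᶠ E ∈ B M, f E := by
    rw [finsum_mem_eq_finite_toFinset_sum _ (hB M), Set.ncard_eq_toFinset_card _ hfin]
    calc ((hfin.toFinset.card : ℕ) : ℝ) = ∑ E ∈ hfin.toFinset, (1 : ℝ) := by simp
      _ ≤ ∑ E ∈ hfin.toFinset, f E := by
          refine Finset.sum_le_sum fun E hE => ?_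
          rw [Set.Finite.mem_toFinset] at hE
          have : f E = 1 := hf1 hE.2
          rw [this]
      _ ≤ ∑ E ∈ (hB M).toFinset, f E := by
          refine Finset.sum_le_sum_of_subset_of_nonneg ?_ fun E _ _ => (hf01 E).1
          intro E hE
          rw [Set.Finite.mem_toFinset] at hE ⊢
          exact hE.1
  rcases Nat.eq_zero_or_pos (B M).ncard with h0 | h0
  · have : (B M \ taU F).ncard ≤ (B M).ncard := Set.ncard_le_ncard sdiff_subset (hB M)
    rw [h0] at this ⊢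
    have : (B M \ taU F).ncard = 0 := by omega
    rw [this]; simp
  · have h0' : (0 : ℝ) < (B M).ncard := by exact_mod_cast h0
    rw [div_lt_iff₀ h0'] at hM
    linarith

/-- closed covers pass to the limit along a subsequence -/
private theorem ta_limit (μ : Measure ℝ) (A : ℕ → Set ℝ) (hA : ∀ M, (A M).Finite)
    (hA' : ∀ M, (A M).Nonempty) (hμ : LimC A μ) (V : Set ℝ) (hV : IsClosed V) (c : ℝ)
    (φ : ℕ → ℕ) (hφ : Tendsto φ atTop atTop)
    (h : ∀ᶠ k in atTop, ((A (φ k) \ V).ncard : ℝ) ≤ c * (A (φ k)).ncard) :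
    μ Vᶜ ≤ ENNReal.ofReal c := by
  have := hμ.1
  by_contra hlt
  rw [not_le] at hlt
  obtain ⟨F, hFV, hFc, hF⟩ := hV.isOpen_compl.exists_lt_isClosed hlt
  obtain ⟨g, hg0, hg1, hg01⟩ := exists_continuous_zero_one_of_isClosed hV hFc (by
    rw [Set.disjoint_left]
    intro x hx hx'
    exact hFV hx' hx)
  have hlim := (hμ.2 g g.continuous ⟨1, fun x => by
    rw [abs_le]; constructor <;> linarith [(hg01 x).1, (hg01 x).2]⟩).comp hφ
  have hle : ∫ x, g x ∂μ ≤ c := by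
    refine le_of_tendsto hlim ?_
    filter_upwards [h] with k hk
    have hpos : (0 : ℝ) < (A (φ k)).ncard := by
      exact_mod_cast (Set.ncard_pos (hA _)).2 (hA' _)
    show (∑ᶠ E ∈ A (φ k), g E) / ((A (φ k)).ncard : ℝ) ≤ c
    rw [div_le_iff₀ hpos]
    refine le_trans ?_ hk
    have hfin : (A (φ k) \ V).Finite := (hA _).subset sdiff_subset
    rw [finsum_mem_eq_finite_toFinset_sum _ (hA _), Set.ncard_eq_toFinset_card _ hfin]
    have e1 : ∑ E ∈ (hA (φ k)).toFinset, g E = ∑ E ∈ hfin.toFinset, g E := by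
      symm
      refine Finset.sum_subset ?_ ?_
      · intro E hE
        rw [Set.Finite.mem_toFinset] at hE ⊢
        exact hE.1
      · intro E hE hE2
        rw [Set.Finite.mem_toFinset] at hE hE2
        have : E ∈ V := by
          by_contra hV'
          exact hE2 ⟨hE, hV'⟩
        exact hg0 this
    rw [e1]
    calc ∑ E ∈ hfin.toFinset, g E ≤ ∑ E ∈ hfin.toFinset, (1 : ℝ) :=
          Finset.sum_le_sum fun E _ => (hg01 E).2
      _ = ((hfin.toFinset.card : ℕ) : ℝ) := by simp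
  have hge : (μ F).toReal ≤ ∫ x, g x ∂μ := by
    have h1 : ∫ x, F.indicator (fun _ => (1 : ℝ)) x ∂μ ≤ ∫ x, g x ∂μ := by
      refine integral_mono ((integrable_const (1 : ℝ)).indicator hFc.measurableSet) ?_
        fun x => ?_
      · refine Integrable.of_bound g.continuous.aestronglyMeasurable 1
          (Eventually.of_forall fun x => ?_)
        rw [Real.norm_eq_abs, abs_le]
        constructor <;> linarith [(hg01 x).1, (hg01 x).2]
      · by_cases hx : x ∈ F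
        · have : g x = 1 := hg1 hx
          simp only [Set.indicator_of_mem hx, this, le_refl]
        · simp only [Set.indicator_of_notMem hx]
          exact (hg01 x).1
    rw [integral_indicator hFc.measurableSet, setIntegral_const, smul_eq_mul, mul_one] at h1
    exact h1
  have h3 : (μ F).toReal ≤ c := hge.trans hle
  have h4 : μ F ≤ ENNReal.ofReal c := by
    rw [← ENNReal.ofReal_toReal (measure_ne_top μ F)]
    exact ENNReal.ofReal_le_ofReal h3
  exact absurd (hF.trans_le h4) (lt_irrefl _)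

theorem transfer_abs (μ : Measure ℝ) (ν : Fin 2 → Measure ℝ) (A : ℕ → Set ℝ)
    (B : Fin 2 → ℕ → Set ℝ) (hA : ∀ M, (A M).Finite) (hA' : ∀ M, (A M).Nonempty)
    (hB : ∀ i M, (B i M).Finite) (hμ : LimC A μ) (hν : ∀ i, LimC (B i) (ν i))
    (K : ℝ) (hK : ∀ M, A M ⊆ Icc (-K) K) (c0 : ℝ)
    (hc0 : ∀ i M, ((B i M).ncard : ℝ) ≤ c0 * (A M).ncard) (T : ℕ) (C κ : ℝ) (hC : 1 ≤ C)
    (hκ : 0 < κ) (M0 : ℕ)
    (h : ∀ M, M0 ≤ M → ∃ (e : ℝ → ℝ) (s : ℝ → Fin 2) (τ : ℝ → Fin T),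
      (∀ E ∈ A M, e E ∈ B (s E) M) ∧
      ∀ E₁ ∈ A M, ∀ E₂ ∈ A M, s E₁ = s E₂ → τ E₁ = τ E₂ →
        |E₁ - E₂| ≤ C * |e E₁ - e E₂| ^ κ)
    (t t' : ℝ) (ht' : 0 < t') (htt : t' ≤ κ * t) (hZ : ∀ i, Zt t' (ν i)) : Zt t μ := by
  classical
  intro ε hε
  have hC0 : 0 < C := by linarith
  have hc00 : 0 ≤ c0 := by
    have h1 := hc0 0 0
    have h2 : (0 : ℝ) < (A 0).ncard := by exact_mod_cast (Set.ncard_pos (hA 0)).2 (hA' 0)
    have h3 : (0 : ℝ) ≤ (B 0 0).ncard := Nat.cast_nonneg _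
    by_contra hneg
    rw [not_le] at hneg
    nlinarith
  have ht0 : 0 < t := by
    by_contra hneg
    rw [not_lt] at hneg
    nlinarith
  set D1 : ℝ := T * (2 * ((2 * C) ^ t * 2 ^ t')) + 1 with hD1
  set D2 : ℝ := T * (2 * (2 * c0)) + 1 with hD2
  have hD1pos : 0 < D1 := by positivity
  have hD2pos : 0 < D2 := by positivity
  set δ : ℝ := min ((1 / 2) ^ t') (min (ε / (2 * D1)) (ε / D2)) with hδ
  have hδpos : 0 < δ := lt_min (by positivity) (lt_min (by positivity) (by positivity))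
  have hδ1 : δ ≤ (1 / 2) ^ t' := min_le_left _ _
  have hδ2 : δ ≤ ε / (2 * D1) := (min_le_right _ _).trans (min_le_left _ _)
  have hδ3 : δ ≤ ε / D2 := (min_le_right _ _).trans (min_le_right _ _)
  have hZ' : ∀ i, ∃ F : Finset (ℝ × ℝ), (∀ p ∈ F, 0 < p.2) ∧ ∑ p ∈ F, p.2 ^ t' < δ ∧
      ν i (⋃ p ∈ F, Icc p.1 (p.1 + p.2))ᶜ ≤ ENNReal.ofReal δ := fun i => hZ i δ hδpos
  choose F hF1 hF2 hF3 using hZ'
  set L : taJ T F → ℝ := fun j => C * (2 * (j.2.2 : ℝ × ℝ).2) ^ κ with hL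
  have hLpos : ∀ j, 0 < L j := fun j => by
    have := hF1 j.2.1 j.2.2 j.2.2.2
    rw [hL]
    positivity
  -- the intervals for large M
  have hfew : ∀ᶠ M in atTop, ∀ i, ((B i M \ taU (F i)).ncard : ℝ) ≤ 2 * δ * (B i M).ncard :=
    Filter.eventually_all.2 fun i => ta_few (ν i) (B i) (hB i) (hν i) (F i) (hF1 i) δ hδpos (hF3 i)
  have hstep : ∀ᶠ M in atTop, ∃ m : taJ T F → ℝ, (∀ j, m j ∈ Icc (-K) K) ∧
      ((A M \ ⋃ j, Icc (m j) (m j + L j)).ncard : ℝ) ≤ T * (2 * (2 * c0)) * δ * (A M).ncard := by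
    filter_upwards [hfew, eventually_ge_atTop M0] with M hM1 hM2
    obtain ⟨e, s, τ, h1, h2⟩ := h M hM2
    obtain ⟨m, hm1, hm2⟩ := ta_step (A M) (fun i => B i M) (hA M) (hA' M) (fun i => hB i M) K
      (hK M) T C κ hC hκ e s τ h1 h2 F (2 * δ * (c0 * (A M).ncard)) (fun i =>
        (hM1 i).trans (mul_le_mul_of_nonneg_left (hc0 i M) (by positivity)))
    refine ⟨m, hm1, hm2.trans (le_of_eq ?_)⟩
    ring
  obtain ⟨M1, hM1⟩ := Filter.eventually_atTop.1 hstep
  have hstep' : ∀ n : ℕ, ∃ m : taJ T F → ℝ, (∀ j, m j ∈ Icc (-K) K) ∧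
      ((A (M1 + n) \ ⋃ j, Icc (m j) (m j + L j)).ncard : ℝ) ≤
        T * (2 * (2 * c0)) * δ * (A (M1 + n)).ncard := fun n => hM1 (M1 + n) (by omega)
  choose m hm1 hm2 using hstep'
  obtain ⟨a, -, φ, hφ, hlim⟩ := (isCompact_Icc (a := fun _ : taJ T F => -K)
    (b := fun _ : taJ T F => K)).tendsto_subseq (x := m) fun n =>
      ⟨fun j => (hm1 n j).1, fun j => (hm1 n j).2⟩
  -- the limit cover
  set G : taJ T F → ℝ × ℝ := fun j => (a j - L j / 2, 2 * L j) with hG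
  refine ⟨Finset.univ.image G, ?_, ?_, ?_⟩
  · intro p hp
    rw [Finset.mem_image] at hp
    obtain ⟨j, _, rfl⟩ := hp
    have := hLpos j
    show 0 < 2 * L j
    linarith
  · have h1 : ∑ p ∈ Finset.univ.image G, p.2 ^ t ≤ ∑ j : taJ T F, (2 * L j) ^ t := by
      have h2 : ∑ j : taJ T F, (2 * L j) ^ t = ∑ p ∈ Finset.univ.image G,
          (Finset.univ.filter fun j => G j = p).card • p.2 ^ t := by
        rw [← Finset.sum_comp (fun p : ℝ × ℝ => p.2 ^ t) G]
      rw [h2]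
      refine Finset.sum_le_sum fun p hp => ?_
      rw [Finset.mem_image] at hp
      obtain ⟨j, _, hj⟩ := hp
      have hc : 1 ≤ (Finset.univ.filter fun j => G j = p).card :=
        Finset.card_pos.2 ⟨j, by simp [hj]⟩
      have hnn : 0 ≤ p.2 ^ t := by
        rw [← hj]
        have := hLpos j
        exact Real.rpow_nonneg (by show 0 ≤ 2 * L j; linarith) _
      rw [nsmul_eq_mul]
      have hc' : (1 : ℝ) ≤ ((Finset.univ.filter fun j => G j = p).card : ℝ) := by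
        exact_mod_cast hc
      nlinarith
    have h3 : ∀ j : taJ T F, (2 * L j) ^ t ≤ (2 * C) ^ t * 2 ^ t' * (j.2.2 : ℝ × ℝ).2 ^ t' := by
      intro j
      have hp0 := hF1 j.2.1 j.2.2 j.2.2.2
      set x := (j.2.2 : ℝ × ℝ).2 with hx
      have hx1 : x ^ t' ≤ (1 / 2) ^ t' := by
        refine le_trans ?_ ((hF2 j.2.1).le.trans hδ1)
        exact Finset.single_le_sum (f := fun p : ℝ × ℝ => p.2 ^ t')
          (fun p hp => Real.rpow_nonneg (hF1 _ p hp).le _) j.2.2.2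
      have hx2 : x ≤ 1 / 2 := (Real.rpow_le_rpow_iff hp0.le (by norm_num) ht').1 hx1
      have hLj : 2 * L j = (2 * C) * (2 * x) ^ κ := by
        show 2 * (C * (2 * x) ^ κ) = _
        ring
      calc (2 * L j) ^ t = ((2 * C) * (2 * x) ^ κ) ^ t := by rw [hLj]
        _ = (2 * C) ^ t * ((2 * x) ^ κ) ^ t := Real.mul_rpow (by positivity) (by positivity)
        _ = (2 * C) ^ t * (2 * x) ^ (κ * t) := by rw [← Real.rpow_mul (by positivity)]
        _ ≤ (2 * C) ^ t * (2 * x) ^ t' := by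
            refine mul_le_mul_of_nonneg_left ?_ (by positivity)
            exact Real.rpow_le_rpow_of_exponent_ge (by positivity) (by linarith) htt
        _ = (2 * C) ^ t * 2 ^ t' * x ^ t' := by
            rw [Real.mul_rpow (by norm_num) hp0.le]; ring
    have h4 : ∑ j : taJ T F, (2 * L j) ^ t ≤ T * (2 * ((2 * C) ^ t * 2 ^ t')) * δ := by
      refine (Finset.sum_le_sum fun j _ => h3 j).trans ?_
      rw [← Finset.mul_sum]
      have h5 : ∑ j : taJ T F, (j.2.2 : ℝ × ℝ).2 ^ t' = T * ∑ i : Fin 2, ∑ p ∈ F i, p.2 ^ t' := by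
        rw [Fintype.sum_prod_type]
        simp only [Finset.sum_const, Finset.card_univ, Fintype.card_fin, nsmul_eq_mul]
        congr 1
        rw [Fintype.sum_sigma]
        refine Finset.sum_congr rfl fun i _ => ?_
        rw [← Finset.sum_coe_sort (F i)]
      rw [h5, Fin.sum_univ_two]
      have h6 := hF2 0
      have h7 := hF2 1
      have h8 : (T : ℝ) * (∑ p ∈ F 0, p.2 ^ t' + ∑ p ∈ F 1, p.2 ^ t') ≤ T * (2 * δ) :=
        mul_le_mul_of_nonneg_left (by linarith) (Nat.cast_nonneg _)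
      calc (2 * C) ^ t * 2 ^ t' * (T * (∑ p ∈ F 0, p.2 ^ t' + ∑ p ∈ F 1, p.2 ^ t')) ≤
          (2 * C) ^ t * 2 ^ t' * (T * (2 * δ)) := mul_le_mul_of_nonneg_left h8 (by positivity)
        _ = T * (2 * ((2 * C) ^ t * 2 ^ t')) * δ := by ring
    have h9 : D1 * δ ≤ ε / 2 := by
      calc D1 * δ ≤ D1 * (ε / (2 * D1)) := mul_le_mul_of_nonneg_left hδ2 hD1pos.le
        _ = ε / 2 := by field_simp
    have h10 : T * (2 * ((2 * C) ^ t * 2 ^ t')) * δ ≤ D1 * δ := by
      refine mul_le_mul_of_nonneg_right ?_ hδpos.le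
      rw [hD1]; linarith
    linarith
  · have hV : (⋃ p ∈ Finset.univ.image G, Icc p.1 (p.1 + p.2)) =
        ⋃ j : taJ T F, Icc (a j - L j / 2) (a j - L j / 2 + 2 * L j) := by
      ext x
      simp only [mem_iUnion, Finset.mem_image, Finset.mem_univ, true_and, exists_prop]
      constructor
      · rintro ⟨p, ⟨j, rfl⟩, hx⟩
        exact ⟨j, hx⟩
      · rintro ⟨j, hx⟩
        exact ⟨G j, ⟨j, rfl⟩, hx⟩
    rw [hV]
    have hcl : IsClosed (⋃ j : taJ T F, Icc (a j - L j / 2) (a j - L j / 2 + 2 * L j)) :=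
      isClosed_iUnion_of_finite fun j => isClosed_Icc
    have hev : ∀ᶠ n in atTop, ∀ j : taJ T F, |m (φ n) j - a j| < L j / 2 := by
      refine Filter.eventually_all.2 fun j => ?_
      have hj : Tendsto (fun n => m (φ n) j) atTop (𝓝 (a j)) :=
        (tendsto_pi_nhds.1 hlim) j
      have := (Metric.tendsto_nhds.1 hj) (L j / 2) (by have := hLpos j; linarith)
      simpa [Real.dist_eq] using this
    have hmain := ta_limit μ A hA hA' hμ _ hcl (T * (2 * (2 * c0)) * δ)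
      (fun n => M1 + φ n) (tendsto_atTop_mono (fun n => Nat.le_add_left _ _) hφ.tendsto_atTop) (by
        filter_upwards [hev] with n hn
        refine le_trans ?_ (hm2 (φ n))
        have hsub : (A (M1 + φ n) \ ⋃ j : taJ T F, Icc (a j - L j / 2) (a j - L j / 2 + 2 * L j)) ⊆
            (A (M1 + φ n) \ ⋃ j, Icc (m (φ n) j) (m (φ n) j + L j)) := by
          refine sdiff_subset_sdiff_right (iUnion_mono fun j x hx => ?_)
          have h1 := abs_lt.1 (hn j)
          constructor <;> linarith [hx.1, hx.2, h1.1, h1.2]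
        exact_mod_cast Set.ncard_le_ncard hsub ((hA _).subset sdiff_subset))
    refine hmain.trans (ENNReal.ofReal_le_ofReal ?_)
    calc T * (2 * (2 * c0)) * δ ≤ D2 * δ := by
          refine mul_le_mul_of_nonneg_right ?_ hδpos.le
          rw [hD2]; linarith
      _ ≤ D2 * (ε / D2) := mul_le_mul_of_nonneg_left hδ3 hD2pos.le
      _ = ε := by field_simp

end Sturm
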