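import Pool.Agent.Lib.MP_e5ebf6_mp.Passages
import Pool.Agent.Lib.MP_e5ebf6_mp.Escape

/-! Module PassLip: uniform Lipschitz and second order bounds along passages. -/

open Complex Metric Set
noncomputable section
namespace Sturm

theorem passLip_vr {lam : ℝ} (hlam : 0 < lam) : 0 < vr lam ∧ vr lam < RR lam := by
  have := two_lt_RR hlam
  unfold vr
  constructor <;> linarith

/-- Cauchy bound for the derivative -/
theorem passLip_deriv {R ρ : ℝ} (hρ : 0 < ρ) {F : ℂ → ℂ} {M : ℝ}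
    (hF : DifferentiableOn ℂ F (ball 0 R)) {r : ℝ} (hr : r + ρ < R)
    (hM : ∀ w : ℂ, ‖w‖ ≤ r + ρ → ‖F w‖ ≤ M) (w : ℂ) (hw : ‖w‖ ≤ r) :
    ‖deriv F w‖ ≤ M / ρ := by
  have hsub : closedBall w ρ ⊆ ball (0 : ℂ) R := by
    intro z hz
    rw [mem_closedBall, dist_eq_norm] at hz
    rw [mem_ball, dist_zero_right]
    have h1 : ‖z‖ ≤ ‖z - w‖ + ‖w‖ := by
      have := norm_add_le (z - w) w
      rwa [sub_add_cancel] at this
    linarith
  refine Complex.norm_deriv_le_of_forall_mem_sphere_norm_le hρ ?_ ?_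
  · exact (hF.mono hsub).diffContOnCl_ball subset_rfl
  · intro z hz
    apply hM
    rw [mem_sphere, dist_eq_norm] at hz
    have h1 : ‖z‖ ≤ ‖z - w‖ + ‖w‖ := by
      have := norm_add_le (z - w) w
      rwa [sub_add_cancel] at this
    linarith

/-- real states on a passage are bounded -/
theorem passage_bound {lam : ℝ} (hlam : 0 < lam) (l : List ℕ) (hl : Pos l) {g : ℂ → ℂ}
    (h : Passage lam l g) {t : ℝ} (ht : |t| < RR lam) :
    (str lam l (gr g t)).1 = t ∧ |(str lam l (gr g t)).2.1| ≤ K0 lam ∧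
      |(str lam l (gr g t)).2.2| ≤ K0 lam := by
  obtain ⟨h1, h2⟩ := passage_ofReal l h ht
  have h2' : (str lam l (gr g t)).1 = t := h2
  have h3 := coord_bound hlam l hl (gr g t : ℂ) (by
    rw [st_ofReal, Complex.norm_real, Real.norm_eq_abs, h2']
    exact ht.le)
  rw [st_ofReal, Complex.norm_real, Complex.norm_real, Real.norm_eq_abs, Real.norm_eq_abs] at h3
  exact ⟨h2', h3.1, h3.2⟩

/-- Lipschitz bound for a bounded holomorphic function on the disc of radius `vr` -/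
theorem passLip_lip {R v ρ : ℝ} (hρ : 0 < ρ) {F : ℂ → ℂ} {M : ℝ}
    (hF : DifferentiableOn ℂ F (ball 0 R)) (hv : v + ρ < R)
    (hM : ∀ w ∈ ball (0 : ℂ) R, ‖F w‖ ≤ M) {t t' : ℝ} (ht : |t| ≤ v) (ht' : |t'| ≤ v) :
    ‖F (t' : ℂ) - F (t : ℂ)‖ ≤ M / ρ * |t' - t| := by
  have hM' : ∀ w : ℂ, ‖w‖ ≤ v + ρ → ‖F w‖ ≤ M := fun w hw => hM w (by
    rw [mem_ball, dist_zero_right]
    linarith)
  have hd : ∀ x ∈ closedBall (0 : ℂ) v, DifferentiableAt ℂ F x := by
    intro x hx
    rw [mem_closedBall, dist_zero_right] at hx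
    exact hF.differentiableAt (isOpen_ball.mem_nhds (by
      rw [mem_ball, dist_zero_right]
      linarith))
  have hb : ∀ x ∈ closedBall (0 : ℂ) v, ‖deriv F x‖ ≤ M / ρ := by
    intro x hx
    rw [mem_closedBall, dist_zero_right] at hx
    exact passLip_deriv hρ hF hv hM' x hx
  have h1 := Convex.norm_image_sub_le_of_norm_deriv_le hd hb (convex_closedBall (0 : ℂ) v)
    (x := (t : ℂ)) (y := (t' : ℂ))
    (by rw [mem_closedBall, dist_zero_right, Complex.norm_real]; exact ht)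
    (by rw [mem_closedBall, dist_zero_right, Complex.norm_real]; exact ht')
  have h2 : ‖(t' : ℂ) - (t : ℂ)‖ = |t' - t| := by
    rw [← Complex.ofReal_sub, Complex.norm_real, Real.norm_eq_abs]
  rwa [h2] at h1

theorem passage_lip {lam : ℝ} (hlam : 0 < lam) :
    ∃ C : ℝ, 0 < C ∧ ∀ (l : List ℕ), Pos l → ∀ g : ℂ → ℂ, Passage lam l g →
      ∀ t t' : ℝ, |t| ≤ vr lam → |t'| ≤ vr lam →
        sd (str lam l (gr g t)) (str lam l (gr g t')) ≤ C * |t - t'| := by
  obtain ⟨hv0, hvR⟩ := passLip_vr hlam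
  set ρ : ℝ := (RR lam - vr lam) / 2 with hρd
  have hρ : 0 < ρ := by rw [hρd]; linarith
  have hvρ : vr lam + ρ < RR lam := by rw [hρd]; linarith
  have hK : 0 ≤ K0 lam := by
    unfold K0
    have := two_lt_RR hlam
    positivity
  refine ⟨1 + 2 * (K0 lam / ρ), by positivity, ?_⟩
  intro l hl g h t t' ht ht'
  have hdiff : DifferentiableOn ℂ (fun w => st lam l (g w)) (ball 0 (RR lam)) :=
    (differentiable_st lam l).comp_differentiableOn h.diff
  have hd1 : DifferentiableOn ℂ (fun w => (st lam l (g w)).2.1) (ball 0 (RR lam)) :=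
    hdiff.snd.fst
  have hd2 : DifferentiableOn ℂ (fun w => (st lam l (g w)).2.2) (ball 0 (RR lam)) :=
    hdiff.snd.snd
  have hbd : ∀ w ∈ ball (0 : ℂ) (RR lam), ‖(st lam l (g w)).2.1‖ ≤ K0 lam ∧
      ‖(st lam l (g w)).2.2‖ ≤ K0 lam := by
    intro w hw
    apply coord_bound hlam l hl
    have h1 := h.inv w hw
    unfold TT at h1
    rw [h1]
    rw [mem_ball, dist_zero_right] at hw
    exact hw.le
  have e1 := passLip_lip hρ hd1 hvρ (fun w hw => (hbd w hw).1) ht ht'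
  have e2 := passLip_lip hρ hd2 hvρ (fun w hw => (hbd w hw).2) ht ht'
  have hg : ∀ s : ℝ, |s| ≤ vr lam → st lam l (g (s : ℂ)) =
      (((str lam l (gr g s)).1 : ℂ), ((str lam l (gr g s)).2.1 : ℂ),
        ((str lam l (gr g s)).2.2 : ℂ)) := by
    intro s hs
    rw [(passage_ofReal l h (lt_of_le_of_lt hs hvR)).1, st_ofReal]
  simp only [hg t ht, hg t' ht'] at e1 e2
  rw [← Complex.ofReal_sub, Complex.norm_real, Real.norm_eq_abs] at e1 e2
  have e3 := (passage_bound hlam l hl h (lt_of_le_of_lt ht hvR)).1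
  have e4 := (passage_bound hlam l hl h (lt_of_le_of_lt ht' hvR)).1
  unfold sd
  rw [e3, e4]
  have e5 : |t' - t| = |t - t'| := abs_sub_comm _ _
  rw [e5] at e1 e2
  have e6 : |(str lam l (gr g t)).2.1 - (str lam l (gr g t')).2.1| =
    |(str lam l (gr g t')).2.1 - (str lam l (gr g t)).2.1| := abs_sub_comm _ _
  have e7 : |(str lam l (gr g t)).2.2 - (str lam l (gr g t')).2.2| =
    |(str lam l (gr g t')).2.2 - (str lam l (gr g t)).2.2| := abs_sub_comm _ _
  rw [e6, e7]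
  calc |t - t'| + |(str lam l (gr g t')).2.1 - (str lam l (gr g t)).2.1| +
        |(str lam l (gr g t')).2.2 - (str lam l (gr g t)).2.2|
      ≤ |t - t'| + K0 lam / ρ * |t - t'| + K0 lam / ρ * |t - t'| := by linarith
    _ = (1 + 2 * (K0 lam / ρ)) * |t - t'| := by ring

/-- a holomorphic function of the state along a passage, bounded by `M` on the disc: Taylor bound -/
theorem passage_taylor {lam : ℝ} (hlam : 0 < lam) :
    ∃ C : ℝ, 0 < C ∧ ∀ (F : ℂ → ℂ) (M : ℝ), DifferentiableOn ℂ F (ball 0 (RR lam)) →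
      (∀ w ∈ ball (0 : ℂ) (RR lam), ‖F w‖ ≤ M) →
      ∀ t t' : ℝ, |t| ≤ vr lam → |t'| ≤ vr lam →
        ‖F (t' : ℂ) - F (t : ℂ) - deriv F (t : ℂ) * ((t' : ℂ) - t)‖ ≤ C * M * |t' - t| ^ 2 ∧
        ‖deriv F (t : ℂ)‖ ≤ C * M := by
  obtain ⟨hv0, hvR⟩ := passLip_vr hlam
  set v : ℝ := vr lam with hvd
  set ρ : ℝ := (RR lam - v) / 3 with hρd
  have hρ : 0 < ρ := by rw [hρd]; linarith
  have hv2 : v + ρ + ρ < RR lam := by rw [hρd]; linarith
  refine ⟨1 / ρ ^ 2 + 1 / ρ, by positivity, ?_⟩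
  intro F M hF hM t t' ht ht'
  have hM0 : 0 ≤ M := (norm_nonneg _).trans (hM 0 (mem_ball_self (by linarith)))
  have hM' : ∀ w : ℂ, ‖w‖ ≤ v + ρ + ρ → ‖F w‖ ≤ M := fun w hw => hM w (by
    rw [mem_ball, dist_zero_right]
    linarith)
  have hF' : DifferentiableOn ℂ (deriv F) (ball 0 (RR lam)) := hF.deriv isOpen_ball
  have hd1 : ∀ w : ℂ, ‖w‖ ≤ v + ρ → ‖deriv F w‖ ≤ M / ρ :=
    fun w hw => passLip_deriv hρ hF hv2 hM' w hw
  have hd2 : ∀ w : ℂ, ‖w‖ ≤ v → ‖deriv (deriv F) w‖ ≤ M / ρ / ρ :=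
    fun w hw => passLip_deriv hρ hF' (by linarith) hd1 w hw
  have htv : ‖(t : ℂ)‖ ≤ v := by rw [Complex.norm_real]; exact ht
  have htv' : ‖(t' : ℂ)‖ ≤ v := by rw [Complex.norm_real]; exact ht'
  have hnorm : ‖(t' : ℂ) - (t : ℂ)‖ = |t' - t| := by
    rw [← Complex.ofReal_sub, Complex.norm_real, Real.norm_eq_abs]
  have hballv : ∀ x ∈ closedBall (0 : ℂ) v, x ∈ ball (0 : ℂ) (RR lam) := by
    intro x hx
    rw [mem_closedBall, dist_zero_right] at hx
    rw [mem_ball, dist_zero_right]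
    linarith
  have hlipd : ∀ x ∈ closedBall (0 : ℂ) v, ‖deriv F x - deriv F (t : ℂ)‖ ≤
      M / ρ / ρ * ‖x - (t : ℂ)‖ := by
    intro x hx
    exact Convex.norm_image_sub_le_of_norm_deriv_le
      (fun y hy => hF'.differentiableAt (isOpen_ball.mem_nhds (hballv y hy)))
      (fun y hy => hd2 y (by rwa [mem_closedBall, dist_zero_right] at hy))
      (convex_closedBall (0 : ℂ) v)
      (by rw [mem_closedBall, dist_zero_right]; exact htv) hx
  have hMC : M / ρ / ρ = 1 / ρ ^ 2 * M := by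
    field_simp
  constructor
  · set G : ℂ → ℂ := fun w => F w - F (t : ℂ) - deriv F (t : ℂ) * (w - t) with hG
    set S : Set ℂ := closedBall (0 : ℂ) v ∩ closedBall (t : ℂ) |t' - t| with hS
    have hSconv : Convex ℝ S := (convex_closedBall _ _).inter (convex_closedBall _ _)
    have hGd : ∀ x ∈ S, HasDerivAt G (deriv F x - deriv F (t : ℂ)) x := by
      intro x hx
      have h1 : HasDerivAt F (deriv F x) x :=
        (hF.differentiableAt (isOpen_ball.mem_nhds (hballv x hx.1))).hasDerivAt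
      have h2 : HasDerivAt (fun w : ℂ => deriv F (t : ℂ) * (w - t)) (deriv F (t : ℂ) * 1) x :=
        ((hasDerivAt_id x).sub_const _).const_mul _
      have h3 := (h1.sub_const (F (t : ℂ))).sub h2
      rw [mul_one] at h3
      exact h3
    have hb : ∀ x ∈ S, ‖deriv G x‖ ≤ M / ρ / ρ * |t' - t| := by
      intro x hx
      rw [(hGd x hx).deriv]
      refine (hlipd x hx.1).trans ?_
      apply mul_le_mul_of_nonneg_left _ (by positivity)
      have := hx.2
      rwa [mem_closedBall, dist_eq_norm] at this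
    have h1 := Convex.norm_image_sub_le_of_norm_deriv_le
      (fun x hx => (hGd x hx).differentiableAt) hb hSconv (x := (t : ℂ)) (y := (t' : ℂ))
      ⟨by rw [mem_closedBall, dist_zero_right]; exact htv,
        mem_closedBall_self (abs_nonneg _)⟩
      ⟨by rw [mem_closedBall, dist_zero_right]; exact htv', by
        rw [mem_closedBall, dist_eq_norm, hnorm]⟩
    have hGt : G (t : ℂ) = 0 := by simp [hG]
    rw [hGt, sub_zero, hnorm] at h1
    refine h1.trans ?_
    rw [hMC]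
    have h4 : 0 ≤ 1 / ρ * M * |t' - t| ^ 2 := by positivity
    calc 1 / ρ ^ 2 * M * |t' - t| * |t' - t| = 1 / ρ ^ 2 * M * |t' - t| ^ 2 := by ring
      _ ≤ 1 / ρ ^ 2 * M * |t' - t| ^ 2 + 1 / ρ * M * |t' - t| ^ 2 := by linarith
      _ = (1 / ρ ^ 2 + 1 / ρ) * M * |t' - t| ^ 2 := by ring
  · have h1 := hd1 (t : ℂ) (by linarith)
    refine h1.trans ?_
    have h4 : 0 ≤ 1 / ρ ^ 2 * M := by positivity
    calc M / ρ = 1 / ρ * M := by ring
      _ ≤ 1 / ρ ^ 2 * M + 1 / ρ * M := by linarith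
      _ = (1 / ρ ^ 2 + 1 / ρ) * M := by ring

end Sturm
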