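import Pool.Agent.Lib.MP_e5ebf6_mp.Twist
import Pool.Agent.Lib.MP_e5ebf6_mp.FwdCone
import Pool.Agent.Lib.MP_e5ebf6_mp.BwdCone

/-! Module SignRel: signs of the products `D_F · τ_F` for elliptic nodes `F`. -/

noncomputable section
namespace Sturm

private lemma sr_pm (n : ℕ) : ((-1 : ℝ)) ^ n = 1 ∨ ((-1 : ℝ)) ^ n = -1 := neg_one_pow_eq_or ℝ n

private lemma sr_pos {a b : ℝ} (h : 0 < a ^ 2 * b) : 0 < b := by
  by_contra hb
  rw [not_lt] at hb
  nlinarith [mul_nonneg (sq_nonneg a) (neg_nonneg.2 hb)]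

private lemma sr_prod {s t F D T : ℝ} (h1 : s * F * D < 0) (h2 : t * F * T < 0) :
    0 < s * t * D * T := by
  have h3 : 0 < (s * F * D) * (t * F * T) := mul_pos_of_neg_of_neg h1 h2
  have h4 : (s * F * D) * (t * F * T) = F ^ 2 * (s * t * D * T) := by ring
  rw [h4] at h3
  exact sr_pos h3

/-- For base `|x| < R` there is a sign `ε` such that for every level `j` and every `p ≤ b_j`
(not both zero; the last element excluded) with `|tr (A_j B_j^p)| < 2`,
`ε (-1)^j D_F τ_F > 0`. -/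
theorem sign_rel {lam : ℝ} (hlam : 0 < lam) (l : List ℕ) (hl : Pos l) (φ : ℝ)
    (hx : |TR lam l φ| < RR lam) :
    ∃ ε : ℝ, (ε = 1 ∨ ε = -1) ∧ ∀ (j b : ℕ) (l' : List ℕ), l.drop j = b :: l' →
      ∀ p : ℕ, (p < b ∨ (p = b ∧ l' ≠ [])) → ¬ (j = 0 ∧ p = 0) →
        |uu (str lam (b :: l') φ) p| < 2 →
        0 < ε * (-1) ^ j *
          duu (str lam (b :: l') φ) (dfwd (l.take j) (str lam l φ) (D0 (str lam l φ))) p *
          duu (str lam (b :: l') φ) (deriv (str lam (b :: l')) φ) p := by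
  set P := tmr lam l φ with hP
  have hPg : P.Good := tmr_good lam l φ
  have hPs : P.stt = str lam l φ := tmr_stt lam l φ
  set Q := twP P.A P.B with hQ
  have hQg : Q.Good := twP_good hPg.dA hPg.dB
  have hQs : Q.stt = str lam l φ := by rw [← hPs]; rfl
  have hQd : Q.dst = D0 (str lam l φ) := by rw [← hQs]; exact twP_dst hPg.dA hPg.dB
  have hk : kap (P.A.trace, P.B.trace, (P.A * P.B).trace) = 4 + lam ^ 2 := by
    have h := kap_str lam l φ
    rw [← hPs] at h
    exact h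
  have hx' : |P.A.trace| < RR lam := by
    have h : P.A.trace = TR lam l φ := by
      show P.stt.1 = _
      rw [hPs]; rfl
    rw [h]; exact hx
  obtain ⟨σ, hσ, hPC⟩ : ∃ σ : ℝ, (σ = 1 ∨ σ = -1) ∧ PC σ (tw P.A P.B) := by
    rcases tw_PC hPg.dA hPg.dB hk hx' with h | h
    · exact ⟨1, Or.inl rfl, h⟩
    · exact ⟨-1, Or.inr rfl, h⟩
  refine ⟨σ * (-1) ^ l.length, ?_, ?_⟩
  · rcases hσ with h | h <;> rcases sr_pm l.length with h' | h' <;> rw [h, h'] <;> norm_num
  intro j b l' hd p hp hjp hu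
  -- the pair at level j
  have hPd : TM.nexts (l.take j) P = tmr lam (b :: l') φ := by
    have h1 : P = TM.prevs (l.take j) (tmr lam (b :: l') φ) := by
      rw [hP]
      unfold tmr
      rw [← TM.prevs_append, ← hd, List.take_append_drop]
    rw [h1, TM.nexts_prevs _ (tmr_good _ _ _)]
  obtain ⟨hAe, hBe⟩ := TM.nexts_A_indep (l.take j) Q P rfl rfl
  rw [hPd] at hAe hBe
  have hQj := TM.good_nexts (l.take j) hQg
  have hQjs : (TM.nexts (l.take j) Q).stt = str lam (b :: l') φ := by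
    rw [TM.stt_nexts _ hQg, hQs, fwd_take_str, hd]
  have hQjd : (TM.nexts (l.take j) Q).dst =
      dfwd (l.take j) (str lam l φ) (D0 (str lam l φ)) := by
    rw [TM.dst_nexts _ hQg, hQs, hQd]
  have hRg := tmr_good lam (b :: l') φ
  have hRs := tmr_stt lam (b :: l') φ
  have hRd := tmr_dst lam (b :: l') φ
  -- positivity
  have hlt : Pos (l.take j) := fun x hx => hl x (List.mem_of_mem_take hx)
  have hld : Pos (b :: l') := fun x hx => hl x (List.mem_of_mem_drop (hd ▸ hx))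
  have hQA : PC0 σ Q.LA := Or.inr rfl
  have hQB : PC σ Q.LB := hPC
  have hn := TM.nexts_PC hσ hQg hQA hQB (l.take j) hlt
  have hL : PC σ (TM.lab p (TM.nexts (l.take j) Q)) := by
    rcases Nat.eq_zero_or_pos p with h0 | h0
    · have hj : j ≠ 0 := fun h => hjp ⟨h, h0⟩
      have hne : l.take j ≠ [] := by
        intro h
        rw [List.take_eq_nil_iff] at h
        rcases h with h | h
        · exact hj h
        · rw [h] at hd; simp at hd
      have h1 := TM.nexts_PC_LA hσ hQg hQA hQB (l.take j) hlt hne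
      have h2 : TM.lab p (TM.nexts (l.take j) Q) = (TM.nexts (l.take j) Q).LA := by
        rw [h0]; simp [TM.lab]
      rw [h2]; exact h1
    · exact (TM.lab_PC hσ hQj hn.1 hn.2.1 p h0).1
  have hM := tmr_lab_PC lam b l' hld φ p hp
  -- traces
  have hD := TM.trace_mul_pow_lab p hQj
  have hT := TM.trace_mul_pow_lab p hRg
  rw [hQjs, hQjd] at hD
  rw [hRs, hRd] at hT
  rw [hAe, hBe] at hD
  have hF : ((tmr lam (b :: l') φ).A * (tmr lam (b :: l') φ).B ^ p).det = 1 := by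
    rw [Matrix.det_mul, Matrix.det_pow, hRg.dA, hRg.dB, one_pow, one_mul]
  have hFt : |((tmr lam (b :: l') φ).A * (tmr lam (b :: l') φ).B ^ p).trace| < 2 := by
    rw [TM.trace_mul_pow p hRg, hRs]; exact hu
  have e1 := (PC.tr_mul hσ hF hFt hL).1
  have e2 := (PC.tr_mul (sr_pm _) hF hFt hM).1
  rw [hD] at e1
  rw [hT] at e2
  have e3 := sr_prod e1 e2
  have hlen : l.length = (b :: l').length + j := by
    rw [← hd, List.length_drop]
    have : j < l.length := by
      by_contra h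
      rw [List.drop_eq_nil_of_le (not_lt.1 h)] at hd
      simp at hd
    omega
  have hs : σ * (-1) ^ l.length * (-1) ^ j = σ * (-1) ^ (b :: l').length := by
    rw [hlen, pow_add]
    have : ((-1 : ℝ)) ^ j * (-1) ^ j = 1 := by
      rw [← mul_pow]; norm_num
    calc σ * ((-1) ^ (b :: l').length * (-1) ^ j) * (-1) ^ j
        = σ * (-1) ^ (b :: l').length * ((-1) ^ j * (-1) ^ j) := by ring
      _ = _ := by rw [this, mul_one]
  rw [hs]
  exact e3

private lemma sr_quad {A B : M2 ℝ} (hA : A.det = 1) (hB : B.det = 1) (ha : |A.trace| < 2)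
    (hb : |B.trace| < 2) (hc : A 1 0 ≠ 0) :
    A 1 0 * B 1 0 * (2 * (A * B).trace - A.trace * B.trace) < 0 := by
  rw [abs_lt] at ha hb
  have ha2 : 0 < 4 - A.trace ^ 2 := by nlinarith [ha.1, ha.2]
  have hb2 : 0 < 4 - B.trace ^ 2 := by nlinarith [hb.1, hb.2]
  rw [Matrix.det_fin_two] at hA hB
  have key : A 1 0 * B 1 0 * (2 * (A * B).trace - A.trace * B.trace) =
      -(((A 0 0 - A 1 1) * B 1 0 - (B 0 0 - B 1 1) * A 1 0) ^ 2 / 2) -
        (4 - A.trace ^ 2) * B 1 0 ^ 2 / 2 - (4 - B.trace ^ 2) * A 1 0 ^ 2 / 2 := by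
    simp only [Matrix.trace_fin_two, Matrix.mul_apply, Fin.sum_univ_two]
    linear_combination (-2 * B 1 0 ^ 2) * hA - (2 * A 1 0 ^ 2) * hB
  rw [key]
  have h1 : 0 < (4 - B.trace ^ 2) * A 1 0 ^ 2 := mul_pos hb2 (by positivity)
  have h2 : 0 ≤ (4 - A.trace ^ 2) * B 1 0 ^ 2 := mul_nonneg ha2.le (sq_nonneg _)
  nlinarith [sq_nonneg ((A 0 0 - A 1 1) * B 1 0 - (B 0 0 - B 1 1) * A 1 0)]

/-- sign of the slope of `C_l` in the `(x, y)`-plane -/
theorem sign_slope {lam : ℝ} (hlam : 0 < lam) (l : List ℕ) (hl : Pos l) (hne : l ≠ []) (φ : ℝ)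
    (hx : |(str lam l φ).1| < 2) (hy : |(str lam l φ).2.1| < 2) :
    0 < (deriv (str lam l) φ).1 * (deriv (str lam l) φ).2.1 * kz (str lam l φ) := by
  have hg := tmr_good lam l φ
  have hs := tmr_stt lam l φ
  have hd := tmr_dst lam l φ
  rw [← hs] at hx hy ⊢
  rw [← hd]
  have hLA := (tmr_PC lam l hl φ).1
  have hLB := tmr_PC_LB lam l hl hne φ
  have hpm : (-(-1 : ℝ) ^ l.length) = 1 ∨ (-(-1 : ℝ) ^ l.length) = -1 := by
    rcases sr_pm l.length with h | h <;> rw [h] <;> norm_num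
  have e1 := (PC.tr_mul (sr_pm _) hg.dA hx hLA).1
  have e2 := (PC.tr_mul hpm hg.dB hy hLB).1
  have hc : (tmr lam l φ).A 1 0 ≠ 0 := by
    intro h
    rw [h] at e1
    simp at e1
  have e3 := sr_quad hg.dA hg.dB hx hy hc
  have e4 : kz (tmr lam l φ).stt = 2 * ((tmr lam l φ).A * (tmr lam l φ).B).trace -
      (tmr lam l φ).A.trace * (tmr lam l φ).B.trace := rfl
  have e5 : (tmr lam l φ).dst.1 = ((tmr lam l φ).A * (tmr lam l φ).LA).trace := rfl
  have e6 : (tmr lam l φ).dst.2.1 = ((tmr lam l φ).B * (tmr lam l φ).LB).trace := rfl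
  rw [e4, e5, e6]
  generalize ((tmr lam l φ).A * (tmr lam l φ).LA).trace = X at *
  generalize ((tmr lam l φ).B * (tmr lam l φ).LB).trace = Y at *
  generalize 2 * ((tmr lam l φ).A * (tmr lam l φ).B).trace -
      (tmr lam l φ).A.trace * (tmr lam l φ).B.trace = Z at *
  generalize (tmr lam l φ).A 1 0 = a at *
  generalize (tmr lam l φ).B 1 0 = b at *
  have hs2 : ((-1 : ℝ)) ^ l.length * (-1) ^ l.length = 1 := by
    rw [← mul_pow]; norm_num
  generalize ((-1 : ℝ)) ^ l.length = s at *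
  have f1 : 0 < (s * a * X) * (-s * b * Y) := mul_pos_of_neg_of_neg e1 e2
  have f2 : (s * a * X) * (-s * b * Y) = -(a * b * X * Y) := by
    calc (s * a * X) * (-s * b * Y) = -((s * s) * (a * b * X * Y)) := by ring
      _ = _ := by rw [hs2, one_mul]
  rw [f2] at f1
  have f3 : a * b * X * Y < 0 := by linarith
  have f4 : 0 < (a * b * X * Y) * (a * b * Z) := mul_pos_of_neg_of_neg f3 e3
  have f5 : (a * b * X * Y) * (a * b * Z) = (a * b) ^ 2 * (X * Y * Z) := by ring
  rw [f5] at f4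
  exact sr_pos f4

end Sturm
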