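import Pool.Agent.Lib.MP_e5ebf6_mp.VAbs
import Pool.Agent.Lib.MP_e5ebf6_mp.PassLip
import Pool.Agent.Lib.MP_e5ebf6_mp.SignRel

/-! Module VPass: what a passage must meet. -/

open Complex Metric Set
noncomputable section
namespace Sturm

private theorem vp_lt {lam : ℝ} (hlam : 0 < lam) {t : ℝ} (ht : t ∈ Icc (-2 : ℝ) 2) :
    |t| < RR lam :=
  lt_of_le_of_lt (abs_le.2 ⟨ht.1, ht.2⟩) (two_lt_RR hlam)

private theorem vp_st {lam : ℝ} (hlam : 0 < lam) (l : List ℕ) {g : ℂ → ℂ}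
    (h : Passage lam l g) {t : ℝ} (ht : t ∈ Icc (-2 : ℝ) 2) :
    str lam l (gr g t) = (t, (str lam l (gr g t)).2.1, (str lam l (gr g t)).2.2) := by
  have h1 : (str lam l (gr g t)).1 = t := (passage_ofReal l h (vp_lt hlam ht)).2
  refine Prod.ext ?_ rfl
  simpa using h1

private theorem vp_cont {lam : ℝ} (hlam : 0 < lam) (l : List ℕ) (hl : Pos l) {g : ℂ → ℂ}
    (h : Passage lam l g) :
    ContinuousOn (fun t => str lam l (gr g t)) (Icc (-2 : ℝ) 2) := by
  have h1 : ContinuousOn (gr g) (Icc (-2 : ℝ) 2) :=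
    (continuousOn_gr hlam l hl h).mono fun t ht => abs_lt.1 (vp_lt hlam ht)
  exact (differentiable_str lam l).continuous.comp_continuousOn h1

private theorem vp_ell {lam : ℝ} (hlam : 0 < lam) (l : List ℕ) (hl : Pos l) {g : ℂ → ℂ}
    (h : Passage lam l g) {t : ℝ} (ht : t ∈ Icc (-2 : ℝ) 2) :
    |(str lam l (gr g t)).2.1| < 2 ∨ |(str lam l (gr g t)).2.2| < 2 := by
  have h1 : (str lam l (gr g t)).1 = t := (passage_ofReal l h (vp_lt hlam ht)).2
  have h2 := elliptic_or lam l hl ((gr g t : ℝ) : ℂ)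
  rw [st_ofReal] at h2
  simp only [Complex.norm_real, Real.norm_eq_abs] at h2
  exact h2 (by rw [h1]; exact abs_le.2 ⟨ht.1, ht.2⟩)

theorem pass_meets {lam : ℝ} (hlam : 0 < lam) (l : List ℕ) (hl : Pos l) (hne : l ≠ [])
    {g : ℂ → ℂ} (h : Passage lam l g) (c : ℕ) (hc : 2 ≤ c) :
    ∃ t ∈ Icc (-2 : ℝ) 2, |ww (str lam l (gr g t)) (c + 1)| ≤ 2 := by
  have hcont := vp_cont hlam l hl h
  have hst := fun t (ht : t ∈ Icc (-2 : ℝ) 2) => vp_st hlam l h ht
  have hderiv : ∀ t ∈ Ioo (-2 : ℝ) 2, HasDerivAt (fun t => (str lam l (gr g t)).2.1)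
      ((deriv (TR lam l) (gr g t))⁻¹ * (deriv (str lam l) (gr g t)).2.1) t := by
    intro t ht
    have h1 := hasDerivAt_gr hlam l hl h (vp_lt hlam (Ioo_subset_Icc_self ht))
    have h2 : HasDerivAt (str lam l) (deriv (str lam l) (gr g t)) (gr g t) :=
      (differentiable_str lam l _).hasDerivAt
    have h3 := h2.scomp t h1
    have h4 := h3.hasFDerivAt
    have h5 := (h4.snd).fst
    have h6 := h5.hasDerivAt
    simpa using h6
  obtain ⟨t, ht, h2⟩ := V1_abs hlam (fun t => (str lam l (gr g t)).2.1)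
    (fun t => (str lam l (gr g t)).2.2)
    (continuous_fst.comp_continuousOn (continuous_snd.comp_continuousOn hcont))
    (continuous_snd.comp_continuousOn (continuous_snd.comp_continuousOn hcont))
    (fun t ht => (hderiv t ht).differentiableAt)
    (by
      intro t ht hy
      have ht' := Ioo_subset_Icc_self ht
      rw [(hderiv t ht).deriv]
      have hx : (str lam l (gr g t)).1 = t := (passage_ofReal l h (vp_lt hlam ht')).2
      have h3 := sign_slope hlam l hl hne (gr g t)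
        (by rw [hx]; exact abs_lt.2 ⟨ht.1, ht.2⟩) hy
      rw [deriv_TR]
      have h4 : ((t, (str lam l (gr g t)).2.1, (str lam l (gr g t)).2.2) : St ℝ) =
          str lam l (gr g t) := (hst t ht').symm
      rw [h4]
      have h5 : (deriv (str lam l) (gr g t)).1 ≠ 0 := by
        intro h0
        rw [h0] at h3
        simp at h3
      have h6 : 0 < (deriv (str lam l) (gr g t)).1 ^ 2 := by positivity
      have h7 : (deriv (str lam l) (gr g t)).1⁻¹ * (deriv (str lam l) (gr g t)).2.1 *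
          kz (str lam l (gr g t)) = ((deriv (str lam l) (gr g t)).1 *
            (deriv (str lam l) (gr g t)).2.1 * kz (str lam l (gr g t))) /
            (deriv (str lam l) (gr g t)).1 ^ 2 := by
        field_simp
      rw [h7]
      exact div_pos h3 h6)
    (by
      intro t ht
      have h4 : ((t, (str lam l (gr g t)).2.1, (str lam l (gr g t)).2.2) : St ℝ) =
          str lam l (gr g t) := (hst t ht).symm
      rw [h4]
      exact kap_str lam l _)
    (fun t ht => vp_ell hlam l hl h ht) c hc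
  refine ⟨t, ht, ?_⟩
  rw [hst t ht]
  exact h2

theorem pass_meets' {lam : ℝ} (hlam : 0 < lam) (l : List ℕ) (hl : Pos l)
    {g : ℂ → ℂ} (h : Passage lam l g) :
    ∃ t ∈ Icc (-2 : ℝ) 2, |(str lam l (gr g t)).2.1| ≤ 2 ∨ |ww (str lam l (gr g t)) 2| ≤ 2 := by
  have hcont := vp_cont hlam l hl h
  have hst := fun t (ht : t ∈ Icc (-2 : ℝ) 2) => vp_st hlam l h ht
  obtain ⟨t, ht, h2⟩ := V2_abs hlam (fun t => (str lam l (gr g t)).2.1)
    (fun t => (str lam l (gr g t)).2.2)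
    (continuous_fst.comp_continuousOn (continuous_snd.comp_continuousOn hcont))
    (continuous_snd.comp_continuousOn (continuous_snd.comp_continuousOn hcont))
    (by
      intro t ht
      have h4 : ((t, (str lam l (gr g t)).2.1, (str lam l (gr g t)).2.2) : St ℝ) =
          str lam l (gr g t) := (hst t ht).symm
      rw [h4]
      exact kap_str lam l _)
    (fun t ht => vp_ell hlam l hl h ht)
  refine ⟨t, ht, ?_⟩
  have h4 : ((t, (str lam l (gr g t)).2.1, (str lam l (gr g t)).2.2) : St ℝ) =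
      str lam l (gr g t) := (hst t ht).symm
  rw [h4] at h2
  exact h2

/-- consequences in terms of levels `0, 1, 2, 3` of a list -/
theorem level_meet_zero {lam : ℝ} (hlam : 0 < lam) (b₀ b₁ : ℕ) (l : List ℕ)
    (hl : Pos (b₀ :: b₁ :: l)) (φ : ℝ) (hx : |TR lam (b₀ :: b₁ :: l) φ| ≤ 2) :
    |TR lam (b₁ :: l) φ| < 2 ∨ |TR lam l φ| < 2 := by
  have hb0 : 1 ≤ b₀ := hl b₀ (by simp)
  have hxc : ‖(st lam (b₀ :: b₁ :: l) (φ : ℂ)).1‖ ≤ 2 := by
    rw [st_ofReal]
    simpa [TR] using hx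
  have e1 : (str lam (b₀ :: b₁ :: l) φ).2.1 = TR lam (b₁ :: l) φ := rfl
  have e2 : uu (str lam (b₀ :: b₁ :: l) φ) b₀ = TR lam l φ := by
    have h1 : (fwd1 b₀ (str lam (b₀ :: b₁ :: l) φ)).2.1 = (str lam (b₁ :: l) φ).2.1 := by
      rw [fwd1_str]
    exact h1
  by_cases hy : |TR lam (b₁ :: l) φ| < 2
  · exact Or.inl hy
  · right
    have h3 := elliptic_block lam b₀ (b₁ :: l) hl (φ : ℂ) hxc
      (by rw [st_ofReal]; simpa [e1] using not_lt.1 hy) b₀ hb0 le_rfl
    have h4 : uu (st lam (b₀ :: b₁ :: l) (φ : ℂ)) b₀ =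
        ((uu (str lam (b₀ :: b₁ :: l) φ) b₀ : ℝ) : ℂ) := by
      have h5 := congrArg Prod.fst (node_st lam b₀ b₀ le_rfl (b₁ :: l) (φ : ℂ))
      have h6 := congrArg Prod.fst (node_str lam b₀ b₀ le_rfl (b₁ :: l) φ)
      simp only [] at h5 h6
      rw [← h5, ← h6, st_ofReal]
    rw [h4, e2] at h3
    simpa using h3

/-- `b₀ ≥ 2`: every level-1 passage meets `{|X₀| ≤ 2}` -/
theorem level_meet_one_big {lam : ℝ} (hlam : 0 < lam) (b₀ : ℕ) (l : List ℕ)
    (hl : Pos (b₀ :: l)) (hne : l ≠ []) (hb : 2 ≤ b₀) {g : ℂ → ℂ} (h : Passage lam l g) :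
    ∃ t ∈ Icc (-2 : ℝ) 2, |TR lam (b₀ :: l) (gr g t)| ≤ 2 := by
  have hl' : Pos l := fun b hb => hl b (List.mem_cons_of_mem _ hb)
  exact pass_meets hlam l hl' hne h b₀ hb

/-- `b₀ = 1`: every level-1 passage meets `{|X₀| ≤ 2}` or `{|X₂| ≤ 2}` -/
theorem level_meet_one_one {lam : ℝ} (hlam : 0 < lam) (b₁ : ℕ) (l : List ℕ)
    (hl : Pos (b₁ :: l)) {g : ℂ → ℂ} (h : Passage lam (b₁ :: l) g) :
    ∃ t ∈ Icc (-2 : ℝ) 2, |TR lam (1 :: b₁ :: l) (gr g t)| ≤ 2 ∨ |TR lam l (gr g t)| ≤ 2 := by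
  obtain ⟨t, ht, h2⟩ := pass_meets' hlam (b₁ :: l) hl h
  exact ⟨t, ht, h2.symm⟩

/-- `b₀ = 1`: every level-2 passage meets `{|X₀| ≤ 2}` -/
theorem level_meet_two {lam : ℝ} (hlam : 0 < lam) (b₁ : ℕ) (l : List ℕ)
    (hl : Pos (b₁ :: l)) (hne : l ≠ []) {g : ℂ → ℂ} (h : Passage lam l g) :
    ∃ t ∈ Icc (-2 : ℝ) 2, |TR lam (1 :: b₁ :: l) (gr g t)| ≤ 2 := by
  have hl' : Pos l := fun b hb => hl b (List.mem_cons_of_mem _ hb)
  have hb1 : 1 ≤ b₁ := hl b₁ (by simp)
  obtain ⟨t, ht, h2⟩ := pass_meets hlam l hl' hne h (b₁ + 1) (by omega)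
  refine ⟨t, ht, ?_⟩
  have e : TR lam (1 :: b₁ :: l) (gr g t) = ww (str lam l (gr g t)) (b₁ + 1 + 1) := by
    have e1 : TR lam (1 :: b₁ :: l) (gr g t) = ww (bwd1 b₁ (str lam l (gr g t))) 2 := rfl
    rw [e1]
    have e2 : ww (bwd1 b₁ (str lam l (gr g t))) 2 =
        (bwd1 b₁ (str lam l (gr g t))).1 * (bwd1 b₁ (str lam l (gr g t))).2.1 -
          (bwd1 b₁ (str lam l (gr g t))).2.2 := rfl
    have e3 : ww (str lam l (gr g t)) (b₁ + 1 + 1) =
        (str lam l (gr g t)).1 * ww (str lam l (gr g t)) (b₁ + 1) -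
          ww (str lam l (gr g t)) b₁ := rfl
    rw [e2, e3]
    simp only [bwd1]
    ring
  rw [e]
  exact h2

end Sturm
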