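import Pool.Agent.Lib.MP_e5ebf6_mp.ZsBasic
import Pool.Agent.Lib.MP_e5ebf6_mp.Closeness
import Pool.Agent.Lib.MP_e5ebf6_mp.VPass
import Pool.Agent.Lib.MP_e5ebf6_mp.TransferAbs

/-! Module DimEq: equality of the cover exponents of `b` and of the shifted sequence. -/

open Complex Metric Set MeasureTheory Filter Topology
noncomputable section
namespace Sturm

private theorem de_drop (b : ℕ → ℕ) {M k : ℕ} (h : k + 1 ≤ M) :
    (lM b M).drop k = b k :: (lM b M).drop (k + 1) :=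
  (ndl_zero b M k h).symm

private theorem de_pos {b : ℕ → ℕ} (hb : ∀ k, 1 ≤ b k) (M k : ℕ) : Pos ((lM b M).drop k) :=
  fun c hc => lM_pos hb M c (List.mem_of_mem_drop hc)

private theorem de_nB_le {b : ℕ → ℕ} (hb : ∀ k, 1 ≤ b k) (M : ℕ) : ∀ k, k ≤ M →
    nB ((lM b M).drop k) ≤ nB (lM b M) := by
  intro k
  induction k with
  | zero => intro _; simp
  | succ k ih =>
      intro hk
      have h1 := ih (by omega)
      have h2 := (nB_cons_le (b k) ((lM b M).drop (k + 1))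
        (by rw [← de_drop b hk]; exact de_pos hb M k)).1
      rw [← de_drop b hk] at h2
      exact h2.trans h1

private theorem de_nB_ge {b : ℕ → ℕ} (hb : ∀ k, 1 ≤ b k) (M : ℕ) : ∀ k, k ≤ M →
    nB (lM b M) ≤ (∏ m ∈ Finset.range k, (b m + 1)) * nB ((lM b M).drop k) := by
  intro k
  induction k with
  | zero => intro _; simp
  | succ k ih =>
      intro hk
      have h1 := ih (by omega)
      have h2 := (nB_cons_le (b k) ((lM b M).drop (k + 1))
        (by rw [← de_drop b hk]; exact de_pos hb M k)).2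
      rw [← de_drop b hk] at h2
      rw [Finset.prod_range_succ, mul_assoc]
      exact h1.trans (Nat.mul_le_mul_left _ h2)

private theorem de_limC {lam : ℝ} {c : ℕ → ℕ} {μ : Measure ℝ} (h : LimZ lam c μ) (k : ℕ) :
    LimC (fun M => Zs lam (lM c (M + k))) μ := by
  refine ⟨h.1, fun f hf hb => ?_⟩
  exact (tendsto_add_atTop_iff_nat
    (f := fun M => (∑ᶠ E ∈ Zs lam (lM c M), f E) / ((Zs lam (lM c M)).ncard : ℝ)) k).2
    (h.2 f hf hb)

private theorem de_sign {lam : ℝ} (l : List ℕ) (φ : ℝ) :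
    ∃ ψ : ℝ, str lam l ψ = ((str lam l φ).1, -(str lam l φ).2.1, -(str lam l φ).2.2) := by
  obtain ⟨e, c, _, h⟩ := exists_sign_sym lam l
  refine ⟨e * φ + c, ?_⟩
  have h1 := h (φ : ℂ)
  have h2 : (e : ℂ) * (φ : ℂ) + (c : ℂ) = ((e * φ + c : ℝ) : ℂ) := by push_cast; ring
  rw [h2, st_ofReal, st_ofReal] at h1
  have h3 := congrArg Prod.fst h1
  have h4 := congrArg (fun p => p.2.1) h1
  have h5 := congrArg (fun p => p.2.2) h1
  simp only [] at h3 h4 h5
  refine Prod.ext ?_ (Prod.ext ?_ ?_)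
  · exact_mod_cast h3
  · show (str lam l (e * φ + c)).2.1 = -(str lam l φ).2.1
    exact_mod_cast h4
  · show (str lam l (e * φ + c)).2.2 = -(str lam l φ).2.2
    exact_mod_cast h5

/-- the endpoint of a passage over `2` gives, up to sign, a zero on the energy line -/
private theorem de_end {lam : ℝ} (hlam : 0 < lam) (l : List ℕ) {h : ℂ → ℂ}
    (hp : Passage lam l h) :
    ∃ (e : ℝ) (σ : Bool), e ∈ Zs lam l ∧ str lam l (gr h 2) =
      if σ then ((2, e, e - lam) : St ℝ) else (2, -e, -(e - lam)) := by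
  have hR := two_lt_RR hlam
  have h1 : (str lam l (gr h 2)).1 = 2 :=
    (passage_ofReal l hp (by rw [abs_of_pos (by norm_num : (0:ℝ) < 2)]; exact hR)).2
  have h2 := kap_str lam l (gr h 2)
  unfold kap at h2
  rw [h1] at h2
  have h3 : ((str lam l (gr h 2)).2.1 - (str lam l (gr h 2)).2.2 - lam) *
      ((str lam l (gr h 2)).2.1 - (str lam l (gr h 2)).2.2 + lam) = 0 := by
    linarith
  rcases mul_eq_zero.1 h3 with h4 | h4
  · refine ⟨(str lam l (gr h 2)).2.1, true, ?_, ?_⟩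
    · rw [Zs_iff]
      refine ⟨gr h 2, Prod.ext h1 (Prod.ext rfl ?_)⟩
      show (str lam l (gr h 2)).2.2 = (str lam l (gr h 2)).2.1 - lam
      linarith
    · simp only [if_true]
      refine Prod.ext h1 (Prod.ext rfl ?_)
      show (str lam l (gr h 2)).2.2 = (str lam l (gr h 2)).2.1 - lam
      linarith
  · refine ⟨-(str lam l (gr h 2)).2.1, false, ?_, ?_⟩
    · rw [Zs_iff]
      obtain ⟨ψ, hψ⟩ := de_sign (lam := lam) l (gr h 2)
      refine ⟨ψ, ?_⟩
      rw [hψ]
      refine Prod.ext h1 (Prod.ext rfl ?_)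
      show -(str lam l (gr h 2)).2.2 = -(str lam l (gr h 2)).2.1 - lam
      linarith
    · simp only [Bool.false_eq_true, if_false, neg_neg]
      refine Prod.ext h1 (Prod.ext rfl ?_)
      show (str lam l (gr h 2)).2.2 = -(-(str lam l (gr h 2)).2.1 - lam)
      linarith

/-- windows of length `w` -/
private theorem de_win (w : ℝ) (hw : 0 < w) :
    ∃ (n : ℕ) (f : ℝ → Fin n), ∀ t₁ t₂ : ℝ, |t₁| ≤ 2 → |t₂| ≤ 2 → f t₁ = f t₂ →
      |t₁ - t₂| ≤ w := by
  refine ⟨⌊4 / w⌋₊ + 1, fun t => ⟨min ⌊(t + 2) / w⌋₊ ⌊4 / w⌋₊,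
    Nat.lt_succ_of_le (min_le_right _ _)⟩, ?_⟩
  intro t₁ t₂ h1 h2 h
  rw [Fin.mk.injEq] at h
  have k : ∀ t : ℝ, |t| ≤ 2 → ⌊(t + 2) / w⌋₊ ≤ ⌊4 / w⌋₊ := by
    intro t ht
    apply Nat.floor_le_floor
    have := (abs_le.1 ht).2
    gcongr
    linarith
  rw [min_eq_left (k t₁ h1), min_eq_left (k t₂ h2)] at h
  have p : ∀ t : ℝ, |t| ≤ 2 → 0 ≤ (t + 2) / w := fun t ht =>
    div_nonneg (by linarith [(abs_le.1 ht).1]) hw.le
  have a1 := Nat.floor_le (p t₁ h1)
  have a2 := Nat.lt_floor_add_one ((t₁ + 2) / w)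
  have a3 := Nat.floor_le (p t₂ h2)
  have a4 := Nat.lt_floor_add_one ((t₂ + 2) / w)
  rw [← h] at a3 a4
  have e1 : (t₁ - t₂) / w = (t₁ + 2) / w - (t₂ + 2) / w := by ring
  have b1 : (t₁ - t₂) / w ≤ 1 := by rw [e1]; linarith
  have b2 : -1 ≤ (t₁ - t₂) / w := by rw [e1]; linarith
  rw [div_le_iff₀ hw] at b1
  rw [le_div_iff₀ hw] at b2
  rw [abs_le]
  constructor <;> linarith

/-- concrete transfer between levels: level `i` zeros to level `j₀` or `j₁` zeros -/
theorem transfer_levels {lam : ℝ} (hlam : 0 < lam) (b : ℕ → ℕ) (hb : ∀ k, 1 ≤ b k)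
    (i : ℕ) (j : Fin 2 → ℕ) (μ : Measure ℝ) (ν : Fin 2 → Measure ℝ)
    (hμ : LimZ lam (shf i b) μ) (hν : ∀ a, LimZ lam (shf (j a) b) (ν a)) (M1 : ℕ)
    (hmeet : ∀ M, M1 ≤ M → ∀ g : ℂ → ℂ, Passage lam ((lM b M).drop i) g →
      ∃ t ∈ Icc (-2 : ℝ) 2, ∃ a : Fin 2, |TR lam ((lM b M).drop (j a)) (gr g t)| ≤ 2)
    (t t' : ℝ) (ht' : 0 < t') (htt : t' < t) (hZ : ∀ a, Zt t' (ν a)) : Zt t μ := by
  have hR := two_lt_RR hlam
  have bR : ∀ {t : ℝ}, |t| ≤ 2 → |t| < RR lam := fun h => lt_of_le_of_lt h hR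
  have ht : 0 < t := ht'.trans htt
  set ε : ℝ := 1 - t' / t with hε
  have hε0 : 0 < ε := by
    have : t' / t < 1 := (div_lt_one ht).2 htt
    linarith
  have hε1 : ε < 1 := by
    have : 0 < t' / t := div_pos ht' ht
    linarith
  have hcl := fun a : Fin 2 => closeness hlam b hb i (j a) ε hε0 hε1
  choose Ca wa hCa hwa Ma hcl using hcl
  set C : ℝ := max (Ca 0) (Ca 1) with hC
  set w : ℝ := min (wa 0) (wa 1) with hw
  have hCle : ∀ a, Ca a ≤ C := by
    intro a; fin_cases a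
    · exact le_max_left _ _
    · exact le_max_right _ _
  have hwle : ∀ a, w ≤ wa a := by
    intro a; fin_cases a
    · exact min_le_left _ _
    · exact min_le_right _ _
  have hw0 : 0 < w := lt_min (hwa 0) (hwa 1)
  obtain ⟨n, f, hf⟩ := de_win w hw0
  set m0 : ℕ := i + j 0 + j 1 with hm0
  have hjm : ∀ a, j a ≤ m0 := by
    intro a; fin_cases a
    · show j 0 ≤ m0
      omega
    · show j 1 ≤ m0
      omega
  have hdropi : ∀ M, (lM b (M + m0)).drop i = lM (shf i b) (M + (m0 - i)) := by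
    intro M
    rw [drop_lM]
    congr 1
    omega
  have hdropj : ∀ a M, (lM b (M + m0)).drop (j a) = lM (shf (j a) b) (M + (m0 - j a)) := by
    intro a M
    rw [drop_lM]
    congr 1
    have := hjm a
    omega
  have hcardB : ∀ a M, (Zs lam ((lM b (M + m0)).drop (j a))).ncard =
      nB ((lM b (M + m0)).drop (j a)) := fun a M => Zs_card hlam _ (de_pos hb _ _)
  have hcardA : ∀ M, (Zs lam ((lM b (M + m0)).drop i)).ncard =
      nB ((lM b (M + m0)).drop i) := fun M => Zs_card hlam _ (de_pos hb _ _)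
  have hnB1 : ∀ l : List ℕ, Pos l → 1 ≤ nB l := nB_pos
  refine transfer_abs μ ν (fun M => Zs lam ((lM b (M + m0)).drop i))
    (fun a M => Zs lam ((lM b (M + m0)).drop (j a)))
    (fun M => Zs_finite hlam _ (de_pos hb _ _)) ?_
    (fun a M => Zs_finite hlam _ (de_pos hb _ _)) ?_ ?_ (K0 lam) ?_
    ((∏ m ∈ Finset.range i, (b m + 1) : ℕ) : ℝ) ?_
    (Fintype.card (Fin n × Fin n × Bool)) C (1 - ε) ?_ (by linarith)
    (max M1 (max (Ma 0) (Ma 1))) ?_ t t' ht' ?_ hZ
  · intro M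
    rw [← Set.ncard_pos (Zs_finite hlam _ (de_pos hb _ _)), hcardA]
    exact hnB1 _ (de_pos hb _ _)
  · have := de_limC hμ (m0 - i)
    simpa only [hdropi] using this
  · intro a
    have := de_limC (hν a) (m0 - j a)
    simpa only [hdropj] using this
  · intro M E hE
    exact abs_le.1 (Zs_bound hlam _ (de_pos hb _ _) hE)
  · intro a M
    rw [hcardA, hcardB]
    have h1 := de_nB_le hb (M + m0) (j a) (by have := hjm a; omega)
    have h2 := de_nB_ge hb (M + m0) i (by omega)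
    exact_mod_cast h1.trans h2
  · exact (hCa 0).trans (hCle 0)
  · intro M hM
    have hM1 : M1 ≤ M + m0 := by
      have := (le_max_left M1 (max (Ma 0) (Ma 1))).trans hM
      omega
    have hMa : ∀ a, Ma a ≤ M + m0 := by
      intro a
      have h1 := (le_max_right M1 (max (Ma 0) (Ma 1))).trans hM
      fin_cases a
      · have := (le_max_left (Ma 0) (Ma 1)).trans h1
        show Ma 0 ≤ M + m0
        omega
      · have := (le_max_right (Ma 0) (Ma 1)).trans h1
        show Ma 1 ≤ M + m0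
        omega
    have key : ∀ E : ℝ, ∃ (a : Fin 2) (u s e : ℝ) (σ : Bool) (g h : ℂ → ℂ),
        E ∈ Zs lam ((lM b (M + m0)).drop i) →
          Passage lam ((lM b (M + m0)).drop i) g ∧
          str lam ((lM b (M + m0)).drop i) (gr g 2) = (2, E, E - lam) ∧ |u| ≤ 2 ∧ |s| ≤ 2 ∧
          Passage lam ((lM b (M + m0)).drop (j a)) h ∧ gr g u = gr h s ∧
          e ∈ Zs lam ((lM b (M + m0)).drop (j a)) ∧
          str lam ((lM b (M + m0)).drop (j a)) (gr h 2) =
            if σ then ((2, e, e - lam) : St ℝ) else (2, -e, -(e - lam)) := by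
      intro E
      by_cases hE : E ∈ Zs lam ((lM b (M + m0)).drop i)
      · obtain ⟨φ, hφ⟩ := (Zs_iff lam _ E).1 hE
        have hT : TR lam ((lM b (M + m0)).drop i) φ = 2 := by
          show (str lam ((lM b (M + m0)).drop i) φ).1 = 2
          rw [hφ]
        obtain ⟨g, hg, hg2⟩ := exists_passage hlam _ (de_pos hb (M + m0) i) φ
          (by rw [hT, abs_of_pos (by norm_num : (0:ℝ) < 2)]; exact hR)
        rw [hT] at hg2
        obtain ⟨u, hu, a, ha⟩ := hmeet (M + m0) hM1 g hg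
        obtain ⟨h, hh, hh2⟩ := exists_passage hlam _ (de_pos hb (M + m0) (j a)) (gr g u) (bR ha)
        obtain ⟨e, σ, he, hσ⟩ := de_end hlam _ hh
        exact ⟨a, u, TR lam ((lM b (M + m0)).drop (j a)) (gr g u), e, σ, g, h, fun _ =>
          ⟨hg, by rw [hg2, hφ], abs_le.2 ⟨hu.1, hu.2⟩, ha, hh, hh2.symm, he, hσ⟩⟩
      · exact ⟨0, 0, 0, 0, true, id, id, fun h => absurd h hE⟩
    choose a u s e σ g h key using key
    refine ⟨e, a, fun E => Fintype.equivFin (Fin n × Fin n × Bool) (f (u E), f (s E), σ E),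
      fun E hE => (key E hE).2.2.2.2.2.2.1, ?_⟩
    intro E₁ hE₁ E₂ hE₂ has hτ
    have hτ' := (Fintype.equivFin (Fin n × Fin n × Bool)).injective hτ
    simp only [Prod.mk.injEq] at hτ'
    obtain ⟨hτ1, hτ2, hτ3⟩ := hτ'
    obtain ⟨pg1, st1, hu1, hs1, ph1, eq1, he1, fin1⟩ := key E₁ hE₁
    obtain ⟨pg2, st2, hu2, hs2, ph2, eq2, he2, fin2⟩ := key E₂ hE₂
    rw [← has] at ph2 fin2
    have hmain := hcl (a E₁) (M + m0) (hMa _) (g E₁) (g E₂) (h E₁) (h E₂) pg1 pg2 ph1 ph2
      (u E₁) (u E₂) (s E₁) (s E₂) hu1 hu2 hs1 hs2 eq1 eq2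
      ((hf _ _ hu1 hu2 hτ1).trans (hwle _)) ((hf _ _ hs1 hs2 hτ2).trans (hwle _))
    have q1 : qd lam ((lM b (M + m0)).drop i) (g E₁) (g E₂) 2 = 2 * |E₁ - E₂| := by
      unfold qd sd
      rw [st1, st2]
      simp only [sub_self, abs_zero, sub_sub_sub_cancel_right]
      ring
    have q2 : qd lam ((lM b (M + m0)).drop (j (a E₁))) (h E₁) (h E₂) 2 = 2 * |e E₁ - e E₂| := by
      unfold qd sd
      rw [fin1, fin2, hτ3]
      cases σ E₂
      · simp only [Bool.false_eq_true, if_false, sub_self, abs_zero]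
        have x1 : -e E₁ - -e E₂ = -(e E₁ - e E₂) := by ring
        have x2 : -(e E₁ - lam) - -(e E₂ - lam) = -(e E₁ - e E₂) := by ring
        rw [x1, x2, abs_neg]
        ring
      · simp only [if_true, sub_self, abs_zero, sub_sub_sub_cancel_right]
        ring
    rw [q1, q2] at hmain
    have hx0 : 0 ≤ |e E₁ - e E₂| := abs_nonneg _
    have h2p : (2 * |e E₁ - e E₂|) ^ (1 - ε) ≤ 2 * |e E₁ - e E₂| ^ (1 - ε) := by
      rw [Real.mul_rpow (by norm_num) hx0]
      have h2 : (2:ℝ) ^ (1 - ε) ≤ 2 ^ (1:ℝ) :=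
        Real.rpow_le_rpow_of_exponent_le (by norm_num) (by linarith)
      rw [Real.rpow_one] at h2
      exact mul_le_mul_of_nonneg_right h2 (Real.rpow_nonneg hx0 _)
    have hr0 : 0 ≤ |e E₁ - e E₂| ^ (1 - ε) := Real.rpow_nonneg hx0 _
    have hCa0 : 0 ≤ Ca (a E₁) := by linarith [hCa (a E₁)]
    have h3 : Ca (a E₁) * (2 * |e E₁ - e E₂|) ^ (1 - ε) ≤
        C * (2 * |e E₁ - e E₂| ^ (1 - ε)) :=
      mul_le_mul (hCle _) h2p (Real.rpow_nonneg (by positivity) _)
        (hCa0.trans (hCle _))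
    linarith
  · rw [hε]
    have : (1 - (1 - t' / t)) * t = t' := by
      field_simp
      ring
    rw [this]

theorem dim_eq {lam : ℝ} (hlam : 0 < lam) (b : ℕ → ℕ) (hb : ∀ k, 1 ≤ b k)
    (μ : ℕ → Measure ℝ) (hμ : ∀ i, LimZ lam (shf i b) (μ i)) (t : ℝ) (ht : 0 ≤ t) :
    (∀ t' > t, Zt t' (μ 0)) ↔ (∀ t' > t, Zt t' (μ 1)) := by
  have hR := two_lt_RR hlam
  have habs : ∀ {t : ℝ}, t ∈ Icc (-2 : ℝ) 2 → |t| < RR lam := fun h =>
    lt_of_le_of_lt (abs_le.2 ⟨h.1, h.2⟩) hR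
  -- abstract step
  have step : ∀ (i j₀ j₁ M1 : ℕ),
      (∀ M, M1 ≤ M → ∀ g : ℂ → ℂ, Passage lam ((lM b M).drop i) g →
        ∃ t ∈ Icc (-2 : ℝ) 2, |TR lam ((lM b M).drop j₀) (gr g t)| ≤ 2 ∨
          |TR lam ((lM b M).drop j₁) (gr g t)| ≤ 2) →
      (∀ t' > t, Zt t' (μ j₀)) → (∀ t' > t, Zt t' (μ j₁)) → ∀ t' > t, Zt t' (μ i) := by
    intro i j₀ j₁ M1 hm h0 h1 t' ht'
    have hmid1 : t < (t + t') / 2 := by linarith
    have hmid2 : (t + t') / 2 < t' := by linarith
    refine transfer_levels hlam b hb i ![j₀, j₁] (μ i) (fun a => μ (![j₀, j₁] a)) (hμ i)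
      (fun a => hμ _) M1 ?_ t' ((t + t') / 2) (by linarith) hmid2 ?_
    · intro M hM g hg
      obtain ⟨u, hu, h⟩ := hm M hM g hg
      rcases h with h | h
      · exact ⟨u, hu, 0, h⟩
      · exact ⟨u, hu, 1, h⟩
    · intro a
      fin_cases a
      · exact h0 _ hmid1
      · exact h1 _ hmid1
  have hA : ∀ k, (∀ t' > t, Zt t' (μ (k + 1))) → (∀ t' > t, Zt t' (μ (k + 2))) →
      ∀ t' > t, Zt t' (μ k) := by
    intro k
    refine step k (k + 1) (k + 2) (k + 2) ?_
    intro M hM g hg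
    have e1 := de_drop b (M := M) (k := k) (by omega)
    have e2 := de_drop b (M := M) (k := k + 1) (by omega)
    have hx : TR lam ((lM b M).drop k) (gr g 2) = 2 :=
      (passage_ofReal _ hg (habs (t := 2) (by constructor <;> norm_num))).2
    have hpos := de_pos hb M k
    rw [e1, e2] at hpos hx
    refine ⟨2, by constructor <;> norm_num, ?_⟩
    have h := level_meet_zero hlam (b k) (b (k + 1)) ((lM b M).drop (k + 1 + 1)) hpos (gr g 2)
      (by rw [hx, abs_of_pos (by norm_num : (0:ℝ) < 2)])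
    rw [← e2] at h
    exact h.imp le_of_lt le_of_lt
  have hne : ∀ {M k : ℕ}, k + 1 ≤ M → (lM b M).drop k ≠ [] := by
    intro M k h
    rw [de_drop b h]
    simp
  have hB : ∀ k, (∀ t' > t, Zt t' (μ k)) → ∀ t' > t, Zt t' (μ (k + 1)) := by
    intro k hk
    rcases Nat.lt_or_ge 1 (b k) with hbk | hbk
    · refine step (k + 1) k k (k + 2) ?_ hk hk
      intro M hM g hg
      have e1 := de_drop b (M := M) (k := k) (by omega)
      have hpos := de_pos hb M k
      rw [e1] at hpos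
      obtain ⟨u, hu, h⟩ := level_meet_one_big hlam (b k) ((lM b M).drop (k + 1)) hpos
        (hne (by omega)) hbk hg
      rw [← e1] at h
      exact ⟨u, hu, Or.inl h⟩
    · have hbk1 : b k = 1 := le_antisymm hbk (hb k)
      have h2 : ∀ t' > t, Zt t' (μ (k + 2)) := by
        refine step (k + 2) k k (k + 3) ?_ hk hk
        intro M hM g hg
        have e1 := de_drop b (M := M) (k := k) (by omega)
        have e2 := de_drop b (M := M) (k := k + 1) (by omega)
        have hpos := de_pos hb M (k + 1)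
        rw [e2] at hpos
        obtain ⟨u, hu, h⟩ := level_meet_two hlam (b (k + 1)) ((lM b M).drop (k + 2)) hpos
          (hne (by omega)) hg
        rw [hbk1, e2] at e1
        have e3 : (1 :: b (k + 1) :: (lM b M).drop (k + 2)) = (lM b M).drop k := e1.symm
        rw [e3] at h
        exact ⟨u, hu, Or.inl h⟩
      refine step (k + 1) k (k + 2) (k + 2) ?_ hk h2
      intro M hM g hg
      have e1 := de_drop b (M := M) (k := k) (by omega)
      have e2 := de_drop b (M := M) (k := k + 1) (by omega)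
      have hpos := de_pos hb M (k + 1)
      rw [e2] at hpos hg
      obtain ⟨u, hu, h⟩ := level_meet_one_one hlam (b (k + 1)) ((lM b M).drop (k + 1 + 1)) hpos hg
      rw [hbk1, e2] at e1
      rw [← e1] at h
      exact ⟨u, hu, h⟩
  constructor
  · exact hB 0
  · intro h1
    exact hA 0 h1 (hB 1 h1)

end Sturm
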