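import Pool.Agent.Lib.MP_e5ebf6_mp.DosMeas

/-! Module DosExists: existence of the density of states measure.

PROOF.  Choose `H ω` by `exists_schr` (`|vst| ≤ lam`).  `Λ g = ∫₀¹ qf b (H ω) g dω` is a positive
linear functional on `C_c(ℝ, ℝ)` (`qf_add`, `qf_smul`, `qf_nonneg`, `qf_intervalIntegrable`;
`CompactlySupportedContinuousMap`, notation `C_c(ℝ, ℝ) →ₚ[ℝ] ℝ` for the bundled positive linear
maps, `PositiveLinearMap.mk₀`).  `N = RealRMK.rieszMeasure Λ` and `RealRMK.integral_rieszMeasure`:
`∫ g dN = Λ g` for `g ∈ C_c`.  Let `I = [-(2+lam), 2+lam]`, `χ_n x = max 0 (min 1 (n + 3 + lam - |x|))`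
(`C_c`, `= 1` on `|x| ≤ n + 2 + lam`, `0` for `|x| ≥ n + 3 + lam`, increasing in `n`).
`N` finite and `N(Iᶜ) = 0`: `∫ χ_n dN = Λ χ_n = 1` for all `n`
(as `χ_n = 1` on `I`, `qf_close` with `ε = 0` and `qf_poly` with `p = 1`), so by monotone convergence
(or `N (closedBall) ≤ ∫ χ_n`, continuity of measure from below and the monotone union) `N(ℝ) = 1`.
For bounded continuous `g`, `∫ g dN = lim ∫ g χ_n dN` (dominated convergence) `= lim Λ(g χ_n)` and
`Λ(g χ_n) = ∫₀¹ qf (H ω) g dω` for all `n` since `g χ_n = g` on `I` (`qf_close`, `ε = 0`). -/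

open MeasureTheory Filter Topology Set
open scoped CompactlySupported
noncomputable section
namespace Sturm

variable {V : Type*} [NormedAddCommGroup V] [InnerProductSpace ℂ V] [CompleteSpace V]
  (b : HilbertBasis ℤ ℂ V)

/-- cut-off functions -/
private def chi (lam : ℝ) (n : ℕ) (x : ℝ) : ℝ := max 0 (min 1 (n + 3 + lam - |x|))

private theorem chi_continuous (lam : ℝ) (n : ℕ) : Continuous (chi lam n) := by
  unfold chi
  fun_prop

private theorem chi_nonneg (lam : ℝ) (n : ℕ) (x : ℝ) : 0 ≤ chi lam n x := le_max_left _ _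

private theorem chi_le_one (lam : ℝ) (n : ℕ) (x : ℝ) : chi lam n x ≤ 1 :=
  max_le zero_le_one (min_le_left _ _)

private theorem chi_one {lam : ℝ} {n : ℕ} {x : ℝ} (h : |x| ≤ n + 2 + lam) : chi lam n x = 1 := by
  unfold chi
  rw [min_eq_left (by linarith), max_eq_right zero_le_one]

private theorem chi_zero {lam : ℝ} {n : ℕ} {x : ℝ} (h : n + 3 + lam ≤ |x|) : chi lam n x = 0 := by
  unfold chi
  exact max_eq_left ((min_le_right _ _).trans (by linarith))

private theorem chi_compact (lam : ℝ) (n : ℕ) : HasCompactSupport (chi lam n) := by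
  refine HasCompactSupport.intro (isCompact_Icc (a := -(n + 3 + lam)) (b := n + 3 + lam)) ?_
  intro x hx
  refine chi_zero ?_
  by_contra h
  push Not at h
  have := abs_le.1 h.le
  exact hx ⟨this.1, this.2⟩

/-- `g χ_n` as a compactly supported function -/
private def cut (lam : ℝ) (n : ℕ) (g : ℝ → ℝ) (hg : Continuous g) : C_c(ℝ, ℝ) :=
  ⟨⟨fun x => g x * chi lam n x, hg.mul (chi_continuous lam n)⟩, (chi_compact lam n).mul_left⟩

private theorem cut_apply (lam : ℝ) (n : ℕ) (g : ℝ → ℝ) (hg : Continuous g) (x : ℝ) :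
    cut lam n g hg x = g x * chi lam n x := rfl

private theorem mem_I {lam x : ℝ} (hx : x ∈ Icc (-(2 + lam)) (2 + lam)) (n : ℕ) :
    |x| ≤ n + 2 + lam := by
  have h1 : |x| ≤ 2 + lam := abs_le.2 ⟨hx.1, hx.2⟩
  have h2 : (0:ℝ) ≤ n := Nat.cast_nonneg n
  linarith

theorem dos_exists {lam : ℝ} (hlam : 0 ≤ lam) (α : ℝ) : ∃ N : Measure ℝ, IsDOS b lam α N := by
  choose H hH using fun ω => exists_schr b (vst lam α ω) lam (fun n => vst_abs_le hlam α ω n)
  have hint : ∀ g : ℝ → ℝ, Continuous g →
      IntervalIntegrable (fun ω => qf b (H ω) g) volume 0 1 :=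
    fun g hg => qf_intervalIntegrable b hlam α H hH g hg
  -- equality of functions on the interval
  have hcongr : ∀ f g : ℝ → ℝ, Continuous f → Continuous g →
      (∀ x ∈ Icc (-(2 + lam)) (2 + lam), f x = g x) →
      ∫ ω in (0:ℝ)..1, qf b (H ω) f = ∫ ω in (0:ℝ)..1, qf b (H ω) g := by
    intro f g hf hg hfg
    congr 1
    funext ω
    have := qf_close b (vst lam α ω) lam (fun n => vst_abs_le hlam α ω n) (hH ω) f g hf hg 0
      (fun x hx => by rw [hfg x hx, sub_self, abs_zero])
    exact sub_eq_zero.1 (abs_eq_zero.1 (le_antisymm this (abs_nonneg _)))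
  have hone : ∫ ω in (0:ℝ)..1, qf b (H ω) (fun _ => 1) = 1 := by
    have h1 : ∀ ω, qf b (H ω) (fun _ => 1) = 1 := by
      intro ω
      have h2 := qf_poly b (vst lam α ω) (hH ω) 1
      simp only [Polynomial.eval_one, Polynomial.natDegree_one, zero_add, Finset.range_one,
        Finset.sum_singleton, Polynomial.coeff_one_zero, one_mul] at h2
      rw [h2]
      simp [wk]
    simp only [h1]
    simp
  -- the functional
  let L : C_c(ℝ, ℝ) →ₗ[ℝ] ℝ :=
    { toFun := fun g => ∫ ω in (0:ℝ)..1, qf b (H ω) g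
      map_add' := by
        intro f g
        rw [← intervalIntegral.integral_add (hint f f.continuous) (hint g g.continuous)]
        congr 1
        funext ω
        exact qf_add b (vst lam α ω) (hH ω) f g f.continuous g.continuous
      map_smul' := by
        intro c f
        rw [RingHom.id_apply, smul_eq_mul, ← intervalIntegral.integral_const_mul]
        congr 1
        funext ω
        exact qf_smul b (vst lam α ω) (hH ω) f f.continuous c }
  have hL : ∀ g : C_c(ℝ, ℝ), 0 ≤ g → 0 ≤ L g := by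
    intro g hg
    refine intervalIntegral.integral_nonneg zero_le_one fun ω _ => ?_
    exact qf_nonneg b (vst lam α ω) lam (fun n => vst_abs_le hlam α ω n) (hH ω) g g.continuous
      (fun x _ => hg x)
  let Λ : C_c(ℝ, ℝ) →ₚ[ℝ] ℝ := PositiveLinearMap.mk₀ L hL
  have hΛ : ∀ g : C_c(ℝ, ℝ), Λ g = ∫ ω in (0:ℝ)..1, qf b (H ω) g := fun g => rfl
  set N := RealRMK.rieszMeasure Λ with hN
  have hNint : ∀ g : C_c(ℝ, ℝ), ∫ x, g x ∂N = ∫ ω in (0:ℝ)..1, qf b (H ω) g := by
    intro g
    rw [hN, RealRMK.integral_rieszMeasure, hΛ]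
  have hcut : ∀ (n : ℕ) (g : ℝ → ℝ) (hg : Continuous g),
      ∫ x, g x * chi lam n x ∂N = ∫ ω in (0:ℝ)..1, qf b (H ω) g := by
    intro n g hg
    have h1 := hNint (cut lam n g hg)
    simp only [cut_apply] at h1
    rw [h1]
    refine hcongr _ g (hg.mul (chi_continuous lam n)) hg ?_
    intro x hx
    show g x * chi lam n x = g x
    rw [chi_one (mem_I hx n), mul_one]
  have hchi : ∀ n : ℕ, ∫ x, chi lam n x ∂N = 1 := by
    intro n
    have h1 := hcut n (fun _ => 1) continuous_const
    simp only [one_mul] at h1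
    rw [h1, hone]
  -- total mass at most one
  have hK : ∀ n : ℕ, N (Icc (-((n:ℝ) + 2 + lam)) (n + 2 + lam)) ≤ 1 := by
    intro n
    have h1 := RealRMK.rieszMeasure_le_of_eq_one Λ
      (f := cut lam n (fun _ => 1) continuous_const)
      (fun x => by rw [cut_apply, one_mul]; exact chi_nonneg lam n x)
      (isCompact_Icc (a := -((n:ℝ) + 2 + lam)) (b := n + 2 + lam))
      (fun x hx => by
        rw [cut_apply, one_mul]
        exact chi_one (abs_le.2 ⟨hx.1, hx.2⟩))
    refine h1.trans (le_of_eq ?_)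
    have h2 : Λ (cut lam n (fun _ => 1) continuous_const) = 1 := by
      rw [hΛ, ← hNint]
      simp only [cut_apply, one_mul]
      exact hchi n
    rw [h2, ENNReal.ofReal_one]
  have hmono : Monotone fun n : ℕ => Icc (-((n:ℝ) + 2 + lam)) (n + 2 + lam) := by
    intro m n hmn
    have h1 : (m:ℝ) ≤ n := by exact_mod_cast hmn
    exact Icc_subset_Icc (by linarith) (by linarith)
  have hunion : (⋃ n : ℕ, Icc (-((n:ℝ) + 2 + lam)) (n + 2 + lam)) = univ := by
    refine eq_univ_of_forall fun x => ?_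
    obtain ⟨n, hn⟩ := exists_nat_ge |x|
    refine mem_iUnion.2 ⟨n, ?_⟩
    have := abs_le.1 (show |x| ≤ n + 2 + lam by linarith)
    exact ⟨this.1, this.2⟩
  have hNle : N univ ≤ 1 := by
    rw [← hunion, hmono.measure_iUnion]
    exact iSup_le hK
  have hfin : IsFiniteMeasure N := ⟨lt_of_le_of_lt hNle ENNReal.one_lt_top⟩
  have hNge : 1 ≤ N univ := by
    have h1 : (1:ℝ) ≤ N.real univ := by
      rw [← hchi 0]
      calc ∫ x, chi lam 0 x ∂N ≤ ∫ _, (1:ℝ) ∂N := by
            refine integral_mono ?_ (integrable_const _) (chi_le_one lam 0)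
            exact (chi_continuous lam 0).integrable_of_hasCompactSupport (chi_compact lam 0)
        _ = N.real univ := by simp
    rw [Measure.real] at h1
    have h2 : ENNReal.ofReal 1 ≤ ENNReal.ofReal (N univ).toReal := ENNReal.ofReal_le_ofReal h1
    rwa [ENNReal.ofReal_toReal (measure_ne_top N _), ENNReal.ofReal_one] at h2
  have hprob : IsProbabilityMeasure N := ⟨le_antisymm hNle hNge⟩
  refine ⟨N, hprob, H, hH, ?_⟩
  intro g hg ⟨C, hC⟩
  have hlim : Tendsto (fun n : ℕ => ∫ x, g x * chi lam n x ∂N) atTop (𝓝 (∫ x, g x ∂N)) := by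
    refine tendsto_integral_of_dominated_convergence (fun _ => C) ?_ (integrable_const _) ?_ ?_
    · intro n
      exact (hg.mul (chi_continuous lam n)).aestronglyMeasurable
    · intro n
      refine Eventually.of_forall fun x => ?_
      rw [norm_mul, Real.norm_eq_abs, Real.norm_eq_abs, abs_of_nonneg (chi_nonneg lam n x)]
      calc |g x| * chi lam n x ≤ |g x| * 1 :=
            mul_le_mul_of_nonneg_left (chi_le_one lam n x) (abs_nonneg _)
        _ ≤ C := by rw [mul_one]; exact hC x
    · refine Eventually.of_forall fun x => ?_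
      refine tendsto_const_nhds.congr' ?_
      obtain ⟨m, hm⟩ := exists_nat_ge |x|
      filter_upwards [eventually_ge_atTop m] with n hn
      have h1 : (m:ℝ) ≤ n := by exact_mod_cast hn
      rw [chi_one (by linarith), mul_one]
  have hconst : Tendsto (fun n : ℕ => ∫ x, g x * chi lam n x ∂N) atTop
      (𝓝 (∫ ω in (0:ℝ)..1, qf b (H ω) g)) := by
    refine tendsto_const_nhds.congr fun n => ?_
    rw [hcut n g hg]
  exact tendsto_nhds_unique hlim hconst

end Sturm
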