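import Pool.Agent.Lib.MP_e5ebf6_mp.Defs

/-! Module ZtDefs: cover property of a measure and limits of zero counting measures. -/

open Complex Metric Set MeasureTheory Filter Topology
noncomputable section
namespace Sturm

/-- `μ` can be covered up to mass `ε` by finitely many intervals with `Σ |I|^t < ε` -/
def Zt (t : ℝ) (μ : Measure ℝ) : Prop :=
  ∀ ε : ℝ, 0 < ε → ∃ F : Finset (ℝ × ℝ), (∀ p ∈ F, 0 < p.2) ∧ ∑ p ∈ F, p.2 ^ t < ε ∧
    μ (⋃ p ∈ F, Icc p.1 (p.1 + p.2))ᶜ ≤ ENNReal.ofReal ε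

/-- the normalised counting measures of the finite sets `A M` converge weakly to `μ` -/
def LimC (A : ℕ → Set ℝ) (μ : Measure ℝ) : Prop :=
  IsProbabilityMeasure μ ∧ ∀ f : ℝ → ℝ, Continuous f → (∃ C, ∀ x, |f x| ≤ C) →
    Tendsto (fun M => (∑ᶠ E ∈ A M, f E) / ((A M).ncard : ℝ)) atTop (𝓝 (∫ x, f x ∂μ))

/-- limit of the zeros of the last trace on the energy line -/
def LimZ (lam : ℝ) (b : ℕ → ℕ) (μ : Measure ℝ) : Prop := LimC (fun M => Zs lam (lM b M)) μ

end Sturm
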