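import Pool.Agent.Lib.MP_e5ebf6_mp.DosMeas
import Pool.Agent.Lib.MP_e5ebf6_mp.Bloch
import Pool.Agent.Lib.MP_e5ebf6_mp.Digits
import Pool.Agent.Lib.MP_e5ebf6_mp.ZtDefs

/-! Module DosLim: the density of states measure is the limit of the zero counting measures of the
continued fraction approximants; weak continuity in the frequency.

PROOFS.
* `Zs_power_sum`: `Z = Zs lam l` is finite (`Zs_finite`) with `nB l = (nAB l).2 = q` elements
  (`Zs_card`), on which the trace of `Tm (vfl lam (p/q) 0) E q` vanishes (`fwd_eq_trace`); `bloch`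
  with `V = vfl lam (p/q) 0` (`vfl_periodic`), then `mom_rat` (`nAB_coprime`).
* `limZ_dos`: `hN.prob`; let `f` be continuous bounded, `ε > 0`, `K' = max (K0 lam) (2 + lam)`; take
  `p` from `dos_weier` (with `ε/3`, `K'`).  For `M` large (`q_M = nB > natDegree p`,
  `nB_lM_tendsto`):
  `(∑_{E ∈ Zs} p(E)) / q_M = ∑_k p.coeff k * mom lam k (p_M/q_M)` (`Zs_power_sum`), which converges
  to `∑_k p.coeff k * mom lam k α` (`mom_continuous`, `ratio_tendsto`), which is `ε/3`-close to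
  `∫ f dN`; and the averages of `p` and `f` over `Zs` differ by at most `ε/3` (`Zs_bound`).
  (`∑ᶠ` over a finite set: `finsum_mem_eq_finite_toFinset_sum`.)
* `dos_continuousOn`: uniform limit of the functions `α ↦ ∑_k p.coeff k * mom lam k α`
  (`dos_weier`, `mom_continuous`); e.g. `Metric.continuousOn_iff`, three epsilons.
-/

open MeasureTheory Filter Topology Set
noncomputable section
namespace Sturm

variable {V : Type*} [NormedAddCommGroup V] [InnerProductSpace ℂ V] [CompleteSpace V]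
  (b : HilbertBasis ℤ ℂ V)

theorem Zs_power_sum {lam : ℝ} (hlam : 0 < lam) (l : List ℕ) (hl : Pos l) (k : ℕ)
    (hk : k < nB l) :
    ∑ᶠ E ∈ Zs lam l, E ^ k = nB l * mom lam k (((nAB l).1 : ℝ) / (nAB l).2) := by
  have hfin := Zs_finite hlam l hl
  have hcard := Zs_card hlam l hl
  obtain ⟨hcop, hq⟩ := nAB_coprime l hl
  set p := (nAB l).1 with hp
  set q := (nAB l).2 with hqdef
  have hnB : nB l = q := rfl
  rw [finsum_mem_eq_finite_toFinset_sum _ hfin]
  have hb := bloch (vfl lam ((p : ℝ) / q) 0) q hq (fun n => vfl_periodic lam p q hq n) k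
    (by rw [← hnB]; exact hk) hfin.toFinset
    (by rw [← Set.ncard_eq_toFinset_card (Zs lam l) hfin, hcard, hnB])
    (by
      intro E hE
      have h1 : E ∈ Zs lam l := hfin.mem_toFinset.1 hE
      have h2 : (fwd l ((2, E, E - lam) : St ℝ)).2.1 = 0 := h1
      rw [fwd_eq_trace lam E l hl] at h2
      exact h2)
  rw [hb, mom_rat lam k p q hq hcop, hnB]
  have hqR : (q : ℝ) ≠ 0 := by
    have : q ≠ 0 := by omega
    exact_mod_cast this
  field_simp

/-- the polynomial combination of the moments -/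
def dlPoly (lam : ℝ) (p : Polynomial ℝ) (α : ℝ) : ℝ :=
  ∑ k ∈ Finset.range (p.natDegree + 1), p.coeff k * mom lam k α

theorem dlPoly_continuous (lam : ℝ) (p : Polynomial ℝ) : Continuous (dlPoly lam p) :=
  continuous_finset_sum _ fun k _ => continuous_const.mul (mom_continuous lam k)

theorem dl_avg {lam : ℝ} (hlam : 0 < lam) (l : List ℕ) (hl : Pos l) (p : Polynomial ℝ)
    (hk : p.natDegree < nB l) :
    (∑ᶠ E ∈ Zs lam l, p.eval E) / (nB l : ℝ) =
      dlPoly lam p (((nAB l).1 : ℝ) / (nAB l).2) := by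
  have hfin := Zs_finite hlam l hl
  have hpos : (nB l : ℝ) ≠ 0 := by
    have : nB l ≠ 0 := by omega
    exact_mod_cast this
  rw [finsum_mem_eq_finite_toFinset_sum _ hfin]
  simp only [Polynomial.eval_eq_sum_range]
  rw [Finset.sum_comm, Finset.sum_div]
  unfold dlPoly
  refine Finset.sum_congr rfl fun k hk' => ?_
  have h1 := Zs_power_sum hlam l hl k (lt_of_le_of_lt (Nat.lt_succ_iff.1 (Finset.mem_range.1 hk')) hk)
  rw [finsum_mem_eq_finite_toFinset_sum _ hfin] at h1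
  rw [← Finset.mul_sum, h1]
  field_simp

theorem limZ_dos {lam : ℝ} (hlam : 0 < lam) {α : ℝ} (h0 : 0 < α) (h1 : α < 1)
    (ha : Irrational α) (N : Measure ℝ) (hN : IsDOS b lam α N) : LimZ lam (dig α) N := by
  refine ⟨hN.prob, ?_⟩
  intro f hf hb
  rw [Metric.tendsto_atTop]
  intro ε hε
  obtain ⟨p, hp1, hp2⟩ := dos_weier b hlam.le f hf hb (max (K0 lam) (2 + lam)) (le_max_right _ _)
    (ε / 4) (by positivity)
  have hL := hp2 α h0 h1 N hN
  have hlim : Tendsto (fun M => dlPoly lam p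
      (((nAB (lM (dig α) M)).1 : ℝ) / (nAB (lM (dig α) M)).2)) atTop (𝓝 (dlPoly lam p α)) :=
    ((dlPoly_continuous lam p).tendsto α).comp (ratio_tendsto h0 h1 ha)
  rw [Metric.tendsto_atTop] at hlim
  obtain ⟨M1, hM1⟩ := hlim (ε / 4) (by positivity)
  have hnB := nB_lM_tendsto (dig α) (fun k => dig_pos h0 h1 ha k)
  obtain ⟨M2, hM2⟩ := (tendsto_atTop_atTop.1 hnB) (p.natDegree + 1)
  refine ⟨max M1 M2, fun M hM => ?_⟩
  have h3 := hM1 M ((le_max_left _ _).trans hM)
  have h4 := hM2 M ((le_max_right _ _).trans hM)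
  have hl := lM_dig_pos h0 h1 ha M
  set l := lM (dig α) M with hldef
  have hfin := Zs_finite hlam l hl
  have hcard := Zs_card hlam l hl
  have hnpos : (0 : ℝ) < nB l := by
    have : 0 < nB l := by omega
    exact_mod_cast this
  have h5 := dl_avg hlam l hl p (by omega)
  show dist ((∑ᶠ E ∈ Zs lam l, f E) / ((Zs lam l).ncard : ℝ)) (∫ x, f x ∂N) < ε
  rw [hcard]
  have h6 : |(∑ᶠ E ∈ Zs lam l, f E) / (nB l : ℝ) - (∑ᶠ E ∈ Zs lam l, p.eval E) / (nB l : ℝ)| ≤
      ε / 4 := by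
    rw [finsum_mem_eq_finite_toFinset_sum _ hfin, finsum_mem_eq_finite_toFinset_sum _ hfin,
      ← sub_div, ← Finset.sum_sub_distrib, abs_div, abs_of_pos hnpos, div_le_iff₀ hnpos]
    refine (Finset.abs_sum_le_sum_abs _ _).trans ?_
    have h7 : ∀ E ∈ hfin.toFinset, |f E - p.eval E| ≤ ε / 4 := by
      intro E hE
      have h8 := Zs_bound hlam l hl (hfin.mem_toFinset.1 hE)
      have h9 := hp1 E (by
        have h10 := abs_le.1 h8
        have h11 := le_max_left (K0 lam) (2 + lam)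
        exact ⟨by linarith [h10.1], by linarith [h10.2]⟩)
      rw [abs_sub_comm]
      exact h9
    refine (Finset.sum_le_card_nsmul _ _ _ h7).trans ?_
    rw [← Set.ncard_eq_toFinset_card (Zs lam l) hfin, hcard, nsmul_eq_mul]
    exact le_of_eq (mul_comm _ _)
  rw [h5] at h6
  rw [Real.dist_eq] at h3 ⊢
  have h12 : |dlPoly lam p α - ∫ x, f x ∂N| ≤ ε / 4 := hL
  have h13 := abs_sub_le ((∑ᶠ E ∈ Zs lam l, f E) / (nB l : ℝ))
    (dlPoly lam p (((nAB l).1 : ℝ) / (nAB l).2)) (∫ x, f x ∂N)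
  have h14 := abs_sub_le (dlPoly lam p (((nAB l).1 : ℝ) / (nAB l).2)) (dlPoly lam p α)
    (∫ x, f x ∂N)
  linarith

theorem dos_continuousOn {lam : ℝ} (hlam : 0 < lam) (N : ℝ → Measure ℝ) (S : Set ℝ)
    (hS : S ⊆ Ioo 0 1) (hN : ∀ α ∈ S, IsDOS b lam α (N α)) (f : ℝ → ℝ) (hf : Continuous f)
    (hb : ∃ C, ∀ x, |f x| ≤ C) : ContinuousOn (fun α => ∫ E, f E ∂(N α)) S := by
  rw [Metric.continuousOn_iff]
  intro β hβ ε hε
  obtain ⟨p, hp1, hp2⟩ := dos_weier b hlam.le f hf hb (2 + lam) le_rfl (ε / 4) (by positivity)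
  have hc := (dlPoly_continuous lam p).continuousAt (x := β)
  rw [Metric.continuousAt_iff] at hc
  obtain ⟨δ, hδ, h1⟩ := hc (ε / 4) (by positivity)
  refine ⟨δ, hδ, fun α hα hd => ?_⟩
  have h2 := h1 hd
  have h3 : |dlPoly lam p α - ∫ x, f x ∂(N α)| ≤ ε / 4 :=
    hp2 α (hS hα).1 (hS hα).2 (N α) (hN α hα)
  have h4 : |dlPoly lam p β - ∫ x, f x ∂(N β)| ≤ ε / 4 :=
    hp2 β (hS hβ).1 (hS hβ).2 (N β) (hN β hβ)
  rw [Real.dist_eq] at h2 ⊢
  rw [abs_le] at h3 h4
  rw [abs_lt] at h2 ⊢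
  constructor <;> linarith [h2.1, h2.2, h3.1, h3.2, h4.1, h4.2]

end Sturm
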