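import Pool.Agent.Lib.MP_e5ebf6_mp.OperCfc

/-! Module DosMeas: measurability in `ω`, support, moments and uniqueness of the density of states.

Here `K = lam`: `|vst lam α ω n| ≤ lam` as `lam ≥ 0`.

PROOFS.
* `wk_vst_measurable`: induction on `k` (for all `n m`); `ω ↦ vst lam α ω n` is measurable
  (`Measurable.ite`, `measurable_fract`, `measurableSet_Ico`).
* `qf_measurable`: for a polynomial `p` by `qf_poly` and `wk_vst_measurable`; in general choose
  polynomials `p_j` with `|g - p_j| ≤ 1/(j+1)` on `[-(2+lam), 2+lam]`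
  (`exists_polynomial_near_of_continuousOn`), `qf (p_j) → qf g` pointwise (`qf_close`),
  `measurable_of_tendsto_metrizable`.
* `qf_abs_le`: `qf_close` with `g = 0` (`qf b H 0 = 0` by `qf_smul` with `c = 0`).
* `qf_intervalIntegrable`: measurable and bounded (`g` is bounded on the compact interval).
* `dos_supp`: `g x = min 1 (dist x to the interval)`, e.g. `g x = min 1 (max 0 (|x| - (2+lam)))`
  is continuous, `0 ≤ g ≤ 1`, vanishes on the interval, so `qf (H ω) g = 0` (`qf_close` with `0`,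
  `ε = 0`), so `∫ g dN = 0`, `g = 0` a.e. (`integral_eq_zero_iff_of_nonneg`), and `g > 0` off the
  interval.
* `dos_poly`: `g x = p.eval (max (-(2+lam)) (min x (2+lam)))` is bounded continuous and equals
  `p.eval x` on the interval; by `dos_supp` `∫ p dN = ∫ g dN = ∫₀¹ qf (H ω) g = ∫₀¹ qf (H ω) p
  = ∑ p.coeff k ∫₀¹ wk (vst lam α ω) k 0 0 dω` and `vst = vfl` (`vst_eq_vfl`; `0 < α < 1`).
* `dos_mom`: `p = X^k`.
* `dos_unique`: the operators `H ω` of `h` and `h'` agree (`isSchr_unique`), so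
  `∫ g dN = ∫ g dN'` for all bounded continuous `g`:
  `ext_of_forall_integral_eq_of_IsFiniteMeasure`.
* `dos_weier` (used for weak limits): Weierstrass approximation on `[-K', K']`, `K' ≥ 2 + lam`, and
  `dos_supp`.
-/

open MeasureTheory Filter Topology Set
noncomputable section
namespace Sturm

variable {V : Type*} [NormedAddCommGroup V] [InnerProductSpace ℂ V] [CompleteSpace V]
  (b : HilbertBasis ℤ ℂ V)

theorem vst_abs_le {lam : ℝ} (hlam : 0 ≤ lam) (α ω : ℝ) (n : ℤ) : |vst lam α ω n| ≤ lam := by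
  unfold vst
  split_ifs
  · rw [abs_of_nonneg hlam]
  · rw [abs_zero]
    exact hlam

theorem vst_measurable (lam α : ℝ) (n : ℤ) : Measurable fun ω => vst lam α ω n := by
  unfold vst
  refine Measurable.ite ?_ measurable_const measurable_const
  have h1 : Measurable fun ω : ℝ => Int.fract ((n : ℝ) * α + ω) :=
    measurable_fract.comp (measurable_const.add measurable_id)
  exact h1 measurableSet_Ico

theorem wk_vst_measurable (lam α : ℝ) (k : ℕ) (n m : ℤ) :
    Measurable fun ω => wk (vst lam α ω) k n m := by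
  induction k generalizing n m with
  | zero => exact measurable_const
  | succ k ih =>
    have h1 := (ih n (m - 1)).add (ih n (m + 1))
    exact h1.add ((vst_measurable lam α m).mul (ih n m))

theorem qf_poly_measurable (lam : ℝ) (α : ℝ) (H : ℝ → (V →L[ℂ] V))
    (hH : ∀ ω, IsSchr b (vst lam α ω) (H ω)) (p : Polynomial ℝ) :
    Measurable fun ω => qf b (H ω) (fun x => p.eval x) := by
  have h1 : (fun ω => qf b (H ω) (fun x => p.eval x)) =
      fun ω => ∑ k ∈ Finset.range (p.natDegree + 1), p.coeff k * wk (vst lam α ω) k 0 0 :=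
    funext fun ω => qf_poly b _ (hH ω) p
  rw [h1]
  exact Finset.measurable_fun_sum _ fun k _ => (wk_vst_measurable lam α k 0 0).const_mul _

theorem qf_measurable {lam : ℝ} (hlam : 0 ≤ lam) (α : ℝ) (H : ℝ → (V →L[ℂ] V))
    (hH : ∀ ω, IsSchr b (vst lam α ω) (H ω)) (g : ℝ → ℝ) (hg : Continuous g) :
    Measurable fun ω => qf b (H ω) g := by
  have hp : ∀ j : ℕ, ∃ p : Polynomial ℝ, ∀ x ∈ Icc (-(2 + lam)) (2 + lam),
      |p.eval x - g x| < 1 / ((j : ℝ) + 1) := fun j =>
    exists_polynomial_near_of_continuousOn _ _ g hg.continuousOn _ (by positivity)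
  choose p hp using hp
  refine measurable_of_tendsto_metrizable (f := fun j ω => qf b (H ω) (fun x => (p j).eval x))
    (fun j => qf_poly_measurable b lam α H hH (p j)) ?_
  rw [tendsto_pi_nhds]
  intro ω
  rw [tendsto_iff_norm_sub_tendsto_zero]
  refine squeeze_zero (fun j => norm_nonneg _) (fun j => ?_)
    tendsto_one_div_add_atTop_nhds_zero_nat
  rw [Real.norm_eq_abs]
  exact qf_close b _ lam (vst_abs_le hlam α ω) (hH ω) _ _ (p j).continuous hg _
    fun x hx => (hp j x hx).le

theorem qf_zero (v : ℤ → ℝ) {H : V →L[ℂ] V} (h : IsSchr b v H) : qf b H (fun _ => 0) = 0 := by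
  have h1 := qf_smul b v h (fun _ => 0) continuous_const 0
  simpa using h1

theorem qf_abs_le {lam : ℝ} (hlam : 0 ≤ lam) (α : ℝ) (H : ℝ → (V →L[ℂ] V))
    (hH : ∀ ω, IsSchr b (vst lam α ω) (H ω)) (g : ℝ → ℝ) (hg : Continuous g) (C : ℝ)
    (hC : ∀ x ∈ Icc (-(2 + lam)) (2 + lam), |g x| ≤ C) (ω : ℝ) : |qf b (H ω) g| ≤ C := by
  have h1 := qf_close b _ lam (vst_abs_le hlam α ω) (hH ω) g (fun _ => 0) hg continuous_const C
    (fun x hx => by rw [sub_zero]; exact hC x hx)
  rwa [qf_zero b _ (hH ω), sub_zero] at h1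

theorem qf_intervalIntegrable {lam : ℝ} (hlam : 0 ≤ lam) (α : ℝ) (H : ℝ → (V →L[ℂ] V))
    (hH : ∀ ω, IsSchr b (vst lam α ω) (H ω)) (g : ℝ → ℝ) (hg : Continuous g) :
    IntervalIntegrable (fun ω => qf b (H ω) g) volume 0 1 := by
  obtain ⟨C, hC⟩ := isCompact_Icc.exists_bound_of_continuousOn
    (s := Icc (-(2 + lam)) (2 + lam)) hg.continuousOn
  rw [intervalIntegrable_iff_integrableOn_Ioc_of_le zero_le_one]
  refine Measure.integrableOn_of_bounded (M := C) ?_ ?_ ?_
  · simp
  · exact (qf_measurable b hlam α H hH g hg).aestronglyMeasurable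
  · refine Eventually.of_forall fun ω => ?_
    rw [Real.norm_eq_abs]
    exact qf_abs_le b hlam α H hH g hg C (fun x hx => by
      rw [← Real.norm_eq_abs]
      exact hC x hx) ω

theorem dos_supp {lam : ℝ} (hlam : 0 ≤ lam) (α : ℝ) (N : Measure ℝ) (h : IsDOS b lam α N) :
    N (Icc (-(2 + lam)) (2 + lam))ᶜ = 0 := by
  have := h.prob
  obtain ⟨H, hH, hdos⟩ := h.dos
  set g : ℝ → ℝ := fun x => min 1 (max 0 (|x| - (2 + lam))) with hgd
  have hg : Continuous g := by
    exact continuous_const.min (continuous_const.max (continuous_abs.sub continuous_const))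
  have hg0 : ∀ x, 0 ≤ g x := fun x => le_min zero_le_one (le_max_left _ _)
  have hg1 : ∀ x, |g x| ≤ 1 := fun x => by
    rw [abs_of_nonneg (hg0 x)]
    exact min_le_left _ _
  have hgz : ∀ x ∈ Icc (-(2 + lam)) (2 + lam), |g x| ≤ 0 := by
    intro x hx
    have h1 : |x| ≤ 2 + lam := abs_le.mpr hx
    have h2 : max 0 (|x| - (2 + lam)) = 0 := max_eq_left (by linarith)
    simp only [hgd, h2]
    simp
  have h1 := hdos g hg ⟨1, hg1⟩
  have h2 : ∫ ω in (0 : ℝ)..1, (inner ℂ (b 0) (cfc g (H ω) (b 0))).re = 0 := by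
    have h3 : (fun ω => (inner ℂ (b 0) (cfc g (H ω) (b 0))).re) = fun _ => (0 : ℝ) := by
      funext ω
      have h4 := qf_abs_le b hlam α H hH g hg 0 hgz ω
      exact abs_nonpos_iff.mp h4
    rw [h3]
    simp
  rw [h2] at h1
  have hint : Integrable g N := Integrable.of_bound hg.aestronglyMeasurable 1
    (Eventually.of_forall fun x => by rw [Real.norm_eq_abs]; exact hg1 x)
  have h5 := (integral_eq_zero_iff_of_nonneg hg0 hint).mp h1
  refine measure_mono_null ?_ h5
  intro x hx
  simp only [mem_compl_iff, mem_Icc, not_and_or, not_le] at hx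
  have h6 : 2 + lam < |x| := by
    rcases hx with hx | hx
    · have := neg_abs_le x
      linarith
    · exact lt_of_lt_of_le hx (le_abs_self x)
  have h7 : 0 < g x := lt_min zero_lt_one (lt_max_of_lt_right (by linarith))
  exact h7.ne'

theorem dos_ae {lam : ℝ} (hlam : 0 ≤ lam) (α : ℝ) (N : Measure ℝ) (h : IsDOS b lam α N) :
    ∀ᵐ x ∂N, x ∈ Icc (-(2 + lam)) (2 + lam) := by
  rw [ae_iff]
  exact dos_supp b hlam α N h

theorem dos_poly {lam : ℝ} (hlam : 0 ≤ lam) {α : ℝ} (hα : 0 < α) (hα1 : α < 1) (N : Measure ℝ)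
    (h : IsDOS b lam α N) (p : Polynomial ℝ) :
    ∫ E, p.eval E ∂N = ∑ k ∈ Finset.range (p.natDegree + 1), p.coeff k * mom lam k α := by
  have hae := dos_ae b hlam α N h
  have := h.prob
  obtain ⟨H, hH, hdos⟩ := h.dos
  set T : ℝ → ℝ := fun x => max (-(2 + lam)) (min x (2 + lam)) with hT
  have hTc : Continuous T := continuous_const.max (continuous_id.min continuous_const)
  have hTm : ∀ x, T x ∈ Icc (-(2 + lam)) (2 + lam) := fun x =>
    ⟨le_max_left _ _, max_le (by linarith) (min_le_right _ _)⟩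
  have hTx : ∀ x ∈ Icc (-(2 + lam)) (2 + lam), T x = x := by
    intro x hx
    simp only [hT]
    rw [min_eq_left hx.2, max_eq_right hx.1]
  have hg : Continuous fun x => p.eval (T x) := p.continuous.comp hTc
  obtain ⟨C, hC⟩ := isCompact_Icc.exists_bound_of_continuousOn
    (s := Icc (-(2 + lam)) (2 + lam)) (f := fun x => p.eval x) p.continuous.continuousOn
  have h1 := hdos (fun x => p.eval (T x)) hg ⟨C, fun x => by
    rw [← Real.norm_eq_abs]
    exact hC _ (hTm x)⟩
  have h2 : ∫ E, p.eval E ∂N = ∫ E, p.eval (T E) ∂N := by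
    refine integral_congr_ae ?_
    filter_upwards [hae] with x hx
    rw [hTx x hx]
  rw [h2, h1]
  have h3 : ∀ ω, (inner ℂ (b 0) (cfc (fun x => p.eval (T x)) (H ω) (b 0))).re =
      ∑ k ∈ Finset.range (p.natDegree + 1), p.coeff k * wk (vfl lam α ω) k 0 0 := by
    intro ω
    have h4 := qf_close b _ lam (vst_abs_le hlam α ω) (hH ω) (fun x => p.eval (T x))
      (fun x => p.eval x) hg p.continuous 0 (fun x hx => by
        simp only [hTx x hx, sub_self, abs_zero, le_refl])
    have h5 : qf b (H ω) (fun x => p.eval (T x)) = qf b (H ω) (fun x => p.eval x) :=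
      sub_eq_zero.mp (abs_nonpos_iff.mp h4)
    have h6 : vst lam α ω = vfl lam α ω := funext fun n => vst_eq_vfl lam α ω hα hα1 n
    have h7 := qf_poly b _ (hH ω) p
    rw [h6] at h7
    rw [← h7, ← h5]
    rfl
  simp_rw [h3]
  have hint : ∀ k : ℕ, IntervalIntegrable (fun ω => wk (vfl lam α ω) k 0 0) volume 0 1 := by
    intro k
    have h6 : (fun ω => wk (vfl lam α ω) k 0 0) = fun ω => wk (vst lam α ω) k 0 0 := by
      funext ω
      have h7 : vst lam α ω = vfl lam α ω := funext fun n => vst_eq_vfl lam α ω hα hα1 n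
      rw [h7]
    rw [h6, intervalIntegrable_iff_integrableOn_Ioc_of_le zero_le_one]
    refine Measure.integrableOn_of_bounded (M := (2 + lam) ^ k) ?_ ?_ ?_
    · simp
    · exact (wk_vst_measurable lam α k 0 0).aestronglyMeasurable
    · refine Eventually.of_forall fun ω => ?_
      rw [Real.norm_eq_abs]
      exact wk_bound _ lam (vst_abs_le hlam α ω) k 0 0
  rw [intervalIntegral.integral_finsetSum (fun k _ => (hint k).const_mul _)]
  refine Finset.sum_congr rfl fun k _ => ?_
  rw [intervalIntegral.integral_const_mul]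
  rfl

theorem dos_mom {lam : ℝ} (hlam : 0 ≤ lam) {α : ℝ} (hα : 0 < α) (hα1 : α < 1) (N : Measure ℝ)
    (h : IsDOS b lam α N) (k : ℕ) : ∫ E, E ^ k ∂N = mom lam k α := by
  have h1 := dos_poly b hlam hα hα1 N h (Polynomial.X ^ k)
  simp only [Polynomial.eval_pow, Polynomial.eval_X, Polynomial.natDegree_X_pow,
    Polynomial.coeff_X_pow] at h1
  rw [h1, Finset.sum_eq_single k]
  · simp
  · intro j _ hj
    rw [if_neg hj, zero_mul]
  · intro hk
    exact absurd (Finset.mem_range.mpr (Nat.lt_succ_self k)) hk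

theorem dos_unique {lam α : ℝ} (N N' : Measure ℝ) (h : IsDOS b lam α N)
    (h' : IsDOS b lam α N') : N = N' := by
  have := h.prob
  have := h'.prob
  obtain ⟨H, hH, hdos⟩ := h.dos
  obtain ⟨H', hH', hdos'⟩ := h'.dos
  have hHH : H = H' := funext fun ω => isSchr_unique b _ (hH ω) (hH' ω)
  subst hHH
  apply ext_of_forall_integral_eq_of_IsFiniteMeasure
  intro f
  have hb : ∃ C, ∀ x, |f x| ≤ C := ⟨‖f‖, fun x => by
    rw [← Real.norm_eq_abs]
    exact f.norm_coe_le_norm x⟩
  rw [hdos f f.continuous hb, hdos' f f.continuous hb]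

/-- integrals of continuous functions are uniformly approximated by moments -/
theorem dos_weier {lam : ℝ} (hlam : 0 ≤ lam) (f : ℝ → ℝ) (hf : Continuous f)
    (hb : ∃ C, ∀ x, |f x| ≤ C) (K' : ℝ) (hK' : 2 + lam ≤ K') (ε : ℝ) (hε : 0 < ε) :
    ∃ p : Polynomial ℝ, (∀ x ∈ Icc (-K') K', |p.eval x - f x| ≤ ε) ∧
      ∀ (α : ℝ), 0 < α → α < 1 → ∀ N : Measure ℝ, IsDOS b lam α N →
        |(∑ k ∈ Finset.range (p.natDegree + 1), p.coeff k * mom lam k α) - ∫ E, f E ∂N| ≤ ε := by
  obtain ⟨p, hp⟩ := exists_polynomial_near_of_continuousOn (-K') K' f hf.continuousOn ε hε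
  refine ⟨p, fun x hx => (hp x hx).le, ?_⟩
  intro α hα hα1 N h
  have hprob := h.prob
  have hae := dos_ae b hlam α N h
  rw [← dos_poly b hlam hα hα1 N h p]
  obtain ⟨C, hC⟩ := isCompact_Icc.exists_bound_of_continuousOn
    (s := Icc (-(2 + lam)) (2 + lam)) (f := fun x => p.eval x) p.continuous.continuousOn
  obtain ⟨C', hC'⟩ := hb
  have hi1 : Integrable (fun x => p.eval x) N :=
    Integrable.of_bound p.continuous.aestronglyMeasurable C (by
      filter_upwards [hae] with x hx
      exact hC x hx)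
  have hi2 : Integrable f N := Integrable.of_bound hf.aestronglyMeasurable C'
    (Eventually.of_forall fun x => by rw [Real.norm_eq_abs]; exact hC' x)
  rw [← integral_sub hi1 hi2, ← Real.norm_eq_abs]
  refine (norm_integral_le_of_norm_le_const (C := ε) ?_).trans ?_
  · filter_upwards [hae] with x hx
    rw [Real.norm_eq_abs]
    exact (hp x ⟨by linarith [hx.1], by linarith [hx.2]⟩).le
  · simp

end Sturm
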