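import Pool.Agent.Lib.MP_e5ebf6_mp.GaussCyl

/-! Module GaussErg: Gauss invariant functions are almost everywhere constant.

PROOF of `zero_one`.  `A ⊆ X = {irrationals of (0,1)}` measurable, `x ∈ A ↔ G x ∈ A` for `x ∈ X`,
and suppose `vol A > 0` and `vol (X \ A) > 0`.
* `volume_image_ge`: if `f` satisfies `r |y₁ - y₂| ≤ |f y₁ - f y₂|` on a set `A` (`r > 0`), then
  `r * vol A ≤ vol (f '' A)` (outer measures; the inverse `f '' A → A` is `1/r`-Lipschitz:
  `AntilipschitzWith` / `LipschitzOnWith.hausdorffMeasure_image_le` with `d = 1`, `Real` Hausdorff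
  measure of dimension 1 is volume: `MeasureTheory.hausdorffMeasure_real`; or
  `hausdorffMeasure_preimage...`).
* For `x ∈ X \ A` and every `n ≥ 1`: `x = cyl w y` with `length w = n` (`cyl_digits`), and the
  closed ball `C_n = closedBall z r` of `cyl_interval` contains `x`, `r ≤ 1/n^2`, `r > 0`.
  `cyl w '' A ⊆ A ∩ C_n` (by `cyl_gauss`, `cyl_irr`, `cyl_mem`: `G` applied to `cyl (c::w) y` gives
  `cyl w y`; induction on `w` gives `cyl w y ∈ A ↔ y ∈ A` for `y ∈ X`), so
  `vol (A ∩ C_n) ≥ r vol A` and `vol ((X \ A) ∩ C_n) ≤ 2 r - r vol A`, so the ratio to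
  `vol C_n = 2 r` is at most `1 - vol A / 2`.
* Lebesgue density (`IsUnifLocDoublingMeasure.ae_tendsto_measure_inter_div` with `K = 1`: for a.e.
  `x ∈ X \ A` the ratios over closed balls `C_n ∋ x` with radii `→ 0` tend to `1`): contradiction, as
  `X \ A` has positive measure.
PROOF of `gauss_const`.  For `c : ENNReal` (or for measurable `U ⊆ ENNReal`) apply `zero_one` to
`A = {x ∈ X : D x ∈ U}` and conclude with `Filter.exists_eventuallyEq_const_of_forall_separating`
(or with the supremum of the rational `c` such that `D > c` a.e.).  `X` is measurable and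
`vol ((0,1) \ X) = 0` (countable complement).
-/

open MeasureTheory Filter Topology Set
noncomputable section
namespace Sturm

theorem volume_image_ge (f : ℝ → ℝ) (A : Set ℝ) (r : ℝ) (hr : 0 < r)
    (h : ∀ y₁ ∈ A, ∀ y₂ ∈ A, r * |y₁ - y₂| ≤ |f y₁ - f y₂|) :
    ENNReal.ofReal r * volume A ≤ volume (f '' A) := by
  have hanti : AntilipschitzWith (Real.toNNReal r⁻¹) (fun x : A => f x) := by
    apply AntilipschitzWith.of_le_mul_dist
    intro x y
    rw [Real.coe_toNNReal _ (inv_nonneg.2 hr.le), Subtype.dist_eq, Real.dist_eq, Real.dist_eq,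
      ← div_eq_inv_mul, le_div_iff₀ hr, mul_comm]
    exact h x x.2 y y.2
  have h1 := hanti.le_hausdorffMeasure_image (d := 1) zero_le_one univ
  rw [ENNReal.rpow_one] at h1
  have h2 : MeasureTheory.Measure.hausdorffMeasure 1 (univ : Set A) = volume A := by
    rw [← MeasureTheory.hausdorffMeasure_real,
      ← isometry_subtype_coe.hausdorffMeasure_image (Or.inl zero_le_one) (univ : Set A),
      image_univ, Subtype.range_coe]
  have h3 : (fun x : A => f x) '' univ = f '' A := by
    rw [image_univ]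
    ext y
    simp
  rw [h2, h3, MeasureTheory.hausdorffMeasure_real] at h1
  calc ENNReal.ofReal r * volume A ≤ ENNReal.ofReal r * (((Real.toNNReal r⁻¹ : NNReal) : ENNReal) *
        volume (f '' A)) := by gcongr
    _ = (ENNReal.ofReal r * ENNReal.ofReal r⁻¹) * volume (f '' A) := by
        rw [mul_assoc]
        rfl
    _ = volume (f '' A) := by
        rw [← ENNReal.ofReal_mul hr.le, mul_inv_cancel₀ hr.ne', ENNReal.ofReal_one, one_mul]

private theorem gerg_mem (A : Set ℝ)
    (hinv : ∀ α : ℝ, 0 < α → α < 1 → Irrational α → (α ∈ A ↔ Int.fract (1 / α) ∈ A))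
    (w : List ℕ) (hw : ∀ c ∈ w, 1 ≤ c) {y : ℝ} (h0 : 0 < y) (h1 : y < 1) (hy : Irrational y) :
    cyl w y ∈ A ↔ y ∈ A := by
  induction w with
  | nil => rfl
  | cons c w ih =>
    have hw' : ∀ c ∈ w, 1 ≤ c := fun a ha => hw a (List.mem_cons_of_mem _ ha)
    have h2 := cyl_mem (c :: w) hw h0 h1
    rw [hinv _ h2.1 h2.2 (cyl_irr (c :: w) hw h0 h1 hy), cyl_gauss c w hw h0 h1, ih hw']

theorem zero_one (A : Set ℝ) (hA : MeasurableSet A)
    (hsub : A ⊆ {α : ℝ | (0 < α ∧ α < 1) ∧ Irrational α})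
    (hinv : ∀ α : ℝ, 0 < α → α < 1 → Irrational α → (α ∈ A ↔ Int.fract (1 / α) ∈ A))
    (hpos : volume A ≠ 0) :
    volume ({α : ℝ | (0 < α ∧ α < 1) ∧ Irrational α} \ A) = 0 := by
  by_contra hne
  set X : Set ℝ := {α : ℝ | (0 < α ∧ α < 1) ∧ Irrational α} with hX
  have hdens := IsUnifLocDoublingMeasure.ae_tendsto_measure_inter_div (volume : Measure ℝ) (X \ A) 1
  have hne' : (volume.restrict (X \ A)) ≠ 0 := by
    intro h
    apply hne
    rw [← Measure.restrict_apply_univ, h]
    rfl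
  have hXm : MeasurableSet (X \ A) := by
    refine MeasurableSet.diff ?_ hA
    have h1 : X = Ioo (0 : ℝ) 1 ∩ {α : ℝ | Irrational α} := by
      ext α; simp [hX, Ioo]
    rw [h1]
    refine measurableSet_Ioo.inter ?_
    have h2 : MeasurableSet (Set.range ((↑) : ℚ → ℝ)) := (countable_range _).measurableSet
    exact h2.compl
  have hex : ∃ x ∈ X \ A, ∀ {ι : Type} {l : Filter ι} (w : ι → ℝ) (δ : ι → ℝ)
      (_ : Tendsto δ l (𝓝[>] 0)) (_ : ∀ᶠ j in l, x ∈ Metric.closedBall (w j) (1 * δ j)),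
      Tendsto (fun j => volume ((X \ A) ∩ Metric.closedBall (w j) (δ j)) /
        volume (Metric.closedBall (w j) (δ j))) l (𝓝 1) := by
    have : NeBot (ae (volume.restrict (X \ A))) := ae_neBot.2 hne'
    obtain ⟨x, hx1, hx2⟩ := (hdens.and (ae_restrict_mem hXm)).exists
    exact ⟨x, hx2, fun w δ h1 h2 => hx1 w δ h1 h2⟩
  obtain ⟨x, hxX, hx⟩ := hex
  choose w y hlen hw hy0 hy1 hyi hxy using
    fun n : ℕ => cyl_digits hxX.1.1.1 hxX.1.1.2 hxX.1.2 (n + 1)
  have hwne : ∀ n, w n ≠ [] := by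
    intro n h
    have := hlen n
    rw [h] at this
    simp at this
  choose z r hr0 hr1 hball hexp using fun n : ℕ => cyl_interval (w n) (hw n) (hwne n)
  have hr2 : ∀ n, r n ≤ 1 / ((n : ℝ) + 1) := by
    intro n
    refine (hr1 n).trans ?_
    rw [hlen n]
    push_cast
    apply one_div_le_one_div_of_le (by positivity)
    have : (0 : ℝ) ≤ n := n.cast_nonneg
    nlinarith
  have hlim : Tendsto r atTop (𝓝[>] 0) := by
    rw [tendsto_nhdsWithin_iff]
    refine ⟨?_, Eventually.of_forall hr0⟩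
    exact squeeze_zero (fun n => (hr0 n).le) hr2 tendsto_one_div_add_atTop_nhds_zero_nat
  have hxm : ∀ᶠ n in atTop, x ∈ Metric.closedBall (z n) (1 * r n) := by
    refine Eventually.of_forall fun n => ?_
    rw [one_mul, hxy n]
    exact hball n _ ⟨(hy0 n).le, (hy1 n).le⟩
  have ht := hx z r hlim hxm
  have hkey : ∀ n, volume ((X \ A) ∩ Metric.closedBall (z n) (r n)) /
      volume (Metric.closedBall (z n) (r n)) + volume A / 2 ≤ 1 := by
    intro n
    have hv : volume (Metric.closedBall (z n) (r n)) = ENNReal.ofReal (2 * r n) :=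
      Real.volume_closedBall _ _
    have himg : cyl (w n) '' A ⊆ Metric.closedBall (z n) (r n) ∩ A := by
      rintro _ ⟨u, hu, rfl⟩
      have hu' := hsub hu
      exact ⟨hball n u ⟨hu'.1.1.le, hu'.1.2.le⟩,
        (gerg_mem A hinv (w n) (hw n) hu'.1.1 hu'.1.2 hu'.2).2 hu⟩
    have h1 : ENNReal.ofReal (r n) * volume A ≤ volume (Metric.closedBall (z n) (r n) ∩ A) := by
      refine (volume_image_ge (cyl (w n)) A (r n) (hr0 n) ?_).trans (measure_mono himg)
      intro y₁ h₁ y₂ h₂
      have h₁' := hsub h₁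
      have h₂' := hsub h₂
      exact hexp n y₁ ⟨h₁'.1.1.le, h₁'.1.2.le⟩ y₂ ⟨h₂'.1.1.le, h₂'.1.2.le⟩
    have h2 : volume ((X \ A) ∩ Metric.closedBall (z n) (r n)) ≤
        volume (Metric.closedBall (z n) (r n) \ A) := by
      apply measure_mono
      rintro u ⟨hu1, hu2⟩
      exact ⟨hu2, hu1.2⟩
    have h3 := measure_inter_add_diff (μ := volume) (Metric.closedBall (z n) (r n)) hA
    have h4 : volume ((X \ A) ∩ Metric.closedBall (z n) (r n)) + ENNReal.ofReal (r n) * volume A ≤
        ENNReal.ofReal (2 * r n) := by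
      rw [← hv, ← h3, add_comm]
      exact add_le_add h1 h2
    have h2r : ENNReal.ofReal (2 * r n) ≠ 0 := by
      rw [Ne, ENNReal.ofReal_eq_zero]
      have := hr0 n
      linarith
    have h2r' : ENNReal.ofReal (2 * r n) ≠ ⊤ := ENNReal.ofReal_ne_top
    have h5 : volume A / 2 = ENNReal.ofReal (r n) * volume A / ENNReal.ofReal (2 * r n) := by
      rw [mul_comm 2 (r n), ENNReal.ofReal_mul (hr0 n).le]
      have hrn : ENNReal.ofReal (r n) ≠ 0 := by
        rw [Ne, ENNReal.ofReal_eq_zero]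
        have := hr0 n
        linarith
      rw [show ENNReal.ofReal 2 = 2 by norm_num]
      exact (ENNReal.mul_div_mul_left _ _ hrn ENNReal.ofReal_ne_top).symm
    rw [hv, h5, ← ENNReal.add_div]
    exact ENNReal.div_le_of_le_mul (by rw [one_mul]; exact h4)
  have hlim2 : Tendsto (fun n => volume ((X \ A) ∩ Metric.closedBall (z n) (r n)) /
      volume (Metric.closedBall (z n) (r n)) + volume A / 2) atTop (𝓝 (1 + volume A / 2)) :=
    ht.add_const _
  have hfin := le_of_tendsto' hlim2 hkey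
  have h0 : volume A / 2 = 0 := by
    have h1 : (1 : ENNReal) + volume A / 2 ≤ 1 + 0 := by rw [add_zero]; exact hfin
    have h2 := (ENNReal.add_le_add_iff_left ENNReal.one_ne_top).1 h1
    exact le_antisymm h2 zero_le
  rw [ENNReal.div_eq_zero_iff] at h0
  rcases h0 with h0 | h0
  · exact hpos h0
  · exact absurd h0 (by norm_num)

theorem gauss_const (D : ℝ → ENNReal)
    (hD : Measurable (fun α : {α : ℝ // (0 < α ∧ α < 1) ∧ Irrational α} => D α))
    (hinv : ∀ α : ℝ, 0 < α → α < 1 → Irrational α → D (Int.fract (1 / α)) = D α) :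
    ∃ d : ENNReal, ∀ᵐ α ∂(volume.restrict (Ioo (0 : ℝ) 1)), D α = d := by
  set X : Set ℝ := {α : ℝ | (0 < α ∧ α < 1) ∧ Irrational α} with hX
  have hXi : X = Ioo (0 : ℝ) 1 ∩ {α : ℝ | Irrational α} := by
    ext α; simp [hX, Ioo]
  have hirr : MeasurableSet {α : ℝ | Irrational α} := by
    have h2 : MeasurableSet (Set.range ((↑) : ℚ → ℝ)) := (countable_range _).measurableSet
    exact h2.compl
  have hXm : MeasurableSet X := by
    rw [hXi]
    exact measurableSet_Ioo.inter hirr
  have haeX : ∀ᵐ α ∂(volume.restrict (Ioo (0 : ℝ) 1)), α ∈ X := by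
    have h1 : ∀ᵐ α ∂(volume.restrict (Ioo (0 : ℝ) 1)), Irrational α := by
      apply ae_restrict_of_ae
      rw [ae_iff]
      have h2 : {a : ℝ | ¬ Irrational a} = Set.range ((↑) : ℚ → ℝ) := by
        ext a
        simp [Irrational]
      rw [h2]
      exact (countable_range _).measure_zero _
    filter_upwards [h1, ae_restrict_mem measurableSet_Ioo] with α h3 h4
    rw [hXi]
    exact ⟨h4, h3⟩
  apply Filter.exists_eventuallyEq_const_of_forall_separating (l := ae (volume.restrict
    (Ioo (0 : ℝ) 1))) MeasurableSet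
  intro U hU
  set A : Set ℝ := {α | α ∈ X ∧ D α ∈ U} with hAdef
  have hAm : MeasurableSet A := by
    have h1 : MeasurableSet {α : X | D α ∈ U} := hD hU
    have h2 : A = (Subtype.val '' {α : X | D α ∈ U}) := by
      ext α
      constructor
      · rintro ⟨h3, h4⟩
        exact ⟨⟨α, h3⟩, h4, rfl⟩
      · rintro ⟨⟨β, h3⟩, h4, rfl⟩
        exact ⟨h3, h4⟩
    rw [h2]
    exact hXm.subtype_image h1
  have hfr : ∀ α : ℝ, α ∈ X → Int.fract (1 / α) ∈ X := by
    rintro α ⟨⟨h0, h1⟩, hi⟩
    have hi' : Irrational (1 / α) := by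
      rw [one_div]
      exact irrational_inv_iff.2 hi
    have hi2 : Irrational (Int.fract (1 / α)) := by
      rw [Int.fract]
      exact hi'.sub_intCast _
    refine ⟨⟨?_, Int.fract_lt_one _⟩, hi2⟩
    exact lt_of_le_of_ne (Int.fract_nonneg _) (Ne.symm hi2.ne_zero)
  by_cases h0 : volume A = 0
  · right
    have h1 : ∀ᵐ α ∂(volume.restrict (Ioo (0 : ℝ) 1)), α ∉ A := by
      apply ae_restrict_of_ae
      exact measure_eq_zero_iff_ae_notMem.1 h0
    filter_upwards [h1, haeX] with α h2 h3 h4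
    exact h2 ⟨h3, h4⟩
  · left
    have h1 := zero_one A hAm (fun α hα => hα.1) (by
      intro α h2 h3 h4
      have hαX : α ∈ X := ⟨⟨h2, h3⟩, h4⟩
      constructor
      · rintro ⟨_, h5⟩
        refine ⟨hfr α hαX, ?_⟩
        rw [hinv α h2 h3 h4]
        exact h5
      · rintro ⟨_, h5⟩
        rw [hinv α h2 h3 h4] at h5
        exact ⟨hαX, h5⟩) h0
    have h2 : ∀ᵐ α ∂(volume.restrict (Ioo (0 : ℝ) 1)), α ∉ X \ A := by
      apply ae_restrict_of_ae
      exact measure_eq_zero_iff_ae_notMem.1 h1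
    filter_upwards [h2, haeX] with α h3 h4
    by_contra h5
    exact h3 ⟨h4, fun h6 => h5 h6.2⟩

end Sturm
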