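import Pool.Agent.Lib.MP_e5ebf6_mp.UDim

/-! Module ZtMeas: measurability of the dimension in a weakly continuous family. -/

open Metric Set MeasureTheory Filter Topology
noncomputable section
namespace Sturm

/-- rational covers suffice -/
theorem Zt_iff_rat (μ : Measure ℝ) [IsProbabilityMeasure μ] (t : ℝ) (ht : 0 < t) :
    Zt t μ ↔ ∀ n : ℕ, ∃ F : Finset (ℚ × ℚ), (∀ p ∈ F, 0 < p.2) ∧
      ∑ p ∈ F, (p.2 : ℝ) ^ t < 1 / (n + 1) ∧
      μ (⋃ p ∈ F, Ioo (p.1 : ℝ) (p.1 + p.2))ᶜ ≤ ENNReal.ofReal (1 / (n + 1)) := by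
  classical
  constructor
  · intro h n
    obtain ⟨F, hF0, hF1, hF2⟩ := h (1 / (n + 1)) (by positivity)
    have hη : 0 < (1 / ((n : ℝ) + 1) - ∑ p ∈ F, p.2 ^ t) / (F.card + 1) :=
      div_pos (by linarith) (by positivity)
    generalize hηdef : (1 / ((n : ℝ) + 1) - ∑ p ∈ F, p.2 ^ t) / (F.card + 1) = η at hη
    have key : ∀ p : ℝ × ℝ, ∃ q : ℚ × ℚ, 0 < p.2 →
        (0 < q.2 ∧ (q.1 : ℝ) < p.1 ∧ p.1 + p.2 < q.1 + q.2 ∧ (q.2 : ℝ) ^ t < p.2 ^ t + η) := by
      intro p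
      by_cases hp : 0 < p.2
      · obtain ⟨δ, hδ0, hδ1⟩ := UDim_small p.2 t η ht hη
        obtain ⟨q, hq1, hq2⟩ := exists_rat_btwn (show p.1 - δ / 2 < p.1 by linarith)
        obtain ⟨r, hr1, hr2⟩ := exists_rat_btwn (show p.1 + p.2 - q < p.2 + δ by linarith)
        have hr0 : (0 : ℝ) < r := by linarith
        refine ⟨(q, r), fun _ => ⟨by exact_mod_cast hr0, hq2, by simp only; linarith, ?_⟩⟩
        exact lt_trans (Real.rpow_lt_rpow hr0.le hr2 ht) hδ1
      · exact ⟨(0, 0), fun h => absurd h hp⟩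
    choose g hg using key
    refine ⟨F.image g, ?_, ?_, ?_⟩
    · intro q hq
      obtain ⟨p, hp, rfl⟩ := Finset.mem_image.mp hq
      exact (hg p (hF0 p hp)).1
    · have h1 : ∑ q ∈ F.image g, (q.2 : ℝ) ^ t ≤ ∑ p ∈ F, ((g p).2 : ℝ) ^ t := by
        refine Finset.sum_image_le_of_nonneg (f := fun q : ℚ × ℚ => (q.2 : ℝ) ^ t) fun q hq => ?_
        obtain ⟨p, hp, rfl⟩ := Finset.mem_image.mp hq
        exact Real.rpow_nonneg (by exact_mod_cast (hg p (hF0 p hp)).1.le) t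
      have h2 : ∑ p ∈ F, ((g p).2 : ℝ) ^ t ≤ ∑ p ∈ F, (p.2 ^ t + η) :=
        Finset.sum_le_sum fun p hp => (hg p (hF0 p hp)).2.2.2.le
      have h3 : ∑ p ∈ F, (p.2 ^ t + η) = ∑ p ∈ F, p.2 ^ t + F.card * η := by
        rw [Finset.sum_add_distrib, Finset.sum_const, nsmul_eq_mul]
      have h4 : (F.card : ℝ) * η < 1 / ((n : ℝ) + 1) - ∑ p ∈ F, p.2 ^ t := by
        rw [← hηdef, mul_div_assoc', div_lt_iff₀ (by positivity)]
        have : 0 < 1 / ((n : ℝ) + 1) - ∑ p ∈ F, p.2 ^ t := by linarith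
        nlinarith
      linarith
    · refine le_trans (measure_mono ?_) hF2
      refine compl_subset_compl.mpr ?_
      intro x hx
      obtain ⟨p, hp, hxp⟩ := mem_iUnion₂.mp hx
      refine mem_iUnion₂.mpr ⟨g p, Finset.mem_image_of_mem g hp, ?_⟩
      have h1 := hg p (hF0 p hp)
      exact ⟨by linarith [hxp.1, h1.2.1], by linarith [hxp.2, h1.2.2.1]⟩
  · intro h ε hε
    obtain ⟨n, hn⟩ := exists_nat_one_div_lt hε
    obtain ⟨F, hF0, hF1, hF2⟩ := h n
    refine ⟨F.image fun p => ((p.1 : ℝ), (p.2 : ℝ)), ?_, ?_, ?_⟩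
    · intro q hq
      obtain ⟨p, hp, rfl⟩ := Finset.mem_image.mp hq
      exact Rat.cast_pos.mpr (hF0 p hp)
    · refine lt_of_le_of_lt ?_ (hF1.trans hn)
      refine Finset.sum_image_le_of_nonneg (g := fun p : ℚ × ℚ => ((p.1 : ℝ), (p.2 : ℝ)))
        (f := fun q : ℝ × ℝ => q.2 ^ t) fun q hq => ?_
      obtain ⟨p, hp, rfl⟩ := Finset.mem_image.mp hq
      exact Real.rpow_nonneg (Rat.cast_nonneg.mpr (hF0 p hp).le) t
    · refine le_trans (measure_mono ?_) (hF2.trans (ENNReal.ofReal_le_ofReal hn.le))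
      refine compl_subset_compl.mpr ?_
      intro x hx
      obtain ⟨p, hp, hxp⟩ := mem_iUnion₂.mp hx
      exact mem_iUnion₂.mpr ⟨((p.1 : ℝ), (p.2 : ℝ)), Finset.mem_image_of_mem
        (fun p : ℚ × ℚ => ((p.1 : ℝ), (p.2 : ℝ))) hp, ⟨hxp.1.le, hxp.2.le⟩⟩

theorem ZtMeas_closed {X : Type*} [TopologicalSpace X] [MeasurableSpace X] [BorelSpace X]
    (N : X → Measure ℝ) [∀ x, IsProbabilityMeasure (N x)]
    (hN : ∀ f : ℝ → ℝ, Continuous f → (∃ C, ∀ x, |f x| ≤ C) → Continuous fun x => ∫ E, f E ∂(N x))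
    (C : Set ℝ) (hC : IsClosed C) : Measurable fun x => N x C := by
  have hδ : ∀ n : ℕ, 0 < (1 : ℝ) / (n + 1) := fun n => by positivity
  have hlim : Tendsto (fun n : ℕ => (1 : ℝ) / (n + 1)) atTop (𝓝 0) :=
    tendsto_one_div_add_atTop_nhds_zero_nat
  refine ENNReal.measurable_of_tendsto (f := fun (n : ℕ) (x : X) =>
    ∫⁻ ω, (thickenedIndicator (hδ n) C ω : ENNReal) ∂(N x)) (fun n => ?_) ?_
  · have hc : Continuous fun ω : ℝ => (thickenedIndicator (hδ n) C ω : ℝ) :=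
      NNReal.continuous_coe.comp (thickenedIndicator (hδ n) C).continuous
    have hb : ∀ ω : ℝ, |(thickenedIndicator (hδ n) C ω : ℝ)| ≤ 1 := by
      intro ω
      rw [abs_of_nonneg (NNReal.coe_nonneg _)]
      exact_mod_cast thickenedIndicator_le_one (hδ n) C ω
    have h1 := (hN _ hc ⟨1, hb⟩).measurable
    have h2 : (fun x => ∫⁻ ω, (thickenedIndicator (hδ n) C ω : ENNReal) ∂(N x)) =
        fun x => ENNReal.ofReal (∫ ω, (thickenedIndicator (hδ n) C ω : ℝ) ∂(N x)) := by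
      funext x
      rw [ofReal_integral_eq_lintegral_ofReal]
      · refine lintegral_congr fun ω => ?_
        rw [ENNReal.ofReal_coe_nnreal]
      · refine Integrable.mono' (integrable_const 1) hc.aestronglyMeasurable ?_
        exact Eventually.of_forall fun ω => hb ω
      · exact Eventually.of_forall fun ω => NNReal.coe_nonneg _
    rw [h2]
    exact ENNReal.measurable_ofReal.comp h1
  · rw [tendsto_pi_nhds]
    intro x
    exact tendsto_lintegral_thickenedIndicator_of_isClosed (N x) hC hδ hlim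

/-- a weakly continuous family of probability measures over a metric space has a measurable
dimension -/
theorem measurable_udim {X : Type*} [TopologicalSpace X] [MeasurableSpace X] [BorelSpace X]
    (N : X → Measure ℝ) [∀ x, IsProbabilityMeasure (N x)]
    (hN : ∀ f : ℝ → ℝ, Continuous f → (∃ C, ∀ x, |f x| ≤ C) → Continuous fun x => ∫ E, f E ∂(N x)) :
    Measurable fun x => udim (N x) := by
  refine measurable_of_Iic fun c => ?_
  rcases eq_or_ne c ⊤ with hc | hc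
  · rw [hc]
    simp
  · have h0 : 0 ≤ c.toReal := ENNReal.toReal_nonneg
    have h1 : (fun x => udim (N x)) ⁻¹' Iic c =
        ⋂ q : {q : ℚ // c.toReal < q}, {x | Zt (q : ℚ) (N x)} := by
      ext x
      simp only [mem_preimage, mem_Iic, mem_iInter, mem_ofPred_eq, Subtype.forall]
      constructor
      · intro h q hq
        rw [← ENNReal.ofReal_toReal hc] at h
        exact (udim_le_iff (N x) _ h0).mp h q hq
      · intro h
        by_contra hcon
        rw [not_le, ← ENNReal.ofReal_toReal hc] at hcon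
        obtain ⟨t, ht0, ht1, ht2⟩ := ENNReal.lt_iff_exists_real_btwn.mp hcon
        have h2 : c.toReal < t := (ENNReal.ofReal_lt_ofReal_iff_of_nonneg h0).mp ht1
        obtain ⟨q, hq1, hq2⟩ := exists_rat_btwn h2
        have h3 := udim_le_of_Zt (N x) q (lt_of_le_of_lt h0 hq1) (h q hq1)
        have h4 := lt_of_le_of_lt (h3.trans (ENNReal.ofReal_le_ofReal hq2.le)) ht2
        exact lt_irrefl _ h4
    rw [h1]
    refine MeasurableSet.iInter fun q => ?_
    have hq : (0 : ℝ) < ((q : ℚ) : ℝ) := lt_of_le_of_lt h0 q.2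
    have h2 : {x | Zt ((q : ℚ) : ℝ) (N x)} = ⋂ n : ℕ, ⋃ F : {F : Finset (ℚ × ℚ) //
        (∀ p ∈ F, 0 < p.2) ∧ ∑ p ∈ F, (p.2 : ℝ) ^ ((q : ℚ) : ℝ) < 1 / (n + 1)},
        {x | N x (⋃ p ∈ F.1, Ioo (p.1 : ℝ) (p.1 + p.2))ᶜ ≤ ENNReal.ofReal (1 / (n + 1))} := by
      ext x
      simp only [mem_ofPred_eq, mem_iInter, mem_iUnion]
      rw [Zt_iff_rat (N x) _ hq]
      refine forall_congr' fun n => ?_
      constructor
      · rintro ⟨F, hF0, hF1, hF2⟩
        exact ⟨⟨F, hF0, hF1⟩, hF2⟩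
      · rintro ⟨F, hF2⟩
        exact ⟨F.1, F.2.1, F.2.2, hF2⟩
    rw [h2]
    refine MeasurableSet.iInter fun n => MeasurableSet.iUnion fun F => ?_
    refine measurableSet_le (ZtMeas_closed N hN _ ?_) measurable_const
    rw [isClosed_compl_iff]
    exact isOpen_biUnion fun p _ => isOpen_Ioo

end Sturm
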