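import Pool.Agent.Lib.MP_e5ebf6_mp.DimEq
import Pool.Agent.Lib.MP_e5ebf6_mp.ZtMeas
import Pool.Agent.Lib.MP_e5ebf6_mp.DosExists
import Pool.Agent.Lib.MP_e5ebf6_mp.DosLim
import Pool.Agent.Lib.MP_e5ebf6_mp.GaussErg

/-! Module Final: assembly. -/

open MeasureTheory Filter Topology Set
noncomputable section
namespace Sturm

variable {V : Type*} [NormedAddCommGroup V] [InnerProductSpace ℂ V] [CompleteSpace V]
  (b : HilbertBasis ℤ ℂ V)

theorem udim_le_one (μ : Measure ℝ) : udim μ ≤ 1 := by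
  unfold udim
  refine (iInf₂_le (univ : Set ℝ) ⟨MeasurableSet.univ, by simp⟩).trans ?_
  rw [Real.dimH_univ]

theorem gauss_invariance {lam : ℝ} (hlam : 0 < lam) (N : ℝ → Measure ℝ)
    (hN : ∀ α : ℝ, 0 < α → α < 1 → Irrational α → IsDOS b lam α (N α)) (α : ℝ) (h0 : 0 < α)
    (h1 : α < 1) (ha : Irrational α) : udim (N (Int.fract (1 / α))) = udim (N α) := by
  have hi := fun i => gauss_iter_irr h0 h1 ha i
  have hD : ∀ i, IsDOS b lam (gaussMap^[i] α) (N (gaussMap^[i] α)) := fun i =>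
    hN _ (hi i).1 (hi i).2.1 (hi i).2.2
  have hL : ∀ i, LimZ lam (shf i (dig α)) (N (gaussMap^[i] α)) := fun i => by
    rw [← dig_shift]
    exact limZ_dos b hlam (hi i).1 (hi i).2.1 (hi i).2.2 _ (hD i)
  haveI := (hD 0).prob
  haveI := (hD 1).prob
  have h := udim_eq_of (N (gaussMap^[0] α)) (N (gaussMap^[1] α)) (fun t ht =>
    dim_eq hlam (dig α) (dig_pos h0 h1 ha) (fun i => N (gaussMap^[i] α)) hL t ht)
  simpa [gaussMap] using h.symm

theorem final {lam : ℝ} (hlam : 0 < lam) :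
    (∀ α : ℝ, 0 < α → α < 1 → ∃! N : Measure ℝ, IsDOS b lam α N) ∧
    ∀ N : ℝ → Measure ℝ,
      (∀ α : ℝ, 0 < α → α < 1 → Irrational α → IsDOS b lam α (N α)) →
      Measurable (fun α : {α : ℝ // (0 < α ∧ α < 1) ∧ Irrational α} => udim (N α)) ∧
      (∀ α : ℝ, 0 < α → α < 1 → Irrational α →
        udim (N (Int.fract (1 / α))) = udim (N α)) ∧
      ∃ d : ENNReal, d ≤ 1 ∧
        ∀ᵐ α ∂(volume.restrict (Ioo (0 : ℝ) 1)), udim (N α) = d := by
  refine ⟨fun α h0 h1 => ?_, fun N hN => ?_⟩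
  · obtain ⟨N, hN⟩ := dos_exists b hlam.le α
    exact ⟨N, hN, fun N' hN' => dos_unique b N' N hN' hN⟩
  have hmeas : Measurable (fun α : {α : ℝ // (0 < α ∧ α < 1) ∧ Irrational α} => udim (N α)) := by
    haveI : ∀ x : {α : ℝ // (0 < α ∧ α < 1) ∧ Irrational α}, IsProbabilityMeasure (N x) :=
      fun x => (hN x x.2.1.1 x.2.1.2 x.2.2).prob
    apply measurable_udim (X := {α : ℝ // (0 < α ∧ α < 1) ∧ Irrational α}) (fun x => N x)
    intro f hf hb
    have hc := dos_continuousOn b hlam N {α : ℝ | (0 < α ∧ α < 1) ∧ Irrational α}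
      (fun α h => h.1) (fun α h => hN α h.1.1 h.1.2 h.2) f hf hb
    exact continuousOn_iff_continuous_restrict.mp hc
  have hinv : ∀ α : ℝ, 0 < α → α < 1 → Irrational α →
      udim (N (Int.fract (1 / α))) = udim (N α) := gauss_invariance b hlam N hN
  refine ⟨hmeas, hinv, ?_⟩
  obtain ⟨d, hd⟩ := gauss_const (fun α => udim (N α)) hmeas hinv
  refine ⟨d, ?_, hd⟩
  by_contra hlt
  have hbad : ∀ᵐ α ∂(volume.restrict (Ioo (0 : ℝ) 1)), False := by
    filter_upwards [hd] with α hα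
    exact hlt (hα ▸ udim_le_one (N α))
  rw [ae_iff] at hbad
  simp at hbad

end Sturm
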