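import Pool.Agent.Lib.MP_e5ebf6_mp.Twist
import Pool.Agent.Lib.MP_e5ebf6_mp.BwdCone

/-! Module GLower: lower bound for the base twist derivative of a later trace. -/

noncomputable section
namespace Sturm

private lemma gl_node (s a : St ℝ) (p : ℕ) :
    kx (uu s p, s.2.1, uu s (p + 1)) * duu s a p + ky (uu s p, s.2.1, uu s (p + 1)) * a.2.1 +
      kz (uu s p, s.2.1, uu s (p + 1)) * duu s a (p + 1) =
    kx s * a.1 + ky s * a.2.1 + kz s * a.2.2 := by
  induction p with
  | zero => rfl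
  | succ p ih =>
    rw [← ih]
    have h1 : uu s (p + 1 + 1) = s.2.1 * uu s (p + 1) - uu s p := rfl
    have h2 : duu s a (p + 1 + 1) = a.2.1 * uu s (p + 1) + s.2.1 * duu s a (p + 1) - duu s a p :=
      rfl
    simp only [kx, ky, kz, h1, h2]
    ring

private lemma gl_tang1 (b : ℕ) (s a : St ℝ) (h : Tang (fwd1 b s) (dfwd1 b s a)) : Tang s a := by
  unfold Tang at h ⊢
  rw [← gl_node s a b, ← h]
  simp only [kx, ky, kz, fwd1, dfwd1]
  ring

private lemma gl_tang (l : List ℕ) (s a : St ℝ) (h : Tang (fwd l s) (dfwd l s a)) : Tang s a := by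
  induction l generalizing s a with
  | nil => exact h
  | cons b l ih => exact gl_tang1 b s a (ih _ _ h)

private lemma gl_grad {lam : ℝ} (hlam : 0 < lam) (s : St ℝ) (hk : kap s = 4 + lam ^ 2)
    {α β : ℝ} (h : sgrad α s = sgrad β s) : α = β := by
  by_contra hne
  have hne' : α - β ≠ 0 := sub_ne_zero.2 hne
  have h1 : (α - β) * kx s = 0 := by
    have := congrArg (fun t : St ℝ => t.1) h
    simp only [sgrad] at this
    linear_combination this
  have h2 : (α - β) * ky s = 0 := by
    have := congrArg (fun t : St ℝ => t.2.1) h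
    simp only [sgrad] at this
    linear_combination this
  have h3 : (α - β) * kz s = 0 := by
    have := congrArg (fun t : St ℝ => t.2.2) h
    simp only [sgrad] at this
    linear_combination this
  have k1 := (mul_eq_zero.1 h1).resolve_left hne'
  have k2 := (mul_eq_zero.1 h2).resolve_left hne'
  have k3 := (mul_eq_zero.1 h3).resolve_left hne'
  obtain ⟨x, y, z⟩ := s
  simp only [kx, ky, kz, kap] at k1 k2 k3 hk
  -- x^2 = y^2 = z^2, xyz = 2 x^2
  have m1 : x * y * z = 2 * x ^ 2 := by linear_combination (-x) * k1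
  have m2 : y ^ 2 = x ^ 2 := by linear_combination (-x / 2) * k1 + (y / 2) * k2
  have m3 : z ^ 2 = x ^ 2 := by linear_combination (-x / 2) * k1 + (z / 2) * k3
  have m4 : x ^ 2 = 4 + lam ^ 2 := by rw [← hk, m2, m3, m1]; ring
  have m5 : (x ^ 2) ^ 3 = 4 * (x ^ 2) ^ 2 := by
    have : (x * y * z) ^ 2 = (2 * x ^ 2) ^ 2 := by rw [m1]
    have h5 : (x * y * z) ^ 2 = x ^ 2 * y ^ 2 * z ^ 2 := by ring
    rw [h5, m2, m3] at this
    linear_combination this
  rw [m4] at m5
  have m6 : 0 < lam ^ 2 := by positivity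
  have m7 : (4 + lam ^ 2) ^ 2 * (4 + lam ^ 2 - 4) = 0 := by linear_combination m5
  have m8 : 0 < (4 + lam ^ 2) ^ 2 * (4 + lam ^ 2 - 4) := by
    apply mul_pos <;> [positivity; linarith]
  linarith

theorem G_lower {lam : ℝ} (hlam : 0 < lam) (l : List ℕ) (hl : Pos l) (φ : ℝ) (j : ℕ)
    (hj : j ≤ l.length)
    (hx : |TR lam l φ| < 2) (hxj : |TR lam (l.drop j) φ| < RR lam) :
    ((ee (l.take j)).1 : ℝ) * Real.sqrt (RR lam ^ 2 - TR lam (l.drop j) φ ^ 2) *
        Real.sqrt (4 - TR lam l φ ^ 2) ≤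
      |(dfwd (l.take j) (str lam l φ) (D0 (str lam l φ))).1| := by
  set P := tmr lam (l.drop j) φ with hP
  have hPg : P.Good := tmr_good lam (l.drop j) φ
  have hPs : P.stt = str lam (l.drop j) φ := tmr_stt lam (l.drop j) φ
  set Q := twP P.A P.B with hQ
  have hQg : Q.Good := twP_good hPg.dA hPg.dB
  have hQs : Q.stt = str lam (l.drop j) φ := by rw [← hPs]; rfl
  have hQd : Q.dst = D0 (str lam (l.drop j) φ) := by rw [← hQs]; exact twP_dst hPg.dA hPg.dB
  have hk := kap_str lam (l.drop j) φ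
  have hk' : kap (P.A.trace, P.B.trace, (P.A * P.B).trace) = 4 + lam ^ 2 := by
    rw [← hPs] at hk
    exact hk
  have htr : P.A.trace = TR lam (l.drop j) φ := by
    show P.stt.1 = _
    rw [hPs]; rfl
  have hx' : |P.A.trace| < RR lam := by rw [htr]; exact hxj
  obtain ⟨σ, hσ, hPC⟩ : ∃ σ : ℝ, (σ = 1 ∨ σ = -1) ∧ PC σ (tw P.A P.B) := by
    rcases tw_PC hPg.dA hPg.dB hk' hx' with h | h
    · exact ⟨1, Or.inl rfl, h⟩
    · exact ⟨-1, Or.inr rfl, h⟩
  have hQB : PC σ Q.LB := hPC
  obtain ⟨h1, -, h3, -⟩ := TM.prevs_PC0 hσ hQg rfl hQB (l.take j)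
  have h6 : Q.LB.det = RR lam ^ 2 - TR lam (l.drop j) φ ^ 2 := by
    show (tw P.A P.B).det = _
    rw [tw_det hPg.dA hPg.dB, hk', htr, RR_sq]
  rw [h6] at h3
  set P' := TM.prevs (l.take j) Q with hP'
  have hP'g : P'.Good := TM.good_prevs _ hQg
  have hA : P'.A = (tmr lam l φ).A := by
    have h : tmr lam l φ = TM.prevs (l.take j) P := by
      rw [hP]; unfold tmr
      rw [← TM.prevs_append, List.take_append_drop]
    rw [h]
    exact (TM.prevs_A_indep (l.take j) Q P rfl rfl).1
  have hs : P'.stt = str lam l φ := by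
    rw [hP', TM.stt_prevs _ hQg, hQs]
    unfold str
    rw [← bwd_append, List.take_append_drop]
  have htA : P'.A.trace = TR lam l φ := by
    show P'.stt.1 = _
    rw [hs]; rfl
  -- lower bound for the first component of `c = P'.dst`
  have hc : Real.sqrt (4 - TR lam l φ ^ 2) * Real.sqrt P'.LA.det ≤ |P'.dst.1| := by
    rcases h1 with h1 | h1
    · have hpm : (-σ * (-1 : ℝ) ^ (l.take j).length) = 1 ∨
          (-σ * (-1 : ℝ) ^ (l.take j).length) = -1 := by
        rcases hσ with h | h <;> rcases neg_one_pow_eq_or ℝ (l.take j).length with h' | h' <;>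
          rw [h, h'] <;> norm_num
      have := (PC.tr_mul hpm hP'g.dA (by rw [htA]; exact hx) h1).2
      rw [htA] at this
      exact this
    · rw [h1]
      simp
  -- pushing `c`
  have hpush : dfwd (l.take j) (str lam l φ) P'.dst = D0 (str lam (l.drop j) φ) := by
    rw [← hs, ← TM.dst_nexts _ hP'g, hP', TM.nexts_prevs _ hQg, hQd]
  have hfw := fwd_take_str lam l j φ
  have hT : Tang (str lam l φ) P'.dst := by
    apply gl_tang (l.take j)
    rw [hfw, hpush]
    exact tang_D0 _
  have hcr := crs_dfwd (l.take j) _ _ _ _ (crs_D0 _ _ hT)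
  rw [hpush, hfw] at hcr
  set G := dfwd (l.take j) (str lam l φ) (D0 (str lam l φ)) with hG
  have hGT : Tang (str lam (l.drop j) φ) G := by
    have := tang_dfwd (l.take j) _ _ (tang_D0 (str lam l φ))
    rw [hfw] at this
    exact this
  have hcr2 := crs_D0 _ _ hGT
  have hanti : crs (D0 (str lam (l.drop j) φ)) G = sgrad (-G.1) (str lam (l.drop j) φ) := by
    have e0 : crs (D0 (str lam (l.drop j) φ)) G =
        (-(crs G (D0 (str lam (l.drop j) φ))).1, -(crs G (D0 (str lam (l.drop j) φ))).2.1,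
          -(crs G (D0 (str lam (l.drop j) φ))).2.2) := by
      simp only [crs, Prod.mk.injEq]
      refine ⟨by ring, by ring, by ring⟩
    rw [e0, hcr2]
    simp only [sgrad, Prod.mk.injEq]
    refine ⟨by ring, by ring, by ring⟩
  have heq := gl_grad hlam _ hk (hcr.symm.trans hanti)
  have habs : |P'.dst.1| = |G.1| := by
    have := congrArg abs heq
    rw [abs_mul, abs_pow, abs_neg, abs_one, one_pow, one_mul, abs_neg] at this
    exact this
  rw [← habs]
  calc ((ee (l.take j)).1 : ℝ) * Real.sqrt (RR lam ^ 2 - TR lam (l.drop j) φ ^ 2) *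
        Real.sqrt (4 - TR lam l φ ^ 2)
      ≤ Real.sqrt P'.LA.det * Real.sqrt (4 - TR lam l φ ^ 2) :=
        mul_le_mul_of_nonneg_right h3 (Real.sqrt_nonneg _)
    _ = Real.sqrt (4 - TR lam l φ ^ 2) * Real.sqrt P'.LA.det := mul_comm _ _
    _ ≤ _ := hc

end Sturm
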