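import Mathlib

/-! Module GaussCyl: cylinders of the Gauss map `x ↦ fract (1/x)`.

`cyl w y = [0; w₁, ..., w_n + y]`, i.e. `cyl [] y = y`, `cyl (c :: w) y = 1 / (c + cyl w y)`.

PROOFS.
* `cyl_form`: by induction on `w` (consing at the head) there are naturals `p p' q q'` with
  `cyl w y = (p + y p') / (q + y q')` for `y ≥ 0`, `|p q' - p' q| = 1`, `1 ≤ q`, `q' ≤ q`,
  `length w ≤ q` and (`p' ≤ p` and `1 ≤ p`, or `w = []` and `(p, p', q, q') = (0, 1, 1, 0)`).
  Step `c :: w` (`c ≥ 1`): new `(p, p', q, q') = (q, q', c q + p, c q' + p')`.  For `w = []` the new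
  one is `(1, 0, c, 1)`.  `length`: new `q ≥ q + p ≥ length w + 1` for `w ≠ []`.
* `cyl_mem`: `0 < cyl w y < 1` for `0 < y < 1`: induction.
* `cyl_gauss`: for `0 < y < 1`: `fract (1 / cyl (c :: w) y) = cyl w y` as `1 / cyl (c :: w) y =
  c + cyl w y`; iterate.
* `cyl_irr`: rational operations with irrational `y` (or: if `cyl (c :: w) y` is rational, so is
  `cyl w y`; induction).
* `cyl_digits`: for irrational `x ∈ (0,1)` and every `n` there are `w` of length `n` with positive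
  entries and an irrational `y ∈ (0,1)` with `x = cyl w y` : induction on `n`:
  `x = 1 / (⌊1/x⌋ + fract (1/x))`.
* `cyl_interval`: with `cyl_form`, put `u = cyl w 0 = p/q`, `v = cyl w 1 = (p+p')/(q+q')`:
  `|u - v| = 1/(q (q+q'))`; the map is monotone or antitone on `[0,1]`, so maps `[0,1]` into the
  closed interval `uIcc u v` = closed ball with centre `(u+v)/2` and radius `r = |u-v|/2`; for `y₁ y₂`:
  `|cyl w y₁ - cyl w y₂| = |y₁-y₂| / ((q+y₁q')(q+y₂q')) ≥ |y₁-y₂|/(q+q')^2 ≥ |y₁-y₂| |u-v| / 2`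
  because `q (q+q') * 2 ≥ (q+q')^2` (`q' ≤ q`).  And `r ≤ 1/(2 q^2) ≤ 1/(2 n^2)`.
-/

open MeasureTheory Filter Topology Set
noncomputable section
namespace Sturm

def cyl : List ℕ → ℝ → ℝ
  | [], y => y
  | c :: w, y => 1 / ((c : ℝ) + cyl w y)

theorem cyl_mem (w : List ℕ) (hw : ∀ c ∈ w, 1 ≤ c) {y : ℝ} (h0 : 0 < y) (h1 : y < 1) :
    0 < cyl w y ∧ cyl w y < 1 := by
  induction w with
  | nil => exact ⟨h0, h1⟩
  | cons c w ih =>
    obtain ⟨h2, h3⟩ := ih (fun a ha => hw a (List.mem_cons_of_mem _ ha))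
    have hc : (1 : ℝ) ≤ c := by exact_mod_cast hw c List.mem_cons_self
    have h4 : 1 < (c : ℝ) + cyl w y := by linarith
    refine ⟨?_, ?_⟩
    · show 0 < 1 / ((c : ℝ) + cyl w y)
      positivity
    · show 1 / ((c : ℝ) + cyl w y) < 1
      rw [div_lt_one (by linarith)]
      exact h4

theorem cyl_gauss (c : ℕ) (w : List ℕ) (hw : ∀ a ∈ c :: w, 1 ≤ a) {y : ℝ} (h0 : 0 < y)
    (h1 : y < 1) : Int.fract (1 / cyl (c :: w) y) = cyl w y := by
  obtain ⟨h2, h3⟩ := cyl_mem w (fun a ha => hw a (List.mem_cons_of_mem _ ha)) h0 h1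
  have h4 : 1 / cyl (c :: w) y = (c : ℝ) + cyl w y := by
    show 1 / (1 / ((c : ℝ) + cyl w y)) = (c : ℝ) + cyl w y
    rw [one_div_one_div]
  rw [h4, Int.fract_natCast_add, Int.fract_eq_self]
  exact ⟨h2.le, h3⟩

theorem cyl_irr (w : List ℕ) (hw : ∀ c ∈ w, 1 ≤ c) {y : ℝ} (h0 : 0 < y) (h1 : y < 1)
    (hy : Irrational y) : Irrational (cyl w y) := by
  induction w with
  | nil => exact hy
  | cons c w ih =>
    have h2 := ih (fun a ha => hw a (List.mem_cons_of_mem _ ha))
    show Irrational (1 / ((c : ℝ) + cyl w y))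
    rw [one_div]
    exact (h2.natCast_add c).inv

theorem cyl_digits {x : ℝ} (h0 : 0 < x) (h1 : x < 1) (hx : Irrational x) (n : ℕ) :
    ∃ (w : List ℕ) (y : ℝ), w.length = n ∧ (∀ c ∈ w, 1 ≤ c) ∧ 0 < y ∧ y < 1 ∧ Irrational y ∧
      x = cyl w y := by
  induction n generalizing x with
  | zero => exact ⟨[], x, rfl, by simp, h0, h1, hx, rfl⟩
  | succ n ih =>
    have h2 : 1 < 1 / x := by
      rw [lt_div_iff₀ h0]
      linarith
    have hir : Irrational (1 / x) := by
      rw [one_div]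
      exact hx.inv
    have hfl : 1 ≤ ⌊1 / x⌋₊ := Nat.le_floor (by exact_mod_cast h2.le)
    have hfr : Int.fract (1 / x) = 1 / x - (⌊1 / x⌋₊ : ℝ) := by
      rw [natCast_floor_eq_intCast_floor (by linarith : (0 : ℝ) ≤ 1 / x)]
      exact (Int.self_sub_floor (1 / x)).symm
    have hirf : Irrational (Int.fract (1 / x)) := by
      rw [hfr]
      exact hir.sub_natCast _
    have h3 : 0 < Int.fract (1 / x) := by
      refine lt_of_le_of_ne (Int.fract_nonneg _) ?_
      intro h
      rw [← h] at hirf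
      exact hirf ⟨0, by simp⟩
    obtain ⟨w, y, hl, hw, hy0, hy1, hyi, hxy⟩ := ih h3 (Int.fract_lt_one _) hirf
    refine ⟨⌊1 / x⌋₊ :: w, y, by rw [List.length_cons, hl], ?_, hy0, hy1, hyi, ?_⟩
    · intro c hc
      rcases List.mem_cons.mp hc with rfl | hc
      · exact hfl
      · exact hw c hc
    · show x = 1 / ((⌊1 / x⌋₊ : ℝ) + cyl w y)
      rw [← hxy, hfr]
      have : (⌊1 / x⌋₊ : ℝ) + (1 / x - (⌊1 / x⌋₊ : ℝ)) = 1 / x := by ring
      rw [this, one_div_one_div]

private theorem cyl_form (w : List ℕ) (hw : ∀ c ∈ w, 1 ≤ c) : ∃ p p' q q' : ℕ,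
    (∀ y : ℝ, 0 ≤ y → cyl w y = (p + y * p') / (q + y * q')) ∧
    (((p : ℝ) * q' - p' * q = 1) ∨ ((p : ℝ) * q' - p' * q = -1)) ∧ 1 ≤ q ∧ q' ≤ q ∧
    w.length ≤ q ∧ ((1 ≤ p ∧ p' ≤ p) ∨ (w = [] ∧ p = 0 ∧ p' = 1 ∧ q = 1 ∧ q' = 0)) := by
  induction w with
  | nil =>
    refine ⟨0, 1, 1, 0, ?_, ?_, le_rfl, Nat.zero_le _, by simp, Or.inr ⟨rfl, rfl, rfl, rfl, rfl⟩⟩
    · intro y _
      show y = _
      push_cast
      simp
    · right
      push_cast
      norm_num
  | cons c w ih =>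
    obtain ⟨p, p', q, q', hf, hd, hq, hqq, hl, hp⟩ :=
      ih (fun a ha => hw a (List.mem_cons_of_mem _ ha))
    have hc : 1 ≤ c := hw c List.mem_cons_self
    refine ⟨q, q', c * q + p, c * q' + p', ?_, ?_, ?_, ?_, ?_, Or.inl ⟨hq, hqq⟩⟩
    · intro y hy
      show 1 / ((c : ℝ) + cyl w y) = _
      rw [hf y hy]
      have hqr : (0 : ℝ) < q := by exact_mod_cast hq
      have h1 : (0 : ℝ) < q + y * q' := by positivity
      have hcr : (0 : ℝ) < c := by exact_mod_cast hc
      have h2 : (0 : ℝ) < c * (q + y * q') + (p + y * p') := by positivity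
      have h3 : (0 : ℝ) < ((c * q + p : ℕ) : ℝ) + y * ((c * q' + p' : ℕ) : ℝ) := by
        push_cast
        nlinarith
      have h4 : (c : ℝ) + (p + y * p') / (q + y * q') =
          (((c * q + p : ℕ) : ℝ) + y * ((c * q' + p' : ℕ) : ℝ)) / (q + y * q') := by
        push_cast
        field_simp
        ring
      rw [h4, one_div_div]
    · push_cast
      rcases hd with hd | hd
      · right
        linear_combination -hd
      · left
        linear_combination -hd
    · have : 1 ≤ c * q := Nat.one_le_iff_ne_zero.mpr (by positivity)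
      omega
    · rcases hp with ⟨_, hp⟩ | ⟨_, rfl, rfl, rfl, rfl⟩
      · exact Nat.add_le_add (Nat.mul_le_mul_left c hqq) hp
      · omega
    · rw [List.length_cons]
      rcases hp with ⟨hp1, _⟩ | ⟨rfl, rfl, rfl, rfl, rfl⟩
      · have : q ≤ c * q := Nat.le_mul_of_pos_left q hc
        omega
      · simp only [List.length_nil]
        omega

/-- every cylinder is contained in a closed ball, onto which `cyl w` expands at most by a bounded
distortion -/
theorem cyl_interval (w : List ℕ) (hw : ∀ c ∈ w, 1 ≤ c) (hn : w ≠ []) :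
    ∃ z r : ℝ, 0 < r ∧ r ≤ 1 / (w.length : ℝ) ^ 2 ∧
      (∀ y ∈ Icc (0 : ℝ) 1, cyl w y ∈ Metric.closedBall z r) ∧
      ∀ y₁ ∈ Icc (0 : ℝ) 1, ∀ y₂ ∈ Icc (0 : ℝ) 1, r * |y₁ - y₂| ≤ |cyl w y₁ - cyl w y₂| := by
  obtain ⟨p, p', q, q', hf, hd, hq, hqq, hl, hp⟩ := cyl_form w hw
  have hqr : (1 : ℝ) ≤ q := by exact_mod_cast hq
  have hqqr : (q' : ℝ) ≤ q := by exact_mod_cast hqq
  have hq'0 : (0 : ℝ) ≤ q' := Nat.cast_nonneg _
  have hlen : 0 < w.length := List.length_pos_iff.mpr hn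
  have hlr : (0 : ℝ) < w.length := by exact_mod_cast hlen
  have hlq : (w.length : ℝ) ≤ q := by exact_mod_cast hl
  obtain ⟨s, hs, hsd⟩ : ∃ s : ℝ, (s = 1 ∨ s = -1) ∧ (p' : ℝ) * q - p * q' = s := by
    rcases hd with hd | hd
    · exact ⟨-1, Or.inr rfl, by linarith⟩
    · exact ⟨1, Or.inl rfl, by linarith⟩
  have hss : s * s = 1 := by
    rcases hs with rfl | rfl <;> norm_num
  have habs : |s| = 1 := by
    rcases hs with rfl | rfl <;> norm_num
  set u : ℝ := p / q with hu
  set v : ℝ := (p + p') / (q + q') with hv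
  have hq0 : (0 : ℝ) < q := by linarith
  have hqq0 : (0 : ℝ) < q + q' := by linarith
  refine ⟨(u + v) / 2, 1 / (2 * (q * (q + q'))), by positivity, ?_, ?_, ?_⟩
  · apply one_div_le_one_div_of_le (by positivity)
    nlinarith
  · intro y hy
    have hy0 := hy.1
    have hy1 := hy.2
    have hden : (0 : ℝ) < q + y * q' := by positivity
    rw [Metric.mem_closedBall, Real.dist_eq, hf y hy0]
    have e1 : s * ((p + y * p') / (q + y * q') - u) = y / (q * (q + y * q')) := by
      rw [hu]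
      field_simp
      linear_combination (s * y) * hsd + y * hss
    have e2 : s * (v - (p + y * p') / (q + y * q')) =
        (1 - y) / ((q + q') * (q + y * q')) := by
      rw [hv]
      field_simp
      linear_combination (s * (1 - y)) * hsd + (1 - y) * hss
    have e3 : s * (v - u) = 1 / (q * (q + q')) := by
      rw [hu, hv]
      field_simp
      linear_combination s * hsd + hss
    have p1 : 0 ≤ y / (q * (q + y * q')) := by positivity
    have p2 : 0 ≤ (1 - y) / ((q + q') * (q + y * q')) :=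
      div_nonneg (by linarith) (by positivity)
    set f : ℝ := (p + y * p') / (q + y * q') with hfdef
    have e4 : (1 : ℝ) / (2 * (q * (q + q'))) = 1 / (q * (q + q')) / 2 := by
      field_simp
    rw [e4]
    have e5 : |f - (u + v) / 2| = |s * (f - (u + v) / 2)| := by
      rw [abs_mul, habs, one_mul]
    rw [e5, abs_le]
    constructor <;> nlinarith
  · intro y₁ hy₁ y₂ hy₂
    rw [hf y₁ hy₁.1, hf y₂ hy₂.1]
    have h10 := hy₁.1
    have h11 := hy₁.2
    have h20 := hy₂.1
    have h21 := hy₂.2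
    have hd1 : (0 : ℝ) < q + y₁ * q' := by positivity
    have hd2 : (0 : ℝ) < q + y₂ * q' := by positivity
    have e1 : (p + y₁ * p') / (q + y₁ * q') - (p + y₂ * p') / (q + y₂ * q') =
        s * (y₁ - y₂) / ((q + y₁ * q') * (q + y₂ * q')) := by
      rw [← hsd]
      field_simp
      ring
    rw [e1, abs_div, abs_mul, habs, one_mul, abs_of_pos (mul_pos hd1 hd2), mul_comm,
      mul_one_div]
    refine div_le_div_of_nonneg_left (abs_nonneg _) (mul_pos hd1 hd2) ?_
    have b1 : q + y₁ * q' ≤ q + q' := by nlinarith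
    have b2 : q + y₂ * q' ≤ q + q' := by nlinarith
    calc (q + y₁ * q') * (q + y₂ * q') ≤ (q + q') * (q + q') :=
          mul_le_mul b1 b2 hd2.le hqq0.le
      _ ≤ 2 * (q * (q + q')) := by nlinarith

end Sturm
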