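import Pool.Agent.Lib.MP_e5ebf6_mp.BwdCone

/-! Module Growth: continuants grow faster than the number of chain steps. -/

noncomputable section
namespace Sturm

theorem ee_rec (b : ℕ → ℕ) (j : ℕ) :
    (ee (lM b (j + 2))).1 = b j * (ee (lM b (j + 1))).1 + (ee (lM b j)).1 := by
  have h1 : lM b (j + 2) = lM b j ++ [b j, b (j + 1)] := by
    unfold lM
    rw [List.range_succ, List.range_succ]
    simp
  have h2 : lM b (j + 1) = lM b j ++ [b j] := by
    unfold lM
    rw [List.range_succ]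
    simp
  rw [h1, h2]
  exact ee_append _ _ _ _

/-- the continuants are at least `j - 1` -/
theorem growth_ge (b : ℕ → ℕ) (hb : ∀ k, 1 ≤ b k) (j : ℕ) :
    1 ≤ (ee (lM b (j + 1))).1 ∧ j ≤ (ee (lM b (j + 1))).1 ∧
      (1 ≤ j → 1 ≤ (ee (lM b j)).1) := by
  induction j with
  | zero =>
    have h1 : (ee (lM b 1)).1 = 1 := by
      simp [lM, ee]
    rw [zero_add, h1]
    omega
  | succ j ih =>
    have h1 := ee_rec b j
    have h2 := hb j
    obtain ⟨i1, i2, i3⟩ := ih
    have h3 : (ee (lM b (j + 1))).1 ≤ b j * (ee (lM b (j + 1))).1 := Nat.le_mul_of_pos_left _ h2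
    refine ⟨?_, ?_, fun _ => i1⟩
    · rw [h1]
      omega
    · rw [h1]
      rcases Nat.eq_zero_or_pos j with h0 | h0
      · subst h0
        omega
      · have := i3 h0
        omega

theorem ee_growth (b : ℕ → ℕ) (hb : ∀ k, 1 ≤ b k) (Λ : ℝ) :
    ∃ J0 : ℕ, ∀ j, J0 ≤ j →
      Λ * (1 + ∑ k ∈ Finset.range (j - 1), (b k : ℝ)) ≤ ((ee (lM b j)).1 : ℝ) := by
  set L : ℝ := max Λ 0 with hL
  have hL0 : 0 ≤ L := le_max_right _ _
  set e : ℕ → ℝ := fun j => ((ee (lM b j)).1 : ℝ) with he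
  set S : ℕ → ℝ := fun j => 1 + ∑ k ∈ Finset.range (j - 1), (b k : ℝ) with hS
  have hS0 : ∀ j, 0 ≤ S j := fun j => by
    have : 0 ≤ ∑ k ∈ Finset.range (j - 1), (b k : ℝ) :=
      Finset.sum_nonneg fun k _ => Nat.cast_nonneg _
    simp only [hS]
    linarith
  have hge : ∀ j : ℕ, (j : ℝ) ≤ e (j + 1) := fun j => by
    simp only [he]
    exact_mod_cast (growth_ge b hb j).2.1
  -- one step
  have hstep : ∀ j : ℕ, L + 1 ≤ e (j + 1) → L ≤ e (j + 2) →
      e (j + 2) - L * S (j + 2) + 1 ≤ e (j + 3) - L * S (j + 3) := by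
    intro j h1 h2
    have h3 : e (j + 3) = b (j + 1) * e (j + 2) + e (j + 1) := by
      simp only [he]
      have := ee_rec b (j + 1)
      exact_mod_cast this
    have h4 : S (j + 3) = S (j + 2) + b (j + 1) := by
      simp only [hS]
      rw [show j + 3 - 1 = j + 1 + 1 by omega, show j + 2 - 1 = j + 1 by omega,
        Finset.sum_range_succ]
      ring
    have h5 : (1 : ℝ) ≤ b (j + 1) := by exact_mod_cast hb (j + 1)
    rw [h3, h4]
    nlinarith
  set J1 : ℕ := ⌈L⌉₊ + 1 with hJ1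
  have hbig : ∀ j : ℕ, J1 ≤ j → L + 1 ≤ e (j + 1) := fun j hj => by
    have h1 := hge j
    have h2 : L ≤ ⌈L⌉₊ := Nat.le_ceil L
    have h3 : ((⌈L⌉₊ + 1 : ℕ) : ℝ) ≤ j := by exact_mod_cast hj
    push_cast at h3
    linarith
  have hind : ∀ m : ℕ, e (J1 + 2) - L * S (J1 + 2) + m ≤ e (J1 + m + 2) - L * S (J1 + m + 2) := by
    intro m
    induction m with
    | zero => simp
    | succ m ih =>
      have h1 := hstep (J1 + m) (hbig _ (by omega)) (by
        have := hbig (J1 + m + 1) (by omega)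
        rw [show J1 + m + 1 + 1 = J1 + m + 2 by omega] at this
        linarith)
      rw [show J1 + (m + 1) + 2 = J1 + m + 3 by omega]
      push_cast
      linarith
  obtain ⟨N, hN⟩ := exists_nat_ge (|e (J1 + 2) - L * S (J1 + 2)|)
  refine ⟨J1 + N + 2, fun j hj => ?_⟩
  obtain ⟨m, rfl⟩ : ∃ m, j = J1 + m + 2 := ⟨j - J1 - 2, by omega⟩
  have h1 := hind m
  have h2 : (N : ℝ) ≤ m := by exact_mod_cast (show N ≤ m by omega)
  have h3 := neg_abs_le (e (J1 + 2) - L * S (J1 + 2))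
  have h4 : L * S (J1 + m + 2) ≤ e (J1 + m + 2) := by linarith
  have h5 : Λ * S (J1 + m + 2) ≤ L * S (J1 + m + 2) :=
    mul_le_mul_of_nonneg_right (le_max_left _ _) (hS0 _)
  exact h5.trans h4

end Sturm
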