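import Mathlib

/-! Module Harnack: Harnack inequality for a nonvanishing bounded holomorphic function. -/

open Complex Metric Set
noncomputable section
namespace Sturm

theorem harnack_log {F : ℂ → ℂ} {c : ℂ} {r M : ℝ} (hr : 0 < r) (hM : 0 < M)
    (hF : DifferentiableOn ℂ F (ball c r)) (h0 : ∀ w ∈ ball c r, F w ≠ 0) :
    ∃ g : ℂ → ℂ, DifferentiableOn ℂ g (ball c r) ∧ ∀ z ∈ ball c r, F z = M * exp (g z) := by
  have hF' : DifferentiableOn ℂ (deriv F) (ball c r) := hF.deriv isOpen_ball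
  have hG : DifferentiableOn ℂ (fun z => deriv F z / F z) (ball c r) := hF'.div hF h0
  obtain ⟨g, hg0, hg⟩ := hG.isExactOn_ball.with_val_at c (log (F c / M))
  refine ⟨g, fun z hz => (hg z hz).differentiableAt.differentiableWithinAt, ?_⟩
  have hM' : (M : ℂ) ≠ 0 := by exact_mod_cast hM.ne'
  have hc : c ∈ ball c r := mem_ball_self hr
  -- the quotient is constant
  have hk : ∀ z ∈ ball c r, HasDerivAt (fun z => F z * exp (-g z)) 0 z := by
    intro z hz
    have h1 : HasDerivAt F (deriv F z) z :=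
      (hF.differentiableAt (isOpen_ball.mem_nhds hz)).hasDerivAt
    have h2 : HasDerivAt (fun z => exp (-g z)) (exp (-g z) * -(deriv F z / F z)) z :=
      (hg z hz).neg.cexp
    refine (h1.mul h2).congr_deriv ?_
    have := h0 z hz
    field_simp
    ring
  intro z hz
  have h1 : (fun z => F z * exp (-g z)) z = (fun z => F z * exp (-g z)) c := by
    apply isOpen_ball.is_const_of_deriv_eq_zero (convex_ball c r).isPreconnected
      (fun z hz => (hk z hz).differentiableAt.differentiableWithinAt)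
      (fun z hz => (hk z hz).deriv) hz hc
  simp only at h1
  rw [hg0, exp_neg, exp_neg, exp_log (div_ne_zero (h0 c hc) hM')] at h1
  have h2 : F c * (F c / M)⁻¹ = M := by
    have := h0 c hc
    field_simp
  rw [h2] at h1
  rw [← h1]
  have h3 := exp_ne_zero (g z)
  field_simp

theorem harnack_real {X A D q : ℝ} (hX : 0 ≤ X) (hA : 0 < A) (hq0 : 0 ≤ q) (hq1 : q < 1)
    (h : (X - A) ^ 2 + D ^ 2 ≤ q ^ 2 * ((X + A) ^ 2 + D ^ 2)) : A * (1 - q) ≤ X * (1 + q) := by
  have h1 : (A - X) ^ 2 ≤ (q * (X + A)) ^ 2 := by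
    have h2 : q ^ 2 * D ^ 2 ≤ D ^ 2 := by
      have h3 : q ^ 2 ≤ 1 := by nlinarith
      nlinarith [sq_nonneg D]
    nlinarith
  have h2 : A - X ≤ q * (X + A) := by
    have h3 : 0 ≤ q * (X + A) := by positivity
    exact le_of_sq_le_sq h1 h3
  nlinarith

theorem harnack_nonvanishing {F : ℂ → ℂ} {c : ℂ} {r M : ℝ} (hr : 0 < r) (hM : 0 < M)
    (hF : DifferentiableOn ℂ F (ball c r)) (h0 : ∀ w ∈ ball c r, F w ≠ 0)
    (hb : ∀ w ∈ ball c r, ‖F w‖ ≤ M) {w : ℂ} (hw : w ∈ ball c r) :
    ‖F w‖ ≤ M * (‖F c‖ / M) ^ ((r - ‖w - c‖) / (r + ‖w - c‖)) := by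
  obtain ⟨g, hgd, hg⟩ := harnack_log hr hM hF h0
  have hc : c ∈ ball c r := mem_ball_self hr
  have hnorm : ∀ z ∈ ball c r, ‖F z‖ = M * Real.exp (g z).re := by
    intro z hz
    rw [hg z hz, norm_mul, norm_exp, norm_real, Real.norm_of_nonneg hM.le]
  have hre : ∀ z ∈ ball c r, 0 ≤ -(g z).re := by
    intro z hz
    have h1 := hb z hz
    rw [hnorm z hz] at h1
    have h2 : Real.exp (g z).re ≤ 1 := by
      by_contra h
      push Not at h
      nlinarith
    rw [Real.exp_le_one_iff] at h2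
    linarith
  set ρ := ‖w - c‖ with hρ
  have hρ0 : 0 ≤ ρ := norm_nonneg _
  have hρr : ρ < r := by
    rw [mem_ball, dist_eq_norm] at hw
    exact hw
  rcases eq_or_lt_of_le (hre c hc) with hA | hA
  · -- |F c| = M
    have h1 : ‖F c‖ = M := by
      rw [hnorm c hc]
      have h2 : (g c).re = 0 := by linarith
      rw [h2, Real.exp_zero, mul_one]
    rw [h1, div_self hM.ne', Real.one_rpow, mul_one]
    exact hb w hw
  · set a : ℂ := -g c with ha
    set A : ℝ := a.re with hAdef
    have hA' : 0 < A := by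
      rw [hAdef, ha, neg_re]
      exact hA
    -- the Cayley transform
    have hden : ∀ z ∈ ball c r, -g z + (starRingEnd ℂ) a ≠ 0 := by
      intro z hz h
      have h1 := congrArg re h
      rw [add_re, neg_re, conj_re, zero_re] at h1
      have h2 := hre z hz
      linarith
    set Φ : ℂ → ℂ := fun z => (-g z - a) / (-g z + (starRingEnd ℂ) a) with hΦ
    have hΦd : DifferentiableOn ℂ Φ (ball c r) :=
      (hgd.neg.sub_const a).div (hgd.neg.add_const _) hden
    have hsq : ∀ z : ℂ, ‖-g z - a‖ ^ 2 = (-(g z).re - A) ^ 2 + (-(g z).im - a.im) ^ 2 := by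
      intro z
      rw [← normSq_eq_norm_sq, normSq_apply, sub_re, sub_im, neg_re, neg_im]
      ring
    have hsq' : ∀ z : ℂ, ‖-g z + (starRingEnd ℂ) a‖ ^ 2 =
        (-(g z).re + A) ^ 2 + (-(g z).im - a.im) ^ 2 := by
      intro z
      rw [← normSq_eq_norm_sq, normSq_apply, add_re, add_im, neg_re, neg_im, conj_re, conj_im]
      ring
    have hΦ1 : ∀ z ∈ ball c r, ‖Φ z‖ ≤ 1 := by
      intro z hz
      rw [hΦ]
      simp only
      rw [norm_div, div_le_one (norm_pos_iff.mpr (hden z hz))]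
      apply le_of_sq_le_sq _ (norm_nonneg _)
      rw [hsq, hsq']
      have := hre z hz
      nlinarith
    have hΦc : Φ c = 0 := by
      rw [hΦ]
      simp only
      rw [← ha, sub_self, zero_div]
    have hq : ‖Φ w‖ ≤ ρ / r := by
      have hmaps : MapsTo Φ (ball c r) (closedBall (Φ c) 1) := by
        intro z hz
        rw [hΦc, mem_closedBall_zero_iff]
        exact hΦ1 z hz
      have h1 := dist_le_div_mul_dist_of_mapsTo_ball hΦd hmaps hw
      rw [hΦc, dist_zero_right, dist_eq_norm, ← hρ] at h1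
      calc ‖Φ w‖ ≤ 1 / r * ρ := h1
        _ = ρ / r := by ring
    set q : ℝ := ρ / r with hqdef
    have hq0 : 0 ≤ q := by positivity
    have hq1 : q < 1 := by
      rw [hqdef, div_lt_one hr]
      exact hρr
    have h1 : ‖-g w - a‖ ≤ q * ‖-g w + (starRingEnd ℂ) a‖ := by
      have h2 : Φ w * (-g w + (starRingEnd ℂ) a) = -g w - a := div_mul_cancel₀ _ (hden w hw)
      rw [← h2, norm_mul]
      exact mul_le_mul_of_nonneg_right hq (norm_nonneg _)
    have h2 : (-(g w).re - A) ^ 2 + (-(g w).im - a.im) ^ 2 ≤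
        q ^ 2 * ((-(g w).re + A) ^ 2 + (-(g w).im - a.im) ^ 2) := by
      rw [← hsq, ← hsq', ← mul_pow]
      exact pow_le_pow_left₀ (norm_nonneg _) h1 2
    have h3 := harnack_real (hre w hw) hA' hq0 hq1 h2
    have h4 : (r - ρ) / (r + ρ) = (1 - q) / (1 + q) := by
      rw [hqdef]
      field_simp
    have h5 : A * ((1 - q) / (1 + q)) ≤ -(g w).re := by
      rw [← mul_div_assoc, div_le_iff₀ (by linarith)]
      exact h3
    have h6 : ‖F c‖ / M = Real.exp (-A) := by
      rw [hnorm c hc, mul_div_cancel_left₀ _ hM.ne']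
      congr 1
      rw [hAdef, ha, neg_re, neg_neg]
    rw [h4, h6, ← Real.exp_mul, hnorm w hw]
    apply mul_le_mul_of_nonneg_left _ hM.le
    apply Real.exp_le_exp.mpr
    linarith

end Sturm
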