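import Pool.Agent.Lib.MP_e5ebf6_mp.StateAlg

/-! Module NReal: two real points over the same `x = t`: distance versus determinant. -/

noncomputable section
namespace Sturm

theorem nreal_key (ρ0 V K t y₁ z₁ y₂ z₂ ρ D B N : ℝ) (hρ0 : 0 < ρ0) (hρ : ρ0 ≤ ρ) (ht : |t| ≤ V)
    (hK : 0 ≤ K) (hy₁ : |y₁| ≤ K) (hz₁ : |z₁| ≤ K) (hy₂ : |y₂| ≤ K) (hz₂ : |z₂| ≤ K)
    (h1 : y₁ ^ 2 + z₁ ^ 2 - t * y₁ * z₁ = ρ) (h2 : y₂ ^ 2 + z₂ ^ 2 - t * y₂ * z₂ = ρ)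
    (hN : N = y₁ * z₂ - y₂ * z₁) (hB : B = y₁ * y₂ + z₁ * z₂ - t / 2 * (y₁ * z₂ + y₂ * z₁))
    (hB0 : 0 ≤ B) (hD : D = (1 + V ^ 2 / 4) * (2 * K ^ 2) / ρ0) :
    |y₁ - y₂| + |z₁ - z₂| ≤ (2 * (D * K + K * (1 + V / 2)) / ρ0) * |N| := by
  have hV : 0 ≤ V := (abs_nonneg _).trans ht
  have hρpos : 0 < ρ := lt_of_lt_of_le hρ0 hρ
  have hNabs : |N| ≤ 2 * K ^ 2 := by
    rw [hN]
    have e1 : |y₁ * z₂| ≤ K * K := by
      rw [abs_mul]; exact mul_le_mul hy₁ hz₂ (abs_nonneg _) hK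
    have e2 : |y₂ * z₁| ≤ K * K := by
      rw [abs_mul]; exact mul_le_mul hy₂ hz₁ (abs_nonneg _) hK
    have e3 := abs_sub (y₁ * z₂) (y₂ * z₁)
    nlinarith
  have hid : (B - ρ) * (B + ρ) = -((1 - t ^ 2 / 4) * N ^ 2) := by
    have e1 : B ^ 2 + (1 - t ^ 2 / 4) * N ^ 2 =
        (y₁ ^ 2 + z₁ ^ 2 - t * y₁ * z₁) * (y₂ ^ 2 + z₂ ^ 2 - t * y₂ * z₂) := by
      rw [hB, hN]; ring
    rw [h1, h2] at e1
    linear_combination e1
  have hdet : |1 - t ^ 2 / 4| ≤ 1 + V ^ 2 / 4 := by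
    have e1 : t ^ 2 ≤ V ^ 2 := by
      rw [← sq_abs t]
      exact pow_le_pow_left₀ (abs_nonneg _) ht 2
    rw [abs_le]
    constructor <;> nlinarith [sq_nonneg t, sq_nonneg V]
  have hBρ : |B - ρ| ≤ D * |N| := by
    have e1 : |B - ρ| * (B + ρ) = |1 - t ^ 2 / 4| * |N| ^ 2 := by
      have e2 := congrArg abs hid
      rw [abs_mul, abs_neg, abs_mul, abs_pow, abs_of_pos (by linarith : 0 < B + ρ)] at e2
      exact e2
    have e3 : |B - ρ| * ρ0 ≤ (1 + V ^ 2 / 4) * (2 * K ^ 2) * |N| := by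
      calc |B - ρ| * ρ0 ≤ |B - ρ| * (B + ρ) :=
            mul_le_mul_of_nonneg_left (by linarith) (abs_nonneg _)
        _ = |1 - t ^ 2 / 4| * |N| ^ 2 := e1
        _ ≤ (1 + V ^ 2 / 4) * |N| ^ 2 := mul_le_mul_of_nonneg_right hdet (by positivity)
        _ = (1 + V ^ 2 / 4) * |N| * |N| := by ring
        _ ≤ (1 + V ^ 2 / 4) * |N| * (2 * K ^ 2) :=
            mul_le_mul_of_nonneg_left hNabs (by positivity)
        _ = (1 + V ^ 2 / 4) * (2 * K ^ 2) * |N| := by ring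
    rw [hD, div_mul_eq_mul_div, le_div_iff₀ hρ0]
    exact e3
  have hY : ρ * (y₂ - y₁) = (B - ρ) * y₁ - N * (z₁ - t * y₁ / 2) := by
    rw [← h1, hB, hN]; ring
  have hZ : ρ * (z₂ - z₁) = (B - ρ) * z₁ + N * (y₁ - t * z₁ / 2) := by
    rw [← h1, hB, hN]; ring
  have hlin : ∀ a b : ℝ, |a| ≤ K → |b| ≤ K → |a - t * b / 2| ≤ K * (1 + V / 2) := by
    intro a b ha hb
    have e1 : |t * b / 2| ≤ V * K / 2 := by
      rw [abs_div, abs_mul, abs_two]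
      have := mul_le_mul ht hb (abs_nonneg _) hV
      linarith
    have e2 := abs_sub a (t * b / 2)
    nlinarith
  have hmain : ∀ u w a c : ℝ, ρ * (u - w) = (B - ρ) * a + N * c → |a| ≤ K →
      |c| ≤ K * (1 + V / 2) → |u - w| ≤ (D * K + K * (1 + V / 2)) / ρ0 * |N| := by
    intro u w a c h ha hc
    have e1 : ρ0 * |u - w| ≤ ρ * |u - w| := mul_le_mul_of_nonneg_right hρ (abs_nonneg _)
    have e2 : ρ * |u - w| = |(B - ρ) * a + N * c| := by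
      rw [← h, abs_mul, abs_of_pos hρpos]
    have e3 := abs_add_le ((B - ρ) * a) (N * c)
    rw [abs_mul, abs_mul] at e3
    have e4 : |B - ρ| * |a| ≤ D * |N| * K :=
      mul_le_mul hBρ ha (abs_nonneg _) ((abs_nonneg _).trans hBρ)
    have e5 : |N| * |c| ≤ |N| * (K * (1 + V / 2)) := mul_le_mul_of_nonneg_left hc (abs_nonneg _)
    rw [div_mul_eq_mul_div, le_div_iff₀ hρ0]
    linarith
  have r1 := hmain y₂ y₁ y₁ (-(z₁ - t * y₁ / 2)) (by rw [hY]; ring) hy₁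
    (by rw [abs_neg]; exact hlin z₁ y₁ hz₁ hy₁)
  have r2 := hmain z₂ z₁ z₁ (y₁ - t * z₁ / 2) hZ hz₁ (hlin y₁ z₁ hy₁ hz₁)
  rw [abs_sub_comm y₁ y₂, abs_sub_comm z₁ z₂]
  have e : (2 * (D * K + K * (1 + V / 2)) / ρ0) * |N| =
      (D * K + K * (1 + V / 2)) / ρ0 * |N| + (D * K + K * (1 + V / 2)) / ρ0 * |N| := by ring
  rw [e]
  exact add_le_add r1 r2

/-- `|N| ≤ C · distance` and `min (distance, antipodal distance) ≤ C |N|`,
and the two distances cannot both be small -/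
theorem nreal_bounds {lam : ℝ} (hlam : 0 < lam) :
    ∃ C c : ℝ, 0 < C ∧ 0 < c ∧ ∀ t y₁ z₁ y₂ z₂ : ℝ, |t| ≤ vr lam →
      |y₁| ≤ K0 lam → |z₁| ≤ K0 lam → |y₂| ≤ K0 lam → |z₂| ≤ K0 lam →
      kap ((t, y₁, z₁) : St ℝ) = 4 + lam ^ 2 → kap ((t, y₂, z₂) : St ℝ) = 4 + lam ^ 2 →
      |y₁ * z₂ - y₂ * z₁| ≤ C * (|y₁ - y₂| + |z₁ - z₂|) ∧
      (|y₁ - y₂| + |z₁ - z₂| ≤ C * |y₁ * z₂ - y₂ * z₁| ∨
        |y₁ + y₂| + |z₁ + z₂| ≤ C * |y₁ * z₂ - y₂ * z₁|) ∧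
      c ≤ (|y₁ - y₂| + |z₁ - z₂|) + (|y₁ + y₂| + |z₁ + z₂|) := by
  have hR := two_lt_RR hlam
  have hR2 := RR_sq lam
  set V := vr lam with hVdef
  have hV : V = (2 + RR lam) / 2 := rfl
  have hV2 : 2 < V := by rw [hV]; linarith
  have hVR : V < RR lam := by rw [hV]; linarith
  set K := K0 lam with hKdef
  have hKpos : 0 < K := by
    have : K = RR lam ^ 2 + 2 * RR lam := rfl
    rw [this]; nlinarith
  set ρ0 := RR lam ^ 2 - V ^ 2 with hρ0def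
  have hρ0 : 0 < ρ0 := by rw [hρ0def]; nlinarith
  set D := (1 + V ^ 2 / 4) * (2 * K ^ 2) / ρ0 with hD
  have hDpos : 0 < D := by positivity
  set C2 := 2 * (D * K + K * (1 + V / 2)) / ρ0 with hC2
  have hVpos : 0 < V := by linarith
  have hC2pos : 0 < C2 := by positivity
  refine ⟨K + C2, 2 * Real.sqrt (ρ0 / (1 + V / 2)), by positivity, by positivity, ?_⟩
  intro t y₁ z₁ y₂ z₂ ht hy₁ hz₁ hy₂ hz₂ hk1 hk2
  have ht2 : t ^ 2 ≤ V ^ 2 := by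
    rw [← sq_abs t]
    exact pow_le_pow_left₀ (abs_nonneg _) ht 2
  set ρ := RR lam ^ 2 - t ^ 2 with hρdef
  have hρ : ρ0 ≤ ρ := by rw [hρdef, hρ0def]; linarith
  have h1 : y₁ ^ 2 + z₁ ^ 2 - t * y₁ * z₁ = ρ := by
    unfold kap at hk1
    simp only at hk1
    rw [hρdef, hR2]
    linear_combination hk1
  have h2 : y₂ ^ 2 + z₂ ^ 2 - t * y₂ * z₂ = ρ := by
    unfold kap at hk2
    simp only at hk2
    rw [hρdef, hR2]
    linear_combination hk2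
  refine ⟨?_, ?_, ?_⟩
  · have e1 : y₁ * z₂ - y₂ * z₁ = z₁ * (y₁ - y₂) - y₁ * (z₁ - z₂) := by ring
    rw [e1]
    have e2 := abs_sub (z₁ * (y₁ - y₂)) (y₁ * (z₁ - z₂))
    rw [abs_mul, abs_mul] at e2
    have e3 : |z₁| * |y₁ - y₂| ≤ K * |y₁ - y₂| := mul_le_mul_of_nonneg_right hz₁ (abs_nonneg _)
    have e4 : |y₁| * |z₁ - z₂| ≤ K * |z₁ - z₂| := mul_le_mul_of_nonneg_right hy₁ (abs_nonneg _)
    have e5 : 0 ≤ C2 * (|y₁ - y₂| + |z₁ - z₂|) := by positivity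
    linarith
  · rcases le_or_gt 0 (y₁ * y₂ + z₁ * z₂ - t / 2 * (y₁ * z₂ + y₂ * z₁)) with hB | hB
    · left
      have e1 := nreal_key ρ0 V K t y₁ z₁ y₂ z₂ ρ D _ _ hρ0 hρ ht hKpos.le hy₁ hz₁ hy₂ hz₂ h1 h2
        rfl rfl hB hD
      have e2 : 0 ≤ K * |y₁ * z₂ - y₂ * z₁| := by positivity
      rw [← hC2] at e1
      linarith
    · right
      have e1 := nreal_key ρ0 V K t y₁ z₁ (-y₂) (-z₂) ρ D _ _ hρ0 hρ ht hKpos.le hy₁ hz₁
        (by rwa [abs_neg]) (by rwa [abs_neg]) h1 (by rw [← h2]; ring)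
        rfl rfl (by nlinarith) hD
      rw [← hC2, sub_neg_eq_add, sub_neg_eq_add,
        show y₁ * -z₂ - -y₂ * z₁ = -(y₁ * z₂ - y₂ * z₁) by ring, abs_neg] at e1
      have e2 : 0 ≤ K * |y₁ * z₂ - y₂ * z₁| := by positivity
      linarith
  · have e1 : 2 * |y₁| ≤ |y₁ - y₂| + |y₁ + y₂| := by
      have e := abs_add_le (y₁ - y₂) (y₁ + y₂)
      rw [show y₁ - y₂ + (y₁ + y₂) = 2 * y₁ by ring, abs_mul, abs_two] at e
      exact e
    have e2 : 2 * |z₁| ≤ |z₁ - z₂| + |z₁ + z₂| := by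
      have e := abs_add_le (z₁ - z₂) (z₁ + z₂)
      rw [show z₁ - z₂ + (z₁ + z₂) = 2 * z₁ by ring, abs_mul, abs_two] at e
      exact e
    have e3 : Real.sqrt (ρ0 / (1 + V / 2)) ≤ |y₁| + |z₁| := by
      rw [Real.sqrt_le_left (by positivity), div_le_iff₀ (by positivity)]
      have e4 : -(t * y₁ * z₁) ≤ V * (|y₁| * |z₁|) := by
        have e5 := neg_abs_le (t * y₁ * z₁)
        rw [abs_mul, abs_mul] at e5
        have e6 : |t| * |y₁| * |z₁| ≤ V * (|y₁| * |z₁|) := by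
          rw [mul_assoc]
          exact mul_le_mul_of_nonneg_right ht (by positivity)
        linarith
      have e7 : y₁ ^ 2 = |y₁| ^ 2 := (sq_abs _).symm
      have e8 : z₁ ^ 2 = |z₁| ^ 2 := (sq_abs _).symm
      nlinarith [abs_nonneg y₁, abs_nonneg z₁, mul_nonneg (abs_nonneg y₁) (abs_nonneg z₁),
        mul_nonneg hVpos.le (sq_nonneg (|y₁|)), mul_nonneg hVpos.le (sq_nonneg (|z₁|))]
    linarith

end Sturm
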