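import Pool.Agent.Lib.MP_e5ebf6_mp.NZero
import Pool.Agent.Lib.MP_e5ebf6_mp.NReal
import Pool.Agent.Lib.MP_e5ebf6_mp.Harnack
import Pool.Agent.Lib.MP_e5ebf6_mp.PassLip

/-! Module Holder: universal Hölder estimate between passages. -/

open Complex Metric Set
noncomputable section
namespace Sturm

private theorem rpow_le_one_add {x e : ℝ} (hx : 0 ≤ x) (he0 : 0 ≤ e) (he1 : e ≤ 1) :
    x ^ e ≤ 1 + x := by
  rcases le_total x 1 with h | h
  · have := Real.rpow_le_one hx h he0
    linarith
  · have := Real.rpow_le_rpow_of_exponent_le h he1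
    rw [Real.rpow_one] at this
    linarith

private theorem holder_abs (c C1 C2 K e B : ℝ) (t t' : ℝ) (N del dels : ℝ → ℝ) (hc : 0 < c)
    (hC1 : 0 < C1) (hC2 : 0 ≤ C2) (hK : 0 ≤ K) (he0 : 0 ≤ e) (he1 : e ≤ 1)
    (hdc : ContinuousOn del (uIcc t t')) (hdsc : ContinuousOn dels (uIcc t t'))
    (hd0 : ∀ s ∈ uIcc t t', 0 ≤ del s)
    (hdK : ∀ s ∈ uIcc t t', del s ≤ K)
    (hor : ∀ s ∈ uIcc t t', del s ≤ C1 * |N s| ∨ dels s ≤ C1 * |N s|)
    (hsum : ∀ s ∈ uIcc t t', c ≤ del s + dels s)
    (hB : ∀ s ∈ uIcc t t', |N s| ≤ B) (hBd : B ≤ C2 * del t ^ e) :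
    del t' ≤ (K / min (c / 2) 1 + 2 * K * C1 * C2 / c + C1 * C2) * del t ^ e := by
  have htm : t ∈ uIcc t t' := left_mem_uIcc
  have htm' : t' ∈ uIcc t t' := right_mem_uIcc
  set m := min (c / 2) 1 with hm
  have hm0 : 0 < m := lt_min (by linarith) one_pos
  have hm1 : m ≤ 1 := min_le_right _ _
  have hmc : m ≤ c / 2 := min_le_left _ _
  have hp : 0 ≤ del t ^ e := Real.rpow_nonneg (hd0 t htm) e
  have t1 : 0 ≤ K / m := by positivity
  have t2 : 0 ≤ 2 * K * C1 * C2 / c := by positivity
  have t3 : 0 ≤ C1 * C2 := by positivity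
  have hdt := hdK t' htm'
  rcases le_or_gt (c / 2) (del t) with h1 | h1
  · -- B1
    have hme : m ≤ del t ^ e := by
      calc m = m ^ (1 : ℝ) := (Real.rpow_one m).symm
        _ ≤ m ^ e := Real.rpow_le_rpow_of_exponent_ge hm0 hm1 he1
        _ ≤ del t ^ e := Real.rpow_le_rpow hm0.le (by linarith) he0
    have h2 : K ≤ K / m * del t ^ e := by
      calc K = K / m * m := by field_simp
        _ ≤ K / m * del t ^ e := mul_le_mul_of_nonneg_left hme t1
    calc del t' ≤ K / m * del t ^ e := hdt.trans h2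
      _ ≤ (K / m + 2 * K * C1 * C2 / c + C1 * C2) * del t ^ e := by
        apply mul_le_mul_of_nonneg_right _ hp
        linarith
  rcases le_or_gt (c / 2) (C1 * B) with h2 | h2
  · -- B2
    have h3 : c / 2 ≤ C1 * C2 * del t ^ e := by
      calc c / 2 ≤ C1 * B := h2
        _ ≤ C1 * (C2 * del t ^ e) := mul_le_mul_of_nonneg_left hBd hC1.le
        _ = C1 * C2 * del t ^ e := by ring
    have h4 : K ≤ 2 * K * C1 * C2 / c * del t ^ e := by
      calc K = 2 * K / c * (c / 2) := by field_simp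
        _ ≤ 2 * K / c * (C1 * C2 * del t ^ e) :=
            mul_le_mul_of_nonneg_left h3 (by positivity)
        _ = 2 * K * C1 * C2 / c * del t ^ e := by ring
    calc del t' ≤ 2 * K * C1 * C2 / c * del t ^ e := hdt.trans h4
      _ ≤ (K / m + 2 * K * C1 * C2 / c + C1 * C2) * del t ^ e := by
        apply mul_le_mul_of_nonneg_right _ hp
        linarith
  · -- B3
    have hN : ∀ s ∈ uIcc t t', C1 * |N s| < c / 2 := fun s hs =>
      lt_of_le_of_lt (mul_le_mul_of_nonneg_left (hB s hs) hC1.le) h2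
    have hne : ∀ s ∈ uIcc t t', del s - dels s ≠ 0 := by
      intro s hs h0
      have a1 := hN s hs
      have a2 := hsum s hs
      rcases hor s hs with a3 | a3 <;> linarith
    have hneg : del t - dels t < 0 := by
      have a2 := hsum t htm
      linarith
    have hneg' : del t' - dels t' < 0 := by
      by_contra hcon
      have hpos : 0 ≤ del t' - dels t' := not_lt.1 hcon
      have hiv := intermediate_value_uIcc (hdc.sub hdsc)
      have h0 : (0 : ℝ) ∈ uIcc (del t - dels t) (del t' - dels t') := by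
        rw [mem_uIcc]
        left
        exact ⟨hneg.le, hpos⟩
      obtain ⟨s, hs, h3⟩ := hiv h0
      exact hne s hs h3
    have h5 : del t' ≤ C1 * |N t'| := by
      rcases hor t' htm' with a3 | a3
      · exact a3
      · exfalso
        have a1 := hN t' htm'
        have a2 := hsum t' htm'
        linarith
    calc del t' ≤ C1 * |N t'| := h5
      _ ≤ C1 * B := mul_le_mul_of_nonneg_left (hB t' htm') hC1.le
      _ ≤ C1 * (C2 * del t ^ e) := mul_le_mul_of_nonneg_left hBd hC1.le
      _ = C1 * C2 * del t ^ e := by ring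
      _ ≤ (K / m + 2 * K * C1 * C2 / c + C1 * C2) * del t ^ e := by
        apply mul_le_mul_of_nonneg_right _ hp
        linarith

theorem holder {lam : ℝ} (hlam : 0 < lam) :
    ∃ C : ℝ, 1 ≤ C ∧ ∀ (l : List ℕ), Pos l → ∀ g₁ g₂ : ℂ → ℂ, Passage lam l g₁ →
      Passage lam l g₂ → ∀ t t' : ℝ, |t| ≤ vr lam → |t'| ≤ vr lam →
        |t - t'| ≤ (RR lam - vr lam) / 2 →
        qd lam l g₁ g₂ t' ≤
          C * qd lam l g₁ g₂ t ^ (1 - 2 / (RR lam - vr lam) * |t - t'|) := by
  obtain ⟨C1, c, hC1, hc, hnr⟩ := nreal_bounds hlam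
  have hR2 := two_lt_RR hlam
  have hvR : vr lam < RR lam := by
    unfold vr
    linarith
  have hK0 : 0 < K0 lam := by
    unfold K0
    positivity
  set r := RR lam - vr lam with hr
  have hr0 : 0 < r := by rw [hr]; linarith
  set M := 2 * K0 lam ^ 2 with hM
  have hM0 : 0 < M := by positivity
  set K := 4 * K0 lam with hK
  have hKpos : 0 < K := by positivity
  set C2 := M + C1 with hC2
  have hC20 : 0 < C2 := by positivity
  have hm0 : 0 < min (c / 2) 1 := lt_min (by linarith) one_pos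
  have hcst : 0 ≤ K / min (c / 2) 1 + 2 * K * C1 * C2 / c + C1 * C2 := by positivity
  refine ⟨1 + (K / min (c / 2) 1 + 2 * K * C1 * C2 / c + C1 * C2), by linarith, ?_⟩
  intro l hl g₁ g₂ h₁ h₂ t t' ht ht' htt
  -- the segment
  have hseg : ∀ s ∈ uIcc t t', |s| ≤ vr lam ∧ |s - t| ≤ |t - t'| := by
    intro s hs
    have hsub : uIcc t t' ⊆ Icc (-(vr lam)) (vr lam) :=
      (ordConnected_Icc).uIcc_subset (abs_le.1 ht) (abs_le.1 ht')
    refine ⟨abs_le.2 (hsub hs), ?_⟩
    rcases mem_uIcc.1 hs with h | h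
    · rw [abs_of_nonneg (by linarith), abs_sub_comm t t', abs_of_nonneg (by linarith)]
      linarith
    · rw [abs_sub_comm s t, abs_of_nonneg (by linarith), abs_of_nonneg (by linarith)]
      linarith
  have hsegR : ∀ s ∈ uIcc t t', |s| < RR lam := fun s hs => lt_of_le_of_lt (hseg s hs).1 hvR
  set y₁ : ℝ → ℝ := fun s => (str lam l (gr g₁ s)).2.1 with hy1
  set z₁ : ℝ → ℝ := fun s => (str lam l (gr g₁ s)).2.2 with hz1
  set y₂ : ℝ → ℝ := fun s => (str lam l (gr g₂ s)).2.1 with hy2
  set z₂ : ℝ → ℝ := fun s => (str lam l (gr g₂ s)).2.2 with hz2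
  set del : ℝ → ℝ := fun s => |y₁ s - y₂ s| + |z₁ s - z₂ s| with hdel
  set dels : ℝ → ℝ := fun s => |y₁ s + y₂ s| + |z₁ s + z₂ s| with hdels
  have hqd : ∀ s ∈ uIcc t t', qd lam l g₁ g₂ s = del s := by
    intro s hs
    have a1 := (passage_bound hlam l hl h₁ (hsegR s hs)).1
    have a2 := (passage_bound hlam l hl h₂ (hsegR s hs)).1
    simp only [qd, sd, a1, a2, sub_self, abs_zero, zero_add]
    rfl
  have hsubI : uIcc t t' ⊆ Ioo (-(RR lam)) (RR lam) := fun s hs => abs_lt.1 (hsegR s hs)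
  have hstc : ∀ g : ℂ → ℂ, Passage lam l g →
      ContinuousOn (fun s => str lam l (gr g s)) (uIcc t t') := by
    intro g hg
    exact (differentiable_str lam l).continuous.comp_continuousOn
      ((continuousOn_gr hlam l hl hg).mono hsubI)
  have cy1 : ContinuousOn y₁ (uIcc t t') := continuous_fst.comp_continuousOn
    (continuous_snd.comp_continuousOn (hstc g₁ h₁))
  have cz1 : ContinuousOn z₁ (uIcc t t') := continuous_snd.comp_continuousOn
    (continuous_snd.comp_continuousOn (hstc g₁ h₁))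
  have cy2 : ContinuousOn y₂ (uIcc t t') := continuous_fst.comp_continuousOn
    (continuous_snd.comp_continuousOn (hstc g₂ h₂))
  have cz2 : ContinuousOn z₂ (uIcc t t') := continuous_snd.comp_continuousOn
    (continuous_snd.comp_continuousOn (hstc g₂ h₂))
  have hdc : ContinuousOn del (uIcc t t') := (cy1.sub cy2).abs.add (cz1.sub cz2).abs
  have hdsc : ContinuousOn dels (uIcc t t') := (cy1.add cy2).abs.add (cz1.add cz2).abs
  set N : ℝ → ℝ := fun s => y₁ s * z₂ s - y₂ s * z₁ s with hN
  have hbd : ∀ s ∈ uIcc t t', |y₁ s| ≤ K0 lam ∧ |z₁ s| ≤ K0 lam ∧ |y₂ s| ≤ K0 lam ∧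
      |z₂ s| ≤ K0 lam := by
    intro s hs
    have a1 := (passage_bound hlam l hl h₁ (hsegR s hs)).2
    have a2 := (passage_bound hlam l hl h₂ (hsegR s hs)).2
    exact ⟨a1.1, a1.2, a2.1, a2.2⟩
  have hnrs : ∀ s ∈ uIcc t t', |N s| ≤ C1 * del s ∧ (del s ≤ C1 * |N s| ∨ dels s ≤ C1 * |N s|) ∧
      c ≤ del s + dels s := by
    intro s hs
    obtain ⟨b1, b2, b3, b4⟩ := hbd s hs
    have k1 : kap ((s, y₁ s, z₁ s) : St ℝ) = 4 + lam ^ 2 := by
      have e1 : ((s, y₁ s, z₁ s) : St ℝ) = str lam l (gr g₁ s) := by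
        have a1 := (passage_bound hlam l hl h₁ (hsegR s hs)).1
        exact Prod.ext a1.symm rfl
      rw [e1]
      exact kap_str lam l _
    have k2 : kap ((s, y₂ s, z₂ s) : St ℝ) = 4 + lam ^ 2 := by
      have e1 : ((s, y₂ s, z₂ s) : St ℝ) = str lam l (gr g₂ s) := by
        have a1 := (passage_bound hlam l hl h₂ (hsegR s hs)).1
        exact Prod.ext a1.symm rfl
      rw [e1]
      exact kap_str lam l _
    exact hnr s (y₁ s) (z₁ s) (y₂ s) (z₂ s) (hseg s hs).1 b1 b2 b3 b4 k1 k2
  have hNf : ∀ s ∈ uIcc t t', Nf lam l g₁ g₂ (s : ℂ) = ((N s : ℝ) : ℂ) := by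
    intro s hs
    have a1 := (passage_ofReal l h₁ (hsegR s hs)).1
    have a2 := (passage_ofReal l h₂ (hsegR s hs)).1
    simp only [Nf, a1, a2, st_ofReal, hN, hy1, hz1, hy2, hz2]
    push_cast
    ring
  have htm : t ∈ uIcc t t' := left_mem_uIcc
  have htm' : t' ∈ uIcc t t' := right_mem_uIcc
  set e := 1 - 2 / r * |t - t'| with he
  have hrr : 2 / r * |t - t'| ≤ 1 := by
    calc 2 / r * |t - t'| ≤ 2 / r * (r / 2) :=
          mul_le_mul_of_nonneg_left htt (by positivity)
      _ = 1 := by field_simp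
  have he0 : 0 ≤ e := by rw [he]; linarith
  have he1 : e ≤ 1 := by
    rw [he]
    have : 0 ≤ 2 / r * |t - t'| := by positivity
    linarith
  have hdn : ∀ s ∈ uIcc t t', 0 ≤ del s := fun s _ => by
    simp only [hdel]
    positivity
  have hdK : ∀ s ∈ uIcc t t', del s ≤ K := by
    intro s hs
    obtain ⟨b1, b2, b3, b4⟩ := hbd s hs
    have c1 := abs_sub (y₁ s) (y₂ s)
    have c2 := abs_sub (z₁ s) (z₂ s)
    simp only [hdel, hK]
    linarith
  have hball : ∀ s ∈ uIcc t t', ((s : ℝ) : ℂ) ∈ ball (0 : ℂ) (RR lam) := by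
    intro s hs
    rw [mem_ball_zero_iff, Complex.norm_real, Real.norm_eq_abs]
    exact hsegR s hs
  -- bound for the determinant
  have hBex : ∃ B : ℝ, (∀ s ∈ uIcc t t', |N s| ≤ B) ∧ B ≤ C2 * del t ^ e := by
    by_cases hz : ∃ w0 ∈ ball (0 : ℂ) (RR lam), Nf lam l g₁ g₂ w0 = 0
    · obtain ⟨w0, hw0, hz0⟩ := hz
      refine ⟨0, ?_, mul_nonneg hC20.le (Real.rpow_nonneg (hdn t htm) e)⟩
      intro s hs
      have h0 := Nf_zero hlam l hl h₁ h₂ hw0 hz0 (s : ℂ) (hball s hs)
      rw [hNf s hs] at h0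
      have h1 : N s = 0 := by exact_mod_cast h0
      rw [h1, abs_zero]
    · push Not at hz
      have hsubball : ball (t : ℂ) r ⊆ ball (0 : ℂ) (RR lam) := by
        intro w hw
        rw [mem_ball_zero_iff]
        rw [mem_ball, dist_eq_norm] at hw
        have h1 : ‖(t : ℂ)‖ ≤ vr lam := by
          rw [Complex.norm_real, Real.norm_eq_abs]
          exact ht
        calc ‖w‖ = ‖(w - t) + t‖ := by rw [sub_add_cancel]
          _ ≤ ‖w - t‖ + ‖(t : ℂ)‖ := norm_add_le _ _
          _ < r + vr lam := by linarith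
          _ = RR lam := by rw [hr]; ring
      have hNt : ‖Nf lam l g₁ g₂ (t : ℂ)‖ = |N t| := by
        rw [hNf t htm, Complex.norm_real, Real.norm_eq_abs]
      have hNtM : |N t| ≤ M := by
        rw [← hNt]
        exact Nf_bound hlam l hl h₁ h₂ (hball t htm)
      have hx0 : 0 ≤ |N t| / M := by positivity
      have hx1 : |N t| / M ≤ 1 := by
        rw [div_le_one hM0]
        exact hNtM
      have hxpos : 0 < |N t| / M := by
        have h1 : Nf lam l g₁ g₂ (t : ℂ) ≠ 0 := hz _ (hball t htm)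
        have h2 : 0 < |N t| := by
          rw [← hNt]
          exact norm_pos_iff.2 h1
        positivity
      refine ⟨M * (|N t| / M) ^ e, ?_, ?_⟩
      · intro s hs
        have hst : ‖(s : ℂ) - t‖ = |s - t| := by
          rw [← Complex.ofReal_sub, Complex.norm_real, Real.norm_eq_abs]
        have hstr : |s - t| ≤ r / 2 := (hseg s hs).2.trans htt
        have hw : (s : ℂ) ∈ ball (t : ℂ) r := by
          rw [mem_ball, dist_eq_norm, hst]
          linarith
        have hh := harnack_nonvanishing (F := Nf lam l g₁ g₂) (c := (t : ℂ)) (r := r) (M := M)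
          hr0 hM0 ((Nf_diff l h₁ h₂).mono hsubball) (fun w hw => hz w (hsubball hw))
          (fun w hw => Nf_bound hlam l hl h₁ h₂ (hsubball hw)) hw
        rw [hNt, hNf s hs, Complex.norm_real, Real.norm_eq_abs, hst] at hh
        refine hh.trans (mul_le_mul_of_nonneg_left ?_ hM0.le)
        apply Real.rpow_le_rpow_of_exponent_ge hxpos hx1
        have hρ0 : 0 ≤ |s - t| := abs_nonneg _
        have hρ1 := (hseg s hs).2
        rw [le_div_iff₀ (by linarith)]
        have h1 : 2 / r * |s - t| ≤ 2 / r * |t - t'| :=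
          mul_le_mul_of_nonneg_left hρ1 (by positivity)
        have h2 : e * (r + |s - t|) ≤ (1 - 2 / r * |s - t|) * (r + |s - t|) := by
          apply mul_le_mul_of_nonneg_right _ (by linarith)
          rw [he]
          linarith
        have h3 : (1 - 2 / r * |s - t|) * (r + |s - t|) =
            r - |s - t| - 2 / r * |s - t| ^ 2 := by
          field_simp
          ring
        have h4 : 0 ≤ 2 / r * |s - t| ^ 2 := by positivity
        linarith
      · have hNd := (hnrs t htm).1
        have hd := hdn t htm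
        calc M * (|N t| / M) ^ e ≤ M * (C1 * del t / M) ^ e := by
              apply mul_le_mul_of_nonneg_left _ hM0.le
              apply Real.rpow_le_rpow hx0 _ he0
              exact div_le_div_of_nonneg_right hNd hM0.le
          _ = M * ((C1 / M) ^ e * del t ^ e) := by
              rw [← Real.mul_rpow (by positivity) hd]
              congr 2
              ring
          _ ≤ M * ((1 + C1 / M) * del t ^ e) := by
              apply mul_le_mul_of_nonneg_left _ hM0.le
              apply mul_le_mul_of_nonneg_right _ (Real.rpow_nonneg hd e)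
              exact rpow_le_one_add (by positivity) he0 he1
          _ = C2 * del t ^ e := by
              rw [hC2]
              field_simp
  obtain ⟨B, hB, hBd⟩ := hBex
  have hmain := holder_abs c C1 C2 K e B t t' N del dels hc hC1 hC20.le hKpos.le he0 he1 hdc hdsc
    hdn hdK (fun s hs => (hnrs s hs).2.1) (fun s hs => (hnrs s hs).2.2) hB hBd
  rw [hqd t htm, hqd t' htm']
  refine hmain.trans ?_
  apply mul_le_mul_of_nonneg_right _ (Real.rpow_nonneg (hdn t htm) e)
  linarith

end Sturm
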