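import Mathlib

/-! Module IterAbs: iteration of local Hölder estimates (pure real analysis). -/

open Set
noncomputable section
namespace Sturm

private theorem iter_aux {C s : ℝ} (hC : 1 ≤ C) (hs0 : 0 < s) (hs1 : s ≤ 1) {δ : ℝ} {Q : ℕ → ℝ}
    (h0 : ∀ i, 0 ≤ Q i) {N : ℕ} (hstep : ∀ i, i < N → Q i ≤ δ → Q (i + 1) ≤ C * Q i ^ s) :
    ∀ i, i ≤ N → (Q i ≤ C ^ i * Q 0 ^ (s ^ i)) ∨
      ∃ j, j ≤ N ∧ Q j ≤ C ^ j * Q 0 ^ (s ^ j) ∧ δ < Q j := by
  intro i
  induction i with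
  | zero =>
    intro _
    left
    simp
  | succ i ih =>
    intro hi
    rcases ih (by omega) with h1 | h1
    · rcases le_or_gt (Q i) δ with h2 | h2
      · left
        have hCi : 1 ≤ C ^ i := one_le_pow₀ hC
        have hq0 : 0 ≤ Q 0 ^ (s ^ i) := Real.rpow_nonneg (h0 0) _
        calc Q (i + 1) ≤ C * Q i ^ s := hstep i (by omega) h2
          _ ≤ C * (C ^ i * Q 0 ^ (s ^ i)) ^ s := by
              apply mul_le_mul_of_nonneg_left _ (by linarith)
              exact Real.rpow_le_rpow (h0 i) h1 hs0.le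
          _ = C * ((C ^ i) ^ s * Q 0 ^ (s ^ (i + 1))) := by
              rw [Real.mul_rpow (by linarith) hq0, ← Real.rpow_mul (h0 0), pow_succ s i]
          _ ≤ C * (C ^ i * Q 0 ^ (s ^ (i + 1))) := by
              apply mul_le_mul_of_nonneg_left _ (by linarith)
              apply mul_le_mul_of_nonneg_right _ (Real.rpow_nonneg (h0 0) _)
              calc (C ^ i) ^ s ≤ (C ^ i) ^ (1 : ℝ) :=
                    Real.rpow_le_rpow_of_exponent_le hCi hs1
                _ = C ^ i := Real.rpow_one _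
          _ = C ^ (i + 1) * Q 0 ^ (s ^ (i + 1)) := by ring
      · right
        exact ⟨i, by omega, h1, h2⟩
    · right
      exact h1

theorem iter_abs (C δ0 h a B : ℝ) (hC : 1 ≤ C) (hδ : 0 < δ0) (hh : 0 < h) (ha : 0 ≤ a)
    (ha4 : 4 * a ≤ 1 / 2) (hB : 1 ≤ B) :
    ∃ C' : ℝ, 1 ≤ C' ∧ ∀ (u v : ℝ) (q : ℝ → ℝ), -2 ≤ u → u ≤ v → v ≤ 2 →
      (∀ t ∈ Icc u v, 0 ≤ q t ∧ q t ≤ B) →
      (∀ t ∈ Icc u v, ∀ t' ∈ Icc u v, |t' - t| ≤ h → q t ≤ δ0 →
        q t' ≤ C * q t ^ (1 - a * |t' - t|)) →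
      ∀ t ∈ Icc u v, ∀ t' ∈ Icc u v, q t' ≤ C' * q t ^ (1 - 4 * a) := by
  obtain ⟨N, hN⟩ := exists_nat_gt (4 / h)
  have hNpos : (0 : ℝ) < N := lt_of_le_of_lt (by positivity) hN
  have hN1 : (1 : ℝ) ≤ N := by
    have : 0 < N := by exact_mod_cast hNpos
    exact_mod_cast this
  set δ : ℝ := min δ0 1 with hδdef
  have hδpos : 0 < δ := lt_min hδ one_pos
  have hδ1 : δ ≤ 1 := min_le_right _ _
  have hCN : 1 ≤ C ^ N := one_le_pow₀ hC
  have hBδ : 1 ≤ B / δ := by
    rw [le_div_iff₀ hδpos]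
    linarith
  have hK : 1 ≤ B / δ * C ^ N := by nlinarith
  refine ⟨B / δ * C ^ N, hK, ?_⟩
  intro u v q hu huv hv hq hstep t ht t' ht'
  have hB0 : 0 ≤ B / δ := by linarith
  -- case q t > 1
  have hexp0 : 0 ≤ 1 - 4 * a := by linarith
  rcases lt_or_ge 1 (q t) with hq1 | hq1
  · have h1 : 1 ≤ q t ^ (1 - 4 * a) := Real.one_le_rpow hq1.le hexp0
    have h2 : q t' ≤ B := (hq t' ht').2
    have h3 : B ≤ B / δ * C ^ N := by
      have : B ≤ B / δ := by
        rw [le_div_iff₀ hδpos]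
        nlinarith
      nlinarith
    calc q t' ≤ B / δ * C ^ N := h2.trans h3
      _ ≤ B / δ * C ^ N * q t ^ (1 - 4 * a) := le_mul_of_one_le_right (by linarith) h1
  -- the chain
  have hpt : ∀ i : ℕ, i ≤ N → t + i * ((t' - t) / N) ∈ Icc u v := by
    intro i hi
    have hi' : (i : ℝ) / N ≤ 1 := by
      rw [div_le_one hNpos]
      exact_mod_cast hi
    have hi0 : 0 ≤ (i : ℝ) / N := by positivity
    have e : t + i * ((t' - t) / N) = (1 - (i : ℝ) / N) * t + ((i : ℝ) / N) * t' := by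
      field_simp
      ring
    rw [e]
    exact (convex_Icc u v) ht ht' (by linarith) hi0 (by ring)
  set d : ℝ := |t' - t| / N with hd
  have hdd : |t' - t| ≤ 4 := by
    rw [abs_le]
    constructor <;> linarith [ht.1, ht.2, ht'.1, ht'.2]
  have hd0 : 0 ≤ d := by positivity
  have hdh : d ≤ h := by
    rw [hd, div_le_iff₀ hNpos]
    have : 4 < N * h := by
      rwa [div_lt_iff₀ hh] at hN
    linarith
  have had : a * d ≤ 1 / 2 := by
    have hd4 : d ≤ 4 := by
      rw [hd, div_le_iff₀ hNpos]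
      nlinarith
    nlinarith
  set s : ℝ := 1 - a * d with hs
  have hs0 : 0 < s := by rw [hs]; linarith
  have hs1 : s ≤ 1 := by
    rw [hs]
    have : 0 ≤ a * d := mul_nonneg ha hd0
    linarith
  set Q : ℕ → ℝ := fun i => if i ≤ N then q (t + i * ((t' - t) / N)) else 0 with hQ
  have hQ0 : Q 0 = q t := by simp [hQ]
  have hQN : Q N = q t' := by
    simp only [hQ, le_refl, if_true]
    congr 1
    field_simp
    ring
  have hQnn : ∀ i, 0 ≤ Q i := by
    intro i
    simp only [hQ]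
    split_ifs with hi
    · exact (hq _ (hpt i hi)).1
    · exact le_refl _
  have hmain := iter_aux hC hs0 hs1 (δ := δ) (Q := Q) hQnn (N := N) (by
    intro i hi hle
    have hi1 : i ≤ N := by omega
    have hi2 : i + 1 ≤ N := by omega
    simp only [hQ, hi1, hi2, if_true] at hle ⊢
    have hdiff : |(t + ((i + 1 : ℕ) : ℝ) * ((t' - t) / N)) - (t + i * ((t' - t) / N))| = d := by
      have e : (t + ((i + 1 : ℕ) : ℝ) * ((t' - t) / N)) - (t + i * ((t' - t) / N)) =
          (t' - t) / N := by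
        push_cast
        ring
      rw [e, abs_div, hd, abs_of_pos hNpos]
    have := hstep _ (hpt i hi1) _ (hpt (i + 1) hi2) (by rw [hdiff]; exact hdh)
      (hle.trans (min_le_left _ _))
    rw [hdiff] at this
    exact this)
  have hpow : ∀ i : ℕ, i ≤ N → 1 - 4 * a ≤ s ^ i := by
    intro i hi
    have hb : 1 + (i : ℝ) * (-(a * d)) ≤ (1 + (-(a * d))) ^ i :=
      one_add_mul_le_pow (by linarith) i
    have e1 : (1 + (-(a * d))) = s := by rw [hs]; ring
    rw [e1] at hb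
    refine le_trans ?_ hb
    have hi' : (i : ℝ) ≤ N := by exact_mod_cast hi
    have : (i : ℝ) * (a * d) ≤ 4 * a := by
      calc (i : ℝ) * (a * d) ≤ N * (a * d) :=
            mul_le_mul_of_nonneg_right hi' (mul_nonneg ha hd0)
        _ = a * |t' - t| := by
            rw [hd]
            field_simp
        _ ≤ a * 4 := mul_le_mul_of_nonneg_left hdd ha
        _ = 4 * a := by ring
    linarith
  have hbound : ∀ i : ℕ, i ≤ N → C ^ i * Q 0 ^ (s ^ i) ≤ C ^ N * q t ^ (1 - 4 * a) := by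
    intro i hi
    rw [hQ0]
    apply mul_le_mul
    · exact pow_le_pow_right₀ hC hi
    · exact Real.rpow_le_rpow_of_exponent_ge' (hq t ht).1 hq1 hexp0 (hpow i hi)
    · exact Real.rpow_nonneg (hq t ht).1 _
    · linarith
  have hX : 0 ≤ C ^ N * q t ^ (1 - 4 * a) :=
    mul_nonneg (by linarith) (Real.rpow_nonneg (hq t ht).1 _)
  rcases hmain N le_rfl with h1 | ⟨j, hj, h1, h2⟩
  · rw [hQN] at h1
    calc q t' ≤ C ^ N * q t ^ (1 - 4 * a) := h1.trans (hbound N le_rfl)
      _ ≤ B / δ * (C ^ N * q t ^ (1 - 4 * a)) := le_mul_of_one_le_left hX hBδ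
      _ = B / δ * C ^ N * q t ^ (1 - 4 * a) := by ring
  · have h3 : δ ≤ C ^ N * q t ^ (1 - 4 * a) := (h2.le.trans h1).trans (hbound j hj)
    calc q t' ≤ B := (hq t' ht').2
      _ = B / δ * δ := by field_simp
      _ ≤ B / δ * (C ^ N * q t ^ (1 - 4 * a)) := mul_le_mul_of_nonneg_left h3 hB0
      _ = B / δ * C ^ N * q t ^ (1 - 4 * a) := by ring

end Sturm
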