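import Pool.Agent.Lib.MP_e5ebf6_mp.LocalStep
import Pool.Agent.Lib.MP_e5ebf6_mp.IterAbs

/-! Module HolderInf: holonomy along a passage is Hölder with exponent arbitrarily close to 1. -/

open Complex Metric Set
noncomputable section
namespace Sturm

theorem HolderInf_low {x B e e1 : ℝ} (hx : 0 ≤ x) (hxB : x ≤ B) (hB : 1 ≤ B) (he : 0 < e)
    (h1 : e ≤ e1) (h2 : e1 ≤ 1) : x ^ e1 ≤ B * x ^ e := by
  rcases hx.eq_or_lt with h0 | h0
  · rw [← h0, Real.zero_rpow (by linarith), Real.zero_rpow he.ne', mul_zero]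
  · have hp : 0 < x ^ e := Real.rpow_pos_of_pos h0 e
    rcases le_total x 1 with h3 | h3
    · have h4 := Real.rpow_le_rpow_of_exponent_ge h0 h3 h1
      nlinarith only [h4, hB, hp]
    · have h4 : x ^ e1 = x ^ (e1 - e) * x ^ e := by
        rw [← Real.rpow_add h0]
        congr 1
        ring
      have h5 : x ^ (e1 - e) ≤ x ^ (1 : ℝ) := Real.rpow_le_rpow_of_exponent_le h3 (by linarith)
      rw [Real.rpow_one] at h5
      rw [h4]
      exact mul_le_mul_of_nonneg_right (h5.trans hxB) hp.le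

theorem HolderInf_comp {x y z A A' e e' : ℝ} (hx : 0 ≤ x) (hy : 0 ≤ y) (hA : 1 ≤ A)
    (hA' : 1 ≤ A') (he' : 0 ≤ e') (he1 : e' ≤ 1) (h1 : y ≤ A * x ^ e) (h2 : z ≤ A' * y ^ e') :
    z ≤ A' * A * x ^ (e * e') := by
  have h3 : y ^ e' ≤ (A * x ^ e) ^ e' := Real.rpow_le_rpow hy h1 he'
  rw [Real.mul_rpow (by linarith) (Real.rpow_nonneg hx e), ← Real.rpow_mul hx] at h3
  have h4 : A ^ e' ≤ A := by
    have := Real.rpow_le_rpow_of_exponent_le hA he1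
    rwa [Real.rpow_one] at this
  have h5 : 0 ≤ x ^ (e * e') := Real.rpow_nonneg hx _
  calc z ≤ A' * y ^ e' := h2
    _ ≤ A' * (A ^ e' * x ^ (e * e')) := mul_le_mul_of_nonneg_left h3 (by linarith)
    _ ≤ A' * (A * x ^ (e * e')) :=
        mul_le_mul_of_nonneg_left (mul_le_mul_of_nonneg_right h4 h5) (by linarith)
    _ = A' * A * x ^ (e * e') := by ring

theorem HolderInf_qd {lam : ℝ} (hlam : 0 < lam) (l : List ℕ) (hl : Pos l) {g₁ g₂ : ℂ → ℂ}
    (h₁ : Passage lam l g₁) (h₂ : Passage lam l g₂) {t : ℝ} (ht : |t| ≤ 2) :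
    0 ≤ qd lam l g₁ g₂ t ∧ qd lam l g₁ g₂ t ≤ 1 + 4 * K0 lam := by
  have hR := two_lt_RR hlam
  have ht' : |t| < RR lam := by linarith
  obtain ⟨a1, a2, a3⟩ := passage_bound hlam l hl h₁ ht'
  obtain ⟨b1, b2, b3⟩ := passage_bound hlam l hl h₂ ht'
  unfold qd sd
  refine ⟨by (clear * -; positivity), ?_⟩
  rw [a1, b1, sub_self, abs_zero]
  have e1 := abs_sub (str lam l (gr g₁ t)).2.1 (str lam l (gr g₂ t)).2.1
  have e2 := abs_sub (str lam l (gr g₁ t)).2.2 (str lam l (gr g₂ t)).2.2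
  linarith

theorem HolderInf_clamp (v t : ℝ) (hv : 0 ≤ v) (hv2 : v ≤ 2) (ht : |t| ≤ 2) :
    ∃ tc : ℝ, tc ∈ Icc (-v) v ∧ |t - tc| ≤ 2 - v := by
  rw [abs_le] at ht
  rcases lt_or_ge t (-v) with h1 | h1
  · refine ⟨-v, ⟨le_rfl, by linarith⟩, ?_⟩
    rw [abs_le]
    constructor <;> linarith [ht.1]
  · rcases lt_or_ge v t with h2 | h2
    · refine ⟨v, ⟨by linarith, le_rfl⟩, ?_⟩
      rw [abs_le]
      constructor <;> linarith [ht.2]
    · refine ⟨t, ⟨h1, h2⟩, ?_⟩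
      rw [sub_self, abs_zero]
      linarith

theorem holder_inf {lam : ℝ} (hlam : 0 < lam) (b : ℕ → ℕ) (hb : ∀ k, 1 ≤ b k) (ε : ℝ)
    (hε : 0 < ε) (hε1 : ε < 1) :
    ∃ C : ℝ, 1 ≤ C ∧ ∃ M0 : ℕ, ∀ M : ℕ, M0 ≤ M →
      ∀ g₁ g₂ : ℂ → ℂ, Passage lam (lM b M) g₁ → Passage lam (lM b M) g₂ →
      ∀ t t' : ℝ, |t| ≤ 2 → |t'| ≤ 2 →
        qd lam (lM b M) g₁ g₂ t' ≤ C * qd lam (lM b M) g₁ g₂ t ^ (1 - ε) := by
  have hR := two_lt_RR hlam
  have hD : 0 < RR lam - vr lam := by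
    unfold vr
    linarith
  have hvr : 2 < vr lam := by
    unfold vr
    linarith
  have hK : 0 ≤ K0 lam := by
    unfold K0
    positivity
  obtain ⟨η, hη0, hη1, hη2⟩ : ∃ η : ℝ, 0 < η ∧ η ≤ 1 ∧ η ≤ (RR lam - vr lam) * ε / 64 :=
    ⟨min 1 ((RR lam - vr lam) * ε / 64), by positivity, min_le_left _ _, min_le_right _ _⟩
  obtain ⟨κ, hκ0, hκ1, hκ2⟩ : ∃ κ : ℝ, 0 < κ ∧ κ ≤ 1 ∧ κ ≤ (RR lam - vr lam) * ε / 8 :=
    ⟨min 1 ((RR lam - vr lam) * ε / 8), by positivity, min_le_left _ _, min_le_right _ _⟩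
  obtain ⟨C, δ0, h, hC, hδ0, hh, M0, hstep⟩ :=
    local_step hlam b hb η hη0 hη1 (4 - (2 - κ) ^ 2) (by nlinarith only [hε, hε1, hκ0, hκ1])
  have ha0 : 0 ≤ 4 / (RR lam - vr lam) * η := by positivity
  have ha1 : 4 * (4 / (RR lam - vr lam) * η) ≤ ε / 4 := by
    have h1 : 4 * (4 / (RR lam - vr lam) * η) = 16 * η / (RR lam - vr lam) := by ring
    rw [h1, div_le_iff₀ hD]
    nlinarith only [hη2]
  obtain ⟨C', hC', hiter⟩ := iter_abs C δ0 h (4 / (RR lam - vr lam) * η) (1 + 4 * K0 lam) hC hδ0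
    hh ha0 (by linarith) (by linarith)
  obtain ⟨C3, hC3, hhol⟩ := holder hlam
  have hB : 1 ≤ 1 + 4 * K0 lam := by linarith
  generalize hBdef : 1 + 4 * K0 lam = B at hB hiter
  have hA : 1 ≤ C3 * B := by nlinarith only [hBdef, hC3, hK, hε, hε1]
  have hA2 : 1 ≤ C' * B := by nlinarith only [hBdef, hC', hK, hε, hε1]
  have hκ3 : 2 / (RR lam - vr lam) * κ ≤ ε / 4 := by
    have h1 : 2 / (RR lam - vr lam) * κ = 2 * κ / (RR lam - vr lam) := by ring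
    rw [h1, div_le_iff₀ hD]
    nlinarith only [hκ2]
  have hκ4 : κ ≤ (RR lam - vr lam) / 2 := by nlinarith only [hD, hε1, hη0, hη2, hκ2]
  refine ⟨C3 * B * (C' * B * (C3 * B)) * B, ?_, M0, fun M hM g₁ g₂ h₁ h₂ t t' ht ht' => ?_⟩
  · have h1 : 1 ≤ C' * B * (C3 * B) := by nlinarith only [hA, hA2, hε, hε1]
    have h2 : 1 ≤ C3 * B * (C' * B * (C3 * B)) := by nlinarith only [h1, hA, hε, hε1]
    nlinarith only [h2, hBdef, hK, hε, hε1]
  · obtain ⟨tc, htc, htc'⟩ := HolderInf_clamp (2 - κ) t (by linarith only [hε, hε1, hκ1]) (by linarith) ht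
    obtain ⟨tc2, htc2, htc2'⟩ := HolderInf_clamp (2 - κ) t' (by linarith) (by linarith) ht'
    have hin : ∀ x ∈ Icc (-(2 - κ)) (2 - κ), |x| ≤ 2 := by
      intro x hx
      rw [abs_le]
      constructor <;> linarith [hx.1, hx.2]
    have hqb : ∀ x : ℝ, |x| ≤ 2 → 0 ≤ qd lam (lM b M) g₁ g₂ x ∧ qd lam (lM b M) g₁ g₂ x ≤ B := by
      intro x hx
      rw [← hBdef]
      exact HolderInf_qd hlam (lM b M) (lM_pos hb M) h₁ h₂ hx
    have he0 : 0 < 1 - ε / 4 := by linarith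
    -- one `holder` step
    have hone : ∀ x y : ℝ, |x| ≤ 2 → |y| ≤ 2 → |x - y| ≤ κ →
        qd lam (lM b M) g₁ g₂ y ≤ C3 * B * qd lam (lM b M) g₁ g₂ x ^ (1 - ε / 4) := by
      intro x y hx hy hxy
      have h1 := hhol (lM b M) (lM_pos hb M) g₁ g₂ h₁ h₂ x y (by linarith) (by linarith)
        (hxy.trans hκ4)
      have h2 : 2 / (RR lam - vr lam) * |x - y| ≤ ε / 4 :=
        (mul_le_mul_of_nonneg_left hxy (by positivity)).trans hκ3
      have h3 : 0 ≤ 2 / (RR lam - vr lam) * |x - y| := by positivity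
      have h4 := HolderInf_low (hqb x hx).1 (hqb x hx).2 hB he0
        (by linarith : 1 - ε / 4 ≤ 1 - 2 / (RR lam - vr lam) * |x - y|) (by linarith only [h3])
      calc qd lam (lM b M) g₁ g₂ y
          ≤ C3 * qd lam (lM b M) g₁ g₂ x ^ (1 - 2 / (RR lam - vr lam) * |x - y|) := h1
        _ ≤ C3 * (B * qd lam (lM b M) g₁ g₂ x ^ (1 - ε / 4)) :=
            mul_le_mul_of_nonneg_left h4 (by linarith)
        _ = C3 * B * qd lam (lM b M) g₁ g₂ x ^ (1 - ε / 4) := by ring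
    have s1 := hone t tc ht (hin tc htc) (by linarith)
    have s3 := hone tc2 t' (hin tc2 htc2) ht' (by rw [abs_sub_comm]; linarith)
    have s2 : qd lam (lM b M) g₁ g₂ tc2 ≤
        C' * B * qd lam (lM b M) g₁ g₂ tc ^ (1 - ε / 4) := by
      have h1 := hiter (-(2 - κ)) (2 - κ) (fun x => qd lam (lM b M) g₁ g₂ x) (by linarith)
        (by linarith) (by linarith) (fun x hx => hqb x (hin x hx)) (by
          intro x hx y hy hxy hq
          refine hstep M hM g₁ g₂ h₁ h₂ x y ?_ (hin y hy) hxy hq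
          have h2 : |x| ≤ 2 - κ := abs_le.mpr ⟨hx.1, hx.2⟩
          have h3 : x ^ 2 ≤ (2 - κ) ^ 2 := by
            rw [← sq_abs x]
            exact pow_le_pow_left₀ (abs_nonneg x) h2 2
          linarith only [h3]) tc htc tc2 htc2
      have h4 := HolderInf_low (hqb tc (hin tc htc)).1 (hqb tc (hin tc htc)).2 hB he0
        (by linarith : 1 - ε / 4 ≤ 1 - 4 * (4 / (RR lam - vr lam) * η)) (by linarith)
      calc qd lam (lM b M) g₁ g₂ tc2
          ≤ C' * qd lam (lM b M) g₁ g₂ tc ^ (1 - 4 * (4 / (RR lam - vr lam) * η)) := h1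
        _ ≤ C' * (B * qd lam (lM b M) g₁ g₂ tc ^ (1 - ε / 4)) :=
            mul_le_mul_of_nonneg_left h4 (by linarith)
        _ = C' * B * qd lam (lM b M) g₁ g₂ tc ^ (1 - ε / 4) := by ring
    have c1 := HolderInf_comp (hqb t ht).1 (hqb tc (hin tc htc)).1 hA hA2 he0.le (by linarith) s1 s2
    have hAA : 1 ≤ C' * B * (C3 * B) := by nlinarith only [hA, hA2, hε, hε1]
    have c2 := HolderInf_comp (hqb t ht).1 (hqb tc2 (hin tc2 htc2)).1 hAA hA he0.le (by linarith)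
      c1 s3
    have h5 : 1 - ε ≤ (1 - ε / 4) * (1 - ε / 4) * (1 - ε / 4) := by nlinarith only [hε, hε1, sq_nonneg ε]
    have h6 : (1 - ε / 4) * (1 - ε / 4) * (1 - ε / 4) ≤ 1 := by
      have h7 : (1 - ε / 4) * (1 - ε / 4) ≤ 1 := by nlinarith only [hε, hε1]
      nlinarith only [h7, hε]
    have h8 := HolderInf_low (hqb t ht).1 (hqb t ht).2 hB (by linarith : 0 < 1 - ε) h5 h6
    have h9 : 0 ≤ C3 * B * (C' * B * (C3 * B)) := by positivity
    calc qd lam (lM b M) g₁ g₂ t'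
        ≤ C3 * B * (C' * B * (C3 * B)) *
          qd lam (lM b M) g₁ g₂ t ^ ((1 - ε / 4) * (1 - ε / 4) * (1 - ε / 4)) := c2
      _ ≤ C3 * B * (C' * B * (C3 * B)) * (B * qd lam (lM b M) g₁ g₂ t ^ (1 - ε)) :=
          mul_le_mul_of_nonneg_left h8 h9
      _ = C3 * B * (C' * B * (C3 * B)) * B * qd lam (lM b M) g₁ g₂ t ^ (1 - ε) := by ring

end Sturm
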