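import Pool.Agent.Lib.MP_e5ebf6_mp.PassLip

/-! Module LaterDeriv: later traces vary at most Lipschitz with `x` along the circle. -/

noncomputable section
namespace Sturm

private lemma ld_diff (lam : ℝ) (l : List ℕ) (φ : ℂ) :
    HasDerivAt (TT lam l) (deriv (TT lam l) φ) φ := by
  have h : Differentiable ℂ (TT lam l) := (differentiable_st lam l).fst
  exact (h φ).hasDerivAt

private lemma ld_real (lam : ℝ) (l : List ℕ) (φ : ℝ) :
    deriv (TT lam l) (φ : ℂ) = ((deriv (TR lam l) φ : ℝ) : ℂ) := by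
  have h1 : HasDerivAt (fun y : ℝ => TT lam l (y : ℂ)) (deriv (TT lam l) (φ : ℂ)) φ :=
    (ld_diff lam l (φ : ℂ)).comp_ofReal
  have h2 : Differentiable ℝ (TR lam l) := (differentiable_str lam l).fst
  have h3 : HasDerivAt (fun y : ℝ => ((TR lam l y : ℝ) : ℂ)) ((deriv (TR lam l) φ : ℝ) : ℂ) φ :=
    (h2 φ).hasDerivAt.ofReal_comp
  have h4 : (fun y : ℝ => TT lam l (y : ℂ)) = fun y : ℝ => ((TR lam l y : ℝ) : ℂ) := by
    funext y
    exact TT_ofReal lam l y
  rw [h4] at h1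
  exact h1.unique h3

theorem later_deriv {lam : ℝ} (hlam : 0 < lam) :
    ∃ C : ℝ, 0 < C ∧ ∀ (l : List ℕ), Pos l → ∀ j ≤ l.length, ∀ φ : ℝ, |TR lam l φ| ≤ 2 →
      |deriv (TR lam (l.drop j)) φ| ≤ C * |deriv (TR lam l) φ| := by
  obtain ⟨C, hC, hT⟩ := passage_taylor hlam
  have h2R := two_lt_RR hlam
  have hK0 : 0 ≤ K0 lam := by
    unfold K0
    have : 0 < RR lam := by linarith only [h2R]
    positivity
  refine ⟨C * K0 lam + 1, by positivity, ?_⟩
  intro l hl j hj φ hφ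
  have hφR : |TR lam l φ| < RR lam := lt_of_le_of_lt hφ h2R
  obtain ⟨g, hg, hgφ⟩ := exists_passage hlam l hl φ hφR
  obtain ⟨t, ht⟩ : ∃ t, t = TR lam l φ := ⟨_, rfl⟩
  rw [← ht] at hφ hφR hgφ
  have hw0 : (t : ℂ) ∈ Metric.ball (0 : ℂ) (RR lam) := by
    rw [mem_ball_zero_iff, Complex.norm_real]
    exact hφR
  have hgt : g (t : ℂ) = (φ : ℂ) := by
    rw [(passage_ofReal l hg hφR).1, hgφ]
  have hnb : Metric.ball (0 : ℂ) (RR lam) ∈ nhds (t : ℂ) := Metric.isOpen_ball.mem_nhds hw0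
  have hgd : HasDerivAt g (deriv g t) (t : ℂ) :=
    ((hg.diff _ hw0).differentiableAt hnb).hasDerivAt
  have hd1 : HasDerivAt (TT lam l) (deriv (TT lam l) (φ : ℂ)) (g (t : ℂ)) := by
    rw [hgt]; exact ld_diff lam l φ
  have hd2 : HasDerivAt (TT lam (l.drop j)) (deriv (TT lam (l.drop j)) (φ : ℂ)) (g (t : ℂ)) := by
    rw [hgt]; exact ld_diff lam (l.drop j) φ
  have hc1 := hd1.comp (t : ℂ) hgd
  have hc2 := hd2.comp (t : ℂ) hgd
  have hid : HasDerivAt (TT lam l ∘ g) 1 (t : ℂ) := by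
    refine (hasDerivAt_id (t : ℂ)).congr_of_eventuallyEq ?_
    filter_upwards [hnb] with w hw
    exact hg.inv w hw
  have hone : deriv (TT lam l) (φ : ℂ) * deriv g t = 1 := hc1.unique hid
  have hF := (hT (TT lam (l.drop j) ∘ g) (K0 lam) ?_ ?_ t t ?_ ?_).2
  · rw [hc2.deriv] at hF
    have hkey : deriv (TT lam (l.drop j)) (φ : ℂ) =
        (deriv (TT lam (l.drop j)) (φ : ℂ) * deriv g t) * deriv (TT lam l) (φ : ℂ) := by
      linear_combination (-deriv (TT lam (l.drop j)) (φ : ℂ)) * hone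
    have hn : ‖deriv (TT lam (l.drop j)) (φ : ℂ)‖ ≤ C * K0 lam * ‖deriv (TT lam l) (φ : ℂ)‖ := by
      rw [hkey, norm_mul]
      exact mul_le_mul_of_nonneg_right hF (norm_nonneg _)
    rw [ld_real, ld_real, Complex.norm_real, Complex.norm_real, Real.norm_eq_abs,
      Real.norm_eq_abs] at hn
    have h0 := abs_nonneg (deriv (TR lam l) φ)
    linarith only [hn, h0]
  · have h : Differentiable ℂ (TT lam (l.drop j)) := (differentiable_st lam (l.drop j)).fst
    exact h.comp_differentiableOn hg.diff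
  · intro w hw
    have h1 : ‖(st lam l (g w)).1‖ ≤ RR lam := by
      have h2 : (st lam l (g w)).1 = w := hg.inv w hw
      rw [h2]
      rw [mem_ball_zero_iff] at hw
      exact hw.le
    exact later_bound hlam l hl (g w) h1 j hj
  · unfold vr
    linarith only [hφ, h2R]
  · unfold vr
    linarith only [hφ, h2R]

end Sturm
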