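import Pool.Agent.Lib.MP_e5ebf6_mp.Growth
import Pool.Agent.Lib.MP_e5ebf6_mp.BlockRel
import Pool.Agent.Lib.MP_e5ebf6_mp.LaterDeriv
import Pool.Agent.Lib.MP_e5ebf6_mp.GLower
import Pool.Agent.Lib.MP_e5ebf6_mp.Escape
import Pool.Agent.Lib.MP_e5ebf6_mp.RealDeriv

/-! Module InfContr: infinitesimal contraction along the leaves. -/

noncomputable section
namespace Sturm
namespace IC

theorem lM_pos' {b : ℕ → ℕ} (hb : ∀ k, 1 ≤ b k) (M : ℕ) : Pos (lM b M) := by
  intro x hx
  simp only [lM, List.mem_map, List.mem_range] at hx
  obtain ⟨a, -, rfl⟩ := hx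
  exact hb a

theorem pos_drop {l : List ℕ} (hl : Pos l) (j : ℕ) : Pos (l.drop j) :=
  fun b hb => hl b (List.mem_of_mem_drop hb)

theorem length_lM (b : ℕ → ℕ) (M : ℕ) : (lM b M).length = M := by simp [lM]

theorem drop_cons (b : ℕ → ℕ) (M j : ℕ) (h : j < M) :
    (lM b M).drop j = b j :: (lM b M).drop (j + 1) := by
  have h' : j < (lM b M).length := by rw [length_lM]; exact h
  rw [List.drop_eq_getElem_cons h']
  congr 1
  simp [lM]

theorem take_lM (b : ℕ → ℕ) (M j : ℕ) (h : j ≤ M) : (lM b M).take j = lM b j := by
  simp only [lM, ← List.map_take, List.take_range, min_eq_left h]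

theorem take_succ (b : ℕ → ℕ) (M j : ℕ) (h : j < M) :
    (lM b M).take (j + 1) = (lM b M).take j ++ [b j] := by
  rw [take_lM b M j h.le, take_lM b M (j + 1) h]
  simp [lM, List.range_succ]

theorem drop_ne_nil (b : ℕ → ℕ) (M j : ℕ) (h : j < M) : (lM b M).drop j ≠ [] := by
  rw [drop_cons b M j h]; simp

end IC

open IC

section
variable (lam : ℝ) (b : ℕ → ℕ) (M : ℕ) (φ : ℝ)

/-- state, circle derivative, twist derivative at level `j` -/
def icS (j : ℕ) : St ℝ := str lam ((lM b M).drop j) φ
def icT (j : ℕ) : St ℝ := deriv (str lam ((lM b M).drop j)) φ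
def icD (j : ℕ) : St ℝ :=
  dfwd ((lM b M).take j) (str lam (lM b M) φ) (D0 (str lam (lM b M) φ))

theorem icS_succ (j : ℕ) (h : j < M) : icS lam b M φ (j + 1) = fwd1 (b j) (icS lam b M φ j) := by
  unfold icS
  rw [drop_cons b M j h]
  exact (fwd1_str lam (b j) _ φ).symm

theorem icT_succ (j : ℕ) (h : j < M) :
    icT lam b M φ (j + 1) = dfwd1 (b j) (icS lam b M φ j) (icT lam b M φ j) := by
  unfold icS icT
  rw [drop_cons b M j h]
  have := dfwd_deriv_str lam (b j :: (lM b M).drop (j + 1)) 1 φ
  simpa [dfwd] using this.symm

theorem icD_succ (j : ℕ) (h : j < M) :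
    icD lam b M φ (j + 1) = dfwd1 (b j) (icS lam b M φ j) (icD lam b M φ j) := by
  unfold icS icD
  rw [take_succ b M j h, dfwd_append, fwd_take_str]
  rfl

end

theorem inf_contraction {lam : ℝ} (hlam : 0 < lam) (b : ℕ → ℕ) (hb : ∀ k, 1 ≤ b k) (η : ℝ)
    (hη : 0 < η) (s0 : ℝ) (hs : 0 < s0) :
    ∃ J : ℕ, ∀ M : ℕ, J + 2 ≤ M → ∀ φ : ℝ, s0 ≤ 4 - TR lam (lM b M) φ ^ 2 →
      ∃ j < J, ∃ p < b j,
        |TR lam ((b j - p) :: (lM b M).drop (j + 1)) φ| < 2 ∧
        |deriv (TR lam ((b j - p) :: (lM b M).drop (j + 1))) φ| ≤
          η * |deriv (TR lam (lM b M)) φ| := by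
  obtain ⟨C3, hC3, hlater⟩ := later_deriv hlam
  have hR2 := two_lt_RR hlam
  set R := RR lam with hRdef
  have hRpos : 0 < R := by linarith
  have hsq : 0 < Real.sqrt s0 := Real.sqrt_pos.mpr hs
  set K : ℝ := 2 * R / η ^ 2 with hK
  have hKpos : 0 < K := by positivity
  set Λ : ℝ := K * C3 / (lam * Real.sqrt s0) + 1 with hΛ
  obtain ⟨J0, hJ0⟩ := ee_growth b hb Λ
  refine ⟨J0 + 4, ?_⟩
  intro M hM φ hφ
  by_contra hcon
  push Not at hcon
  set A := lM b M with hA
  have hApos : Pos A := lM_pos' hb M
  set a : ℝ := |deriv (TR lam A) φ| with ha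
  -- basic facts
  have hX0sq : TR lam A φ ^ 2 ≤ 4 - s0 := by linarith
  have hX0 : |TR lam A φ| < 2 := by
    rw [← Real.sqrt_sq (show (0:ℝ) ≤ 2 by norm_num), ← Real.sqrt_sq_eq_abs]
    apply Real.sqrt_lt_sqrt (sq_nonneg _)
    linarith
  have hX0R : |TR lam A φ| < RR lam := by rw [← hRdef]; linarith
  have hapos : 0 < a := by
    have h1 := TR_deriv_lower hlam A hApos φ hX0R
    have h2 : 0 < Real.sqrt (RR lam ^ 2 - TR lam A φ ^ 2) := by
      apply Real.sqrt_pos.mpr
      have := RR_sq lam
      nlinarith only [hs, hφ, this]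
    have h3 : (1 : ℝ) ≤ (nB A : ℝ) := by exact_mod_cast nB_pos A hApos
    have : 0 < (nB A : ℝ) * Real.sqrt (RR lam ^ 2 - TR lam A φ ^ 2) := by positivity
    linarith
  set S := icS lam b M φ with hS
  set T := icT lam b M φ with hT
  set D := icD lam b M φ with hD
  have hS0 : (S 0).1 = TR lam A φ := by simp [hS, icS, TR, hA]
  -- elliptic levels have large derivative
  have hlev : ∀ j, j < J0 + 4 → |(S j).1| < 2 → η * a < |(T j).1| := by
    intro j hj hell
    have hbj : 0 < b j := hb j
    have h1 := hcon j hj 0 hbj
    have e : (b j - 0) :: A.drop (j + 1) = A.drop j := by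
      rw [Nat.sub_zero]; exact (drop_cons b M j (by omega)).symm
    rw [e] at h1
    have h2 := h1 (by simpa [hS, icS, TR, hA] using hell)
    rw [deriv_TR] at h2
    exact h2
  -- elliptic nodes have large derivative
  have hnode : ∀ j, j < J0 + 4 → ∀ p, p < b j → |uu (S j) p| < 2 →
      η * a < |duu (S j) (T j) p| := by
    intro j hj p hp hell
    have h1 := hcon j hj p hp
    have hjM : j < M := by omega
    have e1 : TR lam ((b j - p) :: A.drop (j + 1)) φ = uu (S j) p := by
      unfold TR
      rw [node_str lam (b j) p hp.le]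
      simp only [hS, icS]
      rw [drop_cons b M j hjM]
    have e2 : deriv (TR lam ((b j - p) :: A.drop (j + 1))) φ = duu (S j) (T j) p := by
      have hf : (TR lam ((b j - p) :: A.drop (j + 1))) =
          fun ψ => uu (str lam (A.drop j) ψ) p := by
        funext ψ
        unfold TR
        rw [node_str lam (b j) p hp.le, drop_cons b M j hjM]
      rw [hf]
      have hd : HasDerivAt (str lam (A.drop j)) (deriv (str lam (A.drop j)) φ) φ :=
        (differentiable_str lam (A.drop j) φ).hasDerivAt
      exact (hasDerivAt_uu hd p).deriv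
    rw [e1, e2] at h1
    exact h1 hell
  -- the partial sums
  set Sg : ℕ → ℝ := fun j => 1 + ∑ k ∈ Finset.range (j - 1), (b k : ℝ) with hSgd
  have hSg1 : ∀ j, 1 ≤ Sg j := by
    intro j
    have : 0 ≤ ∑ k ∈ Finset.range (j - 1), (b k : ℝ) := Finset.sum_nonneg (fun _ _ => by positivity)
    simp only [hSgd]; linarith
  -- conversions of the relations
  have hdropS : ∀ j, j < M → str lam (b j :: A.drop (j + 1)) φ = S j := by
    intro j hj
    simp only [hS, icS]
    rw [drop_cons b M j hj]
  have hdropT : ∀ j, j < M → deriv (str lam (b j :: A.drop (j + 1))) φ = T j := by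
    intro j hj
    simp only [hT, icT]
    rw [drop_cons b M j hj]
  have hSblock : ∀ j, Sg j + b j ≤ Sg (j + 2) := by
    intro j
    simp only [hSgd]
    have e : j + 2 - 1 = j + 1 := by omega
    rw [e, Finset.sum_range_succ]
    have : ∑ k ∈ Finset.range (j - 1), (b k : ℝ) ≤ ∑ k ∈ Finset.range j, (b k : ℝ) := by
      apply Finset.sum_le_sum_of_subset_of_nonneg
      · exact Finset.range_mono (Nat.sub_le _ _)
      · intros; positivity
    linarith
  -- the chain
  have chain : ∀ n, n ≤ J0 → ∃ j, n ≤ j ∧ j ≤ n + 1 ∧ |(S j).1| < 2 ∧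
      |(D j).1| * a ≤ K * Sg j * |(T j).1| := by
    intro n
    induction n with
    | zero =>
      intro _
      refine ⟨0, le_refl _, by omega, by rw [hS0]; exact hX0, ?_⟩
      have : (D 0).1 = 0 := by simp [hD, icD, dfwd, D0]
      rw [this, abs_zero, zero_mul]
      have := hSg1 0
      positivity
    | succ n ih =>
      intro hn
      obtain ⟨j, hj1, hj2, hell, hbd⟩ := ih (by omega)
      rcases Nat.lt_or_ge n j with hlt | hge
      · exact ⟨j, by omega, by omega, hell, hbd⟩
      · have hjn : j = n := by omega
        subst hjn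
        have hjM : j < M := by omega
        have hTj : η * a < |(T j).1| := hlev j (by omega) hell
        have hTjpos : 0 < |(T j).1| := lt_of_le_of_lt (by positivity) hTj
        rcases lt_or_ge |(S j).2.1| 2 with hy | hy
        · -- opposite step
          refine ⟨j + 1, by omega, by omega, ?_, ?_⟩
          · rw [hS, icS_succ lam b M φ j hjM]; exact hy
          · have hell' : |(S (j + 1)).1| < 2 := by
              rw [hS, icS_succ lam b M φ j hjM]; exact hy
            have hTj1 : η * a < |(T (j + 1)).1| := hlev (j + 1) (by omega) hell'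
            have hTD : (D (j + 1)).1 = (D j).2.1 := by
              rw [hD, icD_succ lam b M φ j hjM]; rfl
            have hTT : (T (j + 1)).1 = (T j).2.1 := by
              rw [hT, icT_succ lam b M φ j hjM]; rfl
            have hrel := rel_opposite hlam A hApos φ hX0R j (b j) (A.drop (j + 1))
              (drop_cons b M j hjM) (drop_ne_nil b M (j + 1) (by omega))
              (by rw [hdropS j hjM]; exact hell) (by rw [hdropS j hjM]; exact hy)
            rw [hdropT j hjM] at hrel
            have hrel' : |(T j).1| * |(D j).2.1| ≤ 2 * R * a := by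
              have h0 : 0 ≤ |(T j).2.1| * |(D j).1| := by positivity
              have h1 : |(T j).1| * |(D j).2.1| + |(T j).2.1| * |(D j).1| ≤ 2 * RR lam * a := hrel
              rw [← hRdef] at h1
              linarith
            rw [hTD]
            -- a² ≤ c_j c_{j+1} / η²
            have ha2 : η ^ 2 * a ^ 2 ≤ |(T j).1| * |(T (j + 1)).1| := by
              have := mul_le_mul hTj.le hTj1.le (by positivity) (by positivity)
              nlinarith only [this]
            have hKe : K * η ^ 2 = 2 * R := by rw [hK]; field_simp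
            have h5 : |(T j).1| * (|(D j).2.1| * a) ≤ |(T j).1| * (K * Sg (j + 1) * |(T (j + 1)).1|) := by
              have e1 : |(T j).1| * (|(D j).2.1| * a) ≤ 2 * R * a ^ 2 := by
                have := mul_le_mul_of_nonneg_right hrel' hapos.le
                nlinarith only [this]
              have e2 : 2 * R * a ^ 2 ≤ K * (|(T j).1| * |(T (j + 1)).1|) := by
                rw [← hKe]
                have := mul_le_mul_of_nonneg_left ha2 hKpos.le
                nlinarith only [this]
              have e3 : K * (|(T j).1| * |(T (j + 1)).1|) ≤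
                  |(T j).1| * (K * Sg (j + 1) * |(T (j + 1)).1|) := by
                have h6 := hSg1 (j + 1)
                have h7 : 0 ≤ K * (|(T j).1| * |(T (j + 1)).1|) := by (clear * - hR2 hTjpos hη; positivity)
                have := mul_le_mul_of_nonneg_left h6 h7
                nlinarith only [this]
              linarith only [e1, e2, e3]
            exact le_of_mul_le_mul_left h5 hTjpos
        · -- block step
          have hSstr : st lam (b j :: A.drop (j + 1)) (φ : ℂ) =
              (((S j).1 : ℂ), ((S j).2.1 : ℂ), ((S j).2.2 : ℂ)) := by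
            rw [st_ofReal, hdropS j hjM]
          have hPosj : Pos (b j :: A.drop (j + 1)) := by
            rw [← drop_cons b M j hjM]; exact pos_drop hApos j
          have huuC : ∀ p, uu (((S j).1 : ℂ), ((S j).2.1 : ℂ), ((S j).2.2 : ℂ)) p =
              ((uu (S j) p : ℝ) : ℂ) := by
            intro p
            induction p using Nat.twoStepInduction with
            | zero => simp [uu]
            | one => simp [uu]
            | more p ih1 ih2 => simp only [uu]; rw [ih1, ih2]; push_cast; ring
          have hblock : ∀ p, 1 ≤ p → p ≤ b j → |uu (S j) p| < 2 := by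
            intro p hp1 hp2
            have := elliptic_block lam (b j) (A.drop (j + 1)) hPosj (φ : ℂ)
              (by rw [hSstr]; simpa using hell.le) (by rw [hSstr]; simpa using hy) p hp1 hp2
            rw [hSstr, huuC] at this
            simpa using this
          have hellp : ∀ p, p ≤ b j → |uu (S j) p| < 2 := by
            intro p hp
            rcases Nat.eq_zero_or_pos p with rfl | h
            · exact hell
            · exact hblock p h hp
          have hS2 : (S (j + 2)).1 = uu (S j) (b j) := by
            have h1 : S (j + 2) = fwd1 (b (j + 1)) (S (j + 1)) := icS_succ lam b M φ (j + 1) (by omega)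
            have h2 : S (j + 1) = fwd1 (b j) (S j) := icS_succ lam b M φ j hjM
            rw [h1, h2]; rfl
          have hT2 : (T (j + 2)).1 = duu (S j) (T j) (b j) := by
            have h1 : T (j + 2) = dfwd1 (b (j + 1)) (S (j + 1)) (T (j + 1)) :=
              icT_succ lam b M φ (j + 1) (by omega)
            have h2 : T (j + 1) = dfwd1 (b j) (S j) (T j) := icT_succ lam b M φ j hjM
            rw [h1, h2]; rfl
          have hD2 : (D (j + 2)).1 = duu (S j) (D j) (b j) := by
            have h1 : D (j + 2) = dfwd1 (b (j + 1)) (S (j + 1)) (D (j + 1)) :=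
              icD_succ lam b M φ (j + 1) (by omega)
            have h2 : D (j + 1) = dfwd1 (b j) (S j) (D j) := icD_succ lam b M φ j hjM
            rw [h1, h2]; rfl
          have hell2 : |(S (j + 2)).1| < 2 := by rw [hS2]; exact hellp _ le_rfl
          have htp : ∀ p, p ≤ b j → η * a < |duu (S j) (T j) p| := by
            intro p hp
            rcases hp.lt_or_eq with h | h
            · exact hnode j (by omega) p h (hellp p hp)
            · subst h
              rw [← hT2]
              exact hlev (j + 2) (by omega) hell2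
          have hind : ∀ p, p ≤ b j → |duu (S j) (D j) p| * a ≤
              K * (Sg j + p) * |duu (S j) (T j) p| := by
            intro p
            induction p with
            | zero =>
              intro _
              simpa [duu] using hbd
            | succ p ihp =>
              intro hp
              have ih' := ihp (by omega)
              have htp0 := htp p (by omega)
              have htp1 := htp (p + 1) hp
              have htpos : 0 < |duu (S j) (T j) p| := lt_of_le_of_lt (by positivity) htp0
              have hrel := rel_same hlam A hApos φ hX0R j (b j) (A.drop (j + 1))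
                (drop_cons b M j hjM) p
                (by
                  rcases hp.lt_or_eq with h | h
                  · exact Or.inl h
                  · exact Or.inr ⟨h, drop_ne_nil b M (j + 1) (by omega)⟩)
                (by rw [hdropS j hjM]; exact hellp p (by omega))
                (by rw [hdropS j hjM]; exact hellp (p + 1) hp)
              rw [hdropT j hjM, hdropS j hjM] at hrel
              have hrel' : |duu (S j) (T j) p| * |duu (S j) (D j) (p + 1)| -
                  |duu (S j) (T j) (p + 1)| * |duu (S j) (D j) p| ≤ 2 * R * a := hrel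
              have ha2 : η ^ 2 * a ^ 2 ≤ |duu (S j) (T j) p| * |duu (S j) (T j) (p + 1)| := by
                have := mul_le_mul htp0.le htp1.le (by positivity) (by (clear * - htpos; positivity))
                nlinarith only [this]
              have hKe : K * η ^ 2 = 2 * R := by rw [hK]; field_simp
              have e1 := mul_le_mul_of_nonneg_right hrel' hapos.le
              have e2 : 2 * R * a * a ≤ K * (|duu (S j) (T j) p| * |duu (S j) (T j) (p + 1)|) := by
                rw [← hKe]
                have := mul_le_mul_of_nonneg_left ha2 hKpos.le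
                nlinarith only [this]
              have e3 := mul_le_mul_of_nonneg_left ih' (abs_nonneg (duu (S j) (T j) (p + 1)))
              have h5 : |duu (S j) (T j) p| * (|duu (S j) (D j) (p + 1)| * a) ≤
                  |duu (S j) (T j) p| * (K * (Sg j + ((p + 1 : ℕ) : ℝ)) *
                    |duu (S j) (T j) (p + 1)|) := by
                push_cast
                nlinarith only [e1, e2, e3]
              exact le_of_mul_le_mul_left h5 htpos
          refine ⟨j + 2, by omega, by omega, hell2, ?_⟩
          rw [hD2, hT2]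
          refine (hind (b j) le_rfl).trans ?_
          apply mul_le_mul_of_nonneg_right _ (abs_nonneg _)
          exact mul_le_mul_of_nonneg_left (hSblock j) hKpos.le
  obtain ⟨j, hj1, hj2, hell, hbd⟩ := chain J0 le_rfl
  have hjM : j ≤ M := by omega
  -- lower bound
  have hXj : TR lam (A.drop j) φ = (S j).1 := rfl
  have hG := G_lower hlam A hApos φ j (by rw [length_lM]; exact hjM) hX0
    (by rw [hXj, ← hRdef]; linarith)
  rw [take_lM b M j hjM] at hG
  have he := hJ0 j hj1
  set e : ℝ := ((ee (lM b j)).1 : ℝ) with hedef
  have hSgj := hSg1 j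
  have he' : Λ * Sg j ≤ e := he
  have hΛpos : 0 < Λ := by positivity
  have hepos : 0 < e := lt_of_lt_of_le (by (clear * - hC3 hR2 hlam hs hη; positivity)) he'
  have hsqrt1 : lam ≤ Real.sqrt (RR lam ^ 2 - TR lam (A.drop j) φ ^ 2) := by
    apply Real.le_sqrt_of_sq_le
    rw [RR_sq, hXj]
    have := abs_lt.mp hell
    nlinarith only [this]
  have hsqrt2 : Real.sqrt s0 ≤ Real.sqrt (4 - TR lam A φ ^ 2) := Real.sqrt_le_sqrt hφ
  have hGe : e * lam * Real.sqrt s0 ≤ |(D j).1| := by
    have h1 : e * lam * Real.sqrt s0 ≤
        e * Real.sqrt (RR lam ^ 2 - TR lam (A.drop j) φ ^ 2) * Real.sqrt (4 - TR lam A φ ^ 2) := by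
      apply mul_le_mul _ hsqrt2 hsq.le (by positivity)
      exact mul_le_mul_of_nonneg_left hsqrt1 hepos.le
    have h2 : (D j).1 = (dfwd ((lM b M).take j) (str lam A φ) (D0 (str lam A φ))).1 := rfl
    rw [h2, take_lM b M j hjM]
    linarith
  have hcj : |(T j).1| ≤ C3 * a := by
    have := hlater A hApos j (by rw [length_lM]; exact hjM) φ hX0.le
    rw [deriv_TR] at this
    exact this
  have hfin : e * lam * Real.sqrt s0 ≤ K * C3 * Sg j := by
    have h1 : e * lam * Real.sqrt s0 * a ≤ K * Sg j * (C3 * a) := by
      calc e * lam * Real.sqrt s0 * a ≤ |(D j).1| * a := mul_le_mul_of_nonneg_right hGe hapos.le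
        _ ≤ K * Sg j * |(T j).1| := hbd
        _ ≤ K * Sg j * (C3 * a) := mul_le_mul_of_nonneg_left hcj (by (clear * - hR2 hη; positivity))
    have h2 : e * lam * Real.sqrt s0 * a ≤ (K * C3 * Sg j) * a := by linarith
    exact le_of_mul_le_mul_right h2 hapos
  have hΛe : Λ * (lam * Real.sqrt s0) = K * C3 + lam * Real.sqrt s0 := by
    rw [hΛ]; field_simp
  have hls : 0 < lam * Real.sqrt s0 := by positivity
  have h3 : Λ * Sg j * (lam * Real.sqrt s0) ≤ e * (lam * Real.sqrt s0) :=
    mul_le_mul_of_nonneg_right he' hls.le
  have h4 : Λ * Sg j * (lam * Real.sqrt s0) = (K * C3 + lam * Real.sqrt s0) * Sg j := by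
    rw [← hΛe]; ring
  have h5 : 0 < lam * Real.sqrt s0 * Sg j := by (clear * - hlam hs; positivity)
  nlinarith only [h3, h4, h5, hfin]

end Sturm
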