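import Mathlib

/-! Module InvBranch: global inverse branches over a disc (pure complex analysis). -/

open Complex Metric Set Filter Topology
noncomputable section
namespace Sturm

/-- local homeomorphism -/
theorem invBranch_loc {f : ℂ → ℂ} (hf : Differentiable ℂ f) {z : ℂ} (hz : deriv f z ≠ 0) :
    ∃ e : OpenPartialHomeomorph ℂ ℂ, z ∈ e.source ∧ (e : ℂ → ℂ) = f := by
  have h1 : HasStrictDerivAt f (deriv f z) z := by
    have h2 : AnalyticAt ℂ f z := hf.analyticAt z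
    exact h2.hasStrictDerivAt
  have h2 := h1.hasStrictFDerivAt_equiv hz
  exact ⟨h2.toOpenPartialHomeomorph f, h2.mem_toOpenPartialHomeomorph_source,
    h2.toOpenPartialHomeomorph_coe⟩

/-- uniqueness of inverse branches on connected open sets -/
theorem invBranch_unique {f : ℂ → ℂ} (hf : Differentiable ℂ f) {S : Set ℂ} (hS : IsOpen S)
    (hSc : IsPreconnected S)
    {g₁ g₂ : ℂ → ℂ} (h₁ : DifferentiableOn ℂ g₁ S) (h₂ : DifferentiableOn ℂ g₂ S)
    (i₁ : ∀ w ∈ S, f (g₁ w) = w) (i₂ : ∀ w ∈ S, f (g₂ w) = w)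
    {w0 : ℂ} (hw0 : w0 ∈ S) (h : g₁ w0 = g₂ w0) :
    ∀ w ∈ S, g₁ w = g₂ w := by
  have hd : deriv f (g₁ w0) ≠ 0 := by
    intro h0
    have d1 : HasDerivAt g₁ (deriv g₁ w0) w0 :=
      (h₁.differentiableAt (hS.mem_nhds hw0)).hasDerivAt
    have d2 : HasDerivAt f (deriv f (g₁ w0)) (g₁ w0) := (hf _).hasDerivAt
    have d3 := d2.comp w0 d1
    have d4 : HasDerivAt (f ∘ g₁) 1 w0 := by
      apply (hasDerivAt_id w0).congr_of_eventuallyEq
      filter_upwards [hS.mem_nhds hw0] with w hw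
      exact i₁ w hw
    have d5 := d3.unique d4
    rw [h0, zero_mul] at d5
    exact zero_ne_one d5
  obtain ⟨e, he, hef⟩ := invBranch_loc hf hd
  have c1 : ContinuousAt g₁ w0 := (h₁.continuousOn).continuousAt (hS.mem_nhds hw0)
  have c2 : ContinuousAt g₂ w0 := (h₂.continuousOn).continuousAt (hS.mem_nhds hw0)
  have ev : g₁ =ᶠ[𝓝 w0] g₂ := by
    have e1 : ∀ᶠ w in 𝓝 w0, g₁ w ∈ e.source := c1.eventually_mem (e.open_source.mem_nhds he)
    have e2 : ∀ᶠ w in 𝓝 w0, g₂ w ∈ e.source := by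
      apply c2.eventually_mem
      rw [← h]
      exact e.open_source.mem_nhds he
    filter_upwards [e1, e2, hS.mem_nhds hw0] with w a1 a2 a3
    apply e.injOn a1 a2
    rw [hef, i₁ w a3, i₂ w a3]
  have A1 : AnalyticOnNhd ℂ g₁ S := h₁.analyticOnNhd hS
  have A2 : AnalyticOnNhd ℂ g₂ S := h₂.analyticOnNhd hS
  exact A1.eqOn_of_preconnected_of_eventuallyEq A2 hSc hw0 ev

/-- a local branch through `z` on the ball of radius `δ` -/
def Br (f : ℂ → ℂ) (z : ℂ) (δ : ℝ) : Prop :=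
  ∃ h : ℂ → ℂ, DifferentiableOn ℂ h (ball (f z) δ) ∧ (∀ w ∈ ball (f z) δ, f (h w) = w) ∧
    h (f z) = z

theorem Br.mono {f : ℂ → ℂ} {z : ℂ} {δ δ' : ℝ} (h : Br f z δ) (hδ : δ' ≤ δ) : Br f z δ' := by
  obtain ⟨g, h1, h2, h3⟩ := h
  exact ⟨g, h1.mono (ball_subset_ball hδ), fun w hw => h2 w (ball_subset_ball hδ hw), h3⟩

theorem br_local {f : ℂ → ℂ} (hf : Differentiable ℂ f) {R : ℝ}
    (hcrit : ∀ z, ‖f z‖ < R → deriv f z ≠ 0) {z : ℂ} (hz : ‖f z‖ < R) :
    ∃ δ > 0, ∀ᶠ z' in 𝓝 z, Br f z' δ := by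
  obtain ⟨e, he, hef⟩ := invBranch_loc hf (hcrit z hz)
  have hT : e.target ∩ ball 0 R ∈ 𝓝 (f z) := by
    apply inter_mem
    · rw [← hef]
      exact e.open_target.mem_nhds (e.map_source he)
    · exact isOpen_ball.mem_nhds (by simpa using hz)
  obtain ⟨ε, hε, hεT⟩ := Metric.mem_nhds_iff.mp hT
  refine ⟨ε / 2, by positivity, ?_⟩
  have h1 : ∀ᶠ z' in 𝓝 z, z' ∈ e.source := e.open_source.mem_nhds he
  have h2 : ∀ᶠ z' in 𝓝 z, f z' ∈ ball (f z) (ε / 2) :=
    hf.continuous.continuousAt.eventually_mem (ball_mem_nhds _ (by positivity))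
  filter_upwards [h1, h2] with z' a1 a2
  have hsub : ball (f z') (ε / 2) ⊆ e.target ∩ ball 0 R := by
    refine Subset.trans ?_ hεT
    intro w hw
    rw [mem_ball] at hw a2 ⊢
    calc dist w (f z) ≤ dist w (f z') + dist (f z') (f z) := dist_triangle _ _ _
      _ < ε / 2 + ε / 2 := add_lt_add hw a2
      _ = ε := by ring
  have hinv : ∀ w ∈ ball (f z') (ε / 2), f (e.symm w) = w := by
    intro w hw
    rw [← hef]
    exact e.right_inv (hsub hw).1
  refine ⟨e.symm, ?_, hinv, ?_⟩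
  · intro w hw
    have h3 : deriv f (e.symm w) ≠ 0 := by
      apply hcrit
      rw [hinv w hw]
      simpa using (hsub hw).2
    have h4 : HasDerivAt e (deriv f (e.symm w)) (e.symm w) := by
      rw [hef]
      exact (hf _).hasDerivAt
    exact (e.hasDerivAt_symm (hsub hw).1 h3 h4).differentiableAt.differentiableWithinAt
  · rw [← hef]
    exact e.left_inv a1

theorem br_uniform {f : ℂ → ℂ} (hf : Differentiable ℂ f)
    (hper : ∀ z, f (z + 2 * Real.pi) = f z) {R : ℝ}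
    (hcrit : ∀ z, ‖f z‖ < R → deriv f z ≠ 0)
    (hprop : ∀ r : ℝ, r < R → ∃ C : ℝ, ∀ z, ‖f z‖ ≤ r → |z.im| ≤ C) {r : ℝ} (hr : r < R) :
    ∃ δ > 0, ∀ z, ‖f z‖ ≤ r → Br f z δ := by
  obtain ⟨C, hC⟩ := hprop r hr
  have hK : IsCompact ((Icc (0 : ℝ) (2 * Real.pi) ×ℂ Icc (-C) C) ∩ {z | ‖f z‖ ≤ r}) := by
    apply IsCompact.inter_right
    · exact isCompact_Icc.reProdIm isCompact_Icc
    · exact isClosed_le hf.continuous.norm continuous_const
  obtain ⟨δ, hδ, hB⟩ := hK.induction_on (p := fun s => ∃ δ > 0, ∀ z ∈ s, Br f z δ)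
    ⟨1, one_pos, fun z hz => absurd hz (notMem_empty z)⟩
    (fun s t hst ⟨δ, hδ, h⟩ => ⟨δ, hδ, fun z hz => h z (hst hz)⟩)
    (fun s t ⟨δ, hδ, h⟩ ⟨δ', hδ', h'⟩ => ⟨min δ δ', lt_min hδ hδ', fun z hz => by
      rcases hz with hz | hz
      · exact (h z hz).mono (min_le_left _ _)
      · exact (h' z hz).mono (min_le_right _ _)⟩)
    (fun z hz => by
      obtain ⟨δ, hδ, h⟩ := br_local hf hcrit (lt_of_le_of_lt hz.2 hr)
      exact ⟨{z' | Br f z' δ}, nhdsWithin_le_nhds h, δ, hδ, fun z' hz' => hz'⟩)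
  refine ⟨δ, hδ, fun z hz => ?_⟩
  have hper' : Function.Periodic f (2 * Real.pi) := hper
  set k : ℤ := ⌊z.re / (2 * Real.pi)⌋ with hk
  have hpi : (0 : ℝ) < 2 * Real.pi := by positivity
  have hfz : f (z - k * (2 * Real.pi)) = f z := hper'.sub_int_mul_eq k
  have hz' : z - k * (2 * Real.pi) ∈
      (Icc (0 : ℝ) (2 * Real.pi) ×ℂ Icc (-C) C) ∩ {z | ‖f z‖ ≤ r} := by
    have him : (z - k * (2 * Real.pi)).im = z.im := by simp
    have hre : (z - k * (2 * Real.pi)).re = z.re - k * (2 * Real.pi) := by simp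
    refine ⟨?_, ?_⟩
    · rw [mem_reProdIm, him, hre]
      refine ⟨⟨?_, ?_⟩, ?_⟩
      · have h1 := Int.floor_le (z.re / (2 * Real.pi))
        rw [← hk, le_div_iff₀ hpi] at h1
        linarith
      · have h1 := (Int.lt_floor_add_one (z.re / (2 * Real.pi))).le
        rw [← hk, div_le_iff₀ hpi] at h1
        linarith
      · exact abs_le.mp (hC z hz)
    · change ‖f (z - k * (2 * Real.pi))‖ ≤ r
      rw [hfz]
      exact hz
  obtain ⟨h, h1, h2, h3⟩ := hB _ hz'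
  rw [hfz] at h1 h2 h3
  refine ⟨fun w => h w + k * (2 * Real.pi), h1.add_const _, fun w hw => ?_, ?_⟩
  · have h4 : f (h w + k * (2 * Real.pi)) = f (h w) := hper'.int_mul k (h w)
    rw [h4]
    exact h2 w hw
  · simp only
    rw [h3]
    ring

theorem invBranch_covering {f : ℂ → ℂ} (hf : Differentiable ℂ f)
    (hper : ∀ z, f (z + 2 * Real.pi) = f z) {R : ℝ}
    (hcrit : ∀ z, ‖f z‖ < R → deriv f z ≠ 0)
    (hprop : ∀ r : ℝ, r < R → ∃ C : ℝ, ∀ z, ‖f z‖ ≤ r → |z.im| ≤ C) :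
    IsCoveringMapOn f (ball 0 R) := by
  intro x hx
  rw [mem_ball_zero_iff] at hx
  obtain ⟨δ₀, hδ₀, hB⟩ := br_uniform hf hper hcrit hprop (r := (‖x‖ + R) / 2) (by linarith)
  set δ : ℝ := min δ₀ ((R - ‖x‖) / 2) with hδdef
  have hδ : 0 < δ := lt_min hδ₀ (by linarith)
  have hδδ₀ : δ ≤ δ₀ := min_le_left _ _
  have hball : ∀ w ∈ ball x δ, ‖w‖ ≤ (‖x‖ + R) / 2 := by
    intro w hw
    rw [mem_ball, dist_eq_norm] at hw
    have h1 : ‖w‖ ≤ ‖w - x‖ + ‖x‖ := by
      calc ‖w‖ = ‖(w - x) + x‖ := by ring_nf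
        _ ≤ _ := norm_add_le _ _
    have h2 : δ ≤ (R - ‖x‖) / 2 := min_le_right _ _
    linarith
  have hxx : ‖x‖ ≤ (‖x‖ + R) / 2 := by linarith
  have hfib : ∀ e : f ⁻¹' {x}, ∃ h : ℂ → ℂ, DifferentiableOn ℂ h (ball x δ₀) ∧
      (∀ w ∈ ball x δ₀, f (h w) = w) ∧ h x = e := by
    intro e
    have he : f e = x := e.2
    have := hB e (by rw [he]; exact hxx)
    unfold Br at this
    rw [he] at this
    exact this
  choose H H1 H2 H3 using hfib
  have hsub : ball x δ ⊆ ball x δ₀ := ball_subset_ball hδδ₀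
  have hinj : ∀ e, InjOn (H e) (ball x δ₀) := by
    intro e a ha b hb hab
    rw [← H2 e a ha, ← H2 e b hb, hab]
  -- exhaustion
  have hexh : ∀ z', f z' ∈ ball x δ → ∃ e : f ⁻¹' {x}, z' ∈ H e '' ball x δ := by
    intro z' hz'
    obtain ⟨h, h1, h2, h3⟩ := hB z' (hball _ hz')
    have hxm : x ∈ ball (f z') δ₀ := by
      rw [mem_ball_comm]
      exact hsub hz'
    let e : f ⁻¹' {x} := ⟨h x, h2 x hxm⟩
    refine ⟨e, f z', hz', ?_⟩
    have hu := invBranch_unique hf (isOpen_ball.inter isOpen_ball)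
      ((convex_ball x δ₀).inter (convex_ball (f z') δ₀)).isPreconnected
      ((H1 e).mono inter_subset_left) (h1.mono inter_subset_right)
      (fun w hw => H2 e w hw.1) (fun w hw => h2 w hw.2)
      (w0 := x) ⟨mem_ball_self hδ₀, hxm⟩ (H3 e)
    rw [hu (f z') ⟨hsub hz', mem_ball_self hδ₀⟩, h3]
  rcases isEmpty_or_nonempty (f ⁻¹' {x}) with hemp | hne
  · apply IsEvenlyCovered.of_preimage_eq_empty _ (ball_mem_nhds x hδ)
    rw [eq_empty_iff_forall_notMem]
    intro z' hz'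
    obtain ⟨e, -⟩ := hexh z' hz'
    exact hemp.false e
  have hdisc : DiscreteTopology (f ⁻¹' {x}) := by
    apply (IsDiscrete.of_openPartialHomeomorph f subset_rfl ?_).1
    intro e he
    have he' : f e = x := he
    exact invBranch_loc hf (hcrit e (by rw [he']; exact hx))
  have hnemp : Nonempty (ℂ → ℂ) := ⟨id⟩
  have himg : ∀ e, ∀ W ⊆ ball x δ, f ⁻¹' W ∩ H e '' ball x δ = H e '' W := by
    intro e W hW
    ext z
    constructor
    · rintro ⟨h1, w, hw, rfl⟩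
      have h2 : f (H e w) ∈ W := h1
      rw [H2 e w (hsub hw)] at h2
      exact ⟨w, h2, rfl⟩
    · rintro ⟨w, hw, rfl⟩
      refine ⟨?_, w, hW hw, rfl⟩
      change f (H e w) ∈ W
      rw [H2 e w (hsub (hW hw))]
      exact hw
  refine IsEvenlyCovered.of_trivialization (t := isOpen_ball.trivializationDiscrete
    (fun e => H e '' ball x δ) (ball x δ) ?_ ?_ ?_ ?_ ?_) ?_
  · intro e W hW
    rw [himg e W hW]
    constructor
    · intro hWo
      have hA : AnalyticOnNhd ℂ (H e) (ball x δ₀) := (H1 e).analyticOnNhd isOpen_ball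
      rcases hA.is_constant_or_isOpen (convex_ball x δ₀).isPreconnected with hconst | hopen
      · exfalso
        obtain ⟨w, hw⟩ := hconst
        have m1 : x ∈ ball x δ₀ := mem_ball_self hδ₀
        have m2 : x + ((δ₀ / 2 : ℝ) : ℂ) ∈ ball x δ₀ := by
          rw [mem_ball, dist_eq_norm, add_sub_cancel_left, norm_real,
            Real.norm_of_nonneg (by positivity)]
          linarith
        have h1 := hinj e m1 m2 ((hw x m1).trans (hw _ m2).symm)
        have h2 : ((δ₀ / 2 : ℝ) : ℂ) = 0 := by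
          have h3 : x + 0 = x + ((δ₀ / 2 : ℝ) : ℂ) := by rw [add_zero]; exact h1
          exact (add_left_cancel h3).symm
        have h3 : δ₀ / 2 = 0 := by exact_mod_cast h2
        linarith
      · exact hopen W (hW.trans hsub) hWo
    · intro hWo
      have h1 := ((H1 e).continuousOn.mono hsub).isOpen_inter_preimage isOpen_ball hWo
      have h2 : ball x δ ∩ H e ⁻¹' (H e '' W) = W := by
        ext w
        constructor
        · rintro ⟨hw, w', hw', heq⟩
          rw [← hinj e (hsub (hW hw')) (hsub hw) heq]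
          exact hw'
        · intro hw
          exact ⟨hW hw, w, hw, rfl⟩
      rwa [h2] at h1
  · rintro e _ ⟨w, hw, rfl⟩ _ ⟨w', hw', rfl⟩ heq
    rw [H2 e w (hsub hw), H2 e w' (hsub hw')] at heq
    rw [heq]
  · intro e w hw
    exact ⟨H e w, ⟨w, hw, rfl⟩, H2 e w (hsub hw)⟩
  · intro e e' hee
    rw [Function.onFun, Set.disjoint_left]
    rintro _ ⟨w, hw, rfl⟩ ⟨w', hw', heq⟩
    have h1 : w' = w := by
      rw [← H2 e' w' (hsub hw'), heq, H2 e w (hsub hw)]
    rw [h1] at heq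
    apply hee
    apply Subtype.ext
    rw [← H3 e, ← H3 e']
    exact invBranch_unique hf isOpen_ball (convex_ball x δ₀).isPreconnected (H1 e) (H1 e')
      (H2 e) (H2 e') (hsub hw) heq.symm x (mem_ball_self hδ₀)
  · intro z' hz'
    obtain ⟨e, he⟩ := hexh z' hz'
    exact mem_iUnion.mpr ⟨e, he⟩
  · exact mem_ball_self hδ

/-- local inverses with a uniform radius over a smaller disc -/
theorem exists_inverse_branch {f : ℂ → ℂ} (hf : Differentiable ℂ f)
    (hper : ∀ z, f (z + 2 * Real.pi) = f z) {R : ℝ} (hR : 0 < R)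
    (hcrit : ∀ z, ‖f z‖ < R → deriv f z ≠ 0)
    (hprop : ∀ r : ℝ, r < R → ∃ C : ℝ, ∀ z, ‖f z‖ ≤ r → |z.im| ≤ C)
    (z0 : ℂ) (hz0 : ‖f z0‖ < R) :
    ∃ g : ℂ → ℂ, DifferentiableOn ℂ g (ball 0 R) ∧ (∀ w ∈ ball (0 : ℂ) R, f (g w) = w) ∧
      g (f z0) = z0 := by
  classical
  have cov := invBranch_covering hf hper hcrit hprop
  have : ContractibleSpace (ball (0 : ℂ) R) := contractibleSpace_ball hR
  have : LocallyPathConnectedSpace (ball (0 : ℂ) R) := isOpen_ball.locallyPathConnectedSpace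
  have hz0' : f z0 ∈ ball (0 : ℂ) R := by rwa [mem_ball_zero_iff]
  obtain ⟨F, ⟨hF0, hF⟩, -⟩ := cov.existsUnique_continuousMap_lifts
    (⟨Subtype.val, continuous_subtype_val⟩ : C(ball (0 : ℂ) R, ℂ)) (a₀ := ⟨f z0, hz0'⟩)
    (e₀ := z0) rfl (fun a => a.2)
  have hF' : ∀ a : ball (0 : ℂ) R, f (F a) = a := fun a => congrFun hF a
  let g : ℂ → ℂ := fun w => if h : w ∈ ball (0 : ℂ) R then F ⟨w, h⟩ else 0
  have hg : ∀ (w : ℂ) (h : w ∈ ball (0 : ℂ) R), g w = F ⟨w, h⟩ := fun w h => dif_pos h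
  have hgc : ContinuousOn g (ball 0 R) := by
    rw [continuousOn_iff_continuous_domRestrict]
    have h1 : (ball (0 : ℂ) R).domRestrict g = F := by
      funext a
      exact hg a.1 a.2
    rw [h1]
    exact F.continuous
  have hinv : ∀ w ∈ ball (0 : ℂ) R, f (g w) = w := by
    intro w hw
    rw [hg w hw]
    exact hF' ⟨w, hw⟩
  refine ⟨g, ?_, hinv, ?_⟩
  · intro w hw
    have h1 : deriv f (g w) ≠ 0 := by
      apply hcrit
      rw [hinv w hw]
      simpa using hw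
    have h2 := HasDerivAt.of_local_left_inverse (hgc.continuousAt (isOpen_ball.mem_nhds hw))
      (hf (g w)).hasDerivAt h1 (by
        filter_upwards [isOpen_ball.mem_nhds hw] with y hy
        exact hinv y hy)
    exact h2.differentiableAt.differentiableWithinAt
  · rw [hg _ hz0']
    exact hF0

/-- uniqueness of inverse branches -/
theorem inverse_branch_unique {f : ℂ → ℂ} (hf : Differentiable ℂ f) {R : ℝ}
    {g₁ g₂ : ℂ → ℂ} (h₁ : DifferentiableOn ℂ g₁ (ball 0 R)) (h₂ : DifferentiableOn ℂ g₂ (ball 0 R))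
    (i₁ : ∀ w ∈ ball (0 : ℂ) R, f (g₁ w) = w) (i₂ : ∀ w ∈ ball (0 : ℂ) R, f (g₂ w) = w)
    {w0 : ℂ} (hw0 : w0 ∈ ball (0 : ℂ) R) (h : g₁ w0 = g₂ w0) :
    ∀ w ∈ ball (0 : ℂ) R, g₁ w = g₂ w :=
  invBranch_unique hf isOpen_ball (convex_ball 0 R).isPreconnected h₁ h₂ i₁ i₂ hw0 h

end Sturm
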