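import Pool.Agent.Lib.MP_e5ebf6_mp.PassLip

/-! Module NodeLip: base state and node state are Lipschitz functions of each other
(constants depend on `b`, `j`, `p`, not on the length `M`). -/

open Complex Metric Set
noncomputable section
namespace Sturm

/-- list of the node `(j, p)`: its first trace is `tr (A_j B_j^p)` -/
def ndl (b : ℕ → ℕ) (M j p : ℕ) : List ℕ := (b j - p) :: (lM b M).drop (j + 1)

theorem NodeLip_len (b : ℕ → ℕ) (M : ℕ) : (lM b M).length = M := by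
  simp [lM]

theorem NodeLip_get (b : ℕ → ℕ) (M j : ℕ) (h : j < (lM b M).length) : (lM b M)[j] = b j := by
  simp [lM]

theorem lM_pos {b : ℕ → ℕ} (hb : ∀ k, 1 ≤ b k) (M : ℕ) : Pos (lM b M) := by
  intro c hc
  unfold lM at hc
  rw [List.mem_map] at hc
  obtain ⟨k, _, rfl⟩ := hc
  exact hb k

theorem ndl_pos {b : ℕ → ℕ} (hb : ∀ k, 1 ≤ b k) (M j p : ℕ) (hp : p < b j) :
    Pos (ndl b M j p) := by
  intro c hc
  unfold ndl at hc
  rw [List.mem_cons] at hc
  rcases hc with h | h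
  · rw [h]
    omega
  · exact lM_pos hb M c (List.mem_of_mem_drop h)

theorem NodeLip_cons (b : ℕ → ℕ) (M j : ℕ) (hM : j + 1 ≤ M) :
    (lM b M).drop j = b j :: (lM b M).drop (j + 1) := by
  have h : j < (lM b M).length := by
    rw [NodeLip_len]
    omega
  rw [List.drop_eq_getElem_cons h, NodeLip_get]

theorem ndl_zero (b : ℕ → ℕ) (M j : ℕ) (hM : j + 1 ≤ M) : ndl b M j 0 = (lM b M).drop j := by
  rw [NodeLip_cons b M j hM]
  rfl

theorem drop_lM (b : ℕ → ℕ) (M j : ℕ) : (lM b M).drop j = lM (shf j b) (M - j) := by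
  refine List.ext_getElem (by simp [lM]) fun i h1 h2 => ?_
  rw [List.getElem_drop]
  simp [lM, shf, add_comm]

theorem NodeLip_take (b : ℕ → ℕ) (M j : ℕ) (hM : j ≤ M) : (lM b M).take j = lM b j := by
  refine List.ext_getElem (by simp [lM, hM]) fun i h1 h2 => ?_
  rw [List.getElem_take]
  simp [lM]

section lip
variable {𝕜 : Type*} [NormedField 𝕜]

/-- bounded states -/
def NodeLip_nb (B : ℝ) (s : St 𝕜) : Prop := ‖s.1‖ ≤ B ∧ ‖s.2.1‖ ≤ B ∧ ‖s.2.2‖ ≤ B

/-- distance -/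
def NodeLip_nd (s t : St 𝕜) : ℝ := ‖s.1 - t.1‖ + ‖s.2.1 - t.2.1‖ + ‖s.2.2 - t.2.2‖

/-- locally bounded and locally Lipschitz -/
def NodeLip_F (f : St 𝕜 → 𝕜) : Prop :=
  ∀ B : ℝ, ∃ C : ℝ, 0 ≤ C ∧ (∀ s, NodeLip_nb B s → ‖f s‖ ≤ C) ∧
    ∀ s t, NodeLip_nb B s → NodeLip_nb B t → ‖f s - f t‖ ≤ C * NodeLip_nd s t

/-- the same for maps of states -/
def NodeLip_S (G : St 𝕜 → St 𝕜) : Prop :=
  NodeLip_F (fun s => (G s).1) ∧ NodeLip_F (fun s => (G s).2.1) ∧ NodeLip_F (fun s => (G s).2.2)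

theorem NodeLip_nd_nonneg (s t : St 𝕜) : 0 ≤ NodeLip_nd s t := by
  unfold NodeLip_nd
  positivity

theorem NodeLip_c1 : NodeLip_F (fun s : St 𝕜 => s.1) := by
  intro B
  refine ⟨max B 1, le_trans zero_le_one (le_max_right _ _), fun s hs => hs.1.trans (le_max_left _ _),
    fun s t _ _ => ?_⟩
  have h1 : ‖s.1 - t.1‖ ≤ NodeLip_nd s t := by
    unfold NodeLip_nd
    linarith [norm_nonneg (s.2.1 - t.2.1), norm_nonneg (s.2.2 - t.2.2)]
  have h2 := NodeLip_nd_nonneg s t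
  calc ‖s.1 - t.1‖ ≤ 1 * NodeLip_nd s t := by linarith
    _ ≤ max B 1 * NodeLip_nd s t := mul_le_mul_of_nonneg_right (le_max_right _ _) h2

theorem NodeLip_c2 : NodeLip_F (fun s : St 𝕜 => s.2.1) := by
  intro B
  refine ⟨max B 1, le_trans zero_le_one (le_max_right _ _),
    fun s hs => hs.2.1.trans (le_max_left _ _), fun s t _ _ => ?_⟩
  have h1 : ‖s.2.1 - t.2.1‖ ≤ NodeLip_nd s t := by
    unfold NodeLip_nd
    linarith [norm_nonneg (s.1 - t.1), norm_nonneg (s.2.2 - t.2.2)]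
  have h2 := NodeLip_nd_nonneg s t
  calc ‖s.2.1 - t.2.1‖ ≤ 1 * NodeLip_nd s t := by linarith
    _ ≤ max B 1 * NodeLip_nd s t := mul_le_mul_of_nonneg_right (le_max_right _ _) h2

theorem NodeLip_c3 : NodeLip_F (fun s : St 𝕜 => s.2.2) := by
  intro B
  refine ⟨max B 1, le_trans zero_le_one (le_max_right _ _),
    fun s hs => hs.2.2.trans (le_max_left _ _), fun s t _ _ => ?_⟩
  have h1 : ‖s.2.2 - t.2.2‖ ≤ NodeLip_nd s t := by
    unfold NodeLip_nd
    linarith [norm_nonneg (s.1 - t.1), norm_nonneg (s.2.1 - t.2.1)]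
  have h2 := NodeLip_nd_nonneg s t
  calc ‖s.2.2 - t.2.2‖ ≤ 1 * NodeLip_nd s t := by linarith
    _ ≤ max B 1 * NodeLip_nd s t := mul_le_mul_of_nonneg_right (le_max_right _ _) h2

theorem NodeLip_F.sub {f g : St 𝕜 → 𝕜} (hf : NodeLip_F f) (hg : NodeLip_F g) :
    NodeLip_F (fun s => f s - g s) := by
  intro B
  obtain ⟨C, hC, h1, h2⟩ := hf B
  obtain ⟨D, hD, h3, h4⟩ := hg B
  refine ⟨C + D, by linarith, fun s hs => ?_, fun s t hs ht => ?_⟩
  · exact (norm_sub_le _ _).trans (add_le_add (h1 s hs) (h3 s hs))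
  · have h5 : f s - g s - (f t - g t) = (f s - f t) - (g s - g t) := by ring
    rw [h5, add_mul]
    exact (norm_sub_le _ _).trans (add_le_add (h2 s t hs ht) (h4 s t hs ht))

theorem NodeLip_F.mul {f g : St 𝕜 → 𝕜} (hf : NodeLip_F f) (hg : NodeLip_F g) :
    NodeLip_F (fun s => f s * g s) := by
  intro B
  obtain ⟨C, hC, h1, h2⟩ := hf B
  obtain ⟨D, hD, h3, h4⟩ := hg B
  refine ⟨2 * (C * D), by positivity, fun s hs => ?_, fun s t hs ht => ?_⟩
  · rw [norm_mul]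
    have := mul_le_mul (h1 s hs) (h3 s hs) (norm_nonneg _) hC
    have : 0 ≤ C * D := mul_nonneg hC hD
    linarith
  · have h5 : f s * g s - f t * g t = (f s - f t) * g s + f t * (g s - g t) := by ring
    have h6 := NodeLip_nd_nonneg s t
    have h7 : ‖(f s - f t) * g s‖ ≤ C * NodeLip_nd s t * D := by
      rw [norm_mul]
      exact mul_le_mul (h2 s t hs ht) (h3 s hs) (norm_nonneg _) (mul_nonneg hC h6)
    have h8 : ‖f t * (g s - g t)‖ ≤ C * (D * NodeLip_nd s t) := by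
      rw [norm_mul]
      exact mul_le_mul (h1 t ht) (h4 s t hs ht) (norm_nonneg _) hC
    rw [h5]
    refine (norm_add_le _ _).trans ((add_le_add h7 h8).trans (le_of_eq ?_))
    ring

theorem NodeLip_F.comp {f : St 𝕜 → 𝕜} {G : St 𝕜 → St 𝕜} (hf : NodeLip_F f) (hG : NodeLip_S G) :
    NodeLip_F (fun s => f (G s)) := by
  intro B
  obtain ⟨C1, hC1, a1, b1⟩ := hG.1 B
  obtain ⟨C2, hC2, a2, b2⟩ := hG.2.1 B
  obtain ⟨C3, hC3, a3, b3⟩ := hG.2.2 B
  obtain ⟨C, hC, h1, h2⟩ := hf (C1 + C2 + C3)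
  have hb : ∀ s, NodeLip_nb B s → NodeLip_nb (C1 + C2 + C3) (G s) := fun s hs =>
    ⟨(a1 s hs).trans (by linarith), (a2 s hs).trans (by linarith), (a3 s hs).trans (by linarith)⟩
  refine ⟨C + C * (C1 + C2 + C3), by positivity, fun s hs => ?_, fun s t hs ht => ?_⟩
  · have := h1 (G s) (hb s hs)
    have : 0 ≤ C * (C1 + C2 + C3) := by positivity
    linarith
  · have h3 := h2 (G s) (G t) (hb s hs) (hb t ht)
    have h4 : NodeLip_nd (G s) (G t) ≤ (C1 + C2 + C3) * NodeLip_nd s t := by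
      unfold NodeLip_nd at b1 b2 b3 ⊢
      have e1 := b1 s t hs ht
      have e2 := b2 s t hs ht
      have e3 := b3 s t hs ht
      linarith
    have h5 := mul_le_mul_of_nonneg_left h4 hC
    have h6 : 0 ≤ C * NodeLip_nd s t := mul_nonneg hC (NodeLip_nd_nonneg s t)
    calc ‖f (G s) - f (G t)‖ ≤ C * NodeLip_nd (G s) (G t) := h3
      _ ≤ C * ((C1 + C2 + C3) * NodeLip_nd s t) := h5
      _ ≤ (C + C * (C1 + C2 + C3)) * NodeLip_nd s t := by linarith

theorem NodeLip_S.comp {F G : St 𝕜 → St 𝕜} (hF : NodeLip_S F) (hG : NodeLip_S G) :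
    NodeLip_S (fun s => F (G s)) :=
  ⟨NodeLip_F.comp (f := fun s => (F s).1) hF.1 hG,
    NodeLip_F.comp (f := fun s => (F s).2.1) hF.2.1 hG,
    NodeLip_F.comp (f := fun s => (F s).2.2) hF.2.2 hG⟩

theorem NodeLip_uu (p : ℕ) : NodeLip_F (fun s : St 𝕜 => uu s p) := by
  induction p using Nat.twoStepInduction with
  | zero => exact NodeLip_c1
  | one => exact NodeLip_c3
  | more p h1 h2 => exact (NodeLip_c2.mul h2).sub h1

theorem NodeLip_ww (p : ℕ) : NodeLip_F (fun s : St 𝕜 => ww s p) := by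
  induction p using Nat.twoStepInduction with
  | zero => exact NodeLip_c3
  | one => exact NodeLip_c2
  | more p h1 h2 => exact (NodeLip_c1.mul h2).sub h1

theorem NodeLip_fwd1 (b : ℕ) : NodeLip_S (fun s : St 𝕜 => fwd1 b s) :=
  ⟨NodeLip_c2, NodeLip_uu b, NodeLip_uu (b + 1)⟩

theorem NodeLip_bwd1 (b : ℕ) : NodeLip_S (fun s : St 𝕜 => bwd1 b s) :=
  ⟨NodeLip_ww (b + 1), NodeLip_c1, NodeLip_ww b⟩

theorem NodeLip_id : NodeLip_S (fun s : St 𝕜 => s) := ⟨NodeLip_c1, NodeLip_c2, NodeLip_c3⟩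

theorem NodeLip_fwd (l : List ℕ) : NodeLip_S (fun s : St 𝕜 => fwd l s) := by
  induction l with
  | nil => exact NodeLip_id
  | cons b l ih => exact ih.comp (NodeLip_fwd1 b)

theorem NodeLip_bwd (l : List ℕ) : NodeLip_S (fun s : St 𝕜 => bwd l s) := by
  induction l with
  | nil => exact NodeLip_id
  | cons b l ih => exact (NodeLip_bwd1 b).comp ih

/-- the state of the node -/
def NodeLip_node (p : ℕ) (s : St 𝕜) : St 𝕜 := (uu s p, s.2.1, uu s (p + 1))

theorem NodeLip_nodeS (p : ℕ) : NodeLip_S (fun s : St 𝕜 => NodeLip_node p s) :=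
  ⟨NodeLip_uu p, NodeLip_c2, NodeLip_uu (p + 1)⟩

end lip

/-- Lipschitz bound for maps of states -/
theorem NodeLip_S.lip {G : St ℝ → St ℝ} (hG : NodeLip_S G) (B : ℝ) :
    ∃ C : ℝ, 1 ≤ C ∧ ∀ s t, NodeLip_nb B s → NodeLip_nb B t → sd (G s) (G t) ≤ C * sd s t := by
  obtain ⟨C1, hC1, _, b1⟩ := hG.1 B
  obtain ⟨C2, hC2, _, b2⟩ := hG.2.1 B
  obtain ⟨C3, hC3, _, b3⟩ := hG.2.2 B
  refine ⟨C1 + C2 + C3 + 1, by linarith, fun s t hs ht => ?_⟩
  have e1 := b1 s t hs ht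
  have e2 := b2 s t hs ht
  have e3 := b3 s t hs ht
  have e0 : NodeLip_nd s t = sd s t := rfl
  rw [e0, Real.norm_eq_abs] at e1 e2 e3
  have e4 : 0 ≤ sd s t := by
    unfold sd
    positivity
  have e5 : sd (G s) (G t) = |(G s).1 - (G t).1| + |(G s).2.1 - (G t).2.1| +
    |(G s).2.2 - (G t).2.2| := rfl
  rw [e5]
  nlinarith

theorem NodeLip_RR_pos {lam : ℝ} (hlam : 0 < lam) : RR lam ≤ K0 lam := by
  have h := two_lt_RR hlam
  unfold K0
  nlinarith

theorem NodeLip_bound {lam : ℝ} (hlam : 0 < lam) (l : List ℕ) (hl : Pos l) (φ : ℝ)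
    (h : |TR lam l φ| < RR lam) : NodeLip_nb (K0 lam) (str lam l φ) := by
  have h1 := st_ofReal lam l φ
  have h2 := coord_bound hlam l hl (φ : ℂ) (by
    rw [h1]
    simp only [Complex.norm_real, Real.norm_eq_abs]
    exact h.le)
  rw [h1] at h2
  simp only [Complex.norm_real] at h2
  refine ⟨?_, h2.1, h2.2⟩
  rw [Real.norm_eq_abs]
  exact h.le.trans (NodeLip_RR_pos hlam)

theorem NodeLip_to (lam : ℝ) (b : ℕ → ℕ) (j p : ℕ) (hp : p ≤ b j) (M : ℕ) (hM : j + 1 ≤ M)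
    (φ : ℝ) :
    str lam (ndl b M j p) φ = NodeLip_node p (fwd (lM b j) (str lam (lM b M) φ)) := by
  have h1 := fwd_take_str lam (lM b M) j φ
  rw [NodeLip_take b M j (by omega), NodeLip_cons b M j hM] at h1
  rw [h1]
  exact node_str lam (b j) p hp _ φ

theorem NodeLip_toC (lam : ℝ) (b : ℕ → ℕ) (j p : ℕ) (hp : p ≤ b j) (M : ℕ) (hM : j + 1 ≤ M)
    (φ : ℂ) :
    st lam (ndl b M j p) φ = NodeLip_node p (fwd (lM b j) (st lam (lM b M) φ)) := by
  have h1 := fwd_take_st lam (lM b M) j φ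
  rw [NodeLip_take b M j (by omega), NodeLip_cons b M j hM] at h1
  rw [h1]
  exact node_st lam (b j) p hp _ φ

theorem NodeLip_from (lam : ℝ) (b : ℕ → ℕ) (j p : ℕ) (M : ℕ) (hM : j + 1 ≤ M)
    (φ : ℝ) :
    str lam (lM b M) φ =
      bwd (lM b j) (bwd1 (b j) (fwd1 (b j - p) (str lam (ndl b M j p) φ))) := by
  unfold ndl
  rw [fwd1_str, ← str_cons, ← NodeLip_cons b M j hM]
  have h1 : lM b M = lM b j ++ (lM b M).drop j := by
    rw [← NodeLip_take b M j (by omega), List.take_append_drop]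
  conv_lhs => rw [h1]
  unfold str
  rw [bwd_append]

theorem node_lip {lam : ℝ} (hlam : 0 < lam) (b : ℕ → ℕ) (hb : ∀ k, 1 ≤ b k) (j p : ℕ)
    (hp : p < b j) :
    ∃ C : ℝ, 1 ≤ C ∧ ∀ M : ℕ, j + 1 ≤ M → ∀ φ ψ : ℝ,
      (|TR lam (lM b M) φ| < RR lam → |TR lam (lM b M) ψ| < RR lam →
        sd (str lam (ndl b M j p) φ) (str lam (ndl b M j p) ψ) ≤
          C * sd (str lam (lM b M) φ) (str lam (lM b M) ψ)) ∧
      (|TR lam (ndl b M j p) φ| < RR lam → |TR lam (ndl b M j p) ψ| < RR lam →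
        sd (str lam (lM b M) φ) (str lam (lM b M) ψ) ≤
          C * sd (str lam (ndl b M j p) φ) (str lam (ndl b M j p) ψ)) := by
  have hG : NodeLip_S (fun s : St ℝ => NodeLip_node p (fwd (lM b j) s)) :=
    (NodeLip_nodeS p).comp (NodeLip_fwd (lM b j))
  have hH : NodeLip_S (fun s : St ℝ => bwd (lM b j) (bwd1 (b j) (fwd1 (b j - p) s))) :=
    (NodeLip_bwd (lM b j)).comp ((NodeLip_bwd1 (b j)).comp (NodeLip_fwd1 (b j - p)))
  obtain ⟨C, hC, h1⟩ := hG.lip (K0 lam)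
  obtain ⟨D, hD, h2⟩ := hH.lip (K0 lam)
  refine ⟨C + D, by linarith, fun M hM φ ψ => ⟨fun hφ hψ => ?_, fun hφ hψ => ?_⟩⟩
  · have h3 := h1 _ _ (NodeLip_bound hlam _ (lM_pos hb M) φ hφ)
      (NodeLip_bound hlam _ (lM_pos hb M) ψ hψ)
    simp only [← NodeLip_to lam b j p hp.le M hM] at h3
    refine h3.trans (mul_le_mul_of_nonneg_right (by linarith) ?_)
    unfold sd
    positivity
  · have h3 := h2 _ _ (NodeLip_bound hlam _ (ndl_pos hb M j p hp) φ hφ)
      (NodeLip_bound hlam _ (ndl_pos hb M j p hp) ψ hψ)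
    simp only [← NodeLip_from lam b j p M hM] at h3
    refine h3.trans (mul_le_mul_of_nonneg_right (by linarith) ?_)
    unfold sd
    positivity

theorem node_fun {lam : ℝ} (hlam : 0 < lam) (b : ℕ → ℕ) (hb : ∀ k, 1 ≤ b k) (j p : ℕ)
    (hp : p < b j) :
    ∃ C : ℝ, 1 ≤ C ∧ ∀ M : ℕ, j + 1 ≤ M → ∀ g : ℂ → ℂ, Passage lam (lM b M) g →
      ∀ t t' : ℝ, |t| ≤ vr lam → |t'| ≤ vr lam →
        |TR lam (ndl b M j p) (gr g t') - TR lam (ndl b M j p) (gr g t)| ≤
          |deriv (TR lam (ndl b M j p)) (gr g t)| / |deriv (TR lam (lM b M)) (gr g t)| * |t' - t|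
            + C * |t' - t| ^ 2 := by
  have hf : NodeLip_F (fun s : St ℂ => uu (fwd (lM b j) s) p) :=
    (NodeLip_uu p).comp (NodeLip_fwd (lM b j))
  obtain ⟨C1, hC1, hb1, _⟩ := hf (K0 lam)
  obtain ⟨C2, hC2, htay⟩ := passage_taylor hlam
  refine ⟨C2 * C1 + 1, by nlinarith, fun M hM g hg t t' ht ht' => ?_⟩
  have hR := two_lt_RR hlam
  have hvr : vr lam < RR lam := by
    unfold vr
    linarith
  set F : ℂ → ℂ := fun w => uu (fwd (lM b j) (st lam (lM b M) (g w))) p with hF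
  have hFd : ∀ w ∈ ball (0 : ℂ) (RR lam), DifferentiableAt ℂ F w := by
    intro w hw
    have h1 : DifferentiableAt ℂ g w := (hg.diff w hw).differentiableAt (isOpen_ball.mem_nhds hw)
    have h2 : DifferentiableAt ℂ (fun w => st lam (lM b M) (g w)) w :=
      (differentiable_st lam (lM b M) (g w)).comp w h1
    exact (hasDerivAt_uu (hasDerivAt_fwd h2.hasDerivAt (lM b j)) p).differentiableAt
  have hFb : ∀ w ∈ ball (0 : ℂ) (RR lam), ‖F w‖ ≤ C1 := by
    intro w hw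
    have h1 : ‖(st lam (lM b M) (g w)).1‖ ≤ RR lam := by
      have h2 := hg.inv w hw
      unfold TT at h2
      rw [h2]
      exact (mem_ball_zero_iff.mp hw).le
    have h3 := coord_bound hlam _ (lM_pos hb M) (g w) h1
    exact hb1 _ ⟨h1.trans (NodeLip_RR_pos hlam), h3.1, h3.2⟩
  have hTay := (htay F C1 (fun w hw => (hFd w hw).differentiableWithinAt) hFb t t' ht ht').1
  have hval : ∀ x : ℝ, |x| < RR lam → F (x : ℂ) = (TR lam (ndl b M j p) (gr g x) : ℂ) := by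
    intro x hx
    rw [hF]
    simp only
    rw [(passage_ofReal (lM b M) hg hx).1, ← TT_ofReal]
    unfold TT
    rw [NodeLip_toC lam b j p hp.le M hM]
    rfl
  have ht1 : |t| < RR lam := lt_of_le_of_lt ht hvr
  have ht1' : |t'| < RR lam := lt_of_le_of_lt ht' hvr
  have htb : (t : ℂ) ∈ ball (0 : ℂ) (RR lam) := by
    rw [mem_ball_zero_iff, Complex.norm_real]
    exact ht1
  have hder : deriv F (t : ℂ) = ((deriv (TR lam (ndl b M j p)) (gr g t) *
      (deriv (TR lam (lM b M)) (gr g t))⁻¹ : ℝ) : ℂ) := by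
    have h1 : HasDerivAt (fun x : ℝ => F (x : ℂ)) (deriv F (t : ℂ)) t :=
      (hFd t htb).hasDerivAt.comp_ofReal
    have h2 : HasDerivAt (fun x : ℝ => TR lam (ndl b M j p) (gr g x))
        (deriv (TR lam (ndl b M j p)) (gr g t) * (deriv (TR lam (lM b M)) (gr g t))⁻¹) t := by
      have h3 : DifferentiableAt ℝ (TR lam (ndl b M j p)) (gr g t) :=
        (differentiable_str lam (ndl b M j p) (gr g t)).fst
      exact h3.hasDerivAt.comp t (hasDerivAt_gr hlam (lM b M) (lM_pos hb M) hg ht1)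
    have h4 : HasDerivAt (fun x : ℝ => F (x : ℂ)) ((deriv (TR lam (ndl b M j p)) (gr g t) *
      (deriv (TR lam (lM b M)) (gr g t))⁻¹ : ℝ) : ℂ) t := by
      refine h2.ofReal_comp.congr_of_eventuallyEq ?_
      have h5 : {x : ℝ | |x| < RR lam} ∈ nhds t :=
        (isOpen_lt continuous_abs continuous_const).mem_nhds ht1
      filter_upwards [h5] with x hx
      exact hval x hx
    exact h1.unique h4
  rw [hval t ht1, hval t' ht1', hder] at hTay
  have h6 : |TR lam (ndl b M j p) (gr g t') - TR lam (ndl b M j p) (gr g t) -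
      deriv (TR lam (ndl b M j p)) (gr g t) * (deriv (TR lam (lM b M)) (gr g t))⁻¹ *
        (t' - t)| ≤ C2 * C1 * |t' - t| ^ 2 := by
    have h7 : ((TR lam (ndl b M j p) (gr g t') : ℝ) : ℂ) - (TR lam (ndl b M j p) (gr g t) : ℝ) -
        ((deriv (TR lam (ndl b M j p)) (gr g t) *
          (deriv (TR lam (lM b M)) (gr g t))⁻¹ : ℝ) : ℂ) * ((t' : ℂ) - t) =
        ((TR lam (ndl b M j p) (gr g t') - TR lam (ndl b M j p) (gr g t) -
      deriv (TR lam (ndl b M j p)) (gr g t) * (deriv (TR lam (lM b M)) (gr g t))⁻¹ *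
        (t' - t) : ℝ) : ℂ) := by
      push_cast
      ring
    rw [h7, Complex.norm_real, Real.norm_eq_abs] at hTay
    exact hTay
  have h8 : |deriv (TR lam (ndl b M j p)) (gr g t) * (deriv (TR lam (lM b M)) (gr g t))⁻¹ *
        (t' - t)| = |deriv (TR lam (ndl b M j p)) (gr g t)| /
          |deriv (TR lam (lM b M)) (gr g t)| * |t' - t| := by
    rw [abs_mul, abs_mul, abs_inv, div_eq_mul_inv]
  have h9 := abs_sub_abs_le_abs_sub
    (TR lam (ndl b M j p) (gr g t') - TR lam (ndl b M j p) (gr g t))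
    (deriv (TR lam (ndl b M j p)) (gr g t) * (deriv (TR lam (lM b M)) (gr g t))⁻¹ * (t' - t))
  rw [h8] at h9
  have h10 : 0 ≤ |t' - t| ^ 2 := by positivity
  nlinarith

end Sturm
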