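import Pool.Agent.Lib.MP_e5ebf6_mp.Holder
import Pool.Agent.Lib.MP_e5ebf6_mp.NodeLip
import Pool.Agent.Lib.MP_e5ebf6_mp.InfContr

/-! Module LocalStep: one small step along a passage costs only a tiny loss in the exponent. -/

open Complex Metric Set
noncomputable section
namespace Sturm

private theorem sd_nonneg (s t : St ℝ) : 0 ≤ sd s t := by unfold sd; positivity

private theorem sd_comm (s t : St ℝ) : sd s t = sd t s := by
  unfold sd; rw [abs_sub_comm s.1, abs_sub_comm s.2.1, abs_sub_comm s.2.2]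

private theorem sd_triangle (s t u : St ℝ) : sd s u ≤ sd s t + sd t u := by
  unfold sd
  have h1 := abs_sub_le s.1 t.1 u.1
  have h2 := abs_sub_le s.2.1 t.2.1 u.2.1
  have h3 := abs_sub_le s.2.2 t.2.2 u.2.2
  linarith

private theorem sd_fst_le (s t : St ℝ) : |s.1 - t.1| ≤ sd s t := by
  unfold sd
  have := abs_nonneg (s.2.1 - t.2.1)
  have := abs_nonneg (s.2.2 - t.2.2)
  linarith

private theorem continuous_TR (lam : ℝ) (l : List ℕ) : Continuous (TR lam l) :=
  (differentiable_str lam l).continuous.fst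

private theorem vr_bounds {lam : ℝ} (hlam : 0 < lam) : 2 < vr lam ∧ vr lam < RR lam := by
  have := two_lt_RR hlam
  unfold vr
  constructor <;> linarith

/-- undirected version of `passage_path` -/
private theorem passage_path' {lam : ℝ} (hlam : 0 < lam) (l : List ℕ) (hl : Pos l) {g : ℂ → ℂ}
    (h : Passage lam l g) {γ : ℝ → ℝ} {a b : ℝ} (hγ : ContinuousOn γ (uIcc a b))
    (hT : ∀ t ∈ uIcc a b, |TR lam l (γ t)| < RR lam) (ha : gr g (TR lam l (γ a)) = γ a) :
    ∀ t ∈ uIcc a b, gr g (TR lam l (γ t)) = γ t := by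
  rcases le_total a b with hab | hab
  · rw [uIcc_of_le hab] at *
    exact passage_path hlam l hl h hab hγ hT ha
  · rw [uIcc_of_ge hab] at *
    have hγ' : ContinuousOn (fun s => γ (-s)) (Icc (-a) (-b)) := by
      refine hγ.comp continuous_neg.continuousOn ?_
      intro s hs
      exact ⟨by linarith [hs.2], by linarith [hs.1]⟩
    have key := passage_path hlam l hl h (γ := fun s => γ (-s)) (a := -a) (b := -b)
      (by linarith) hγ' (fun s hs => hT (-s) ⟨by linarith [hs.2], by linarith [hs.1]⟩)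
      (by simpa using ha)
    intro t ht
    have := key (-t) ⟨by linarith [ht.2], by linarith [ht.1]⟩
    simpa using this

/-- the step through one fixed node `(j, p)` -/
theorem node_step {lam : ℝ} (hlam : 0 < lam) (b : ℕ → ℕ) (hb : ∀ k, 1 ≤ b k) (j p : ℕ)
    (hp : p < b j) (η : ℝ) (hη : 0 < η) (hη1 : η ≤ 1) :
    ∃ C δ0 h : ℝ, 1 ≤ C ∧ 0 < δ0 ∧ 0 < h ∧ ∀ M : ℕ, j + 1 ≤ M →
      ∀ g₁ g₂ : ℂ → ℂ, Passage lam (lM b M) g₁ → Passage lam (lM b M) g₂ →
      ∀ t t' : ℝ, |t| ≤ 2 → |t'| ≤ 2 → |t' - t| ≤ h →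
        |TR lam (ndl b M j p) (gr g₁ t)| ≤ 2 →
        |deriv (TR lam (ndl b M j p)) (gr g₁ t)| ≤ η * |deriv (TR lam (lM b M)) (gr g₁ t)| →
        qd lam (lM b M) g₁ g₂ t ≤ δ0 →
        qd lam (lM b M) g₁ g₂ t' ≤
          C * qd lam (lM b M) g₁ g₂ t ^ (1 - 4 / (RR lam - vr lam) * η * |t' - t|) := by
  obtain ⟨CL, hCL1, hCL⟩ := node_lip hlam b hb j p hp
  obtain ⟨CF, hCF1, hCF⟩ := node_fun hlam b hb j p hp
  obtain ⟨CP, hCP0, hCP⟩ := passage_lip hlam
  obtain ⟨Ch, hCh1, hCh⟩ := holder hlam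
  obtain ⟨hv2, hvR⟩ := vr_bounds hlam
  set R := RR lam with hR
  set v := vr lam with hv
  have hRv : 0 < R - v := by linarith
  set C1 : ℝ := CL + CP * CL with hC1
  have hC1' : 1 ≤ C1 := by nlinarith only [hCL1, hCP0]
  -- the constants
  set δ0 : ℝ := min 1 (min ((v - 2) / (CL * CL * (1 + CP))) (min (1 / C1)
    (((v - 2) / (CL * (Ch * C1))) ^ 2))) with hδ0
  set h : ℝ := min (η / CF) (min ((v - 2) / 2) (min ((R - v) / 4) ((R - v) / 8))) with hh
  have hCLpos : 0 < CL := by linarith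
  have hCFpos : 0 < CF := by linarith
  have hChpos : 0 < Ch := by linarith
  have hC1pos : 0 < C1 := by linarith
  have hδpos : 0 < δ0 := by
    have h1 : 0 < v - 2 := by linarith
    rw [hδ0]
    refine lt_min one_pos (lt_min ?_ (lt_min ?_ ?_)) <;> positivity
  have hhpos : 0 < h := by
    have h1 : 0 < v - 2 := by linarith
    rw [hh]
    refine lt_min ?_ (lt_min ?_ (lt_min ?_ ?_)) <;> positivity
  have hδ1 : δ0 ≤ 1 := min_le_left _ _
  have hδa : CL * CL * (1 + CP) * δ0 ≤ v - 2 := by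
    have : δ0 ≤ (v - 2) / (CL * CL * (1 + CP)) := (min_le_right _ _).trans (min_le_left _ _)
    rw [le_div_iff₀ (by positivity)] at this
    linarith
  have hδb : C1 * δ0 ≤ 1 := by
    have : δ0 ≤ 1 / C1 := (min_le_right _ _).trans ((min_le_right _ _).trans (min_le_left _ _))
    rw [le_div_iff₀ (by positivity)] at this
    linarith
  have hδc : CL * (Ch * C1) * Real.sqrt δ0 ≤ v - 2 := by
    have : δ0 ≤ ((v - 2) / (CL * (Ch * C1))) ^ 2 :=
      (min_le_right _ _).trans ((min_le_right _ _).trans (min_le_right _ _))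
    have h2 : Real.sqrt δ0 ≤ (v - 2) / (CL * (Ch * C1)) := by
      rw [Real.sqrt_le_left (by have : 0 < v - 2 := by linarith
                                positivity)]
      exact this
    rw [le_div_iff₀ (by positivity)] at h2
    linarith
  have hha : CF * h ≤ η := by
    have : h ≤ η / CF := min_le_left _ _
    rw [le_div_iff₀ (by positivity)] at this
    linarith
  have hhb : 2 * h ≤ v - 2 := by
    have : h ≤ (v - 2) / 2 := (min_le_right _ _).trans (min_le_left _ _)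
    linarith
  have hhc : 2 * h ≤ (R - v) / 2 := by
    have : h ≤ (R - v) / 4 := (min_le_right _ _).trans ((min_le_right _ _).trans (min_le_left _ _))
    linarith
  have hhd : 8 * h ≤ R - v := by
    have : h ≤ (R - v) / 8 := (min_le_right _ _).trans ((min_le_right _ _).trans (min_le_right _ _))
    linarith
  refine ⟨C1 * (Ch * C1), δ0, h, by nlinarith only [hC1', hCL1, hCP0, hCh1, mul_le_mul hCh1 hC1' zero_le_one (by linarith)],
    hδpos, hhpos, ?_⟩
  intro M hM g₁ g₂ hg₁ hg₂ t t' ht ht' htt hT1 hder hq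
  set A := lM b M with hA
  set N := ndl b M j p with hN
  have hApos : Pos A := lM_pos hb M
  have hNpos : Pos N := ndl_pos hb M j p hp
  set q := qd lam A g₁ g₂ t with hqdef
  have hq0 : 0 ≤ q := sd_nonneg _ _
  have ht_lt : |t| < R := by linarith
  have ht'_lt : |t'| < R := by linarith
  set φ₁ := gr g₁ t with hφ₁
  set φ₂ := gr g₂ t with hφ₂
  have hTA1 : TR lam A φ₁ = t := (passage_ofReal A hg₁ ht_lt).2
  have hTA2 : TR lam A φ₂ = t := (passage_ofReal A hg₂ ht_lt).2
  set T1 := TR lam N φ₁ with hT1def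
  set T2 := TR lam N φ₂ with hT2def
  have hnode : sd (str lam N φ₁) (str lam N φ₂) ≤ CL * q := by
    have := (hCL M hM φ₁ φ₂).1 (by rw [hTA1]; exact ht_lt) (by rw [hTA2]; exact ht_lt)
    exact this
  have hT12 : |T1 - T2| ≤ CL * q := (sd_fst_le _ _).trans hnode
  have hCLq : CL * q ≤ v - 2 := by
    have h1 : CL * q ≤ CL * δ0 := mul_le_mul_of_nonneg_left hq hCLpos.le
    have h2 : CL * δ0 ≤ CL * CL * (1 + CP) * δ0 := by
      have : 1 ≤ CL * (1 + CP) := by nlinarith only [hC1']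
      have h3 := mul_le_mul_of_nonneg_left this (mul_pos hCLpos hδpos).le
      nlinarith only [h3]
    linarith
  have hT2v : |T2| ≤ v := by
    have : |T2| ≤ |T1| + |T1 - T2| := by
      have := abs_sub_abs_le_abs_sub T2 T1
      rw [abs_sub_comm T2 T1] at this
      linarith only [this]
    linarith
  have hT1R : |T1| < R := by linarith
  have hT2R : |T2| < R := by linarith
  obtain ⟨h₁, hh₁, hh₁'⟩ := exists_passage hlam N hNpos φ₁ hT1R
  obtain ⟨h₂, hh₂, hh₂'⟩ := exists_passage hlam N hNpos φ₂ hT2R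
  -- the function F
  set F : ℝ → ℝ := fun s => TR lam N (gr g₁ s) with hF
  have habs : ∀ s ∈ uIcc t t', |s| ≤ 2 ∧ |s - t| ≤ |t' - t| := by
    intro s hs
    rw [mem_uIcc] at hs
    rw [abs_le] at ht ht'
    constructor
    · rw [abs_le]
      rcases hs with hs | hs <;> constructor <;> linarith [ht.1, ht.2, ht'.1, ht'.2, hs.1, hs.2]
    · rcases hs with hs | hs
      · rw [abs_of_nonneg (by linarith [hs.1]), abs_of_nonneg (by linarith [hs.1, hs.2])]
        linarith only [hs, hs.2]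
      · rw [abs_of_nonpos (by linarith [hs.2]), abs_of_nonpos (by linarith [hs.1, hs.2])]
        linarith [hs.1]
  have hratio : |deriv (TR lam N) φ₁| / |deriv (TR lam A) φ₁| ≤ η := by
    rcases (abs_nonneg (deriv (TR lam A) φ₁)).eq_or_lt with h0 | h0
    · rw [← h0]; simp [hη.le]
    · rw [div_le_iff₀ h0]; exact hder
  have hFs : ∀ s ∈ uIcc t t', |F s - T1| ≤ 2 * η * |s - t| := by
    intro s hs
    obtain ⟨hs2, hst⟩ := habs s hs
    have h1 := hCF M hM g₁ hg₁ t s (by linarith only [hhb, hhpos, ht]) (by linarith)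
    have h2 : |s - t| ≤ h := hst.trans htt
    have h0 := abs_nonneg (s - t)
    calc |F s - T1| ≤ |deriv (TR lam N) φ₁| / |deriv (TR lam A) φ₁| * |s - t| + CF * |s - t| ^ 2 := h1
      _ ≤ η * |s - t| + (CF * h) * |s - t| := by
          have e1 := mul_le_mul_of_nonneg_right hratio h0
          have e2 : CF * |s - t| ^ 2 ≤ (CF * h) * |s - t| := by
            have := mul_le_mul_of_nonneg_left h2 (mul_nonneg hCFpos.le h0)
            nlinarith only [this]
          linarith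
      _ ≤ η * |s - t| + η * |s - t| := by
          have := mul_le_mul_of_nonneg_right hha h0
          linarith
      _ = 2 * η * |s - t| := by ring
  have hFsmall : ∀ s ∈ uIcc t t', |F s - T1| ≤ 2 * h := by
    intro s hs
    have h1 := hFs s hs
    obtain ⟨hs2, hst⟩ := habs s hs
    have h2 : |s - t| ≤ h := hst.trans htt
    have : 2 * η * |s - t| ≤ 2 * 1 * h := by
      apply mul_le_mul _ h2 (abs_nonneg _) (by norm_num)
      linarith
    linarith
  have hFv : ∀ s ∈ uIcc t t', |F s| ≤ v := by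
    intro s hs
    have h1 := hFsmall s hs
    have : |F s| ≤ |T1| + |F s - T1| := by
      have := abs_sub_abs_le_abs_sub (F s) T1
      linarith
    linarith
  have hFcont : ContinuousOn F (uIcc t t') := by
    refine (continuous_TR lam N).comp_continuousOn ?_
    refine (continuousOn_gr hlam A hApos hg₁).mono ?_
    intro s hs
    obtain ⟨hs2, -⟩ := habs s hs
    rw [abs_le] at hs2
    exact ⟨by linarith [hs2.1], by linarith [hs2.2]⟩
  have hgcont : ContinuousOn (gr g₁) (uIcc t t') := by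
    refine (continuousOn_gr hlam A hApos hg₁).mono ?_
    intro s hs
    obtain ⟨hs2, -⟩ := habs s hs
    rw [abs_le] at hs2
    exact ⟨by linarith [hs2.1], by linarith [hs2.2]⟩
  -- g₁ lies on h₁
  have hpath1 : ∀ s ∈ uIcc t t', gr h₁ (F s) = gr g₁ s := by
    apply passage_path' hlam N hNpos hh₁ hgcont
    · intro s hs
      have := hFv s hs
      exact lt_of_le_of_lt this hvR
    · exact hh₁'
  set ρ : ℝ → ℝ := fun s => qd lam N h₁ h₂ (F s) with hρ
  have hρ0 : ∀ s, 0 ≤ ρ s := fun s => sd_nonneg _ _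
  have hFt : F t = T1 := rfl
  have hρt : qd lam N h₁ h₂ T1 ≤ C1 * q := by
    have e1 : sd (str lam N (gr h₁ T1)) (str lam N (gr h₂ T1)) ≤
        sd (str lam N φ₁) (str lam N φ₂) + sd (str lam N (gr h₂ T2)) (str lam N (gr h₂ T1)) := by
      rw [hh₁', hh₂']
      exact sd_triangle _ _ _
    have e2 : sd (str lam N (gr h₂ T2)) (str lam N (gr h₂ T1)) ≤ CP * |T2 - T1| :=
      hCP N hNpos h₂ hh₂ T2 T1 hT2v (by linarith)
    have e3 : CP * |T2 - T1| ≤ CP * (CL * q) := by
      apply mul_le_mul_of_nonneg_left _ hCP0.le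
      rw [abs_sub_comm]; exact hT12
    unfold qd
    calc _ ≤ CL * q + CP * (CL * q) := by linarith
      _ = C1 * q := by rw [hC1]; ring
  have hC1q : C1 * q ≤ 1 := (mul_le_mul_of_nonneg_left hq hC1pos.le).trans hδb
  have hexp : ∀ s ∈ uIcc t t', 1 / 2 ≤ 1 - 4 / (R - v) * η * |s - t| := by
    intro s hs
    obtain ⟨hs2, hst⟩ := habs s hs
    have h2 : |s - t| ≤ h := hst.trans htt
    have h3 : 4 / (R - v) * η * |s - t| ≤ 4 / (R - v) * 1 * h := by
      apply mul_le_mul _ h2 (abs_nonneg _) (by positivity)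
      apply mul_le_mul_of_nonneg_left hη1 (by positivity)
    have h4 : 4 / (R - v) * 1 * h ≤ 1 / 2 := by
      rw [mul_one, div_mul_eq_mul_div, div_le_iff₀ hRv]
      linarith
    linarith
  have hρs : ∀ s ∈ uIcc t t', ρ s ≤ Ch * C1 * q ^ (1 - 4 / (R - v) * η * |s - t|) := by
    intro s hs
    have h1 := hFs s hs
    have h1' : |T1 - F s| ≤ 2 * η * |s - t| := by rw [abs_sub_comm]; exact h1
    have h2 := hFsmall s hs
    have h2' : |T1 - F s| ≤ (R - v) / 2 := by rw [abs_sub_comm]; linarith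
    have h3 := hCh N hNpos h₁ h₂ hh₁ hh₂ T1 (F s) (by linarith) (hFv s hs) h2'
    have he := hexp s hs
    have hee : 1 - 4 / (R - v) * η * |s - t| ≤ 1 - 2 / (R - v) * |T1 - F s| := by
      have := mul_le_mul_of_nonneg_left h1' (show 0 ≤ 2 / (R - v) by positivity)
      have e : 2 / (R - v) * (2 * η * |s - t|) = 4 / (R - v) * η * |s - t| := by ring
      linarith
    have hnn : 0 ≤ qd lam N h₁ h₂ T1 := sd_nonneg _ _
    calc ρ s ≤ Ch * qd lam N h₁ h₂ T1 ^ (1 - 2 / (R - v) * |T1 - F s|) := h3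
      _ ≤ Ch * (C1 * q) ^ (1 - 2 / (R - v) * |T1 - F s|) := by
          apply mul_le_mul_of_nonneg_left _ hChpos.le
          exact Real.rpow_le_rpow hnn hρt (by linarith)
      _ ≤ Ch * (C1 * q) ^ (1 - 4 / (R - v) * η * |s - t|) := by
          apply mul_le_mul_of_nonneg_left _ hChpos.le
          exact Real.rpow_le_rpow_of_exponent_ge' (by positivity) hC1q (by linarith) hee
      _ = Ch * (C1 ^ (1 - 4 / (R - v) * η * |s - t|) * q ^ (1 - 4 / (R - v) * η * |s - t|)) := by
          rw [Real.mul_rpow hC1pos.le hq0]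
      _ ≤ Ch * (C1 * q ^ (1 - 4 / (R - v) * η * |s - t|)) := by
          apply mul_le_mul_of_nonneg_left _ hChpos.le
          apply mul_le_mul_of_nonneg_right _ (Real.rpow_nonneg hq0 _)
          calc C1 ^ (1 - 4 / (R - v) * η * |s - t|) ≤ C1 ^ (1 : ℝ) := by
                apply Real.rpow_le_rpow_of_exponent_le hC1'
                have : 0 ≤ 4 / (R - v) * η * |s - t| := by positivity
                linarith
            _ = C1 := Real.rpow_one _
      _ = Ch * C1 * q ^ (1 - 4 / (R - v) * η * |s - t|) := by ring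
  have hρsmall : ∀ s ∈ uIcc t t', CL * ρ s ≤ v - 2 := by
    intro s hs
    have h1 := hρs s hs
    have he := hexp s hs
    have h2 : q ^ (1 - 4 / (R - v) * η * |s - t|) ≤ Real.sqrt δ0 := by
      rw [Real.sqrt_eq_rpow]
      calc q ^ (1 - 4 / (R - v) * η * |s - t|) ≤ δ0 ^ (1 - 4 / (R - v) * η * |s - t|) :=
            Real.rpow_le_rpow hq0 hq (by linarith)
        _ ≤ δ0 ^ (1 / 2 : ℝ) :=
            Real.rpow_le_rpow_of_exponent_ge' hδpos.le hδ1 (by norm_num) he
    calc CL * ρ s ≤ CL * (Ch * C1 * Real.sqrt δ0) := by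
          apply mul_le_mul_of_nonneg_left _ hCLpos.le
          exact h1.trans (mul_le_mul_of_nonneg_left h2 (by positivity))
      _ = CL * (Ch * C1) * Real.sqrt δ0 := by ring
      _ ≤ v - 2 := hδc
  -- the comparison path
  set ψ : ℝ → ℝ := fun s => gr h₂ (F s) with hψ
  have hψN : ∀ s ∈ uIcc t t', TR lam N (ψ s) = F s := by
    intro s hs
    exact (passage_ofReal N hh₂ (lt_of_le_of_lt (hFv s hs) hvR)).2
  have hψA : ∀ s ∈ uIcc t t', sd (str lam A (gr g₁ s)) (str lam A (ψ s)) ≤ CL * ρ s := by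
    intro s hs
    have hFR : |F s| < R := lt_of_le_of_lt (hFv s hs) hvR
    have := (hCL M hM (gr g₁ s) (ψ s)).2 hFR (by rw [hψN s hs]; exact hFR)
    refine this.trans (le_of_eq ?_)
    rw [hρ]
    simp only [qd, hψ]
    rw [hpath1 s hs]
  have hTRg : ∀ s ∈ uIcc t t', TR lam A (gr g₁ s) = s := by
    intro s hs
    exact (passage_ofReal A hg₁ (by linarith [(habs s hs).1])).2
  have hψT : ∀ s ∈ uIcc t t', |s - TR lam A (ψ s)| ≤ CL * ρ s := by
    intro s hs
    have h1 := (sd_fst_le _ _).trans (hψA s hs)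
    have h2 := hTRg s hs
    unfold TR at h2 ⊢
    rw [h2] at h1
    exact h1
  have hψTv : ∀ s ∈ uIcc t t', |TR lam A (ψ s)| ≤ v := by
    intro s hs
    have h1 := hψT s hs
    have h2 := hρsmall s hs
    have h3 := (habs s hs).1
    have : |TR lam A (ψ s)| ≤ |s| + |s - TR lam A (ψ s)| := by
      have := abs_sub_abs_le_abs_sub (TR lam A (ψ s)) s
      rw [abs_sub_comm] at this
      linarith
    linarith
  -- first leg
  have hleg1 : gr g₂ (TR lam A (gr h₂ T1)) = gr h₂ T1 := by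
    have hab : ∀ τ ∈ uIcc T2 T1, |τ| ≤ v ∧ |τ - T2| ≤ |T1 - T2| := by
      intro τ hτ
      rw [mem_uIcc] at hτ
      have a1 := abs_le.mp hT2v
      have a2 := abs_le.mp hT1
      constructor
      · rw [abs_le]
        rcases hτ with hs | hs <;> constructor <;> linarith [a1.1, a1.2, a2.1, a2.2, hs.1, hs.2]
      · rcases hτ with hs | hs
        · rw [abs_of_nonneg (by linarith [hs.1]), abs_of_nonneg (by linarith [hs.1, hs.2])]
          linarith [hs.2]
        · rw [abs_of_nonpos (by linarith [hs.2]), abs_of_nonpos (by linarith [hs.1, hs.2])]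
          linarith [hs.1]
    have hcont : ContinuousOn (gr h₂) (uIcc T2 T1) := by
      refine (continuousOn_gr hlam N hNpos hh₂).mono ?_
      intro τ hτ
      have := abs_le.mp (hab τ hτ).1
      exact ⟨by linarith [this.1], by linarith [this.2]⟩
    have key := passage_path' hlam A hApos hg₂ (γ := gr h₂) (a := T2) (b := T1) hcont ?_ ?_
    · exact key T1 right_mem_uIcc
    · intro τ hτ
      obtain ⟨hτv, hτT⟩ := hab τ hτ
      have hτR : |τ| < R := lt_of_le_of_lt hτv hvR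
      have e1 : TR lam N (gr h₂ τ) = τ := (passage_ofReal N hh₂ hτR).2
      have e2 : TR lam N (gr h₂ T2) = T2 := (passage_ofReal N hh₂ hT2R).2
      have h1 := (hCL M hM (gr h₂ τ) (gr h₂ T2)).2 (by rw [e1]; exact hτR) (by rw [e2]; exact hT2R)
      have h2 := hCP N hNpos h₂ hh₂ τ T2 hτv hT2v
      have h3 : |TR lam A (gr h₂ τ) - TR lam A (gr h₂ T2)| ≤ CL * (CP * |τ - T2|) :=
        (sd_fst_le _ _).trans (h1.trans (mul_le_mul_of_nonneg_left h2 hCLpos.le))
      rw [hh₂', hTA2] at h3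
      have h4 : CL * (CP * |τ - T2|) ≤ CL * (CP * (CL * q)) := by
        apply mul_le_mul_of_nonneg_left _ hCLpos.le
        apply mul_le_mul_of_nonneg_left _ hCP0.le
        exact hτT.trans hT12
      have h5 : CL * (CP * (CL * q)) ≤ CL * CL * (1 + CP) * δ0 := by
        have a1 : q * (CL * CL * CP) ≤ δ0 * (CL * CL * CP) :=
          mul_le_mul_of_nonneg_right hq (by positivity)
        have a2 : 0 ≤ CL * CL * δ0 := by positivity
        nlinarith only [a1, a2]
      have h6 := abs_sub_abs_le_abs_sub (TR lam A (gr h₂ τ)) t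
      linarith
    · rw [hh₂', hTA2]
  -- second leg
  have hleg2 : gr g₂ (TR lam A (ψ t')) = ψ t' := by
    have hcont : ContinuousOn ψ (uIcc t t') := by
      refine (continuousOn_gr hlam N hNpos hh₂).comp hFcont ?_
      intro s hs
      have := abs_le.mp (hFv s hs)
      exact ⟨by linarith [this.1], by linarith [this.2]⟩
    have key := passage_path' hlam A hApos hg₂ (γ := ψ) (a := t) (b := t') hcont ?_ ?_
    · exact key t' right_mem_uIcc
    · intro s hs
      exact lt_of_le_of_lt (hψTv s hs) hvR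
    · exact hleg1
  have ht'mem : t' ∈ uIcc t t' := right_mem_uIcc
  set t'' := TR lam A (ψ t') with ht''
  have hfin : qd lam A g₁ g₂ t' ≤ C1 * ρ t' := by
    have e1 : qd lam A g₁ g₂ t' ≤ sd (str lam A (gr g₁ t')) (str lam A (ψ t')) +
        sd (str lam A (gr g₂ t'')) (str lam A (gr g₂ t')) := by
      rw [hleg2]; exact sd_triangle _ _ _
    have e2 := hψA t' ht'mem
    have e3 := hCP A hApos g₂ hg₂ t'' t' (hψTv t' ht'mem) (by linarith)
    have e4 := hψT t' ht'mem
    have e5 : CP * |t'' - t'| ≤ CP * (CL * ρ t') := by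
      apply mul_le_mul_of_nonneg_left _ hCP0.le
      rw [abs_sub_comm]; exact e4
    calc qd lam A g₁ g₂ t' ≤ CL * ρ t' + CP * (CL * ρ t') := by linarith
      _ = C1 * ρ t' := by rw [hC1]; ring
  calc qd lam A g₁ g₂ t' ≤ C1 * ρ t' := hfin
    _ ≤ C1 * (Ch * C1 * q ^ (1 - 4 / (R - v) * η * |t' - t|)) :=
        mul_le_mul_of_nonneg_left (hρs t' ht'mem) hC1pos.le
    _ = C1 * (Ch * C1) * q ^ (1 - 4 / (R - v) * η * |t' - t|) := by ring

/-- the property proved by `node_step` -/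
def NodeProp (lam : ℝ) (b : ℕ → ℕ) (η C δ0 h : ℝ) (x : ℕ × ℕ) : Prop :=
  ∀ M : ℕ, x.1 + 1 ≤ M →
      ∀ g₁ g₂ : ℂ → ℂ, Passage lam (lM b M) g₁ → Passage lam (lM b M) g₂ →
      ∀ t t' : ℝ, |t| ≤ 2 → |t'| ≤ 2 → |t' - t| ≤ h →
        |TR lam (ndl b M x.1 x.2) (gr g₁ t)| ≤ 2 →
        |deriv (TR lam (ndl b M x.1 x.2)) (gr g₁ t)| ≤ η * |deriv (TR lam (lM b M)) (gr g₁ t)| →
        qd lam (lM b M) g₁ g₂ t ≤ δ0 →
        qd lam (lM b M) g₁ g₂ t' ≤
          C * qd lam (lM b M) g₁ g₂ t ^ (1 - 4 / (RR lam - vr lam) * η * |t' - t|)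

theorem NodeProp.mono {lam : ℝ} {b : ℕ → ℕ} {η C δ0 h C' δ0' h' : ℝ} {x : ℕ × ℕ}
    (hP : NodeProp lam b η C δ0 h x) (hC : C ≤ C') (hδ : δ0' ≤ δ0) (hh : h' ≤ h) :
    NodeProp lam b η C' δ0' h' x := by
  intro M hM g₁ g₂ hg₁ hg₂ t t' ht ht' htt h1 h2 hq
  refine (hP M hM g₁ g₂ hg₁ hg₂ t t' ht ht' (htt.trans hh) h1 h2 (hq.trans hδ)).trans ?_
  exact mul_le_mul_of_nonneg_right hC (Real.rpow_nonneg (sd_nonneg _ _) _)

theorem exists_nodeProp_finset {lam : ℝ} (hlam : 0 < lam) (b : ℕ → ℕ) (hb : ∀ k, 1 ≤ b k)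
    (η : ℝ) (hη : 0 < η) (hη1 : η ≤ 1) (S : Finset (ℕ × ℕ)) (hS : ∀ x ∈ S, x.2 < b x.1) :
    ∃ C δ0 h : ℝ, 1 ≤ C ∧ 0 < δ0 ∧ 0 < h ∧ ∀ x ∈ S, NodeProp lam b η C δ0 h x := by
  classical
  induction S using Finset.induction_on with
  | empty => exact ⟨1, 1, 1, le_refl _, one_pos, one_pos, by simp⟩
  | insert x S hx ih =>
    obtain ⟨C, δ, h, hC, hδ, hh, hP⟩ := ih (fun y hy => hS y (Finset.mem_insert_of_mem hy))
    obtain ⟨C', δ', h', hC', hδ', hh', hP'⟩ :=
      node_step hlam b hb x.1 x.2 (hS x (Finset.mem_insert_self _ _)) η hη hη1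
    refine ⟨max C C', min δ δ', min h h', hC.trans (le_max_left _ _), lt_min hδ hδ',
      lt_min hh hh', ?_⟩
    intro y hy
    rcases Finset.mem_insert.mp hy with rfl | hy
    · have : NodeProp lam b η C' δ' h' y := hP'
      exact this.mono (le_max_right _ _) (min_le_right _ _) (min_le_right _ _)
    · exact (hP y hy).mono (le_max_left _ _) (min_le_left _ _) (min_le_left _ _)

theorem local_step {lam : ℝ} (hlam : 0 < lam) (b : ℕ → ℕ) (hb : ∀ k, 1 ≤ b k) (η : ℝ)
    (hη : 0 < η) (hη1 : η ≤ 1) (s0 : ℝ) (hs : 0 < s0) :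
    ∃ C δ0 h : ℝ, 1 ≤ C ∧ 0 < δ0 ∧ 0 < h ∧ ∃ M0 : ℕ, ∀ M : ℕ, M0 ≤ M →
      ∀ g₁ g₂ : ℂ → ℂ, Passage lam (lM b M) g₁ → Passage lam (lM b M) g₂ →
      ∀ t t' : ℝ, s0 ≤ 4 - t ^ 2 → |t'| ≤ 2 → |t' - t| ≤ h →
        qd lam (lM b M) g₁ g₂ t ≤ δ0 →
        qd lam (lM b M) g₁ g₂ t' ≤
          C * qd lam (lM b M) g₁ g₂ t ^ (1 - 4 / (RR lam - vr lam) * η * |t' - t|) := by
  obtain ⟨J, hJ⟩ := inf_contraction hlam b hb η hη s0 hs
  obtain ⟨C, δ0, h, hC, hδ, hh, hP⟩ := exists_nodeProp_finset hlam b hb η hη hη1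
    ((Finset.range J).sigma (fun j => Finset.range (b j)) |>.image (fun x => (x.1, x.2)))
    (by
      intro x hx
      simp only [Finset.mem_image, Finset.mem_sigma, Finset.mem_range] at hx
      obtain ⟨y, ⟨-, h2⟩, rfl⟩ := hx
      exact h2)
  refine ⟨C, δ0, h, hC, hδ, hh, J + 2, ?_⟩
  intro M hM g₁ g₂ hg₁ hg₂ t t' ht ht' htt hq
  have ht2 : |t| ≤ 2 := by
    apply abs_le_of_sq_le_sq' _ (by norm_num) |> abs_le.mpr
    nlinarith only [hs, ht]
  have htR : |t| < RR lam := by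
    have := two_lt_RR hlam
    linarith
  have hTR : TR lam (lM b M) (gr g₁ t) = t := (passage_ofReal _ hg₁ htR).2
  obtain ⟨j, hj, p, hp, h1, h2⟩ := hJ M hM (gr g₁ t) (by rw [hTR]; exact ht)
  have hx : (j, p) ∈ ((Finset.range J).sigma (fun j => Finset.range (b j)) |>.image
      (fun x => (x.1, x.2))) := by
    simp only [Finset.mem_image, Finset.mem_sigma, Finset.mem_range]
    exact ⟨⟨j, p⟩, ⟨hj, hp⟩, rfl⟩
  exact hP (j, p) hx M (by simp only; omega) g₁ g₂ hg₁ hg₂ t t' ht2 ht' htt h1.le h2 hq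

end Sturm
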