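import Pool.Agent.Lib.MP_e5ebf6_mp.Prob

/-! Module Walk: matrix entries of powers of a discrete Schrödinger operator, and the moments
`mom lam k α = ∫₀¹ ⟨δ₀, H_{α,ω}^k δ₀⟩ dω`. -/

open MeasureTheory Filter Topology Set
noncomputable section
namespace Sturm

/-- `wk V k n m = ⟨δ_m, H^k δ_n⟩` for `(H ψ)(n) = ψ(n+1) + ψ(n-1) + V n ψ n` -/
def wk (V : ℤ → ℝ) : ℕ → ℤ → ℤ → ℝ
  | 0, n, m => if n = m then 1 else 0
  | (k + 1), n, m => wk V k n (m - 1) + wk V k n (m + 1) + V m * wk V k n m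

/-- the Sturmian potential in floor form -/
def vfl (lam α ω : ℝ) (n : ℤ) : ℝ := lam * ((⌊((n : ℝ) + 1) * α + ω⌋ : ℝ) - ⌊(n : ℝ) * α + ω⌋)

theorem vst_eq_vfl (lam α ω : ℝ) (hα : 0 < α) (hα1 : α < 1) (n : ℤ) :
    vst lam α ω n = vfl lam α ω n := by
  unfold vst vfl
  have h1 : ((n : ℝ) + 1) * α + ω = ((n : ℝ) * α + ω) + α := by ring
  rw [h1]
  set u := (n : ℝ) * α + ω with hu
  have h2 := Int.fract_nonneg u
  have h3 := Int.fract_lt_one u
  have h4 := Int.floor_add_fract u
  by_cases h : Int.fract u ∈ Set.Ico (1 - α) 1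
  · rw [if_pos h]
    have h5 : ⌊u + α⌋ = ⌊u⌋ + 1 := by
      rw [Int.floor_eq_iff]
      push_cast
      have := h.1
      constructor <;> linarith
    rw [h5]
    push_cast
    ring
  · rw [if_neg h]
    have h6 : Int.fract u < 1 - α := by
      by_contra h7
      exact h ⟨not_lt.1 h7, h3⟩
    have h5 : ⌊u + α⌋ = ⌊u⌋ := by
      rw [Int.floor_eq_iff]
      constructor <;> linarith
    rw [h5]
    ring

def mom (lam : ℝ) (k : ℕ) (α : ℝ) : ℝ := ∫ ω in (0 : ℝ)..1, wk (vfl lam α ω) k 0 0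

theorem wk_far (V : ℤ → ℝ) (k : ℕ) (n m : ℤ) (h : (k : ℤ) < |n - m|) : wk V k n m = 0 := by
  induction k generalizing m with
  | zero =>
    have h1 : n ≠ m := by
      rintro rfl
      simp at h
    simp [wk, h1]
  | succ k ih =>
    push_cast at h
    rw [lt_abs] at h
    have h1 : wk V k n (m - 1) = 0 := ih _ (by rw [lt_abs]; omega)
    have h2 : wk V k n (m + 1) = 0 := ih _ (by rw [lt_abs]; omega)
    have h3 : wk V k n m = 0 := ih _ (by rw [lt_abs]; omega)
    rw [wk, h1, h2, h3]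
    simp

/-- only the potential near `n` matters -/
theorem wk_congr (V W : ℤ → ℝ) (k : ℕ) (n m : ℤ) (h : ∀ i, |i - n| ≤ k → V i = W i) :
    wk V k n m = wk W k n m := by
  induction k generalizing m with
  | zero => rfl
  | succ k ih =>
    have ih' : ∀ m, wk V k n m = wk W k n m := fun m =>
      ih m (fun i hi => h i (hi.trans (by push_cast; omega)))
    rw [wk, wk, ih' (m - 1), ih' (m + 1)]
    by_cases hm : |m - n| ≤ ((k + 1 : ℕ) : ℤ)
    · rw [h m hm, ih' m]
    · have h1 : wk V k n m = 0 := wk_far V k n m (by rw [abs_sub_comm]; push_cast at hm; omega)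
      have h2 : wk W k n m = 0 := wk_far W k n m (by rw [abs_sub_comm]; push_cast at hm; omega)
      rw [h1, h2, mul_zero, mul_zero]

theorem wk_shift (V : ℤ → ℝ) (k : ℕ) (n m a : ℤ) :
    wk (fun i => V (i + a)) k n m = wk V k (n + a) (m + a) := by
  induction k generalizing m with
  | zero =>
    simp [wk]
  | succ k ih =>
    rw [wk, wk, ih, ih, ih]
    have h1 : m - 1 + a = m + a - 1 := by ring
    have h2 : m + 1 + a = m + a + 1 := by ring
    rw [h1, h2]

theorem wk_bound (V : ℤ → ℝ) (K : ℝ) (hV : ∀ i, |V i| ≤ K) (k : ℕ) (n m : ℤ) :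
    |wk V k n m| ≤ (2 + K) ^ k := by
  have hK : 0 ≤ K := (abs_nonneg _).trans (hV 0)
  induction k generalizing m with
  | zero =>
    unfold wk
    split_ifs <;> simp
  | succ k ih =>
    rw [wk]
    have h1 := ih (m - 1)
    have h2 := ih (m + 1)
    have h3 := ih m
    have h4 : |V m * wk V k n m| ≤ K * (2 + K) ^ k := by
      rw [abs_mul]
      exact mul_le_mul (hV m) h3 (abs_nonneg _) hK
    have h5 := abs_add_le (wk V k n (m - 1) + wk V k n (m + 1)) (V m * wk V k n m)
    have h6 := abs_add_le (wk V k n (m - 1)) (wk V k n (m + 1))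
    have h7 : (2 + K) ^ (k + 1) = (2 + K) ^ k + (2 + K) ^ k + K * (2 + K) ^ k := by ring
    linarith

theorem walk_vfl_bound (lam α ω : ℝ) (n : ℤ) : |vfl lam α ω n| ≤ |lam| * (|α| + 1) := by
  unfold vfl
  rw [abs_mul]
  refine mul_le_mul_of_nonneg_left ?_ (abs_nonneg _)
  have h1 := Int.floor_le (((n : ℝ) + 1) * α + ω)
  have h2 := Int.lt_floor_add_one (((n : ℝ) + 1) * α + ω)
  have h3 := Int.floor_le ((n : ℝ) * α + ω)
  have h4 := Int.lt_floor_add_one ((n : ℝ) * α + ω)
  have h5 := le_abs_self α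
  have h6 := neg_abs_le α
  rw [abs_le]
  constructor <;> nlinarith

theorem walk_vfl_meas (lam α : ℝ) (n : ℤ) : Measurable fun ω => vfl lam α ω n := by
  unfold vfl
  have h : ∀ c : ℝ, Measurable fun ω : ℝ => ((⌊c + ω⌋ : ℤ) : ℝ) := by
    intro c
    exact (measurable_from_top (f := fun z : ℤ => (z : ℝ))).comp
      (Int.measurable_floor.comp (measurable_const.add measurable_id))
  exact measurable_const.mul ((h _).sub (h _))

theorem walk_meas (lam α : ℝ) (k : ℕ) (n m : ℤ) : Measurable fun ω => wk (vfl lam α ω) k n m := by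
  induction k generalizing m with
  | zero => exact measurable_const
  | succ k ih =>
    simp only [wk]
    exact ((ih _).add (ih _)).add ((walk_vfl_meas lam α m).mul (ih _))

theorem walk_floor_cont (x : ℝ) (hx : ∀ z : ℤ, x ≠ z) :
    ContinuousAt (fun y : ℝ => ((⌊y⌋ : ℤ) : ℝ)) x := by
  have h1 : ∀ᶠ y in 𝓝 x, ((⌊x⌋ : ℤ) : ℝ) = ((⌊y⌋ : ℤ) : ℝ) := by
    have h2 : Ioo ((⌊x⌋ : ℤ) : ℝ) (⌊x⌋ + 1) ∈ 𝓝 x :=
      Ioo_mem_nhds (lt_of_le_of_ne (Int.floor_le x) (hx _).symm) (Int.lt_floor_add_one x)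
    filter_upwards [h2] with y hy
    have h3 : ⌊y⌋ = ⌊x⌋ := by
      rw [Int.floor_eq_iff]
      exact ⟨hy.1.le, hy.2⟩
    rw [h3]
  exact ContinuousAt.congr continuousAt_const h1

theorem walk_cont (lam α₀ ω : ℝ) (hω : ∀ j z : ℤ, (j : ℝ) * α₀ + ω ≠ z) (k : ℕ) (n m : ℤ) :
    ContinuousAt (fun α => wk (vfl lam α ω) k n m) α₀ := by
  have h1 : ∀ m : ℤ, ContinuousAt (fun α => vfl lam α ω m) α₀ := by
    intro m
    unfold vfl
    refine continuousAt_const.mul (ContinuousAt.sub ?_ ?_)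
    · refine ContinuousAt.comp (g := fun y : ℝ => ((⌊y⌋ : ℤ) : ℝ))
        (f := fun α => ((m : ℝ) + 1) * α + ω) ?_ (by fun_prop)
      refine walk_floor_cont _ fun z => ?_
      have := hω (m + 1) z
      push_cast at this
      exact this
    · refine ContinuousAt.comp (g := fun y : ℝ => ((⌊y⌋ : ℤ) : ℝ))
        (f := fun α => (m : ℝ) * α + ω) ?_ (by fun_prop)
      exact walk_floor_cont _ fun z => hω m z
  induction k generalizing m with
  | zero => exact continuousAt_const
  | succ k ih =>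
    simp only [wk]
    exact ((ih _).add (ih _)).add ((h1 m).mul (ih _))

/-- the moments are continuous functions of the frequency -/
theorem mom_continuous (lam : ℝ) (k : ℕ) : Continuous (mom lam k) := by
  rw [continuous_iff_continuousAt]
  intro α₀
  unfold mom
  refine intervalIntegral.continuousAt_of_dominated_interval
    (bound := fun _ => (2 + |lam| * (|α₀| + 2)) ^ k) ?_ ?_ ?_ ?_
  · exact Eventually.of_forall fun α => (walk_meas lam α k 0 0).aestronglyMeasurable
  · have h1 : ∀ᶠ α in 𝓝 α₀, |α| ≤ |α₀| + 1 := by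
      have h2 : Tendsto (fun α : ℝ => |α|) (𝓝 α₀) (𝓝 |α₀|) := continuous_abs.tendsto α₀
      exact h2.eventually (Iic_mem_nhds (by linarith)) 
    filter_upwards [h1] with α hα
    refine Eventually.of_forall fun ω _ => ?_
    rw [Real.norm_eq_abs]
    refine (wk_bound _ _ (walk_vfl_bound lam α ω) k 0 0).trans ?_
    have h3 : |lam| * (|α| + 1) ≤ |lam| * (|α₀| + 2) :=
      mul_le_mul_of_nonneg_left (by linarith) (abs_nonneg _)
    have h4 : 0 ≤ |lam| * (|α| + 1) := by positivity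
    exact pow_le_pow_left₀ (by linarith) (by linarith) k
  · exact intervalIntegrable_const
  · have hcount : (⋃ j : ℤ, ⋃ z : ℤ, {(z : ℝ) - (j : ℝ) * α₀}).Countable :=
      countable_iUnion fun j => countable_iUnion fun z => countable_singleton _
    have h1 := hcount.ae_notMem (volume : Measure ℝ)
    filter_upwards [h1] with ω hω _
    refine walk_cont lam α₀ ω ?_ k 0 0
    intro j z h
    apply hω
    refine mem_iUnion.2 ⟨j, mem_iUnion.2 ⟨z, ?_⟩⟩
    rw [mem_singleton_iff]
    linarith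

theorem walk_floor (p q r : ℕ) (hq : 0 < q) (ω : ℝ) (h1 : (r : ℝ) / q ≤ ω)
    (h2 : ω < ((r : ℝ) + 1) / q) (n : ℤ) :
    ⌊(n : ℝ) * ((p : ℝ) / q) + ω⌋ = ⌊(n : ℝ) * ((p : ℝ) / q) + (r : ℝ) / q⌋ := by
  have hqR : (0 : ℝ) < q := by exact_mod_cast hq
  set N : ℤ := n * p + r with hN
  have hNR : (n : ℝ) * ((p : ℝ) / q) + (r : ℝ) / q = (N : ℝ) / q := by
    rw [hN]
    push_cast
    field_simp
  set Fl : ℤ := ⌊(N : ℝ) / q⌋ with hF
  have h3 : (Fl : ℝ) ≤ (N : ℝ) / q := Int.floor_le _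
  have h4 : (N : ℝ) / q < Fl + 1 := Int.lt_floor_add_one _
  have h5 : N + 1 ≤ (Fl + 1) * q := by
    rw [div_lt_iff₀ hqR] at h4
    have h6 : N < (Fl + 1) * q := by exact_mod_cast h4
    omega
  have h7 : ((N : ℝ) + 1) / q ≤ Fl + 1 := by
    rw [div_le_iff₀ hqR]
    exact_mod_cast h5
  rw [hNR, ← hF, Int.floor_eq_iff]
  have h8 : (n : ℝ) * ((p : ℝ) / q) + ((r : ℝ) + 1) / q = ((N : ℝ) + 1) / q := by
    rw [hN]
    push_cast
    field_simp
    ring
  constructor
  · linarith
  · linarith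

/-- exact formula at rationals -/
theorem mom_rat (lam : ℝ) (k : ℕ) (p q : ℕ) (hq : 0 < q) (hpq : Nat.Coprime p q) :
    mom lam k ((p : ℝ) / q) =
      (∑ n ∈ Finset.range q, wk (vfl lam ((p : ℝ) / q) 0) k n n) / q := by
  have hqR : (0 : ℝ) < q := by exact_mod_cast hq
  set α : ℝ := (p : ℝ) / q with hα
  set f : ℝ → ℝ := fun ω => wk (vfl lam α ω) k 0 0 with hf
  have hfm : Measurable f := walk_meas lam α k 0 0
  have hfb : ∀ ω, ‖f ω‖ ≤ (2 + |lam| * (|α| + 1)) ^ k := fun ω => by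
    rw [Real.norm_eq_abs]
    exact wk_bound _ _ (walk_vfl_bound lam α ω) k 0 0
  have hfi : ∀ a b : ℝ, IntervalIntegrable f volume a b := by
    intro a b
    rw [intervalIntegrable_iff]
    exact Measure.integrableOn_of_bounded (M := (2 + |lam| * (|α| + 1)) ^ k) (by simp)
      hfm.aestronglyMeasurable (Eventually.of_forall hfb)
  have hsplit := intervalIntegral.sum_integral_adjacent_intervals (n := q)
    (a := fun r : ℕ => (r : ℝ) / q) (f := f) (μ := volume) (fun r _ => hfi _ _)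
  simp only [Nat.cast_zero, zero_div] at hsplit
  rw [div_self hqR.ne'] at hsplit
  have hpiece : ∀ r : ℕ, ∫ ω in ((r : ℝ) / q)..(((r + 1 : ℕ) : ℝ) / q), f ω =
      wk (vfl lam α ((r : ℝ) / q)) k 0 0 / q := by
    intro r
    have hle : (r : ℝ) / q ≤ ((r + 1 : ℕ) : ℝ) / q := by
      gcongr
      norm_num
    rw [intervalIntegral.integral_of_le hle, integral_Ioc_eq_integral_Ioo]
    have h1 : ∫ ω in Ioo ((r : ℝ) / q) (((r + 1 : ℕ) : ℝ) / q), f ω =
        ∫ ω in Ioo ((r : ℝ) / q) (((r + 1 : ℕ) : ℝ) / q), wk (vfl lam α ((r : ℝ) / q)) k 0 0 := by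
      refine setIntegral_congr_fun measurableSet_Ioo fun ω hω => ?_
      simp only [hf]
      refine wk_congr _ _ k 0 0 fun i _ => ?_
      unfold vfl
      have h2 := walk_floor p q r hq ω hω.1.le (by have := hω.2; push_cast at this; exact this)
      have h3 := h2 (i + 1)
      push_cast at h3
      rw [h2 i, h3]
    rw [h1, setIntegral_const]
    rw [Measure.real, Real.volume_Ioo, ENNReal.toReal_ofReal (by linarith)]
    push_cast
    rw [smul_eq_mul]
    field_simp
    ring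
  have hmom : mom lam k α = (∑ r ∈ Finset.range q, wk (vfl lam α ((r : ℝ) / q)) k 0 0) / q := by
    show ∫ ω in (0 : ℝ)..1, f ω = _
    rw [← hsplit, Finset.sum_div]
    exact Finset.sum_congr rfl fun r _ => hpiece r
  rw [hmom]
  congr 1
  -- reindexing
  have himg : (Finset.range q).image (fun n => n * p % q) = Finset.range q := by
    refine Finset.eq_of_subset_of_card_le ?_ ?_
    · intro x hx
      obtain ⟨n, _, rfl⟩ := Finset.mem_image.1 hx
      exact Finset.mem_range.2 (Nat.mod_lt _ hq)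
    · rw [Finset.card_image_of_injOn]
      intro a ha b hb hab
      have h1 : a * p ≡ b * p [MOD q] := hab
      have h2 := Nat.ModEq.cancel_right_of_coprime (by rw [Nat.gcd_comm]; exact hpq) h1
      have ha' := Finset.mem_range.1 (Finset.mem_coe.1 ha)
      have hb' := Finset.mem_range.1 (Finset.mem_coe.1 hb)
      exact Nat.ModEq.eq_of_lt_of_lt h2 ha' hb'
  have hinj : Set.InjOn (fun n => n * p % q) (Finset.range q : Set ℕ) := by
    intro a ha b hb hab
    have h1 : a * p ≡ b * p [MOD q] := hab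
    have h2 := Nat.ModEq.cancel_right_of_coprime (by rw [Nat.gcd_comm]; exact hpq) h1
    have ha' := Finset.mem_range.1 (Finset.mem_coe.1 ha)
    have hb' := Finset.mem_range.1 (Finset.mem_coe.1 hb)
    exact Nat.ModEq.eq_of_lt_of_lt h2 ha' hb'
  rw [← himg, Finset.sum_image hinj]
  rw [himg]
  refine Finset.sum_congr rfl fun n _ => ?_
  have h1 : vfl lam α (((n * p % q : ℕ) : ℝ) / q) = fun i => vfl lam α 0 (i + (n : ℤ)) := by
    funext i
    unfold vfl
    have h2 : ∀ i : ℤ, ⌊((i : ℝ) + n) * α⌋ =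
        ⌊(i : ℝ) * α + ((n * p % q : ℕ) : ℝ) / q⌋ + ((n * p / q : ℕ) : ℤ) := by
      intro i
      rw [← Int.floor_add_natCast]
      congr 1
      have h3 : ((n * p % q : ℕ) : ℝ) + q * ((n * p / q : ℕ) : ℝ) = n * p := by
        exact_mod_cast Nat.mod_add_div (n * p) q
      rw [hα]
      field_simp
      linarith
    have h4 := h2 i
    have h5 := h2 (i + 1)
    push_cast at h5 ⊢
    rw [add_zero, add_zero, h4]
    have h6 : ((i : ℝ) + n + 1) = (i : ℝ) + 1 + n := by ring
    rw [h6, h5]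
    push_cast
    ring
  rw [h1, wk_shift]
  simp

end Sturm
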