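import Pool.Agent.Lib.MP_e5ebf6_mp.Defs
import Pool.Agent.Lib.MP_e5ebf6_mp.Walk

/-! Module MechFloor: mechanical words and Farey mediants.

`p/q < p'/q'` adjacent: `p' q - p q' = 1`, `q, q' ≥ 1`; mediant `m = (p+p')/(q+q')`.

PROOFS.
* `floor_low` (`0 ≤ i ≤ q`): `i m = i p/q + i/(q(q+q'))` and `0 ≤ i/(q(q+q')) ≤ 1/(q+q') < 1/q`;
  the fractional part of `i p/q` is at most `1 - 1/q`, so the floor does not change.  Work with
  integers: with `f = ⌊i p/q⌋`, `f q ≤ i p < (f+1) q`, hence `i p ≤ (f+1) q - 1`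
  (`Int.floor_eq_iff`, `div_le_iff`, ...); to show `f (q+q') ≤ i (p+p') < (f+1)(q+q')`; multiply by
  `q > 0`: `i (p+p') q = i p (q+q') + i` (as `p' q = p q' + 1`), lower bound clear; upper bound
  `i p (q+q') + i ≤ ((f+1) q - 1)(q+q') + q < (f+1) q (q+q')`.
* `floor_up` (`0 ≤ i ≤ q'`): `(q+i)(p+p') = p (q+q') + i (p+p') + 1`
  (as `q p' - p q' = 1`), and with `f = ⌊i p'/q'⌋`: to show
  `f (q+q') ≤ i (p+p') + 1 < (f+1)(q+q')`; multiply by `q' > 0`: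
  `(i (p+p') + 1) q' = i p' (q+q') + (q' - i)` (as `p q' = p' q - 1`), lower bound clear (`i ≤ q'`),
  upper bound: `i p' ≤ (f+1) q' - 1`, so it is `≤ ((f+1) q' - 1)(q+q') + q' < (f+1) q' (q+q')`.
* `vfl_low`: potential at `n < q` uses floors at `n, n+1 ≤ q`; `vfl_up`: potential at `q + n`,
  `n < q'`, uses the floors at `q+n, q+n+1`, the constant `p` cancels.
* `Tm_congr`: induction on `n`.  `Tm_add`: `Tm V E (q + n) = Tm (V (· + q)) E n * Tm V E q`,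
  induction on `n`.
* `Tm_mediant`: `Tm_add`, `Tm_congr`, `vfl_low`, `vfl_up`.
* `Tm_det`: induction.
* `Tm_zero_freq`: `p/q = 0/1`: one site with potential `0`.  `Tm_inv`: frequency `1/c`, `c ≥ 1`:
  `⌊(n+1)/c⌋ - ⌊n/c⌋ = 0` for `n < c - 1` and `= 1` for `n = c - 1`.
-/

open Set
noncomputable section
namespace Sturm

/-- transfer matrices of the sites `0, ..., n-1` (last site on the left) -/
def Tm (V : ℤ → ℝ) (E : ℝ) : ℕ → M2 ℝ
  | 0 => 1
  | (n + 1) => !![E - V n, -1; 1, 0] * Tm V E n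

theorem Tm_det (V : ℤ → ℝ) (E : ℝ) (n : ℕ) : (Tm V E n).det = 1 := by
  induction n with
  | zero => simp [Tm]
  | succ n ih =>
    rw [Tm, Matrix.det_mul, ih, mul_one, Matrix.det_fin_two]
    simp

theorem Tm_congr (V W : ℤ → ℝ) (E : ℝ) (n : ℕ) (h : ∀ i : ℕ, i < n → V i = W i) :
    Tm V E n = Tm W E n := by
  induction n with
  | zero => simp [Tm]
  | succ n ih =>
    rw [Tm, Tm, ih (fun i hi => h i (by omega)), h n (by omega)]

theorem Tm_add (V : ℤ → ℝ) (E : ℝ) (m n : ℕ) :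
    Tm V E (m + n) = Tm (fun i => V (i + m)) E n * Tm V E m := by
  induction n with
  | zero => simp [Tm]
  | succ n ih =>
    rw [← add_assoc, Tm, ih, Tm, Matrix.mul_assoc]
    congr 3
    push_cast
    rw [add_comm (m : ℤ) (n : ℤ)]

/-- the floor of a quotient of naturals, in integers -/
theorem mech_floor_nat (a q : ℕ) (hq : 1 ≤ q) (f : ℤ) (hf : f = ⌊(a : ℝ) / q⌋) :
    f * q ≤ a ∧ (a : ℤ) + 1 ≤ (f + 1) * q := by
  have hq0 : (0 : ℝ) < q := by exact_mod_cast hq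
  have h1 : (f : ℝ) ≤ (a : ℝ) / q := by
    rw [hf]
    exact Int.floor_le _
  have h2 : (a : ℝ) / q < f + 1 := by
    rw [hf]
    exact Int.lt_floor_add_one _
  rw [le_div_iff₀ hq0] at h1
  rw [div_lt_iff₀ hq0] at h2
  have h1' : f * q ≤ (a : ℤ) := by exact_mod_cast h1
  have h2' : (a : ℤ) < (f + 1) * q := by exact_mod_cast h2
  exact ⟨h1', h2'⟩

theorem mech_floor_of {a b : ℕ} (hb : 1 ≤ b) {f : ℤ} (h1 : f * b ≤ a) (h2 : (a : ℤ) < (f + 1) * b) :
    ⌊(a : ℝ) / b⌋ = f := by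
  have hb0 : (0 : ℝ) < b := by exact_mod_cast hb
  rw [Int.floor_eq_iff, le_div_iff₀ hb0, div_lt_iff₀ hb0]
  constructor
  · exact_mod_cast h1
  · exact_mod_cast h2

theorem floor_low (p q p' q' : ℕ) (hq : 1 ≤ q) (hq' : 1 ≤ q') (h : p' * q = p * q' + 1) (i : ℕ)
    (hi : i ≤ q) :
    ⌊(i : ℝ) * (((p + p' : ℕ) : ℝ) / ((q + q' : ℕ) : ℝ))⌋ = ⌊(i : ℝ) * ((p : ℝ) / q)⌋ := by
  obtain ⟨f, hf⟩ : ∃ f : ℤ, f = ⌊((i * p : ℕ) : ℝ) / q⌋ := ⟨_, rfl⟩
  obtain ⟨h1, h2⟩ := mech_floor_nat (i * p) q hq f hf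
  have e1 : (i : ℝ) * ((p : ℝ) / q) = ((i * p : ℕ) : ℝ) / q := by
    push_cast
    ring
  have e2 : (i : ℝ) * (((p + p' : ℕ) : ℝ) / ((q + q' : ℕ) : ℝ)) =
      ((i * (p + p') : ℕ) : ℝ) / ((q + q' : ℕ) : ℝ) := by
    push_cast
    ring
  rw [e1, e2, ← hf]
  have hZ : (p' : ℤ) * q = p * q' + 1 := by exact_mod_cast h
  have hqZ : (1 : ℤ) ≤ q := by exact_mod_cast hq
  have hqZ' : (1 : ℤ) ≤ q' := by exact_mod_cast hq'
  have hiZ : (i : ℤ) ≤ q := by exact_mod_cast hi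
  have hi0 : (0 : ℤ) ≤ i := Int.natCast_nonneg i
  push_cast at h1 h2
  apply mech_floor_of (by omega)
  · push_cast
    have h3 : 0 ≤ (q : ℤ) * ((i : ℤ) * (p + p') - f * (q + q')) := by
      have e3 : (q : ℤ) * ((i : ℤ) * (p + p') - f * (q + q')) =
          ((i : ℤ) * p - f * q) * (q + q') + i := by
        linear_combination (i : ℤ) * hZ
      rw [e3]
      have : 0 ≤ ((i : ℤ) * p - f * q) * (q + q') := mul_nonneg (by linarith) (by linarith)
      linarith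
    have := nonneg_of_mul_nonneg_right h3 (by linarith)
    linarith
  · push_cast
    have h3 : 0 < (q : ℤ) * ((f + 1) * (q + q') - (i : ℤ) * (p + p')) := by
      have e3 : (q : ℤ) * ((f + 1) * (q + q') - (i : ℤ) * (p + p')) =
          ((f + 1) * q - (i : ℤ) * p) * (q + q') - i := by
        linear_combination -(i : ℤ) * hZ
      rw [e3]
      have : 1 * ((q : ℤ) + q') ≤ ((f + 1) * q - (i : ℤ) * p) * (q + q') :=
        mul_le_mul_of_nonneg_right (by linarith) (by linarith)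
      linarith
    have := (mul_pos_iff_of_pos_left (by linarith)).mp h3
    linarith

theorem floor_up (p q p' q' : ℕ) (hq : 1 ≤ q) (hq' : 1 ≤ q') (h : p' * q = p * q' + 1) (i : ℕ)
    (hi : i ≤ q') :
    ⌊((q : ℝ) + i) * (((p + p' : ℕ) : ℝ) / ((q + q' : ℕ) : ℝ))⌋
      = p + ⌊(i : ℝ) * ((p' : ℝ) / q')⌋ := by
  obtain ⟨f, hf⟩ : ∃ f : ℤ, f = ⌊((i * p' : ℕ) : ℝ) / q'⌋ := ⟨_, rfl⟩
  obtain ⟨h1, h2⟩ := mech_floor_nat (i * p') q' hq' f hf
  have e1 : (i : ℝ) * ((p' : ℝ) / q') = ((i * p' : ℕ) : ℝ) / q' := by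
    push_cast
    ring
  have e2 : ((q : ℝ) + i) * (((p + p' : ℕ) : ℝ) / ((q + q' : ℕ) : ℝ)) =
      (((q + i) * (p + p') : ℕ) : ℝ) / ((q + q' : ℕ) : ℝ) := by
    push_cast
    ring
  rw [e1, e2, ← hf]
  have hZ : (p' : ℤ) * q = p * q' + 1 := by exact_mod_cast h
  have hqZ : (1 : ℤ) ≤ q := by exact_mod_cast hq
  have hqZ' : (1 : ℤ) ≤ q' := by exact_mod_cast hq'
  have hiZ : (i : ℤ) ≤ q' := by exact_mod_cast hi
  have hi0 : (0 : ℤ) ≤ i := Int.natCast_nonneg i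
  push_cast at h1 h2
  apply mech_floor_of (by omega)
  · push_cast
    have h3 : 0 ≤ (q' : ℤ) * (((q : ℤ) + i) * (p + p') - (p + f) * (q + q')) := by
      have e3 : (q' : ℤ) * (((q : ℤ) + i) * (p + p') - (p + f) * (q + q')) =
          ((i : ℤ) * p' - f * q') * (q + q') + (q' - i) := by
        linear_combination ((q' : ℤ) - i) * hZ
      rw [e3]
      have : 0 ≤ ((i : ℤ) * p' - f * q') * (q + q') := mul_nonneg (by linarith) (by linarith)
      linarith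
    have := nonneg_of_mul_nonneg_right h3 (by linarith)
    linarith
  · push_cast
    have h3 : 0 < (q' : ℤ) * ((p + f + 1) * (q + q') - ((q : ℤ) + i) * (p + p')) := by
      have e3 : (q' : ℤ) * ((p + f + 1) * (q + q') - ((q : ℤ) + i) * (p + p')) =
          ((f + 1) * q' - (i : ℤ) * p') * (q + q') - (q' - i) := by
        linear_combination -((q' : ℤ) - i) * hZ
      rw [e3]
      have : 1 * ((q : ℤ) + q') ≤ ((f + 1) * q' - (i : ℤ) * p') * (q + q') :=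
        mul_le_mul_of_nonneg_right (by linarith) (by linarith)
      linarith
    have := (mul_pos_iff_of_pos_left (by linarith)).mp h3
    linarith

/-- the mechanical word of a mediant is the concatenation (lower word first) -/
theorem Tm_mediant (lam E : ℝ) (p q p' q' : ℕ) (hq : 1 ≤ q) (hq' : 1 ≤ q')
    (h : p' * q = p * q' + 1) :
    Tm (vfl lam (((p + p' : ℕ) : ℝ) / ((q + q' : ℕ) : ℝ)) 0) E (q + q')
      = Tm (vfl lam ((p' : ℝ) / q') 0) E q' * Tm (vfl lam ((p : ℝ) / q) 0) E q := by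
  rw [Tm_add]
  congr 1
  · apply Tm_congr
    intro i hi
    unfold vfl
    have e1 := floor_up p q p' q' hq hq' h i hi.le
    have e2 := floor_up p q p' q' hq hq' h (i + 1) hi
    have c1 : ((((i : ℤ) + (q : ℤ) : ℤ) : ℝ)) *
        (((p + p' : ℕ) : ℝ) / ((q + q' : ℕ) : ℝ)) + 0 =
        ((q : ℝ) + i) * (((p + p' : ℕ) : ℝ) / ((q + q' : ℕ) : ℝ)) := by
      push_cast
      ring
    have c2 : ((((i : ℤ) + (q : ℤ) : ℤ) : ℝ) + 1) *
        (((p + p' : ℕ) : ℝ) / ((q + q' : ℕ) : ℝ)) + 0 =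
        ((q : ℝ) + ((i + 1 : ℕ) : ℝ)) * (((p + p' : ℕ) : ℝ) / ((q + q' : ℕ) : ℝ)) := by
      push_cast
      ring
    rw [c1, c2, e1, e2]
    have c3 : (((i : ℤ) : ℝ) + 1) * ((p' : ℝ) / q') + 0 = ((i + 1 : ℕ) : ℝ) * ((p' : ℝ) / q') := by
      push_cast
      ring
    have c4 : ((i : ℤ) : ℝ) * ((p' : ℝ) / q') + 0 = (i : ℝ) * ((p' : ℝ) / q') := by
      push_cast
      ring
    rw [c3, c4]
    push_cast
    ring
  · apply Tm_congr
    intro i hi
    unfold vfl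
    have e1 := floor_low p q p' q' hq hq' h i hi.le
    have e2 := floor_low p q p' q' hq hq' h (i + 1) hi
    have c1 : ((i : ℤ) : ℝ) * (((p + p' : ℕ) : ℝ) / ((q + q' : ℕ) : ℝ)) + 0 =
        (i : ℝ) * (((p + p' : ℕ) : ℝ) / ((q + q' : ℕ) : ℝ)) := by
      push_cast
      ring
    have c2 : (((i : ℤ) : ℝ) + 1) * (((p + p' : ℕ) : ℝ) / ((q + q' : ℕ) : ℝ)) + 0 =
        ((i + 1 : ℕ) : ℝ) * (((p + p' : ℕ) : ℝ) / ((q + q' : ℕ) : ℝ)) := by
      push_cast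
      ring
    have c3 : (((i : ℤ) : ℝ) + 1) * ((p : ℝ) / q) + 0 = ((i + 1 : ℕ) : ℝ) * ((p : ℝ) / q) := by
      push_cast
      ring
    have c4 : ((i : ℤ) : ℝ) * ((p : ℝ) / q) + 0 = (i : ℝ) * ((p : ℝ) / q) := by
      push_cast
      ring
    rw [c1, c2, c3, c4, e1, e2]

theorem Tm_zero_freq (lam E : ℝ) :
    Tm (vfl lam ((0 : ℝ) / (1 : ℕ)) 0) E 1 = !![E, -1; 1, 0] := by
  simp [Tm, vfl]

theorem Tm_inv (lam E : ℝ) (c : ℕ) (hc : 1 ≤ c) :
    Tm (vfl lam ((1 : ℝ) / c) 0) E c = !![1, -lam; 0, 1] * !![E, -1; 1, 0] ^ c := by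
  have hc0 : (0 : ℝ) < c := by exact_mod_cast hc
  have hfl : ∀ i : ℕ, i < c → ⌊(i : ℝ) * ((1 : ℝ) / c)⌋ = 0 := by
    intro i hi
    rw [Int.floor_eq_zero_iff]
    constructor
    · positivity
    · rw [mul_one_div, div_lt_one hc0]
      exact_mod_cast hi
  have hn : ∀ n : ℕ, n + 1 ≤ c → Tm (vfl lam ((1 : ℝ) / c) 0) E n = !![E, -1; 1, 0] ^ n := by
    intro n
    induction n with
    | zero => intro _; simp [Tm]
    | succ n ih =>
      intro hn
      rw [Tm, ih (by omega), pow_succ']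
      have hV : vfl lam ((1 : ℝ) / c) 0 n = 0 := by
        unfold vfl
        have c1 : (((n : ℤ) : ℝ) + 1) * ((1 : ℝ) / c) + 0 = ((n + 1 : ℕ) : ℝ) * ((1 : ℝ) / c) := by
          push_cast
          ring
        have c2 : ((n : ℤ) : ℝ) * ((1 : ℝ) / c) + 0 = (n : ℝ) * ((1 : ℝ) / c) := by
          push_cast
          ring
        rw [c1, c2, hfl (n + 1) (by omega), hfl n (by omega)]
        simp
      rw [hV, sub_zero]
  obtain ⟨m, rfl⟩ : ∃ m, c = m + 1 := ⟨c - 1, by omega⟩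
  rw [Tm, hn m le_rfl, pow_succ', ← Matrix.mul_assoc]
  congr 1
  have hV : vfl lam ((1 : ℝ) / ((m + 1 : ℕ) : ℝ)) 0 m = lam := by
    unfold vfl
    have c1 : (((m : ℤ) : ℝ) + 1) * ((1 : ℝ) / ((m + 1 : ℕ) : ℝ)) + 0 = 1 := by
      push_cast
      have : (m : ℝ) + 1 ≠ 0 := by positivity
      field_simp
      ring
    have c2 : ((m : ℤ) : ℝ) * ((1 : ℝ) / ((m + 1 : ℕ) : ℝ)) + 0 =
        (m : ℝ) * ((1 : ℝ) / ((m + 1 : ℕ) : ℝ)) := by
      push_cast
      ring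
    rw [c1, c2, hfl m (by omega)]
    simp
  rw [hV]
  ext i j
  fin_cases i <;> fin_cases j <;> simp [Matrix.mul_apply, Fin.sum_univ_two] <;> ring

end Sturm
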