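import Pool.Agent.Lib.MP_e5ebf6_mp.MechFloor

/-! Module MechTrace: the last trace on the energy line is the trace of the transfer matrix of the
periodic mechanical potential.

NOTATION.  For a fraction `r = (p, q)` write `W r = Tm (vfl lam (p/q) 0) E q` (`Wm lam E r`).
A pair `(r₁, r₂)` is adjacent (`Adj`) if `q₁, q₂ ≥ 1` and `p₁ q₂ - p₂ q₁ = ± 1`.

PROOFS.
* `Adj_step`: `(r₂, r₁ + c r₂)` is adjacent if `(r₁, r₂)` is.
* `W_step_up` (`p₁ q₂ = p₂ q₁ + 1`, i.e. `r₁` is the upper one): `W (r₁ + c r₂) = W r₁ * (W r₂)^c`: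
  induction on `c`: `r₁ + c r₂` (upper) and `r₂` (lower) are adjacent, `Tm_mediant`.
  `W_step_low` (`p₂ q₁ = p₁ q₂ + 1`): `W (r₁ + c r₂) = (W r₂)^c * W r₁`.
* `trace_uu`: for 2x2 matrices with `det B = 1`:
  `uu (tr A, tr B, tr (A B)) c = tr (A B^c)`: induction, Cayley-Hamilton
  `B^2 = tr B • B - 1` (entrywise by `Matrix.eta_fin_two`, or `Matrix.trace_fin_two`,
  `Matrix.det_fin_two`).
* `fwd_trace`: induction on `l` generalising `r₁ r₂`: the state of the pair is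
  `(tr W₁, tr W₂, tr (W₁ W₂))` (symmetric: `tr (W₁ W₂) = tr (W₂ W₁)`).  After the move `c` the pair
  is `(r₂, r₁ + c r₂)` and by `W_step_*` and cyclicity of the trace
  `tr W(r₁ + c r₂) = tr (W₁ W₂^c)`, `tr (W₂ W(r₁ + c r₂)) = tr (W₁ W₂^(c+1))`, which is
  `fwd1 c` of the state by `trace_uu`.  For `l = []` the second coordinate is `tr W₂` and
  `nAB [] = (0, 1)`; for `c :: l` use `nAB (c :: l) = ((nAB l).2, (nAB l).1 + c (nAB l).2)`:
  `a r₂ + c' (r₁ + c r₂) = c' r₁ + (a + c c') r₂`.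
* `fwd_eq_trace`: `l = []`: `Tm_zero_freq`.  `l = c :: l'`: start with
  `fwd1 c (2, E, E - lam)`: with `A = !![1, -lam; 0, 1]`, `B = !![E, -1; 1, 0]` one has
  `(2, E, E - lam) = (tr A, tr B, tr (A B))`, `r₁ = (0, 1)`, `r₂ = (1, c)`: `W r₁ = B`,
  `W r₂ = A B^c` (`Tm_inv`, `c ≥ 1`); the pair `((0,1), (1,c))` is adjacent, and
  `nAB (c :: l') = (b', a + c b')` for `(a, b') = nAB l'`, which is `a r₁ + b' r₂`.
* `nAB_coprime`: `nAB (c :: l)`: `gcd (y, x + c y) = gcd (x, y)`; positivity of the denominator.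
-/

open Set
noncomputable section
namespace Sturm

/-- the transfer matrix of the mechanical potential with frequency `r.1 / r.2` -/
def Wm (lam E : ℝ) (r : ℕ × ℕ) : M2 ℝ := Tm (vfl lam ((r.1 : ℝ) / r.2) 0) E r.2

/-- adjacent fractions (in either order) -/
def Adj (r₁ r₂ : ℕ × ℕ) : Prop :=
  1 ≤ r₁.2 ∧ 1 ≤ r₂.2 ∧ (r₁.1 * r₂.2 = r₂.1 * r₁.2 + 1 ∨ r₂.1 * r₁.2 = r₁.1 * r₂.2 + 1)

theorem W_step_up (lam E : ℝ) (r₁ r₂ : ℕ × ℕ) (h1 : 1 ≤ r₁.2) (h2 : 1 ≤ r₂.2)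
    (h : r₁.1 * r₂.2 = r₂.1 * r₁.2 + 1) (c : ℕ) :
    Wm lam E (r₁.1 + c * r₂.1, r₁.2 + c * r₂.2) = Wm lam E r₁ * (Wm lam E r₂) ^ c := by
  induction c with
  | zero => simp
  | succ c ih =>
    have hm := Tm_mediant lam E r₂.1 r₂.2 (r₁.1 + c * r₂.1) (r₁.2 + c * r₂.2) h2
      (by omega) (by linear_combination h)
    have e1 : r₁.1 + (c + 1) * r₂.1 = r₂.1 + (r₁.1 + c * r₂.1) := by ring
    have e2 : r₁.2 + (c + 1) * r₂.2 = r₂.2 + (r₁.2 + c * r₂.2) := by ring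
    rw [e1, e2, pow_succ, ← mul_assoc, ← ih]
    exact hm

theorem W_step_low (lam E : ℝ) (r₁ r₂ : ℕ × ℕ) (h1 : 1 ≤ r₁.2) (h2 : 1 ≤ r₂.2)
    (h : r₂.1 * r₁.2 = r₁.1 * r₂.2 + 1) (c : ℕ) :
    Wm lam E (r₁.1 + c * r₂.1, r₁.2 + c * r₂.2) = (Wm lam E r₂) ^ c * Wm lam E r₁ := by
  induction c with
  | zero => simp
  | succ c ih =>
    have hm := Tm_mediant lam E (r₁.1 + c * r₂.1) (r₁.2 + c * r₂.2) r₂.1 r₂.2
      (by omega) h2 (by linear_combination h)
    have e1 : r₁.1 + (c + 1) * r₂.1 = (r₁.1 + c * r₂.1) + r₂.1 := by ring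
    have e2 : r₁.2 + (c + 1) * r₂.2 = (r₁.2 + c * r₂.2) + r₂.2 := by ring
    rw [e1, e2, pow_succ', mul_assoc, ← ih]
    exact hm

private theorem mt_cayley (B : M2 ℝ) (hB : B.det = 1) : B * B = B.trace • B - 1 := by
  have h := hB
  rw [Matrix.det_fin_two] at h
  ext i j
  fin_cases i <;> fin_cases j <;>
    simp only [Matrix.mul_apply, Fin.sum_univ_two, Matrix.trace_fin_two, Matrix.sub_apply,
      Matrix.smul_apply, Matrix.one_apply, smul_eq_mul, Fin.isValue, Fin.zero_eta, Fin.mk_one,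
      if_true, zero_ne_one, one_ne_zero, if_false]
  · linear_combination -h
  · ring
  · ring
  · linear_combination -h

theorem trace_uu (A B : M2 ℝ) (hB : B.det = 1) (c : ℕ) :
    uu ((A.trace, B.trace, (A * B).trace) : St ℝ) c = (A * B ^ c).trace := by
  induction c using Nat.twoStepInduction with
  | zero => simp [uu]
  | one => simp [uu]
  | more c ih1 ih2 =>
    show B.trace * uu ((A.trace, B.trace, (A * B).trace) : St ℝ) (c + 1) -
      uu ((A.trace, B.trace, (A * B).trace) : St ℝ) c = _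
    rw [ih1, ih2, pow_add B c 2, pow_two, mt_cayley B hB, mul_sub, mul_sub, mul_one,
      Matrix.trace_sub, Matrix.mul_smul, Matrix.mul_smul, Matrix.trace_smul, smul_eq_mul,
      ← pow_succ]

private theorem mt_key (lam E : ℝ) (c : ℕ) (r₁ r₂ : ℕ × ℕ) (h : Adj r₁ r₂) :
    (Wm lam E (r₁.1 + c * r₂.1, r₁.2 + c * r₂.2)).trace =
          (Wm lam E r₁ * Wm lam E r₂ ^ c).trace ∧
        (Wm lam E r₂ * Wm lam E (r₁.1 + c * r₂.1, r₁.2 + c * r₂.2)).trace =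
          (Wm lam E r₁ * Wm lam E r₂ ^ (c + 1)).trace := by
  obtain ⟨h1, h2, h3⟩ := h
  rcases h3 with h3 | h3
  · rw [W_step_up lam E r₁ r₂ h1 h2 h3 c]
    refine ⟨rfl, ?_⟩
    rw [Matrix.trace_mul_comm, mul_assoc, ← pow_succ]
  · rw [W_step_low lam E r₁ r₂ h1 h2 h3 c]
    refine ⟨Matrix.trace_mul_comm _ _, ?_⟩
    rw [← mul_assoc, ← pow_succ', Matrix.trace_mul_comm]

private theorem mt_adj (c : ℕ) (r₁ r₂ : ℕ × ℕ) (h : Adj r₁ r₂) :
    Adj r₂ (r₁.1 + c * r₂.1, r₁.2 + c * r₂.2) := by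
  obtain ⟨h1, h2, h3⟩ := h
  refine ⟨h2, ?_, ?_⟩
  · show 1 ≤ r₁.2 + c * r₂.2
    exact le_trans h1 (Nat.le_add_right _ _)
  · rcases h3 with h3 | h3
    · right
      show (r₁.1 + c * r₂.1) * r₂.2 = r₂.1 * (r₁.2 + c * r₂.2) + 1
      rw [add_mul, h3]
      ring
    · left
      show r₂.1 * (r₁.2 + c * r₂.2) = (r₁.1 + c * r₂.1) * r₂.2 + 1
      rw [mul_add, h3]
      ring

private theorem mt_fwd1 (lam E : ℝ) (c : ℕ) (r₁ r₂ : ℕ × ℕ) :
    fwd1 c (((Wm lam E r₁).trace, (Wm lam E r₂).trace,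
        (Wm lam E r₁ * Wm lam E r₂).trace) : St ℝ) =
        (((Wm lam E r₂).trace, (Wm lam E r₁ * Wm lam E r₂ ^ c).trace,
          (Wm lam E r₁ * Wm lam E r₂ ^ (c + 1)).trace) : St ℝ) := by
  have hdet : (Wm lam E r₂).det = 1 := Tm_det _ _ _
  unfold fwd1
  rw [trace_uu _ _ hdet c, trace_uu _ _ hdet (c + 1)]

private theorem mt_e (c : ℕ) (l : List ℕ) (a b : ℕ) :
    (nAB l).1 * b + (nAB l).2 * (a + c * b) = (nAB (c :: l)).1 * a + (nAB (c :: l)).2 * b := by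
  have h1 : (nAB (c :: l)).1 = (nAB l).2 := rfl
  have h2 : (nAB (c :: l)).2 = (nAB l).1 + c * (nAB l).2 := rfl
  rw [h1, h2]
  ring

private theorem mt_nil (s : St ℝ) : fwd [] s = s := rfl

private theorem mt_cons (c : ℕ) (l : List ℕ) (s : St ℝ) : fwd (c :: l) s = fwd l (fwd1 c s) := rfl

theorem fwd_trace (lam E : ℝ) (l : List ℕ) (hl : Pos l) (r₁ r₂ : ℕ × ℕ) (h : Adj r₁ r₂) :
    (fwd l (((Wm lam E r₁).trace, (Wm lam E r₂).trace,
      (Wm lam E r₁ * Wm lam E r₂).trace) : St ℝ)).2.1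
      = (Wm lam E ((nAB l).1 * r₁.1 + (nAB l).2 * r₂.1,
          (nAB l).1 * r₁.2 + (nAB l).2 * r₂.2)).trace := by
  induction l generalizing r₁ r₂ with
  | nil =>
    have e1 : (nAB []).1 * r₁.1 + (nAB []).2 * r₂.1 = r₂.1 := by
      show 0 * r₁.1 + 1 * r₂.1 = r₂.1
      rw [zero_mul, zero_add, one_mul]
    have e2 : (nAB []).1 * r₁.2 + (nAB []).2 * r₂.2 = r₂.2 := by
      show 0 * r₁.2 + 1 * r₂.2 = r₂.2
      rw [zero_mul, zero_add, one_mul]
    rw [e1, e2, mt_nil]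
  | cons c l ih =>
    have key := mt_key lam E c r₁ r₂ h
    have h4 := ih (fun d hd => hl d (List.mem_cons_of_mem _ hd)) r₂ _ (mt_adj c r₁ r₂ h)
    rw [key.1, key.2, ← mt_fwd1] at h4
    dsimp only at h4
    rw [mt_e, mt_e] at h4
    rw [mt_cons]
    exact h4

theorem fwd_eq_trace (lam E : ℝ) (l : List ℕ) (hl : Pos l) :
    (fwd l ((2, E, E - lam) : St ℝ)).2.1
      = (Tm (vfl lam (((nAB l).1 : ℝ) / (nAB l).2) 0) E (nAB l).2).trace := by
  have hB1 : Wm lam E (0, 1) = !![E, -1; 1, 0] := by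
    have h := Tm_zero_freq lam E
    unfold Wm
    dsimp only
    rw [Nat.cast_zero]
    exact h
  cases l with
  | nil =>
    show E = (Wm lam E (0, 1)).trace
    rw [hB1, Matrix.trace_fin_two_of, add_zero]
  | cons c l =>
    have hc : 1 ≤ c := hl c List.mem_cons_self
    have hB2 : Wm lam E (1, c) = !![1, -lam; 0, 1] * !![E, -1; 1, 0] ^ c := by
      have h := Tm_inv lam E c hc
      unfold Wm
      dsimp only
      rw [Nat.cast_one]
      exact h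
    have h := fwd_trace lam E l (fun d hd => hl d (List.mem_cons_of_mem _ hd)) (0, 1) (1, c)
      ⟨le_rfl, hc, Or.inr (by simp)⟩
    have hdet : (!![E, -1; 1, 0] : M2 ℝ).det = 1 := by
      rw [Matrix.det_fin_two_of]
      ring
    have hs : ((2, E, E - lam) : St ℝ) =
        (((!![1, -lam; 0, 1] : M2 ℝ).trace, (!![E, -1; 1, 0] : M2 ℝ).trace,
          ((!![1, -lam; 0, 1] : M2 ℝ) * !![E, -1; 1, 0]).trace) : St ℝ) := by
      refine Prod.ext ?_ (Prod.ext ?_ ?_)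
      · show (2 : ℝ) = (!![1, -lam; 0, 1] : M2 ℝ).trace
        rw [Matrix.trace_fin_two_of]
        norm_num
      · show E = (!![E, -1; 1, 0] : M2 ℝ).trace
        rw [Matrix.trace_fin_two_of, add_zero]
      · show E - lam = ((!![1, -lam; 0, 1] : M2 ℝ) * !![E, -1; 1, 0]).trace
        rw [Matrix.mul_fin_two, Matrix.trace_fin_two_of]
        ring
    have h5 : fwd1 c ((2, E, E - lam) : St ℝ) =
        (((Wm lam E (0, 1)).trace, (Wm lam E (1, c)).trace,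
          (Wm lam E (0, 1) * Wm lam E (1, c)).trace) : St ℝ) := by
      rw [hs]
      unfold fwd1
      rw [trace_uu _ _ hdet c, trace_uu _ _ hdet (c + 1), hB1, hB2]
      refine Prod.ext rfl (Prod.ext rfl ?_)
      show ((!![1, -lam; 0, 1] : M2 ℝ) * !![E, -1; 1, 0] ^ (c + 1)).trace =
        ((!![E, -1; 1, 0] : M2 ℝ) * (!![1, -lam; 0, 1] * !![E, -1; 1, 0] ^ c)).trace
      rw [Matrix.trace_mul_comm (!![E, -1; 1, 0] : M2 ℝ), mul_assoc, ← pow_succ]
    rw [mt_cons, h5, h]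
    have e1 : (nAB l).1 * 0 + (nAB l).2 * 1 = (nAB (c :: l)).1 := by
      show _ = (nAB l).2
      ring
    have e2 : (nAB l).1 * 1 + (nAB l).2 * c = (nAB (c :: l)).2 := by
      show _ = (nAB l).1 + c * (nAB l).2
      ring
    dsimp only
    rw [e1, e2]
    unfold Wm
    dsimp only

theorem nAB_coprime (l : List ℕ) (hl : Pos l) :
    Nat.Coprime (nAB l).1 (nAB l).2 ∧ 1 ≤ (nAB l).2 := by
  induction l with
  | nil => exact ⟨Nat.coprime_one_right 0, le_rfl⟩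
  | cons c l ih =>
    obtain ⟨h1, h2⟩ := ih fun d hd => hl d (List.mem_cons_of_mem _ hd)
    have hc : 1 ≤ c := hl c List.mem_cons_self
    show Nat.Coprime (nAB l).2 ((nAB l).1 + c * (nAB l).2) ∧ 1 ≤ (nAB l).1 + c * (nAB l).2
    refine ⟨?_, ?_⟩
    · rw [Nat.coprime_add_mul_right_right]
      exact h1.symm
    · nlinarith [Nat.zero_le (nAB l).1]

end Sturm
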