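import Pool.Agent.Lib.MP_e5ebf6_mp.StateAlg

/-! Module SignSym: sign symmetries of the circle. -/

noncomputable section
namespace Sturm

private theorem ww_sign (e₁ e₂ : ℂ) (h₁ : e₁ ^ 2 = 1) (s : St ℂ) : ∀ p,
    ww ((e₁ * s.1, e₂ * s.2.1, e₁ * e₂ * s.2.2) : St ℂ) p = e₂ * e₁ ^ (p + 1) * ww s p ∧
    ww ((e₁ * s.1, e₂ * s.2.1, e₁ * e₂ * s.2.2) : St ℂ) (p + 1) =
      e₂ * e₁ ^ (p + 2) * ww s (p + 1) := by
  intro p
  induction p with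
  | zero =>
    constructor
    · show e₁ * e₂ * s.2.2 = e₂ * e₁ ^ (0 + 1) * s.2.2
      ring
    · show e₂ * s.2.1 = e₂ * e₁ ^ (0 + 2) * s.2.1
      rw [zero_add, h₁, mul_one]
  | succ p ih =>
    refine ⟨ih.2, ?_⟩
    show e₁ * s.1 * ww ((e₁ * s.1, e₂ * s.2.1, e₁ * e₂ * s.2.2) : St ℂ) (p + 1) -
      ww ((e₁ * s.1, e₂ * s.2.1, e₁ * e₂ * s.2.2) : St ℂ) p =
      e₂ * e₁ ^ (p + 1 + 2) * (s.1 * ww s (p + 1) - ww s p)
    rw [ih.1, ih.2]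
    have h3 : e₁ ^ (p + 1 + 2) = e₁ ^ (p + 1) := by rw [pow_add, h₁, mul_one]
    have h4 : e₁ * e₁ ^ (p + 2) = e₁ ^ (p + 1) := by
      rw [← h3]; ring
    rw [h3]
    linear_combination e₂ * s.1 * ww s (p + 1) * h4

private theorem key (lam : ℝ) (l : List ℕ) : ∀ e₁ e₂ : ℝ, (e₁ = 1 ∨ e₁ = -1) →
    (e₂ = 1 ∨ e₂ = -1) → ∃ (e c : ℝ), (e = 1 ∨ e = -1) ∧ ∀ φ : ℂ,
      st lam l ((e : ℂ) * φ + c) = ((e₁ : ℂ) * (st lam l φ).1, (e₂ : ℂ) * (st lam l φ).2.1,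
        (e₁ : ℂ) * e₂ * (st lam l φ).2.2) := by
  induction l with
  | nil =>
    rintro e₁ e₂ (rfl | rfl) (rfl | rfl)
    · refine ⟨1, 0, Or.inl rfl, fun φ => ?_⟩
      simp
    · refine ⟨-1, 0, Or.inr rfl, fun φ => ?_⟩
      show topC lam _ = _
      unfold st bwd topC
      simp [Complex.cos_neg, Complex.sin_neg]
    · refine ⟨1, Real.pi, Or.inl rfl, fun φ => ?_⟩
      show topC lam _ = _
      unfold st bwd topC
      simp [Complex.cos_add_pi, Complex.sin_add_pi]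
    · refine ⟨-1, Real.pi, Or.inr rfl, fun φ => ?_⟩
      show topC lam _ = _
      unfold st bwd topC
      have h1 : ((-1 : ℝ) : ℂ) * φ + (Real.pi : ℂ) = (Real.pi : ℂ) - φ := by push_cast; ring
      rw [h1, Complex.cos_pi_sub, Complex.sin_pi_sub]
      simp
  | cons b l ih =>
    intro e₁ e₂ h₁ h₂
    have hsq₂ : e₂ ^ 2 = 1 := by rcases h₂ with h | h <;> rw [h] <;> norm_num
    have hp : e₂ ^ b = 1 ∨ e₂ ^ b = -1 := by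
      rcases h₂ with h | h
      · left; rw [h, one_pow]
      · rw [h]; exact neg_one_pow_eq_or ℝ b
    have h₃ : e₁ * e₂ ^ b = 1 ∨ e₁ * e₂ ^ b = -1 := by
      rcases h₁ with h | h <;> rcases hp with h' | h' <;> rw [h, h'] <;> simp
    obtain ⟨e, c, he, hφ⟩ := ih e₂ (e₁ * e₂ ^ b) h₂ h₃
    refine ⟨e, c, he, fun φ => ?_⟩
    rw [st_cons, st_cons, hφ φ]
    have hsq₂c : ((e₂ : ℝ) : ℂ) ^ 2 = 1 := by
      rw [← Complex.ofReal_pow, hsq₂, Complex.ofReal_one]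
    have hw := ww_sign (e₂ : ℂ) ((e₁ * e₂ ^ b : ℝ) : ℂ) hsq₂c (st lam l φ) b
    unfold bwd1
    simp only
    rw [hw.1, hw.2]
    have h4 : ((e₂ : ℝ) : ℂ) ^ (b + b) = 1 := by
      rw [← two_mul, pow_mul, hsq₂c, one_pow]
    have h5 : ((e₁ * e₂ ^ b : ℝ) : ℂ) * (e₂ : ℂ) ^ (b + 2) = (e₁ : ℂ) := by
      push_cast
      calc (e₁ : ℂ) * (e₂ : ℂ) ^ b * (e₂ : ℂ) ^ (b + 2) = (e₁ : ℂ) * (e₂ : ℂ) ^ (b + b) *
            (e₂ : ℂ) ^ 2 := by ring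
        _ = (e₁ : ℂ) := by rw [h4, hsq₂c]; ring
    have h6 : ((e₁ * e₂ ^ b : ℝ) : ℂ) * (e₂ : ℂ) ^ (b + 1) = (e₁ : ℂ) * e₂ := by
      push_cast
      calc (e₁ : ℂ) * (e₂ : ℂ) ^ b * (e₂ : ℂ) ^ (b + 1) = (e₁ : ℂ) * (e₂ : ℂ) ^ (b + b) *
            (e₂ : ℂ) := by ring
        _ = (e₁ : ℂ) * e₂ := by rw [h4]; ring
    rw [h5, h6]

/-- there is a real affine involution-like map `φ ↦ e φ + c`, `e = ±1`, changing the signs of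
`y` and `z` -/
theorem exists_sign_sym (lam : ℝ) (l : List ℕ) :
    ∃ (e c : ℝ), (e = 1 ∨ e = -1) ∧ ∀ φ : ℂ,
      st lam l ((e : ℂ) * φ + c) = ((st lam l φ).1, -(st lam l φ).2.1, -(st lam l φ).2.2) := by
  obtain ⟨e, c, he, h⟩ := key lam l 1 (-1) (Or.inl rfl) (Or.inr rfl)
  refine ⟨e, c, he, fun φ => ?_⟩
  rw [h φ]
  push_cast
  simp

end Sturm
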