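import Pool.Agent.Lib.MP_e5ebf6_mp.Passages
import Pool.Agent.Lib.MP_e5ebf6_mp.SignSym
import Pool.Agent.Lib.MP_e5ebf6_mp.Escape

/-! Module NZero: the determinant of two passages vanishes nowhere or identically. -/

open Complex Metric Set
noncomputable section
namespace Sturm

/-- `N(w) = y₁ z₂ - y₂ z₁` -/
def Nf (lam : ℝ) (l : List ℕ) (g₁ g₂ : ℂ → ℂ) (w : ℂ) : ℂ :=
  (st lam l (g₁ w)).2.1 * (st lam l (g₂ w)).2.2 - (st lam l (g₂ w)).2.1 * (st lam l (g₁ w)).2.2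

theorem Nf_diff {lam : ℝ} (l : List ℕ) {g₁ g₂ : ℂ → ℂ} (h₁ : Passage lam l g₁)
    (h₂ : Passage lam l g₂) : DifferentiableOn ℂ (Nf lam l g₁ g₂) (ball 0 (RR lam)) := by
  have hy : Differentiable ℂ (fun φ => (st lam l φ).2.1) := (differentiable_st lam l).snd.fst
  have hz : Differentiable ℂ (fun φ => (st lam l φ).2.2) := (differentiable_st lam l).snd.snd
  exact ((hy.comp_differentiableOn h₁.diff).mul (hz.comp_differentiableOn h₂.diff)).sub
    ((hy.comp_differentiableOn h₂.diff).mul (hz.comp_differentiableOn h₁.diff))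

private lemma nz_coord {lam : ℝ} (hlam : 0 < lam) (l : List ℕ) (hl : Pos l) {g : ℂ → ℂ}
    (h : Passage lam l g) {w : ℂ} (hw : w ∈ ball (0 : ℂ) (RR lam)) :
    ‖(st lam l (g w)).2.1‖ ≤ K0 lam ∧ ‖(st lam l (g w)).2.2‖ ≤ K0 lam := by
  apply coord_bound hlam l hl (g w)
  have h2 : (st lam l (g w)).1 = w := h.inv w hw
  rw [h2]
  rw [mem_ball_zero_iff] at hw
  exact hw.le

theorem Nf_bound {lam : ℝ} (hlam : 0 < lam) (l : List ℕ) (hl : Pos l) {g₁ g₂ : ℂ → ℂ}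
    (h₁ : Passage lam l g₁) (h₂ : Passage lam l g₂) {w : ℂ} (hw : w ∈ ball (0 : ℂ) (RR lam)) :
    ‖Nf lam l g₁ g₂ w‖ ≤ 2 * K0 lam ^ 2 := by
  obtain ⟨a1, a2⟩ := nz_coord hlam l hl h₁ hw
  obtain ⟨b1, b2⟩ := nz_coord hlam l hl h₂ hw
  unfold Nf
  refine (norm_sub_le _ _).trans ?_
  rw [norm_mul, norm_mul]
  have hK : 0 ≤ K0 lam := (norm_nonneg _).trans a1
  have e1 := mul_le_mul a1 b2 (norm_nonneg _) hK
  have e2 := mul_le_mul b1 a2 (norm_nonneg _) hK
  linarith only [e1, e2, sq (K0 lam)]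

private lemma nz_periodic (lam : ℝ) (l : List ℕ) (φ : ℂ) (k : ℤ) :
    st lam l (φ + 2 * Real.pi * k) = st lam l φ := by
  have h : Function.Periodic (st lam l) (2 * Real.pi : ℂ) := st_periodic lam l
  have h2 := h.int_mul k φ
  rw [← h2]
  congr 1
  ring

/-- two passages which meet at one point coincide -/
private lemma nz_same {lam : ℝ} (l : List ℕ) {g₁ g₂ : ℂ → ℂ}
    (h₁ : Passage lam l g₁) (h₂ : Passage lam l g₂) {w0 : ℂ}
    (hw0 : w0 ∈ ball (0 : ℂ) (RR lam)) (h : st lam l (g₁ w0) = st lam l (g₂ w0)) :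
    ∀ w ∈ ball (0 : ℂ) (RR lam), st lam l (g₁ w) = st lam l (g₂ w) := by
  obtain ⟨k, hk⟩ := st_inj lam l _ _ h
  intro w hw
  have h3 := passage_unique l (passage_add l h₁ k) h₂ hw0 hk.symm w hw
  rw [← h3, nz_periodic]

private lemma nz_sign {lam : ℝ} (l : List ℕ) {g : ℂ → ℂ} (h : Passage lam l g) :
    ∃ g' : ℂ → ℂ, Passage lam l g' ∧ ∀ w, st lam l (g' w) =
      ((st lam l (g w)).1, -(st lam l (g w)).2.1, -(st lam l (g w)).2.2) := by
  obtain ⟨e, c, _, hec⟩ := exists_sign_sym lam l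
  refine ⟨fun w => (e : ℂ) * g w + c, ⟨?_, ?_, ?_⟩, fun w => hec (g w)⟩
  · exact (h.diff.const_mul (e : ℂ)).add_const (c : ℂ)
  · intro w hw
    have h2 := h.inv w hw
    unfold TT at h2 ⊢
    rw [hec, h2]
  · intro t ht
    have h2 := h.real t ht
    simp [h2]

/-- algebra: the two vectors are equal or opposite -/
private lemma nz_alg (w y1 z1 y2 z2 ρ : ℂ) (hρ : ρ ≠ 0) (h1 : y1 ^ 2 + z1 ^ 2 - w * y1 * z1 = ρ)
    (h2 : y2 ^ 2 + z2 ^ 2 - w * y2 * z2 = ρ) (hN : y1 * z2 - y2 * z1 = 0) :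
    (y2 = y1 ∧ z2 = z1) ∨ (y2 = -y1 ∧ z2 = -z1) := by
  have hmu : ∃ μ : ℂ, y2 = μ * y1 ∧ z2 = μ * z1 := by
    by_cases hy : y1 = 0
    · have hz : z1 ≠ 0 := by
        intro hz
        apply hρ
        rw [← h1, hy, hz]; ring
      refine ⟨z2 / z1, ?_, by field_simp⟩
      have h3 : y2 * z1 = 0 := by
        rw [hy] at hN
        linear_combination -hN
      rcases mul_eq_zero.1 h3 with h3 | h3
      · rw [h3, hy, mul_zero]
      · exact absurd h3 hz
    · refine ⟨y2 / y1, by field_simp, ?_⟩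
      field_simp
      linear_combination hN
  obtain ⟨μ, hy, hz⟩ := hmu
  have h3 : μ ^ 2 * ρ = ρ := by
    rw [hy, hz] at h2
    rw [← h1] at h2 ⊢
    linear_combination h2
  have h4 : (μ - 1) * (μ + 1) = 0 := by
    have h5 : (μ ^ 2 - 1) * ρ = 0 := by linear_combination h3
    rcases mul_eq_zero.1 h5 with h5 | h5
    · linear_combination h5
    · exact absurd h5 hρ
  rcases mul_eq_zero.1 h4 with h5 | h5
  · left
    have : μ = 1 := by linear_combination h5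
    rw [this] at hy hz
    exact ⟨by rw [hy, one_mul], by rw [hz, one_mul]⟩
  · right
    have : μ = -1 := by linear_combination h5
    rw [this] at hy hz
    exact ⟨by rw [hy]; ring, by rw [hz]; ring⟩

theorem Nf_zero {lam : ℝ} (hlam : 0 < lam) (l : List ℕ) (hl : Pos l) {g₁ g₂ : ℂ → ℂ}
    (h₁ : Passage lam l g₁) (h₂ : Passage lam l g₂) {w0 : ℂ}
    (hw0 : w0 ∈ ball (0 : ℂ) (RR lam)) (h : Nf lam l g₁ g₂ w0 = 0) :
    ∀ w ∈ ball (0 : ℂ) (RR lam), Nf lam l g₁ g₂ w = 0 := by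
  have _ := hlam
  have _ := hl
  have e1 : (st lam l (g₁ w0)).1 = w0 := h₁.inv w0 hw0
  have e2 : (st lam l (g₂ w0)).1 = w0 := h₂.inv w0 hw0
  have k1 := kap_st lam l (g₁ w0)
  have k2 := kap_st lam l (g₂ w0)
  unfold kap at k1 k2
  rw [e1] at k1
  rw [e2] at k2
  have hρ : (4 : ℂ) + (lam : ℂ) ^ 2 - w0 ^ 2 ≠ 0 := by
    intro h0
    have h3 : w0 ^ 2 = ((RR lam ^ 2 : ℝ) : ℂ) := by
      rw [RR_sq]
      push_cast
      linear_combination -h0
    have h4 : ‖w0‖ ^ 2 = RR lam ^ 2 := by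
      rw [← norm_pow, h3, Complex.norm_real, Real.norm_eq_abs, abs_of_nonneg (sq_nonneg _)]
    rw [mem_ball_zero_iff] at hw0
    have h5 : ‖w0‖ ^ 2 < RR lam ^ 2 := by
      apply pow_lt_pow_left₀ hw0 (norm_nonneg _) (by norm_num)
    linarith only [h4, h5]
  rcases nz_alg w0 _ _ _ _ _ hρ (by linear_combination k1) (by linear_combination k2) h with
    ⟨hy, hz⟩ | ⟨hy, hz⟩
  · have hst : st lam l (g₁ w0) = st lam l (g₂ w0) :=
      Prod.ext (by rw [e1, e2]) (Prod.ext hy.symm hz.symm)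
    intro w hw
    have h3 := nz_same l h₁ h₂ hw0 hst w hw
    unfold Nf
    rw [h3]
    ring
  · obtain ⟨g', hg', hs⟩ := nz_sign l h₂
    have hst : st lam l (g₁ w0) = st lam l (g' w0) := by
      rw [hs]
      refine Prod.ext (by rw [e1, e2]) (Prod.ext ?_ ?_)
      · simp only [hy, neg_neg]
      · simp only [hz, neg_neg]
    intro w hw
    have h3 := nz_same l h₁ hg' hw0 hst w hw
    unfold Nf
    rw [h3, hs]
    ring

end Sturm
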