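import Pool.Agent.Lib.MP_e5ebf6_mp.Contract
import Pool.Agent.Lib.MP_e5ebf6_mp.Cross

/-! Module NonReal: behaviour of `T` off the real axis. -/

noncomputable section
namespace Sturm

private theorem TT_conj (lam : ℝ) (l : List ℕ) (φ : ℂ) :
    TT lam l ((starRingEnd ℂ) φ) = (starRingEnd ℂ) (TT lam l φ) := by
  unfold TT
  rw [st_conj]

private theorem upper {lam : ℝ} (l : List ℕ) (hl : Pos l) (φ : ℂ) (hφ : 0 < φ.im) :
    (∀ t : ℝ, |t| ≤ 2 → TT lam l φ ≠ t) ∧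
      Real.sqrt (Real.cosh (2 * φ.im)) - 1 ≤ ‖TT lam l φ‖ := by
  obtain ⟨w, hw, hT⟩ := exists_word lam l hl
  obtain ⟨C, c, hC, hc, h⟩ := wpr_contract lam φ hφ w hw
  have hC1 : 1 < C := by
    refine lt_of_lt_of_le ?_ hC
    rw [Real.one_lt_cosh]
    positivity
  obtain ⟨h1, h2⟩ := contract_trace (det_wpr lam φ w) hC1 hc h
  rw [hT φ]
  refine ⟨h1, le_trans ?_ h2⟩
  have := Real.sqrt_le_sqrt hC
  linarith

/-- `T φ ∈ [-2, 2]` forces `φ` real -/
theorem TT_not_band {lam : ℝ} (hlam : 0 < lam) (l : List ℕ) (hl : Pos l) (φ : ℂ) (hφ : φ.im ≠ 0)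
    (t : ℝ) (ht : |t| ≤ 2) : TT lam l φ ≠ t := by
  rcases lt_or_gt_of_ne hφ with h | h
  · intro h0
    have h1 : 0 < ((starRingEnd ℂ) φ).im := by
      rw [Complex.conj_im]
      linarith
    apply (upper (lam := lam) l hl _ h1).1 t ht
    rw [TT_conj, h0, Complex.conj_ofReal]
  · exact (upper l hl φ h).1 t ht

/-- properness -/
theorem TT_proper {lam : ℝ} (hlam : 0 < lam) (l : List ℕ) (hl : Pos l) (φ : ℂ) :
    Real.sqrt (Real.cosh (2 * φ.im)) - 1 ≤ ‖TT lam l φ‖ := by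
  rcases lt_trichotomy φ.im 0 with h | h | h
  · have h1 : 0 < ((starRingEnd ℂ) φ).im := by
      rw [Complex.conj_im]
      linarith
    have h2 := (upper (lam := lam) l hl _ h1).2
    rw [TT_conj, Complex.conj_im, RCLike.norm_conj, mul_neg, Real.cosh_neg] at h2
    exact h2
  · rw [h, mul_zero, Real.cosh_zero, Real.sqrt_one, sub_self]
    exact norm_nonneg _
  · exact (upper l hl φ h).2

end Sturm
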