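import Pool.Agent.Lib.MP_e5ebf6_mp.Contract
import Pool.Agent.Lib.MP_e5ebf6_mp.Cross

/-! Module NonRealDeriv: `T' ≠ 0` off the real axis. -/

noncomputable section
namespace Sturm

private def nrJ : M2 ℂ := !![0, -1; 1, 0]

private lemma nr_identity (v u : Fin 2 → ℂ) :
    ((v 0 * u 0 + v 1 * u 1) * (starRingEnd ℂ) (v 0 * u 1 - v 1 * u 0)).im =
      nsq u * hq v - nsq v * hq u := by
  unfold hq nsq
  simp only [Complex.sq_norm, Complex.normSq_apply]
  simp
  ring

private lemma nr_nsq_pos {v : Fin 2 → ℂ} (hv : v ≠ 0) : 0 < nsq v := by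
  unfold nsq
  by_cases h0 : v 0 = 0
  · have h1 : v 1 ≠ 0 := by
      intro h1
      apply hv
      ext i
      fin_cases i
      · exact h0
      · exact h1
    have : 0 < ‖v 1‖ := norm_pos_iff.mpr h1
    positivity
  · have : 0 < ‖v 0‖ := norm_pos_iff.mpr h0
    positivity

private lemma nr_hq_smul (a : ℂ) (v : Fin 2 → ℂ) : hq (a • v) = ‖a‖ ^ 2 * hq v := by
  unfold hq
  simp only [Complex.sq_norm, Complex.normSq_apply]
  simp
  ring

private lemma nr_eigvec {W : M2 ℂ} (hW : W.det = 1) {Λ : ℂ} (hΛ0 : Λ ≠ 0)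
    (ht : W.trace = Λ + Λ⁻¹) : ∃ v : Fin 2 → ℂ, v ≠ 0 ∧ W.mulVec v = Λ • v := by
  have hdet : (W - Λ • (1 : M2 ℂ)).det = 0 := by
    rw [Matrix.det_fin_two] at hW ⊢
    rw [Matrix.trace_fin_two] at ht
    simp only [Matrix.sub_apply, Matrix.smul_apply, Matrix.one_apply, smul_eq_mul]
    simp
    have h1 : Λ * Λ⁻¹ = 1 := mul_inv_cancel₀ hΛ0
    linear_combination hW - Λ * ht - h1
  obtain ⟨v, hv0, hv⟩ := Matrix.exists_mulVec_eq_zero_iff.mpr hdet
  refine ⟨v, hv0, ?_⟩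
  rw [Matrix.sub_mulVec, Matrix.smul_mulVec, Matrix.one_mulVec, sub_eq_zero] at hv
  exact hv

/-- the key lemma: a strictly contracting `W` -/
private lemma nr_key {W : M2 ℂ} (hW : W.det = 1) {C c : ℝ} (hC : 1 < C) (hc : 0 < c)
    (h : ∀ v : Fin 2 → ℂ, C * hq v + c * nsq v ≤ hq (W.mulVec v)) {Λ : ℂ} (hΛ : 1 ≤ ‖Λ‖)
    (ht : W.trace = Λ + Λ⁻¹) :
    ∃ α : ℂ, α.im < 0 ∧ (W * nrJ).trace = (Λ - Λ⁻¹) * α := by
  have hCΛ := contract_eig hW hC hc h hΛ ht
  have hΛ0 : Λ ≠ 0 := by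
    intro h0
    rw [h0, norm_zero] at hΛ
    linarith
  obtain ⟨v, hv0, hv⟩ := nr_eigvec hW hΛ0 ht
  obtain ⟨u, hu0, hu⟩ := nr_eigvec hW (inv_ne_zero hΛ0) (by rw [ht, inv_inv]; ring)
  have hnv := nr_nsq_pos hv0
  have hnu := nr_nsq_pos hu0
  have h1 : 0 < hq v := by
    have h2 := h v
    rw [hv, nr_hq_smul] at h2
    by_contra hcon
    push Not at hcon
    nlinarith [mul_pos hc hnv]
  have h2 : hq u < 0 := by
    have h3 := h u
    rw [hu, nr_hq_smul] at h3
    have h4 : ‖Λ⁻¹‖ ^ 2 ≤ 1 := by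
      rw [norm_inv]
      have : ‖Λ‖⁻¹ ≤ 1 := inv_le_one_of_one_le₀ hΛ
      have h0 : 0 ≤ ‖Λ‖⁻¹ := by positivity
      nlinarith
    by_contra hcon
    push Not at hcon
    nlinarith [mul_pos hc hnu]
  set δ : ℂ := v 0 * u 1 - v 1 * u 0 with hδ
  have h3 : 0 < ((v 0 * u 0 + v 1 * u 1) * (starRingEnd ℂ) δ).im := by
    rw [hδ, nr_identity]
    nlinarith [mul_pos hnu h1, mul_pos hnv (neg_pos.mpr h2)]
  have hδ0 : δ ≠ 0 := by
    intro h0
    rw [h0] at h3
    simp at h3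
  refine ⟨-((v 0 * u 0 + v 1 * u 1) / δ), ?_, ?_⟩
  · have h4 : (v 0 * u 0 + v 1 * u 1) / δ =
        (v 0 * u 0 + v 1 * u 1) * (starRingEnd ℂ) δ * ((Complex.normSq δ)⁻¹ : ℝ) := by
      rw [div_eq_mul_inv, Complex.inv_def]
      ring
    rw [h4, Complex.neg_im, Complex.im_mul_ofReal]
    have h5 : 0 < (Complex.normSq δ)⁻¹ := inv_pos.mpr (Complex.normSq_pos.mpr hδ0)
    have := mul_pos h3 h5
    linarith
  · have e1 := congrFun hv 0
    have e2 := congrFun hv 1
    have e3 := congrFun hu 0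
    have e4 := congrFun hu 1
    simp only [Matrix.mulVec, dotProduct, Fin.sum_univ_two, Pi.smul_apply, smul_eq_mul] at e1 e2 e3 e4
    have h5 : (W * nrJ).trace = W 0 1 - W 1 0 := by
      simp [nrJ, Matrix.trace_fin_two, Matrix.mul_apply, Fin.sum_univ_two]
      ring
    rw [h5]
    apply mul_right_cancel₀ hδ0
    have h6 : (Λ - Λ⁻¹) * -((v 0 * u 0 + v 1 * u 1) / δ) * δ =
        -((Λ - Λ⁻¹) * (v 0 * u 0 + v 1 * u 1)) := by
      field_simp
    rw [h6, hδ]
    linear_combination (-(u 0)) * e1 + v 0 * e3 - u 1 * e2 + v 1 * e4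

/-- formal derivative of a word -/
private def nrD (lam : ℝ) (φ : ℂ) : List Bool → M2 ℂ
  | [] => 0
  | (true :: w) => Lt lam φ true * nrJ * wpr lam φ w + Lt lam φ true * nrD lam φ w
  | (false :: w) => Lt lam φ false * nrD lam φ w

private lemma nr_wpr_cons (lam : ℝ) (φ : ℂ) (a : Bool) (w : List Bool) :
    wpr lam φ (a :: w) = Lt lam φ a * wpr lam φ w := by
  rw [wpr, wpr, List.map_cons, List.prod_cons]

private lemma nr_wpr_append (lam : ℝ) (φ : ℂ) (p w : List Bool) :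
    wpr lam φ (p ++ w) = wpr lam φ p * wpr lam φ w := by
  rw [wpr, wpr, wpr, List.map_append, List.prod_append]

private lemma nr_Lt_deriv (lam : ℝ) (φ : ℂ) (i j : Fin 2) :
    HasDerivAt (fun φ => Lt lam φ true i j) ((Lt lam φ true * nrJ) i j) φ := by
  fin_cases i <;> fin_cases j <;>
    simp [Lt, nrJ, Matrix.mul_apply, Fin.sum_univ_two]
  · exact ((Complex.hasDerivAt_cos φ).const_mul _).congr_deriv (by ring)
  · exact ((Complex.hasDerivAt_sin φ).const_mul _).neg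
  · exact ((Complex.hasDerivAt_sin φ).const_mul _)
  · exact ((Complex.hasDerivAt_cos φ).const_mul _).congr_deriv (by ring)

private lemma nr_D_deriv (lam : ℝ) (w : List Bool) (φ : ℂ) (i j : Fin 2) :
    HasDerivAt (fun φ => wpr lam φ w i j) (nrD lam φ w i j) φ := by
  induction w generalizing i j with
  | nil =>
    simp only [nrD, wpr, List.map_nil, List.prod_nil, Matrix.zero_apply]
    exact hasDerivAt_const φ _
  | cons a w ih =>
    have h1 : (fun φ => wpr lam φ (a :: w) i j) = fun φ => Lt lam φ a i 0 * wpr lam φ w 0 j +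
        Lt lam φ a i 1 * wpr lam φ w 1 j := by
      funext φ
      rw [nr_wpr_cons, Matrix.mul_apply, Fin.sum_univ_two]
    rw [h1]
    cases a with
    | true =>
      have h2 := ((nr_Lt_deriv lam φ i 0).mul (ih 0 j)).add ((nr_Lt_deriv lam φ i 1).mul (ih 1 j))
      refine h2.congr_deriv ?_
      simp only [nrD, Matrix.add_apply, Matrix.mul_apply (M := Lt lam φ true * nrJ),
        Matrix.mul_apply (M := Lt lam φ true) (N := nrD lam φ w), Fin.sum_univ_two]
      ring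
    | false =>
      have hc : ∀ k, HasDerivAt (fun φ => Lt lam φ false i k) 0 φ := fun k => by
        simp only [Lt]
        exact hasDerivAt_const φ _
      have h2 := ((hc 0).mul (ih 0 j)).add ((hc 1).mul (ih 1 j))
      refine h2.congr_deriv ?_
      simp only [nrD, Matrix.mul_apply, Fin.sum_univ_two]
      ring

private lemma nr_sum (lam : ℝ) (φ : ℂ) (hφ : 0 < φ.im) {Λ : ℂ} (hΛ : 1 ≤ ‖Λ‖) (w : List Bool) :
    ∀ p : List Bool, (wpr lam φ (p ++ w)).trace = Λ + Λ⁻¹ →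
    ∃ α : ℂ, α.im ≤ 0 ∧ (true ∈ w → α.im < 0) ∧
      (wpr lam φ p * nrD lam φ w).trace = (Λ - Λ⁻¹) * α := by
  induction w with
  | nil =>
    intro p _
    exact ⟨0, by simp, by simp, by simp [nrD]⟩
  | cons a w ih =>
    intro p hp
    obtain ⟨β, hβ1, hβ2, hβ3⟩ := ih (p ++ [a]) (by rw [List.append_assoc]; exact hp)
    have hpa : wpr lam φ (p ++ [a]) = wpr lam φ p * Lt lam φ a := by
      rw [nr_wpr_append, nr_wpr_cons]
      simp [wpr]
    cases a with
    | false =>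
      refine ⟨β, hβ1, fun h => hβ2 (by simpa using h), ?_⟩
      rw [← hβ3, hpa, nrD, Matrix.mul_assoc]
    | true =>
      have hW : wpr lam φ (w ++ (p ++ [true])) = wpr lam φ w * (wpr lam φ p * Lt lam φ true) := by
        rw [nr_wpr_append, hpa]
      have htr : (wpr lam φ (w ++ (p ++ [true]))).trace = Λ + Λ⁻¹ := by
        rw [← hp, hW, Matrix.trace_mul_comm, nr_wpr_append, nr_wpr_cons, Matrix.mul_assoc]
      obtain ⟨C, c, hC, hc, hcon⟩ := wpr_contract lam φ hφ (w ++ (p ++ [true])) (by simp)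
      have hC1 : 1 < C := by
        have : 1 < Real.cosh (2 * φ.im) := Real.one_lt_cosh.mpr (by linarith)
        linarith
      obtain ⟨α, hα, hα2⟩ := nr_key (det_wpr lam φ _) hC1 hc hcon hΛ htr
      refine ⟨α + β, ?_, fun _ => ?_, ?_⟩
      · rw [Complex.add_im]; linarith
      · rw [Complex.add_im]; linarith
      · rw [mul_add, ← hα2, ← hβ3, hpa, hW, nrD, Matrix.mul_add, Matrix.trace_add]
        congr 1
        · have e1 : wpr lam φ p * (Lt lam φ true * nrJ * wpr lam φ w) =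
              (wpr lam φ p * Lt lam φ true * nrJ) * wpr lam φ w := by
            simp only [Matrix.mul_assoc]
          rw [e1, Matrix.trace_mul_comm]
          simp only [Matrix.mul_assoc]
        · rw [Matrix.mul_assoc]

private lemma nr_upper {lam : ℝ} (l : List ℕ) (hl : Pos l) (φ : ℂ)
    (hφ : 0 < φ.im) : deriv (TT lam l) φ ≠ 0 := by
  obtain ⟨w, hw, hT⟩ := exists_word lam l hl
  have h1 : TT lam l = fun φ => (wpr lam φ w).trace := funext hT
  have h2 : HasDerivAt (TT lam l) (nrD lam φ w).trace φ := by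
    rw [h1]
    have h3 := (nr_D_deriv lam w φ 0 0).add (nr_D_deriv lam w φ 1 1)
    have h4 : (fun φ => (wpr lam φ w).trace) = fun φ => wpr lam φ w 0 0 + wpr lam φ w 1 1 := by
      funext φ
      rw [Matrix.trace_fin_two]
    rw [h4, Matrix.trace_fin_two]
    exact h3
  obtain ⟨C, c, hC, hc, hcon⟩ := wpr_contract lam φ hφ w hw
  have hC1 : 1 < C := by
    have : 1 < Real.cosh (2 * φ.im) := Real.one_lt_cosh.mpr (by linarith)
    linarith
  -- the dominant eigenvalue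
  obtain ⟨Λ, hΛ, ht⟩ : ∃ Λ : ℂ, 1 ≤ ‖Λ‖ ∧ (wpr lam φ w).trace = Λ + Λ⁻¹ := by
    obtain ⟨s, hs⟩ := IsAlgClosed.exists_pow_nat_eq ((wpr lam φ w).trace ^ 2 - 4) (n := 2)
      (by norm_num)
    set t := (wpr lam φ w).trace
    set x := (t + s) / 2 with hx
    have h1 : x * (t - x) = 1 := by
      rw [hx]
      linear_combination (-1 / 4) * hs
    have hx0 : x ≠ 0 := left_ne_zero_of_mul (by rw [h1]; exact one_ne_zero)
    have hinv : x⁻¹ = t - x := (eq_inv_of_mul_eq_one_right h1).symm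
    by_cases hn : 1 ≤ ‖x‖
    · exact ⟨x, hn, by rw [hinv]; ring⟩
    · refine ⟨x⁻¹, ?_, by rw [inv_inv, hinv]; ring⟩
      rw [norm_inv]
      push Not at hn
      exact one_le_inv₀ (norm_pos_iff.mpr hx0) |>.mpr hn.le
  have hCΛ := contract_eig (det_wpr lam φ w) hC1 hc hcon hΛ ht
  obtain ⟨α, _, hα, hα2⟩ := nr_sum lam φ hφ hΛ w [] (by simpa using ht)
  have h5 : (nrD lam φ w).trace = (Λ - Λ⁻¹) * α := by
    rw [← hα2]
    simp [wpr]
  rw [h2.deriv, h5]
  apply mul_ne_zero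
  · intro h0
    have h6 : Λ = Λ⁻¹ := sub_eq_zero.mp h0
    have h7 : ‖Λ‖ = ‖Λ‖⁻¹ := by
      rw [← norm_inv, ← h6]
    have h8 : ‖Λ‖⁻¹ ≤ 1 := inv_le_one_of_one_le₀ hΛ
    nlinarith [norm_nonneg Λ]
  · intro h0
    have := hα hw
    rw [h0] at this
    simp at this

theorem TT_deriv_ne {lam : ℝ} (hlam : 0 < lam) (l : List ℕ) (hl : Pos l) (φ : ℂ)
    (hφ : φ.im ≠ 0) : deriv (TT lam l) φ ≠ 0 := by
  rcases lt_or_gt_of_ne hφ with h | h
  · intro h0
    have hd : DifferentiableAt ℂ (TT lam l) φ := (differentiable_st lam l).fst φ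
    have h1 : HasDerivAt (TT lam l) 0 φ := by rw [← h0]; exact hd.hasDerivAt
    have h2 := h1.conj_conj
    have h3 : ((starRingEnd ℂ) ∘ TT lam l ∘ (starRingEnd ℂ)) = TT lam l := by
      funext z
      simp only [Function.comp, TT]
      rw [st_conj]
      simp
    rw [h3, map_zero] at h2
    exact nr_upper (lam := lam) l hl ((starRingEnd ℂ) φ) (by simpa using h) h2.deriv
  · exact nr_upper l hl φ h

end Sturm
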