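import Pool.Agent.Lib.MP_e5ebf6_mp.Walk

/-! Module Oper: existence, uniqueness, self-adjointness, norm and matrix elements of the discrete
Schrödinger operators on a Hilbert space with Hilbert basis `(b n)`.

PROOFS.
* `exists_schr`: a bounded operator on `V` mapping `b n` to `c n • b (n+j)` with `|c n| ≤ K` exists:
  e.g. via `b.repr : V ≃ₗᵢ[ℂ] lp (fun _ : ℤ => ℂ) 2` (`LinearMap.mkContinuous` on `lp`), or:
  the shift as `b.repr.trans b'.repr.symm` with the shifted basis
  `b' = HilbertBasis.mk` of `n ↦ b (n+1)`; its inverse; and the diagonal operator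
  `x ↦ ∑ v n ⟪b n, x⟫ b n` (see the diagonal operators in
  `Pool/Agent/Lib/MP_562b47_mp/Concrete.lean` or `Model.lean`, which can be copied).  Sum of the three.
* `isSchr_unique`: continuous linear maps agreeing on `b n` agree on the dense span
  (`b.dense_span`, `ContinuousLinearMap.ext_on`).
* `isSchr_selfAdjoint`: `⟪H b n, b m⟫ = ⟪b n, H b m⟫` for all `n m` (orthonormality, `v` real), so
  `adjoint H = H` (both continuous, density twice; e.g. `b.ext_inner`-type argument: the vectors
  `H† b m` and `H b m` have the same inner products with all `b n`).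
* `isSchr_norm`: uniqueness: `H = U + U⁻¹ + D` with `‖U‖ ≤ 1`, `‖D‖ ≤ K`
  (prove it together with `exists_schr`).
* `isSchr_pow`: induction on `k`: `⟪b m, H (H^k b n)⟫ = ⟪H b m, H^k b n⟫` (self-adjoint)
  `= ⟪b (m+1), ·⟫ + ⟪b (m-1), ·⟫ + v m ⟪b m, ·⟫`, the recursion of `wk`.
-/

open MeasureTheory Filter Topology Set
noncomputable section
namespace Sturm

/-- `ℓ²(ℤ)` -/
abbrev operL2 := lp (fun _ : ℤ => ℂ) 2

theorem oper_norm_sq (u : operL2) : ‖u‖ ^ 2 = ∑' j, ‖u j‖ ^ 2 := by
  have h := lp.norm_rpow_eq_tsum (p := 2) (by norm_num) u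
  simpa using h

theorem oper_summable (u : operL2) : Summable fun j => ‖u j‖ ^ 2 := by
  have h := (lp.memℓp u).summable (by norm_num)
  simpa using h

theorem oper_mem {u : ℤ → ℂ} (h : Summable fun j => ‖u j‖ ^ 2) : Memℓp u 2 := by
  refine memℓp_gen ?_
  simpa using h

/-- composition with a permutation -/
def operPerm (σ : Equiv.Perm ℤ) : operL2 →L[ℂ] operL2 :=
  LinearMap.mkContinuous
    { toFun := fun u => ⟨fun j => u (σ j), oper_mem
        ((σ.summable_iff (f := fun j => ‖u j‖ ^ 2)).mpr (oper_summable u))⟩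
      map_add' := fun u v => rfl
      map_smul' := fun c u => rfl } 1 (fun u => by
        rw [one_mul]
        refine (sq_le_sq₀ (norm_nonneg _) (norm_nonneg _)).mp ?_
        rw [oper_norm_sq, oper_norm_sq]
        exact le_of_eq (σ.tsum_eq (fun j => ‖u j‖ ^ 2)))

theorem operPerm_apply (σ : Equiv.Perm ℤ) (u : operL2) (j : ℤ) : operPerm σ u j = u (σ j) := rfl

theorem operPerm_norm (σ : Equiv.Perm ℤ) : ‖operPerm σ‖ ≤ 1 :=
  LinearMap.mkContinuous_norm_le _ zero_le_one _

/-- multiplication by a bounded potential -/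
def operDiag (v : ℤ → ℝ) (K : ℝ) (hv : ∀ n, |v n| ≤ K) : operL2 →L[ℂ] operL2 :=
  LinearMap.mkContinuous
    { toFun := fun u => ⟨fun j => (v j : ℂ) * u j, oper_mem (by
        refine Summable.of_nonneg_of_le (fun j => by positivity) (fun j => ?_)
          ((oper_summable u).mul_left (K ^ 2))
        rw [norm_mul, mul_pow, Complex.norm_real, Real.norm_eq_abs]
        have := hv j
        gcongr)⟩
      map_add' := fun u v => by
        ext j
        simp only [lp.coeFn_add, Pi.add_apply]
        ring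
      map_smul' := fun a u => by
        ext j
        simp only [lp.coeFn_smul, Pi.smul_apply, smul_eq_mul, RingHom.id_apply]
        ring } K (fun u => by
        have hK : 0 ≤ K := (abs_nonneg _).trans (hv 0)
        refine (sq_le_sq₀ (norm_nonneg _) (by positivity)).mp ?_
        rw [mul_pow, oper_norm_sq, oper_norm_sq, ← tsum_mul_left]
        refine Summable.tsum_le_tsum (fun j => ?_) ?_ ((oper_summable u).mul_left _)
        · change ‖(v j : ℂ) * u j‖ ^ 2 ≤ _
          rw [norm_mul, mul_pow, Complex.norm_real, Real.norm_eq_abs]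
          have := hv j
          gcongr
        · exact oper_summable _)

theorem operDiag_apply (v : ℤ → ℝ) (K : ℝ) (hv : ∀ n, |v n| ≤ K) (u : operL2) (j : ℤ) :
    operDiag v K hv u j = (v j : ℂ) * u j := rfl

theorem operDiag_norm (v : ℤ → ℝ) (K : ℝ) (hv : ∀ n, |v n| ≤ K) : ‖operDiag v K hv‖ ≤ K :=
  LinearMap.mkContinuous_norm_le _ ((abs_nonneg _).trans (hv 0)) _

theorem oper_single_apply (x j : ℤ) :
    (lp.single 2 x (1 : ℂ) : operL2) j = if j = x then 1 else 0 := by
  by_cases h : j = x
  · subst h; rw [lp.single_apply_self, if_pos rfl]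
  · rw [lp.single_apply_ne _ _ _ h, if_neg h]

variable {V : Type*} [NormedAddCommGroup V] [InnerProductSpace ℂ V] [CompleteSpace V]
  (b : HilbertBasis ℤ ℂ V)

theorem oper_exists (v : ℤ → ℝ) (K : ℝ) (hv : ∀ n, |v n| ≤ K) :
    ∃ H : V →L[ℂ] V, IsSchr b v H ∧ ‖H‖ ≤ 2 + K := by
  have hK : 0 ≤ K := (abs_nonneg _).trans (hv 0)
  let T : operL2 →L[ℂ] operL2 := operPerm (Equiv.addRight (-1)) + operPerm (Equiv.addRight 1) +
    operDiag v K hv
  have hT : ‖T‖ ≤ 2 + K := by
    have h1 := norm_add_le (operPerm (Equiv.addRight (-1)) + operPerm (Equiv.addRight 1))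
      (operDiag v K hv)
    have h2 := norm_add_le (operPerm (Equiv.addRight (-1))) (operPerm (Equiv.addRight 1))
    have h3 := operPerm_norm (Equiv.addRight (-1))
    have h4 := operPerm_norm (Equiv.addRight 1)
    have h5 := operDiag_norm v K hv
    show ‖operPerm (Equiv.addRight (-1)) + operPerm (Equiv.addRight 1) + operDiag v K hv‖ ≤ 2 + K
    linarith
  let e : V ≃L[ℂ] operL2 := b.repr.toContinuousLinearEquiv
  refine ⟨(e.symm : operL2 →L[ℂ] V).comp (T.comp (e : V →L[ℂ] operL2)), ?_, ?_⟩
  · intro n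
    show b.repr.symm (T (b.repr (b n))) = _
    rw [b.repr_self]
    have h1 : T (lp.single 2 n 1) = lp.single 2 (n + 1) 1 + lp.single 2 (n - 1) 1 +
        (v n : ℂ) • lp.single 2 n (1 : ℂ) := by
      ext j
      show operPerm (Equiv.addRight (-1)) (lp.single 2 n 1) j +
        operPerm (Equiv.addRight 1) (lp.single 2 n 1) j + operDiag v K hv (lp.single 2 n 1) j =
        (lp.single 2 (n + 1) 1 : operL2) j + (lp.single 2 (n - 1) 1 : operL2) j +
          (v n : ℂ) * (lp.single 2 n (1 : ℂ) : operL2) j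
      rw [operPerm_apply, operPerm_apply, operDiag_apply]
      rw [oper_single_apply, oper_single_apply, oper_single_apply, oper_single_apply,
        oper_single_apply]
      have e1 : (Equiv.addRight (-1 : ℤ)) j = n ↔ j = n + 1 := by
        simp only [Equiv.coe_addRight]; omega
      have e2 : (Equiv.addRight (1 : ℤ)) j = n ↔ j = n - 1 := by
        simp only [Equiv.coe_addRight]; omega
      simp only [e1, e2]
      congr 1
      by_cases h : j = n
      · subst h; simp
      · simp [h]
    rw [h1, map_add, map_add, map_smul, b.repr_symm_single, b.repr_symm_single,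
      b.repr_symm_single]
  · refine ContinuousLinearMap.opNorm_le_bound _ (by linarith) fun x => ?_
    show ‖b.repr.symm (T (b.repr x))‖ ≤ (2 + K) * ‖x‖
    rw [LinearIsometryEquiv.norm_map]
    have h1 := T.le_opNorm (b.repr x)
    rw [LinearIsometryEquiv.norm_map] at h1
    exact h1.trans (mul_le_mul_of_nonneg_right hT (norm_nonneg _))

theorem exists_schr (v : ℤ → ℝ) (K : ℝ) (hv : ∀ n, |v n| ≤ K) :
    ∃ H : V →L[ℂ] V, IsSchr b v H := by
  obtain ⟨H, h, -⟩ := oper_exists b v K hv
  exact ⟨H, h⟩

theorem oper_ext {H H' : V →L[ℂ] V} (h : ∀ n, H (b n) = H' (b n)) : H = H' := by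
  have hd : Dense (Submodule.span ℂ (Set.range b) : Set V) := by
    exact Submodule.dense_iff_topologicalClosure_eq_top.2 b.dense_span
  refine ContinuousLinearMap.ext_on hd ?_
  rintro _ ⟨n, rfl⟩
  exact h n

theorem isSchr_unique (v : ℤ → ℝ) {H H' : V →L[ℂ] V} (h : IsSchr b v H) (h' : IsSchr b v H') :
    H = H' := oper_ext b fun n => by rw [h n, h' n]

theorem oper_inner (i j : ℤ) : inner ℂ (b i) (b j) = if i = j then (1 : ℂ) else 0 :=
  (orthonormal_iff_ite.1 b.orthonormal) i j

theorem oper_inner_ext {x y : V} (h : ∀ n, inner ℂ (b n) x = inner ℂ (b n) y) : x = y := by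
  apply b.repr.injective
  ext n
  rw [b.repr_apply_apply, b.repr_apply_apply]
  exact h n

theorem isSchr_selfAdjoint (v : ℤ → ℝ) {H : V →L[ℂ] V} (h : IsSchr b v H) :
    IsSelfAdjoint H := by
  rw [ContinuousLinearMap.isSelfAdjoint_iff']
  refine oper_ext b fun m => oper_inner_ext b fun n => ?_
  rw [ContinuousLinearMap.adjoint_inner_right, h n, h m]
  rw [inner_add_left, inner_add_left, inner_smul_left, inner_add_right, inner_add_right,
    inner_smul_right, oper_inner, oper_inner, oper_inner, oper_inner, oper_inner]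
  have e1 : (n + 1 = m) ↔ (n = m - 1) := by omega
  have e2 : (n - 1 = m) ↔ (n = m + 1) := by omega
  simp only [e1, e2]
  by_cases hnm : n = m
  · subst hnm
    simp
  · simp only [hnm, if_false, mul_zero, add_zero]
    ring

theorem isSchr_norm (v : ℤ → ℝ) (K : ℝ) (hv : ∀ n, |v n| ≤ K) {H : V →L[ℂ] V}
    (h : IsSchr b v H) : ‖H‖ ≤ 2 + K := by
  obtain ⟨H', h', hn⟩ := oper_exists b v K hv
  rw [isSchr_unique b v h h']
  exact hn

theorem isSchr_pow (v : ℤ → ℝ) {H : V →L[ℂ] V} (h : IsSchr b v H) (k : ℕ) (n m : ℤ) :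
    inner ℂ (b m) ((H ^ k) (b n)) = (wk v k n m : ℂ) := by
  have hsa := isSchr_selfAdjoint b v h
  rw [ContinuousLinearMap.isSelfAdjoint_iff'] at hsa
  induction k generalizing m with
  | zero =>
    rw [pow_zero]
    show inner ℂ (b m) (b n) = _
    rw [oper_inner, wk]
    by_cases hnm : n = m
    · subst hnm; simp
    · simp [hnm, Ne.symm hnm]
  | succ k ih =>
    rw [pow_succ']
    show inner ℂ (b m) (H ((H ^ k) (b n))) = _
    rw [← ContinuousLinearMap.adjoint_inner_left, hsa, h m, inner_add_left, inner_add_left,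
      inner_smul_left, ih, ih, ih, wk, Complex.conj_ofReal]
    push_cast
    ring

end Sturm
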