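import Pool.Agent.Lib.MP_e5ebf6_mp.Oper

/-! Module OperCfc: the quadratic form `qf b H g = Re ⟨b 0, g(H) b 0⟩` of the continuous functional
calculus of a discrete Schrödinger operator with potential bounded by `K`.

PROOFS.
* `isSchr_spectrum`: `spectrum.norm_le_norm_of_mem` (for the real spectrum:
  `spectrum ℝ H = (↑) ⁻¹' spectrum ℂ H`, `spectrum.algebraMap_mem_iff` / `spectrum.subset...`)
  and `isSchr_norm`.
* `qf_poly`: `cfc_eval`-type lemmas: `cfc_polynomial`/`cfc_eval_X`/`cfc_pow`/`cfc_sum`: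
  `cfc (fun x => p.eval x) H = aeval H p = ∑ p.coeff k • H^k`, then `isSchr_pow` with `n = m = 0`.
* `qf_add`, `qf_smul`: `cfc_add`, `cfc_const_mul` / `cfc_smul` (continuous functions, `H`
  self-adjoint), real scalars come out of `re ∘ inner`.
* `qf_nonneg`: `cfc_nonneg` (`0 ≤ f` on the spectrum) gives `0 ≤ cfc f H`, i.e. a positive operator
  (`ContinuousLinearMap.nonneg_iff_isPositive`, `IsPositive.inner_nonneg_right` /
  `re_inner_nonneg_right`).
* `qf_close`: apply `qf_nonneg` to `ε - (f - g)` and `ε + (f - g)` and use additivity and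
  `qf 1 = ⟨b 0, b 0⟩ = 1` (`cfc_const_one` / `qf_poly` with `p = 1`).
-/

open MeasureTheory Filter Topology Set
noncomputable section
namespace Sturm

variable {V : Type*} [NormedAddCommGroup V] [InnerProductSpace ℂ V] [CompleteSpace V]
  (b : HilbertBasis ℤ ℂ V)

/-- `Re ⟨b 0, g(H) b 0⟩` -/
def qf (H : V →L[ℂ] V) (g : ℝ → ℝ) : ℝ := (inner ℂ (b 0) (cfc g H (b 0))).re

theorem isSchr_spectrum (v : ℤ → ℝ) (K : ℝ) (hv : ∀ n, |v n| ≤ K) {H : V →L[ℂ] V}
    (h : IsSchr b v H) : spectrum ℝ H ⊆ Icc (-(2 + K)) (2 + K) := by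
  intro r hr
  have h1 : ‖r‖ ≤ ‖H‖ * ‖(1 : V →L[ℂ] V)‖ := spectrum.norm_le_norm_mul_of_mem hr
  have h2 : ‖(1 : V →L[ℂ] V)‖ ≤ 1 := ContinuousLinearMap.norm_id_le
  have h3 := isSchr_norm b v K hv h
  have h4 : |r| ≤ 2 + K := by
    rw [← Real.norm_eq_abs]
    calc ‖r‖ ≤ ‖H‖ * ‖(1 : V →L[ℂ] V)‖ := h1
      _ ≤ ‖H‖ * 1 := mul_le_mul_of_nonneg_left h2 (norm_nonneg _)
      _ ≤ 2 + K := by linarith
  exact abs_le.mp h4

theorem qf_poly (v : ℤ → ℝ) {H : V →L[ℂ] V} (h : IsSchr b v H) (p : Polynomial ℝ) :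
    qf b H (fun x => p.eval x)
      = ∑ k ∈ Finset.range (p.natDegree + 1), p.coeff k * wk v k 0 0 := by
  have hH := isSchr_selfAdjoint b v h
  unfold qf
  have h1 : cfc (fun x => p.eval x) H = Polynomial.aeval H p := cfc_polynomial p H hH
  rw [h1, Polynomial.aeval_eq_sum_range, ContinuousLinearMap.sum_apply, inner_sum, Complex.re_sum]
  refine Finset.sum_congr rfl fun k _ => ?_
  have h2 : (p.coeff k • H ^ k) (b 0) = (p.coeff k : ℂ) • (H ^ k) (b 0) := by
    rw [ContinuousLinearMap.smul_apply]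
    exact (Complex.coe_smul (p.coeff k) ((H ^ k) (b 0))).symm
  rw [h2, inner_smul_right, isSchr_pow b v h k 0 0, ← Complex.ofReal_mul, Complex.ofReal_re]

theorem qf_add (v : ℤ → ℝ) {H : V →L[ℂ] V} (h : IsSchr b v H) (f g : ℝ → ℝ)
    (hf : Continuous f) (hg : Continuous g) :
    qf b H (fun x => f x + g x) = qf b H f + qf b H g := by
  have hH := isSchr_selfAdjoint b v h
  unfold qf
  rw [cfc_add (a := H) f g hf.continuousOn hg.continuousOn, ContinuousLinearMap.add_apply,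
    inner_add_right, Complex.add_re]

theorem qf_smul (v : ℤ → ℝ) {H : V →L[ℂ] V} (h : IsSchr b v H) (f : ℝ → ℝ)
    (hf : Continuous f) (c : ℝ) : qf b H (fun x => c * f x) = c * qf b H f := by
  have hH := isSchr_selfAdjoint b v h
  unfold qf
  rw [cfc_const_mul c f H hf.continuousOn]
  have h2 : (c • cfc f H) (b 0) = (c : ℂ) • (cfc f H) (b 0) := by
    rw [ContinuousLinearMap.smul_apply]
    exact (Complex.coe_smul c ((cfc f H) (b 0))).symm
  rw [h2, inner_smul_right, Complex.re_ofReal_mul]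

theorem qf_nonneg (v : ℤ → ℝ) (K : ℝ) (hv : ∀ n, |v n| ≤ K) {H : V →L[ℂ] V}
    (h : IsSchr b v H) (f : ℝ → ℝ) (hf : Continuous f)
    (h0 : ∀ x ∈ Icc (-(2 + K)) (2 + K), 0 ≤ f x) : 0 ≤ qf b H f := by
  have hH := isSchr_selfAdjoint b v h
  have h1 : 0 ≤ cfc f H := cfc_nonneg fun x hx => h0 x (isSchr_spectrum b v K hv h hx)
  rw [ContinuousLinearMap.nonneg_iff_isPositive] at h1
  exact h1.re_inner_nonneg_right (b 0)

theorem qf_one (v : ℤ → ℝ) {H : V →L[ℂ] V} (h : IsSchr b v H) :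
    qf b H (fun _ => 1) = 1 := by
  have h1 := qf_poly b v h 1
  simp only [Polynomial.eval_one] at h1
  rw [h1]
  simp [wk]

theorem qf_close (v : ℤ → ℝ) (K : ℝ) (hv : ∀ n, |v n| ≤ K) {H : V →L[ℂ] V}
    (h : IsSchr b v H) (f g : ℝ → ℝ) (hf : Continuous f) (hg : Continuous g) (ε : ℝ)
    (hfg : ∀ x ∈ Icc (-(2 + K)) (2 + K), |f x - g x| ≤ ε) :
    |qf b H f - qf b H g| ≤ ε := by
  have hone : qf b H (fun _ => ε) = ε := by
    have h1 := qf_smul b v h (fun _ => 1) continuous_const ε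
    simp only [mul_one] at h1
    rw [h1, qf_one b v h, mul_one]
  have key : ∀ f g : ℝ → ℝ, Continuous f → Continuous g →
      (∀ x ∈ Icc (-(2 + K)) (2 + K), |f x - g x| ≤ ε) → qf b H f - qf b H g ≤ ε := by
    intro f g hf hg hfg
    have h1 := qf_nonneg b v K hv h (fun x => (ε + (-1) * f x) + g x)
      ((continuous_const.add (continuous_const.mul hf)).add hg) (by
        intro x hx
        have := (abs_le.mp (hfg x hx)).2
        linarith)
    rw [qf_add b v h (fun x => ε + (-1) * f x) g (continuous_const.add (continuous_const.mul hf)) hg,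
      qf_add b v h (fun _ => ε) (fun x => (-1) * f x) continuous_const (continuous_const.mul hf),
      qf_smul b v h f hf (-1), hone] at h1
    linarith
  rw [abs_le]
  constructor
  · have := key g f hg hf (fun x hx => by rw [abs_sub_comm]; exact hfg x hx)
    linarith
  · exact key f g hf hg hfg

end Sturm
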