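import Pool.Agent.Lib.MP_e5ebf6_mp.InvBranch
import Pool.Agent.Lib.MP_e5ebf6_mp.NonReal
import Pool.Agent.Lib.MP_e5ebf6_mp.NonRealDeriv
import Pool.Agent.Lib.MP_e5ebf6_mp.RealDeriv

/-! Module Passages: existence, uniqueness, real points. -/

open Complex Metric Set
noncomputable section
namespace Sturm

private lemma ps_diff (lam : ℝ) (l : List ℕ) : Differentiable ℂ (TT lam l) :=
  (differentiable_st lam l).fst

private lemma ps_diffR (lam : ℝ) (l : List ℕ) : Differentiable ℝ (TR lam l) :=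
  (differentiable_str lam l).fst

private lemma ps_deriv_ofReal (lam : ℝ) (l : List ℕ) (φ : ℝ) :
    deriv (TT lam l) (φ : ℂ) = ((deriv (TR lam l) φ : ℝ) : ℂ) := by
  have h1 : HasDerivAt (TR lam l) (deriv (TR lam l) φ) φ := (ps_diffR lam l φ).hasDerivAt
  have h2 : HasDerivAt (fun t : ℝ => ((TR lam l t : ℝ) : ℂ)) ((deriv (TR lam l) φ : ℝ) : ℂ) φ :=
    h1.ofReal_comp
  have h3 : HasDerivAt (TT lam l) (deriv (TT lam l) (φ : ℂ)) (φ : ℂ) :=
    (ps_diff lam l φ).hasDerivAt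
  have h4 : HasDerivAt (fun t : ℝ => TT lam l (t : ℂ)) (deriv (TT lam l) (φ : ℂ)) φ :=
    h3.comp_ofReal
  have h5 : (fun t : ℝ => TT lam l (t : ℂ)) = fun t : ℝ => ((TR lam l t : ℝ) : ℂ) :=
    funext fun t => TT_ofReal lam l t
  rw [h5] at h4
  exact h4.unique h2

private lemma ps_nB_pos (l : List ℕ) (hl : Pos l) : 1 ≤ nB l := by
  have h : 1 ≤ (nAB l).2 ∧ 1 ≤ (nAB l).2 := by
    induction l with
    | nil => simp [nAB]
    | cons b l ih =>
      have h1 := ih (fun c hc => hl c (List.mem_cons_of_mem _ hc))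
      have h2 : 1 ≤ b := hl b (List.mem_cons_self ..)
      simp only [nAB]
      have : 1 * 1 ≤ b * (nAB l).2 := Nat.mul_le_mul h2 h1.1
      omega
  exact h.1

theorem TT_crit {lam : ℝ} (hlam : 0 < lam) (l : List ℕ) (hl : Pos l) (φ : ℂ)
    (h : ‖TT lam l φ‖ < RR lam) : deriv (TT lam l) φ ≠ 0 := by
  by_cases hφ : φ.im = 0
  · obtain ⟨x, rfl⟩ : ∃ x : ℝ, φ = (x : ℂ) := ⟨φ.re, Complex.ext (by simp) (by simp [hφ])⟩
    rw [TT_ofReal, Complex.norm_real, Real.norm_eq_abs] at h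
    rw [ps_deriv_ofReal]
    have h1 := TR_deriv_lower hlam l hl x h
    have h2 : (1 : ℝ) ≤ nB l := by exact_mod_cast ps_nB_pos l hl
    have h3 : 0 < RR lam ^ 2 - TR lam l x ^ 2 := by
      have := sq_lt_sq' (by linarith [abs_lt.mp h]) (abs_lt.mp h).2
      linarith
    have h4 := Real.sqrt_pos.mpr h3
    have h5 : 0 < |deriv (TR lam l) x| := lt_of_lt_of_le (by positivity) h1
    have h6 : deriv (TR lam l) x ≠ 0 := abs_pos.mp h5
    exact_mod_cast h6
  · exact TT_deriv_ne hlam l hl φ hφ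

private lemma ps_periodic (lam : ℝ) (l : List ℕ) (z : ℂ) :
    TT lam l (z + 2 * Real.pi) = TT lam l z := by
  unfold TT
  rw [st_periodic]

theorem passage_unique {lam : ℝ} (l : List ℕ) {g₁ g₂ : ℂ → ℂ}
    (h₁ : Passage lam l g₁) (h₂ : Passage lam l g₂) {w0 : ℂ} (hw0 : w0 ∈ ball (0 : ℂ) (RR lam))
    (h : g₁ w0 = g₂ w0) : ∀ w ∈ ball (0 : ℂ) (RR lam), g₁ w = g₂ w :=
  inverse_branch_unique (ps_diff lam l) h₁.diff h₂.diff h₁.inv h₂.inv hw0 h

private lemma ps_mem_ball {lam t : ℝ} (ht : |t| < RR lam) : (t : ℂ) ∈ ball (0 : ℂ) (RR lam) := by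
  rw [mem_ball_zero_iff, Complex.norm_real, Real.norm_eq_abs]
  exact ht

theorem exists_passage {lam : ℝ} (hlam : 0 < lam) (l : List ℕ) (hl : Pos l) (φ : ℝ)
    (h : |TR lam l φ| < RR lam) :
    ∃ g : ℂ → ℂ, Passage lam l g ∧ gr g (TR lam l φ) = φ := by
  have hR : 0 < RR lam := by linarith [two_lt_RR hlam]
  have hprop : ∀ r : ℝ, r < RR lam → ∃ C : ℝ, ∀ z, ‖TT lam l z‖ ≤ r → |z.im| ≤ C := by
    intro r _
    refine ⟨|r + 1| + |r + 1| ^ 2, fun z hz => ?_⟩
    have h1 := TT_proper hlam l hl z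
    have h2 : Real.sqrt (Real.cosh (2 * z.im)) ≤ r + 1 := by linarith
    have h3 : Real.cosh (2 * z.im) ≤ (r + 1) ^ 2 := by
      have h0 : 0 ≤ Real.sqrt (Real.cosh (2 * z.im)) := Real.sqrt_nonneg _
      calc Real.cosh (2 * z.im) = Real.sqrt (Real.cosh (2 * z.im)) ^ 2 :=
            (Real.sq_sqrt (by positivity)).symm
        _ ≤ _ := pow_le_pow_left₀ h0 h2 2
    have h4 : |z.im| ≤ Real.cosh (2 * z.im) := by
      have h5 : |2 * z.im| ≤ Real.cosh (2 * z.im) := by
        rw [← Real.cosh_abs]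
        have h6 : Real.cosh |2 * z.im| = (Real.exp |2 * z.im| + Real.exp (-|2 * z.im|)) / 2 :=
          Real.cosh_eq _
        rw [h6]
        have h7 := Real.quadratic_le_exp_of_nonneg (abs_nonneg (2 * z.im))
        have h8 := Real.exp_pos (-|2 * z.im|)
        nlinarith [sq_nonneg (|2 * z.im| - 1)]
      rw [abs_mul, abs_two] at h5
      linarith [abs_nonneg z.im]
    rw [sq_abs]
    linarith [abs_nonneg (r + 1)]
  have h0 : ‖TT lam l (φ : ℂ)‖ < RR lam := by
    rw [TT_ofReal, Complex.norm_real, Real.norm_eq_abs]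
    exact h
  obtain ⟨g, hg1, hg2, hg3⟩ := exists_inverse_branch (ps_diff lam l) (ps_periodic lam l) hR
    (fun z hz => TT_crit hlam l hl z hz) hprop (φ : ℂ) h0
  rw [TT_ofReal] at hg3
  -- the conjugate branch
  set gc : ℂ → ℂ := fun w => (starRingEnd ℂ) (g ((starRingEnd ℂ) w)) with hgc
  have hball : ∀ w ∈ ball (0 : ℂ) (RR lam), (starRingEnd ℂ) w ∈ ball (0 : ℂ) (RR lam) := by
    intro w hw
    rw [mem_ball_zero_iff] at hw ⊢
    simpa using hw
  have hc1 : DifferentiableOn ℂ gc (ball 0 (RR lam)) := by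
    intro w hw
    have h1 : DifferentiableAt ℂ g ((starRingEnd ℂ) w) :=
      (hg1 _ (hball w hw)).differentiableAt (isOpen_ball.mem_nhds (hball w hw))
    have h2 := h1.conj_conj
    simp only [Complex.conj_conj] at h2
    exact h2.differentiableWithinAt
  have hc2 : ∀ w ∈ ball (0 : ℂ) (RR lam), TT lam l (gc w) = w := by
    intro w hw
    have h1 := hg2 _ (hball w hw)
    simp only [hgc]
    have h2 : TT lam l ((starRingEnd ℂ) (g ((starRingEnd ℂ) w))) =
        (starRingEnd ℂ) (TT lam l (g ((starRingEnd ℂ) w))) := by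
      unfold TT
      rw [st_conj]
    rw [h2, h1]
    simp
  have hc3 : g (TR lam l φ : ℂ) = gc (TR lam l φ : ℂ) := by
    simp only [hgc, Complex.conj_ofReal]
    rw [hg3, Complex.conj_ofReal]
  have hu := inverse_branch_unique (ps_diff lam l) hg1 hc1 hg2 hc2 (ps_mem_ball h) hc3
  refine ⟨g, ⟨hg1, hg2, ?_⟩, ?_⟩
  · intro t ht
    have h1 := hu _ (ps_mem_ball ht)
    simp only [hgc, Complex.conj_ofReal] at h1
    exact Complex.conj_eq_iff_im.mp h1.symm
  · unfold gr
    rw [hg3, Complex.ofReal_re]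

/-- real points of a passage -/
theorem passage_ofReal {lam : ℝ} (l : List ℕ) {g : ℂ → ℂ} (h : Passage lam l g) {t : ℝ}
    (ht : |t| < RR lam) : g (t : ℂ) = (gr g t : ℂ) ∧ TR lam l (gr g t) = t := by
  have h1 : g (t : ℂ) = (gr g t : ℂ) := by
    apply Complex.ext
    · simp [gr]
    · rw [h.real t ht]; simp
  refine ⟨h1, ?_⟩
  have h2 := h.inv _ (ps_mem_ball ht)
  rw [h1, TT_ofReal] at h2
  exact_mod_cast h2

private lemma ps_hasDerivAt {lam : ℝ} (hlam : 0 < lam) (l : List ℕ) (hl : Pos l) {g : ℂ → ℂ}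
    (h : Passage lam l g) {w : ℂ} (hw : w ∈ ball (0 : ℂ) (RR lam)) :
    HasDerivAt g (deriv (TT lam l) (g w))⁻¹ w := by
  have h1 : HasDerivAt g (deriv g w) w :=
    ((h.diff w hw).differentiableAt (isOpen_ball.mem_nhds hw)).hasDerivAt
  have h2 : HasDerivAt (TT lam l) (deriv (TT lam l) (g w)) (g w) := (ps_diff lam l _).hasDerivAt
  have h3 := h2.comp w h1
  have h4 : (TT lam l ∘ g) =ᶠ[nhds w] id := by
    filter_upwards [isOpen_ball.mem_nhds hw] with z hz
    exact h.inv z hz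
  have h5 : HasDerivAt id (deriv (TT lam l) (g w) * deriv g w) w := h3.congr_of_eventuallyEq h4.symm
  have h6 := h5.unique (hasDerivAt_id w)
  have h7 : deriv g w = (deriv (TT lam l) (g w))⁻¹ := eq_inv_of_mul_eq_one_right h6
  rw [← h7]
  exact h1

/-- `gr g` is differentiable with derivative `1/T'` -/
theorem hasDerivAt_gr {lam : ℝ} (hlam : 0 < lam) (l : List ℕ) (hl : Pos l) {g : ℂ → ℂ}
    (h : Passage lam l g) {t : ℝ} (ht : |t| < RR lam) :
    HasDerivAt (gr g) (deriv (TR lam l) (gr g t))⁻¹ t := by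
  have h1 := (ps_hasDerivAt hlam l hl h (ps_mem_ball ht)).real_of_complex
  rw [(passage_ofReal l h ht).1, ps_deriv_ofReal] at h1
  have h2 : (((deriv (TR lam l) (gr g t) : ℝ) : ℂ)⁻¹).re = (deriv (TR lam l) (gr g t))⁻¹ := by
    rw [← Complex.ofReal_inv, Complex.ofReal_re]
  rw [h2] at h1
  exact h1

theorem continuousOn_gr {lam : ℝ} (hlam : 0 < lam) (l : List ℕ) (hl : Pos l) {g : ℂ → ℂ}
    (h : Passage lam l g) : ContinuousOn (gr g) (Ioo (-(RR lam)) (RR lam)) := by
  intro t ht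
  exact (hasDerivAt_gr hlam l hl h (abs_lt.mpr ht)).continuousAt.continuousWithinAt

/-- a real path along which `|T| < R` stays on the passage -/
theorem passage_path {lam : ℝ} (hlam : 0 < lam) (l : List ℕ) (hl : Pos l) {g : ℂ → ℂ}
    (h : Passage lam l g) {γ : ℝ → ℝ} {a b : ℝ} (hab : a ≤ b) (hγ : ContinuousOn γ (Icc a b))
    (hT : ∀ t ∈ Icc a b, |TR lam l (γ t)| < RR lam) (ha : gr g (TR lam l (γ a)) = γ a) :
    ∀ t ∈ Icc a b, gr g (TR lam l (γ t)) = γ t := by
  have hTc : ContinuousOn (fun t => TR lam l (γ t)) (Icc a b) :=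
    (ps_diffR lam l).continuous.comp_continuousOn hγ
  have hFc : ContinuousOn (fun t => gr g (TR lam l (γ t))) (Icc a b) :=
    (continuousOn_gr hlam l hl h).comp hTc fun t ht => abs_lt.mp (hT t ht)
  have hcl : IsClosed ({t | gr g (TR lam l (γ t)) = γ t} ∩ Icc a b) := by
    have h1 : ContinuousOn (fun t => gr g (TR lam l (γ t)) - γ t) (Icc a b) := hFc.sub hγ
    have h2 := h1.preimage_isClosed_of_isClosed isClosed_Icc (isClosed_singleton (x := (0 : ℝ)))
    have h3 : {t | gr g (TR lam l (γ t)) = γ t} ∩ Icc a b =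
        Icc a b ∩ (fun t => gr g (TR lam l (γ t)) - γ t) ⁻¹' {0} := by
      ext t
      have h4 : t ∈ {t | gr g (TR lam l (γ t)) = γ t} ↔ gr g (TR lam l (γ t)) = γ t := Iff.rfl
      rw [mem_inter_iff, mem_inter_iff, h4, mem_preimage, mem_singleton_iff, sub_eq_zero]
      exact and_comm
    rw [h3]
    exact h2
  refine fun t ht => (hcl.Icc_subset_of_forall_mem_nhdsWithin (by exact ha) ?_) ht
  rintro x ⟨hx1, hx2⟩
  have hx1' : gr g (TR lam l (γ x)) = γ x := hx1
  have hxI : x ∈ Icc a b := Ico_subset_Icc_self hx2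
  have hne : deriv (TT lam l) ((γ x : ℝ) : ℂ) ≠ 0 := by
    apply TT_crit hlam l hl
    rw [TT_ofReal, Complex.norm_real, Real.norm_eq_abs]
    exact hT x hxI
  have hstr : HasStrictDerivAt (TT lam l) (deriv (TT lam l) ((γ x : ℝ) : ℂ)) ((γ x : ℝ) : ℂ) :=
    ((ps_diff lam l).contDiff (n := 1)).contDiffAt.hasStrictDerivAt (by norm_num)
  have hev := hstr.eventually_left_inverse (hf' := hne)
  have hle : nhdsWithin x (Ioi x) ≤ nhdsWithin x (Icc a b) := by
    rw [← nhdsWithin_Ioc_eq_nhdsGT hx2.2]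
    exact nhdsWithin_mono x fun y hy => ⟨le_trans hx2.1 hy.1.le, hy.2⟩
  have c1 : Filter.Tendsto (fun t => ((γ t : ℝ) : ℂ)) (nhdsWithin x (Ioi x))
      (nhds ((γ x : ℝ) : ℂ)) :=
    (Complex.continuous_ofReal.tendsto _).comp ((hγ x hxI).mono_left hle)
  have c2 : Filter.Tendsto (fun t => ((gr g (TR lam l (γ t)) : ℝ) : ℂ)) (nhdsWithin x (Ioi x))
      (nhds ((γ x : ℝ) : ℂ)) := by
    have h1 := (Complex.continuous_ofReal.tendsto _).comp ((hFc x hxI).mono_left hle)
    simp only [hx1'] at h1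
    exact h1
  have hI : ∀ᶠ t in nhdsWithin x (Ioi x), t ∈ Icc a b := hle self_mem_nhdsWithin
  filter_upwards [c1.eventually hev, c2.eventually hev, hI] with y h1 h2 h3
  have h4 := (passage_ofReal l h (hT y h3)).2
  rw [TT_ofReal] at h1 h2
  rw [h4] at h2
  rw [h2] at h1
  exact_mod_cast h1

/-- translation by `2π k` of a passage -/
theorem passage_add {lam : ℝ} (l : List ℕ) {g : ℂ → ℂ} (h : Passage lam l g) (k : ℤ) :
    Passage lam l (fun w => g w + 2 * Real.pi * k) := by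
  have hper : ∀ z : ℂ, TT lam l (z + 2 * Real.pi * k) = TT lam l z := by
    intro z
    have h1 : topC lam (z + 2 * Real.pi * k) = topC lam z := by
      unfold topC
      have h2 : z + 2 * (Real.pi : ℂ) * k = z + k * (2 * Real.pi) := by ring
      rw [h2, Complex.cos_add_int_mul_two_pi, Complex.sin_add_int_mul_two_pi]
    unfold TT st
    rw [h1]
  refine ⟨h.diff.add_const _, fun w hw => ?_, fun t ht => ?_⟩
  · rw [hper, h.inv w hw]
  · have h1 := h.real t ht
    have h2 : (2 * (Real.pi : ℂ) * k) = ((2 * Real.pi * k : ℝ) : ℂ) := by push_cast; ring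
    rw [Complex.add_im, h1, h2, Complex.ofReal_im, add_zero]

end Sturm
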