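import Mathlib

/-! Statement level definitions: the Sturmian operators, the density of states measure and the
upper Hausdorff dimension, exactly as in the problem file.  The Hilbert space `ℓ²(ℤ)` is given as
a complex Hilbert space `V` with a Hilbert basis `(b n)`, `n ∈ ℤ` (for `V = ℓ²(ℤ)`: `b n = δ_n`). -/

open MeasureTheory
noncomputable section
namespace Sturm

/-- the potential of the problem: `λ χ_{[1-α,1)}(nα + ω mod 1)` -/
def vst (lam α ω : ℝ) (n : ℤ) : ℝ :=
  if Int.fract ((n : ℝ) * α + ω) ∈ Set.Ico (1 - α) 1 then lam else 0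

/-- `H` is the discrete Schrödinger operator with potential `v`:
`(H ψ)(n) = ψ (n+1) + ψ (n-1) + v n ψ n`, that is `H δ_n = δ_{n+1} + δ_{n-1} + v n δ_n` -/
def IsSchr {V : Type*} [NormedAddCommGroup V] [InnerProductSpace ℂ V]
    (b : HilbertBasis ℤ ℂ V) (v : ℤ → ℝ) (H : V →L[ℂ] V) : Prop :=
  ∀ n : ℤ, H (b n) = b (n + 1) + b (n - 1) + (v n : ℂ) • b n

/-- `N` is the density of states measure of the Sturmian operators `H_ω` with coupling `lam` and
frequency `α`: a probability measure with `∫ g dN = ∫₀¹ ⟨δ₀, g(H_ω) δ₀⟩ dω` for all bounded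
continuous `g`. -/
structure IsDOS {V : Type*} [NormedAddCommGroup V] [InnerProductSpace ℂ V] [CompleteSpace V]
    (b : HilbertBasis ℤ ℂ V) (lam α : ℝ) (N : Measure ℝ) : Prop where
  prob : IsProbabilityMeasure N
  dos : ∃ H : ℝ → (V →L[ℂ] V), (∀ ω, IsSchr b (vst lam α ω) (H ω)) ∧
    ∀ g : ℝ → ℝ, Continuous g → (∃ C, ∀ x, |g x| ≤ C) →
      ∫ E, g E ∂N = ∫ ω in (0 : ℝ)..1, (inner ℂ (b 0) (cfc g (H ω) (b 0))).re

/-- upper Hausdorff dimension of a measure: `inf {dim_H S : S Borel, μ (ℝ \ S) = 0}` -/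
def udim (μ : Measure ℝ) : ENNReal :=
  ⨅ (S : Set ℝ) (_ : MeasurableSet S ∧ μ Sᶜ = 0), dimH S

end Sturm
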