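import Pool.Agent.Lib.MP_e5ebf6_mp.StateAlg
import Pool.Agent.Lib.MP_e5ebf6_mp.Cross

/-! Module TMBasic: pairs of matrices with logarithmic derivatives. -/

noncomputable section
namespace Sturm
namespace TM

section
variable {K : Type*} [CommRing K]

private lemma tmb_adj_mul {M : M2 K} (h : M.det = 1) : M.adjugate * M = 1 := by
  rw [Matrix.adjugate_mul, h, one_smul]

private lemma tmb_mul_adj {M : M2 K} (h : M.det = 1) : M * M.adjugate = 1 := by
  rw [Matrix.mul_adjugate, h, one_smul]

private lemma tmb_det_pow {M : M2 K} (h : M.det = 1) (n : ℕ) : (M ^ n).det = 1 := by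
  rw [Matrix.det_pow, h, one_pow]

private lemma tmb_ch {M : M2 K} (h : M.det = 1) : M * M = M.trace • M - 1 := by
  rw [Matrix.det_fin_two] at h
  ext i j
  fin_cases i <;> fin_cases j <;>
    simp [Matrix.mul_apply, Fin.sum_univ_two, Matrix.trace_fin_two] <;>
    first
      | ring1
      | linear_combination (-1 : K) * h

private lemma tmb_polar (M L : M2 K) (h : L.trace = 0) :
    M * L + L * M = M.trace • L + (M * L).trace • (1 : M2 K) := by
  rw [Matrix.trace_fin_two] at h
  have h' : L 1 1 = - L 0 0 := by linear_combination h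
  ext i j
  fin_cases i <;> fin_cases j <;>
    simp [Matrix.mul_apply, Fin.sum_univ_two, Matrix.trace_fin_two, h'] <;> ring

private lemma tmb_trace_conj {g L : M2 K} (hg : g.det = 1) (h : L.trace = 0) :
    (g.adjugate * L * g).trace = 0 := by
  rw [Matrix.trace_mul_comm, ← mul_assoc, tmb_mul_adj hg, one_mul, h]

private lemma tmb_trace_conj' {g L : M2 K} (hg : g.det = 1) (h : L.trace = 0) :
    (g * L * g.adjugate).trace = 0 := by
  rw [Matrix.trace_mul_comm, ← mul_assoc, tmb_adj_mul hg, one_mul, h]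

private lemma tmb_lab_zero (P : TM K) : lab 0 P = P.LA := by
  simp [lab]

private lemma tmb_lab_succ (p : ℕ) (P : TM K) :
    lab (p + 1) P = P.B.adjugate * lab p P * P.B + P.LB := by
  unfold lab
  rw [Finset.sum_range_succ', mul_add, add_mul, Finset.mul_sum, Finset.sum_mul]
  have h1 : ∀ i, (P.B ^ (i + 1)).adjugate = P.B.adjugate * (P.B ^ i).adjugate := by
    intro i
    rw [pow_succ, Matrix.adjugate_mul_distrib]
  have h2 : (P.B ^ (p + 1)).adjugate * P.LA * P.B ^ (p + 1) =
      P.B.adjugate * ((P.B ^ p).adjugate * P.LA * P.B ^ p) * P.B := by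
    rw [h1, pow_succ]
    simp only [mul_assoc]
  have h3 : ∀ i, (P.B ^ (i + 1)).adjugate * P.LB * P.B ^ (i + 1) =
      P.B.adjugate * ((P.B ^ i).adjugate * P.LB * P.B ^ i) * P.B := by
    intro i
    rw [h1, pow_succ]
    simp only [mul_assoc]
  rw [h2, Finset.sum_congr rfl (fun i _ => h3 i)]
  simp only [pow_zero, Matrix.adjugate_one, one_mul, mul_one]
  rw [add_assoc]

theorem good_next (b : ℕ) {P : TM K} (h : P.Good) : (next b P).Good := by
  refine ⟨h.dB, ?_, h.tB, ?_⟩
  · show (P.A * P.B ^ b).det = 1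
    rw [Matrix.det_mul, h.dA, tmb_det_pow h.dB, one_mul]
  · show (lab b P).trace = 0
    unfold lab
    rw [Matrix.trace_add, Matrix.trace_sum, tmb_trace_conj (tmb_det_pow h.dB b) h.tA, zero_add]
    exact Finset.sum_eq_zero fun i _ => tmb_trace_conj (tmb_det_pow h.dB i) h.tB

theorem good_prev (b : ℕ) {P : TM K} (h : P.Good) : (prev b P).Good := by
  refine ⟨?_, h.dA, ?_, h.tA⟩
  · show (P.B * P.A.adjugate ^ b).det = 1
    rw [Matrix.det_mul, h.dB, Matrix.det_pow, Matrix.det_adjugate, h.dA]
    simp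
  · show (lba b P).trace = 0
    unfold lba
    rw [Matrix.trace_sub, Matrix.trace_sum, tmb_trace_conj' (tmb_det_pow h.dA b) h.tB, zero_sub,
      neg_eq_zero]
    exact Finset.sum_eq_zero fun i _ => tmb_trace_conj' (tmb_det_pow h.dA (i + 1)) h.tA

/-- trace of `A B^p` and of its derivative -/
theorem trace_mul_pow (p : ℕ) {P : TM K} (h : P.Good) : (P.A * P.B ^ p).trace = uu P.stt p := by
  induction p using Nat.twoStepInduction with
  | zero => simp [uu, stt]
  | one => simp [uu, stt]
  | more p ih1 ih2 =>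
    have h1 : P.A * P.B ^ (p + 2) = P.B.trace • (P.A * P.B ^ (p + 1)) - P.A * P.B ^ p := by
      rw [pow_add, pow_two, tmb_ch h.dB, pow_succ]
      rw [mul_sub, mul_sub, mul_one, mul_smul_comm, mul_smul_comm]
    rw [h1, Matrix.trace_sub, Matrix.trace_smul, ih1, ih2]
    simp [uu, stt]

private lemma tmb_ML (p : ℕ) {P : TM K} (h : P.Good) :
    P.A * P.B ^ (p + 1) * lab (p + 1) P =
      P.A * P.B ^ p * lab p P * P.B + P.A * P.B ^ p * P.B * P.LB := by
  rw [tmb_lab_succ, pow_succ, mul_add]
  congr 1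
  · calc P.A * (P.B ^ p * P.B) * (P.B.adjugate * lab p P * P.B)
        = P.A * P.B ^ p * (P.B * P.B.adjugate) * lab p P * P.B := by simp only [mul_assoc]
      _ = _ := by rw [tmb_mul_adj h.dB, mul_one]
  · simp only [mul_assoc]

theorem trace_mul_pow_lab (p : ℕ) {P : TM K} (h : P.Good) :
    (P.A * P.B ^ p * lab p P).trace = duu P.stt P.dst p := by
  induction p using Nat.twoStepInduction with
  | zero => simp [duu, dst, tmb_lab_zero]
  | one =>
    have := tmb_ML 0 h
    rw [zero_add] at this
    rw [this, tmb_lab_zero]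
    simp [duu, dst]
  | more p ih1 ih2 =>
    have h1 := tmb_ML p h
    have h2 := tmb_ML (p + 1) h
    have hpol := tmb_polar P.B P.LB h.tB
    have hch := tmb_ch h.dB
    rw [show p + 1 + 1 = p + 2 from rfl] at h2
    rw [h1] at h2
    rw [h1] at ih2
    have h3 : (P.A * P.B ^ p * lab p P * P.B + P.A * P.B ^ p * P.B * P.LB) * P.B +
        P.A * P.B ^ (p + 1) * P.B * P.LB =
        P.A * P.B ^ p * lab p P * (P.B * P.B) +
        P.A * P.B ^ p * P.B * (P.B * P.LB + P.LB * P.B) := by
      rw [pow_succ]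
      simp only [mul_add, add_mul, mul_assoc]
      abel
    rw [h2, h3, hch, hpol, mul_sub, mul_one, mul_add, mul_smul_comm, mul_smul_comm, mul_smul_comm,
      mul_one, Matrix.trace_add, Matrix.trace_sub, Matrix.trace_smul, Matrix.trace_add,
      Matrix.trace_smul, Matrix.trace_smul, ih1]
    rw [Matrix.trace_add] at ih2
    have h4 : (P.A * P.B ^ p * P.B).trace = uu P.stt (p + 1) := by
      rw [← trace_mul_pow (p + 1) h, pow_succ, mul_assoc]
    rw [h4]
    simp only [duu, smul_eq_mul]
    rw [← ih2]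
    simp only [stt, dst]
    ring

theorem stt_next (b : ℕ) {P : TM K} (h : P.Good) : (next b P).stt = fwd1 b P.stt := by
  have h1 := trace_mul_pow b h
  have h2 := trace_mul_pow (b + 1) h
  have h3 : (P.B * (P.A * P.B ^ b)).trace = (P.A * P.B ^ (b + 1)).trace := by
    rw [Matrix.trace_mul_comm, pow_succ, mul_assoc]
  show (P.B.trace, (P.A * P.B ^ b).trace, (P.B * (P.A * P.B ^ b)).trace) = _
  rw [h3, h1, h2]
  rfl

theorem dst_next (b : ℕ) {P : TM K} (h : P.Good) : (next b P).dst = dfwd1 b P.stt P.dst := by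
  have h1 := trace_mul_pow_lab b h
  have h2 := trace_mul_pow_lab (b + 1) h
  have h3 := tmb_ML b h
  have h4 : (P.B * P.LB * (P.A * P.B ^ b) + P.B * (P.A * P.B ^ b) * lab b P).trace =
      (P.A * P.B ^ (b + 1) * lab (b + 1) P).trace := by
    rw [h3, Matrix.trace_add, Matrix.trace_add, add_comm]
    congr 1
    · rw [mul_assoc, Matrix.trace_mul_comm, mul_assoc]
    · rw [Matrix.trace_mul_comm]
      simp only [mul_assoc]
  show ((P.B * P.LB).trace, (P.A * P.B ^ b * lab b P).trace,
    (P.B * P.LB * (P.A * P.B ^ b) + P.B * (P.A * P.B ^ b) * lab b P).trace) = _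
  rw [h4, h1, h2]
  rfl

/-- the logarithmic derivative of `A B^p` at the pair `prev b P` is that of `B A^{-(b-p)}` at `P` -/
theorem lab_prev (b p : ℕ) (hp : p ≤ b) {P : TM K} (h : P.Good) :
    lab p (prev b P) = lba (b - p) P := by
  induction p with
  | zero => rw [tmb_lab_zero]; rfl
  | succ p ih =>
    obtain ⟨m, hm⟩ : ∃ m, b - p = m + 1 := ⟨b - p - 1, by omega⟩
    have hm' : b - (p + 1) = m := by omega
    rw [tmb_lab_succ, ih (by omega), hm, hm']
    show P.A.adjugate * lba (m + 1) P * P.A + P.LA = lba m P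
    unfold lba
    have h1 : ∀ i, ∀ X : M2 K, P.A.adjugate * (P.A ^ (i + 1) * X * (P.A ^ (i + 1)).adjugate) * P.A =
        P.A ^ i * X * (P.A ^ i).adjugate := by
      intro i X
      rw [pow_succ', Matrix.adjugate_mul_distrib]
      calc P.A.adjugate * (P.A * P.A ^ i * X * ((P.A ^ i).adjugate * P.A.adjugate)) * P.A
          = (P.A.adjugate * P.A) * P.A ^ i * X * (P.A ^ i).adjugate * (P.A.adjugate * P.A) := by
            simp only [mul_assoc]
        _ = _ := by rw [tmb_adj_mul h.dA, one_mul, mul_one]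
    rw [mul_sub, sub_mul, h1, Finset.mul_sum, Finset.sum_mul,
      Finset.sum_congr rfl (fun i _ => h1 i P.LA), Finset.sum_range_succ']
    simp only [pow_zero, Matrix.adjugate_one, one_mul, mul_one]
    abel

theorem next_prev (b : ℕ) {P : TM K} (h : P.Good) : next b (prev b P) = P := by
  have h1 : lab b (prev b P) = P.LB := by
    rw [lab_prev b b le_rfl h, Nat.sub_self]
    simp [lba]
  have h2 : P.B * P.A.adjugate ^ b * P.A ^ b = P.B := by
    rw [mul_assoc, ← Matrix.adjugate_pow, tmb_adj_mul (tmb_det_pow h.dA b), mul_one]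
  show (⟨P.A, P.B * P.A.adjugate ^ b * P.A ^ b, P.LA, lab b (prev b P)⟩ : TM K) = P
  rw [h1, h2]

theorem good_nexts (l : List ℕ) {P : TM K} (h : P.Good) : (nexts l P).Good := by
  induction l generalizing P with
  | nil => exact h
  | cons b l ih => exact ih (good_next b h)

theorem good_prevs (l : List ℕ) {P : TM K} (h : P.Good) : (prevs l P).Good := by
  induction l with
  | nil => exact h
  | cons b l ih => exact good_prev b ih

theorem nexts_prevs (l : List ℕ) {P : TM K} (h : P.Good) : nexts l (prevs l P) = P := by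
  induction l with
  | nil => rfl
  | cons b l ih =>
    show nexts l (next b (prev b (prevs l P))) = P
    rw [next_prev b (good_prevs l h), ih]

theorem stt_nexts (l : List ℕ) {P : TM K} (h : P.Good) : (nexts l P).stt = fwd l P.stt := by
  induction l generalizing P with
  | nil => rfl
  | cons b l ih =>
    show (nexts l (next b P)).stt = fwd l (fwd1 b P.stt)
    rw [ih (good_next b h), stt_next b h]

theorem dst_nexts (l : List ℕ) {P : TM K} (h : P.Good) :
    (nexts l P).dst = dfwd l P.stt P.dst := by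
  induction l generalizing P with
  | nil => rfl
  | cons b l ih =>
    show (nexts l (next b P)).dst = dfwd l (fwd1 b P.stt) (dfwd1 b P.stt P.dst)
    rw [ih (good_next b h), stt_next b h, dst_next b h]

theorem stt_prevs (l : List ℕ) {P : TM K} (h : P.Good) : (prevs l P).stt = bwd l P.stt := by
  have h1 := stt_nexts l (good_prevs l h)
  rw [nexts_prevs l h] at h1
  rw [h1, bwd_fwd]

/-- the matrices do not depend on the logarithmic derivatives -/
theorem nexts_A_indep (l : List ℕ) (P Q : TM K) (hA : P.A = Q.A) (hB : P.B = Q.B) :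
    (nexts l P).A = (nexts l Q).A ∧ (nexts l P).B = (nexts l Q).B := by
  induction l generalizing P Q with
  | nil => exact ⟨hA, hB⟩
  | cons b l ih =>
    refine ih (next b P) (next b Q) hB ?_
    show P.A * P.B ^ b = Q.A * Q.B ^ b
    rw [hA, hB]

theorem prevs_A_indep (l : List ℕ) (P Q : TM K) (hA : P.A = Q.A) (hB : P.B = Q.B) :
    (prevs l P).A = (prevs l Q).A ∧ (prevs l P).B = (prevs l Q).B := by
  induction l with
  | nil => exact ⟨hA, hB⟩
  | cons b l ih =>
    refine ⟨?_, ih.1⟩
    show (prevs l P).B * (prevs l P).A.adjugate ^ b = (prevs l Q).B * (prevs l Q).A.adjugate ^ b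
    rw [ih.1, ih.2]

theorem nexts_append (l m : List ℕ) (P : TM K) : nexts (l ++ m) P = nexts m (nexts l P) := by
  induction l generalizing P with
  | nil => rfl
  | cons b l ih => exact ih (next b P)

theorem prevs_append (l m : List ℕ) (P : TM K) : prevs (l ++ m) P = prevs l (prevs m P) := by
  induction l with
  | nil => rfl
  | cons b l ih =>
    show prev b (prevs (l ++ m) P) = prev b (prevs l (prevs m P))
    rw [ih]

end

theorem good_top (lam φ : ℝ) : (tmTop lam φ).Good := by
  refine ⟨?_, ?_, ?_, ?_⟩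
  · simp only [tmTop, Matrix.det_fin_two_of]
    have h1 := RR_sq lam
    have h2 := Real.sin_sq_add_cos_sq φ
    linear_combination (1 / 4 : ℝ) * (Real.sin φ ^ 2 + Real.cos φ ^ 2) * h1 + h2
  · simp [tmTop, Matrix.det_fin_two_of]
  · simp [tmTop, Matrix.trace_fin_two]
  · simp [tmTop]

end TM

theorem tmr_good (lam : ℝ) (l : List ℕ) (φ : ℝ) : (tmr lam l φ).Good :=
  TM.good_prevs l (TM.good_top lam φ)

private lemma tmb_top_stt (lam φ : ℝ) : (tmTop lam φ).stt = topR lam φ := by
  simp only [TM.stt, tmTop, topR, Matrix.trace_fin_two, Matrix.mul_apply, Fin.sum_univ_two,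
    Prod.mk.injEq]
  refine ⟨?_, ?_, ?_⟩
  · simp; ring
  · simp
  · simp; ring

theorem tmr_stt (lam : ℝ) (l : List ℕ) (φ : ℝ) : (tmr lam l φ).stt = str lam l φ := by
  unfold tmr str
  rw [TM.stt_prevs l (TM.good_top lam φ), tmb_top_stt]

private lemma tmb_top_dst (lam φ : ℝ) :
    (tmTop lam φ).dst = (-(RR lam * Real.sin φ), 0, -(RR lam * Real.cos φ)) := by
  simp only [TM.dst, tmTop, Matrix.trace_fin_two, Matrix.mul_apply, Fin.sum_univ_two,
    Prod.mk.injEq, Matrix.add_apply]
  refine ⟨?_, ?_, ?_⟩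
  · simp; ring
  · simp
  · simp; ring

private lemma tmb_deriv_top (lam φ : ℝ) :
    deriv (str lam []) φ = (-(RR lam * Real.sin φ), 0, -(RR lam * Real.cos φ)) := by
  have h : HasDerivAt (fun φ : ℝ => ((RR lam * Real.cos φ, 0, -(RR lam * Real.sin φ)) : ℝ × ℝ × ℝ))
      (RR lam * (-Real.sin φ), 0, -(RR lam * Real.cos φ)) φ :=
    ((Real.hasDerivAt_cos φ).const_mul _).prodMk
      ((hasDerivAt_const φ (0 : ℝ)).prodMk ((Real.hasDerivAt_sin φ).const_mul _).neg)
  have h2 : str lam [] = (fun φ : ℝ => ((RR lam * Real.cos φ, 0, -(RR lam * Real.sin φ)) : ℝ × ℝ × ℝ)) := by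
    funext φ
    rfl
  rw [h2, h.deriv]
  simp

private lemma tmb_duu_inj (s d e : St ℝ) (h0 : d.2.1 = e.2.1) (b : ℕ)
    (h1 : duu s d b = duu s e b) (h2 : duu s d (b + 1) = duu s e (b + 1)) : d = e := by
  induction b with
  | zero =>
    have h3 : d.1 = e.1 := h1
    have h4 : d.2.2 = e.2.2 := h2
    exact Prod.ext h3 (Prod.ext h0 h4)
  | succ b ih =>
    refine ih ?_ h1
    have h5 : duu s d (b + 2) = duu s e (b + 2) := h2
    rw [duu, duu, h0, h1] at h5
    linarith

private lemma tmb_dfwd_inj (l : List ℕ) (s d e : St ℝ) (h : dfwd l s d = dfwd l s e) : d = e := by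
  induction l generalizing s d e with
  | nil => exact h
  | cons b l ih =>
    have h1 := ih _ _ _ h
    have h2 : d.2.1 = e.2.1 := congrArg (fun t : St ℝ => t.1) h1
    have h3 : duu s d b = duu s e b := congrArg (fun t : St ℝ => t.2.1) h1
    have h4 : duu s d (b + 1) = duu s e (b + 1) := congrArg (fun t : St ℝ => t.2.2) h1
    exact tmb_duu_inj s d e h2 b h3 h4

/-- the logarithmic derivatives of `tmr` are the `φ`-derivatives -/
theorem tmr_dst (lam : ℝ) (l : List ℕ) (φ : ℝ) :
    (tmr lam l φ).dst = deriv (str lam l) φ := by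
  have h1 := TM.dst_nexts l (tmr_good lam l φ)
  have h2 : TM.nexts l (tmr lam l φ) = tmTop lam φ := TM.nexts_prevs l (TM.good_top lam φ)
  rw [h2, tmb_top_dst, tmr_stt] at h1
  have h3 := dfwd_deriv_str lam l l.length φ
  rw [List.take_length, List.drop_length, tmb_deriv_top] at h3
  exact tmb_dfwd_inj l _ _ _ (h1.symm.trans h3.symm)

end Sturm
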