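import Pool.Agent.Lib.MP_e5ebf6_mp.TMBasic
import Pool.Agent.Lib.MP_e5ebf6_mp.Cone

/-! Module Twist: the symmetrised twist about `A`. -/

noncomputable section
namespace Sturm

/-- traceless part -/
def tl0 (A : M2 ℝ) : M2 ℝ := A - (A.trace / 2) • (1 : M2 ℝ)

/-- logarithmic derivative of `B` under the symmetrised twist about `A` -/
def tw (A B : M2 ℝ) : M2 ℝ := tl0 A + B.adjugate * tl0 A * B

/-- the pair with the twist derivative -/
def twP (A B : M2 ℝ) : TM ℝ := ⟨A, B, 0, tw A B⟩

private theorem tl0_trace (A : M2 ℝ) : (tl0 A).trace = 0 := by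
  unfold tl0
  rw [Matrix.trace_sub, Matrix.trace_smul, Matrix.trace_one, Fintype.card_fin, smul_eq_mul]
  push_cast
  ring

private theorem tw_trace {A B : M2 ℝ} (hB : B.det = 1) : (tw A B).trace = 0 := by
  unfold tw
  have h := Matrix.trace_mul_cycle B.adjugate (tl0 A) B
  rw [Matrix.mul_adjugate, hB, one_smul, one_mul, tl0_trace] at h
  rw [Matrix.trace_add, tl0_trace, h, add_zero]

theorem twP_good {A B : M2 ℝ} (hA : A.det = 1) (hB : B.det = 1) : (twP A B).Good where
  dA := hA
  dB := hB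
  tA := Matrix.trace_zero _ _
  tB := tw_trace hB

/-- the twist derivative of the state is `D0` -/
theorem twP_dst {A B : M2 ℝ} (hA : A.det = 1) (hB : B.det = 1) :
    (twP A B).dst = D0 (twP A B).stt := by
  have h0 : B * B.adjugate = 1 := by rw [Matrix.mul_adjugate, hB, one_smul]
  have h1 : B * tw A B = B * tl0 A + tl0 A * B := by
    unfold tw
    rw [mul_add, ← mul_assoc, ← mul_assoc, h0, one_mul]
  have h2 : (B * tw A B).trace = 2 * (A * B).trace - A.trace * B.trace := by
    rw [h1, Matrix.trace_add, Matrix.trace_mul_comm B (tl0 A)]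
    unfold tl0
    rw [sub_mul, Matrix.trace_sub, Matrix.smul_mul, one_mul, Matrix.trace_smul, smul_eq_mul]
    ring
  have h3 : (A * B * tw A B).trace = A.trace * (A * B).trace - 2 * B.trace := by
    rw [mul_assoc, h1, mul_add, Matrix.trace_add]
    simp only [tl0, Matrix.trace_fin_two, Matrix.mul_apply, Fin.sum_univ_two, Matrix.sub_apply,
      Matrix.smul_apply, Matrix.one_apply, smul_eq_mul]
    rw [Matrix.det_fin_two] at hA
    simp only [Fin.isValue, if_true, zero_ne_one, one_ne_zero, if_false]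
    linear_combination (-2 * (B 0 0 + B 1 1)) * hA
  unfold TM.dst D0 TM.stt twP kz ky
  simp only [Matrix.mul_zero, Matrix.zero_mul, zero_add, Matrix.trace_zero, h2, h3]
  refine Prod.ext rfl (Prod.ext rfl ?_)
  simp only
  ring

theorem tw_det {A B : M2 ℝ} (hA : A.det = 1) (hB : B.det = 1) :
    (tw A B).det = kap (A.trace, B.trace, (A * B).trace) - A.trace ^ 2 := by
  unfold tw tl0 kap
  rw [Matrix.adjugate_fin_two, Matrix.det_fin_two]
  simp only [Matrix.trace_fin_two, Matrix.mul_apply, Fin.sum_univ_two, Matrix.sub_apply,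
    Matrix.add_apply, Matrix.smul_apply, Matrix.one_apply, smul_eq_mul, Matrix.of_apply,
    Matrix.cons_val', Matrix.cons_val_zero, Matrix.cons_val_one, Matrix.cons_val_fin_one]
  rw [Matrix.det_fin_two] at hA hB
  simp only [Fin.isValue, if_true, zero_ne_one, one_ne_zero, if_false]
  linear_combination ((B 0 0 + B 1 1) ^ 2) * hA +
    ((A 0 0 * A 1 1 - A 0 1 * A 1 0 - (A 0 0 + A 1 1) ^ 2 / 4) *
      (B 0 0 * B 1 1 - B 0 1 * B 1 0 - 1)) * hB

/-- for `|tr A| < R` the twist is definite -/
theorem tw_PC {lam : ℝ} {A B : M2 ℝ} (hA : A.det = 1) (hB : B.det = 1)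
    (hk : kap (A.trace, B.trace, (A * B).trace) = 4 + lam ^ 2) (hx : |A.trace| < RR lam) :
    (PC 1 (tw A B) ∨ PC (-1) (tw A B)) := by
  have hd := tw_det hA hB
  rw [hk] at hd
  have hpos : 0 < (tw A B).det := by
    rw [hd]
    have h1 : |A.trace| ^ 2 < RR lam ^ 2 := by
      have := abs_nonneg A.trace
      exact pow_lt_pow_left₀ hx this (by norm_num)
    rw [sq_abs] at h1
    unfold RR at h1
    rw [Real.sq_sqrt (by positivity)] at h1
    linarith
  have ht : tw A B 0 0 + tw A B 1 1 = 0 := by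
    rw [← Matrix.trace_fin_two]
    exact tw_trace hB
  have hne : tw A B 1 0 ≠ 0 := by
    intro h
    rw [Matrix.det_fin_two, h, mul_zero, sub_zero] at hpos
    have h2 : tw A B 1 1 = -(tw A B 0 0) := by linarith
    rw [h2] at hpos
    nlinarith [sq_nonneg (tw A B 0 0)]
  rcases lt_or_gt_of_ne hne with h | h
  · exact Or.inr ⟨ht, by linarith, hpos⟩
  · exact Or.inl ⟨ht, by linarith, hpos⟩

end Sturm
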