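import Pool.Agent.Lib.MP_e5ebf6_mp.ZtDefs
import Pool.Agent.Lib.MP_e5ebf6_mp.Prob

/-! Module UDim: upper Hausdorff dimension of a measure and the cover property. -/

open Metric Set MeasureTheory Filter Topology
noncomputable section
namespace Sturm

theorem UDim_small (d t η : ℝ) (ht : 0 < t) (hη : 0 < η) :
    ∃ δ : ℝ, 0 < δ ∧ (d + δ) ^ t < d ^ t + η := by
  have h1 : Continuous fun x : ℝ => x ^ t := Real.continuous_rpow_const ht.le
  have h2 : Tendsto (fun δ : ℝ => (d + δ) ^ t) (𝓝[>] 0) (𝓝 (d ^ t)) := by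
    have h3 : Continuous fun δ : ℝ => (d + δ) ^ t := h1.comp (continuous_const.add continuous_id)
    have h4 := (h3.tendsto 0).mono_left (nhdsWithin_le_nhds (s := Ioi 0))
    simpa using h4
  have h5 : ∀ᶠ δ in 𝓝[>] (0 : ℝ), (d + δ) ^ t < d ^ t + η :=
    h2.eventually_lt_const (by linarith)
  obtain ⟨δ, hδ, hδ'⟩ := (h5.and self_mem_nhdsWithin).exists
  exact ⟨δ, hδ', hδ⟩

theorem UDim_set (c : Set ℝ) (t : ℝ) (ht : 0 < t) (hc : ediam c ≤ 1) :
    ∃ a d : ℝ, 0 ≤ d ∧ c ⊆ Icc a (a + d) ∧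
      ENNReal.ofReal (d ^ t) ≤ ⨆ _ : c.Nonempty, ediam c ^ t := by
  rcases c.eq_empty_or_nonempty with h | h
  · refine ⟨0, 0, le_rfl, by rw [h]; exact empty_subset _, ?_⟩
    rw [Real.zero_rpow ht.ne', ENNReal.ofReal_zero]
    exact bot_le
  · have hb : Bornology.IsBounded c := by
      rw [isBounded_iff_ediam_ne_top]
      exact ne_top_of_le_ne_top ENNReal.one_ne_top hc
    have h1 := hb.subset_Icc_sInf_sSup
    have hd : 0 ≤ sSup c - sInf c := by
      obtain ⟨x, hx⟩ := h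
      have h2 := h1 hx
      linarith [h2.1, h2.2]
    refine ⟨sInf c, sSup c - sInf c, hd, ?_, ?_⟩
    · rw [add_sub_cancel]
      exact h1
    · rw [iSup_pos h, Real.ediam_eq hb, ENNReal.ofReal_rpow_of_nonneg hd ht.le]

theorem UDim_cover (S : Set ℝ) (t : ℝ) (ht : 0 < t) (h : μH[t] S = 0) (ε : ℝ) (hε : 0 < ε) :
    ∃ a L : ℕ → ℝ, (∀ n, 0 < L n) ∧ (S ⊆ ⋃ n, Icc (a n) (a n + L n)) ∧
      ∀ F : Finset ℕ, ∑ n ∈ F, L n ^ t < ε := by
  have h1 : ⨅ (c : ℕ → Set ℝ) (_ : S ⊆ ⋃ n, c n) (_ : ∀ n, ediam (c n) ≤ 1),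
      ∑' n, ⨆ _ : (c n).Nonempty, ediam (c n) ^ t < ENNReal.ofReal (ε / 4) := by
    have h2 := Measure.hausdorffMeasure_apply t S
    rw [h] at h2
    have h3 := le_iSup₂ (f := fun (r : ENNReal) (_ : 0 < r) =>
      ⨅ (c : ℕ → Set ℝ) (_ : S ⊆ ⋃ n, c n) (_ : ∀ n, ediam (c n) ≤ r),
        ∑' n, ⨆ _ : (c n).Nonempty, ediam (c n) ^ t) 1 one_pos
    rw [← h2] at h3
    exact lt_of_le_of_lt h3 (ENNReal.ofReal_pos.mpr (by linarith))
  simp only [iInf_lt_iff] at h1
  obtain ⟨c, hc1, hc2, hc3⟩ := h1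
  choose a d hd0 hd1 hd2 using fun n => UDim_set (c n) t ht (hc2 n)
  have hη : ∀ n : ℕ, 0 < ε / 4 * (1 / 2) ^ n := fun n => by positivity
  choose δ hδ0 hδ1 using fun n => UDim_small (d n) t _ ht (hη n)
  refine ⟨a, fun n => d n + δ n, fun n => by linarith [hd0 n, hδ0 n], ?_, ?_⟩
  · refine hc1.trans (iUnion_mono fun n => (hd1 n).trans ?_)
    exact Icc_subset_Icc le_rfl (by linarith [hδ0 n])
  · intro F
    have h4 : ∑ n ∈ F, d n ^ t ≤ ε / 4 := by
      have h5 : ENNReal.ofReal (∑ n ∈ F, d n ^ t) ≤ ENNReal.ofReal (ε / 4) := by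
        rw [ENNReal.ofReal_sum_of_nonneg fun n _ => Real.rpow_nonneg (hd0 n) t]
        calc ∑ n ∈ F, ENNReal.ofReal (d n ^ t)
            ≤ ∑ n ∈ F, ⨆ _ : (c n).Nonempty, ediam (c n) ^ t :=
              Finset.sum_le_sum fun n _ => hd2 n
          _ ≤ ∑' n, ⨆ _ : (c n).Nonempty, ediam (c n) ^ t := ENNReal.sum_le_tsum F
          _ ≤ ENNReal.ofReal (ε / 4) := hc3.le
      exact (ENNReal.ofReal_le_ofReal_iff (by linarith)).mp h5
    have h6 : ∑ n ∈ F, ((1 : ℝ) / 2) ^ n ≤ 2 := by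
      have h7 := summable_geometric_two.sum_le_tsum F
        (fun n _ => by positivity : ∀ n, n ∉ F → (0 : ℝ) ≤ (1 / 2) ^ n)
      rwa [tsum_geometric_two] at h7
    calc ∑ n ∈ F, (d n + δ n) ^ t ≤ ∑ n ∈ F, (d n ^ t + ε / 4 * (1 / 2) ^ n) :=
          Finset.sum_le_sum fun n _ => (hδ1 n).le
      _ = ∑ n ∈ F, d n ^ t + ε / 4 * ∑ n ∈ F, ((1 : ℝ) / 2) ^ n := by
          rw [Finset.sum_add_distrib, Finset.mul_sum]
      _ ≤ ε / 4 + ε / 4 * 2 := by
          have := mul_le_mul_of_nonneg_left h6 (by linarith : (0 : ℝ) ≤ ε / 4)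
          linarith
      _ < ε := by linarith

theorem Zt_of_udim_lt (μ : Measure ℝ) [IsProbabilityMeasure μ] (t : ℝ) (ht : 0 < t)
    (h : udim μ < ENNReal.ofReal t) : Zt t μ := by
  intro ε hε
  unfold udim at h
  simp only [iInf_lt_iff] at h
  obtain ⟨S, ⟨hS, hμS⟩, hdim⟩ := h
  have h1 : μH[t] S = 0 := by
    have h2 := hausdorffMeasure_of_dimH_lt (s := S) (d := t.toNNReal) (by
      simpa [ENNReal.ofReal] using hdim)
    rwa [Real.coe_toNNReal t ht.le] at h2
  obtain ⟨a, L, hL, hcov, hsum⟩ := UDim_cover S t ht h1 ε hε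
  let G : ℕ → Set ℝ := fun N => (⋃ n ∈ Finset.range N, Icc (a n) (a n + L n))ᶜ
  have hG : Tendsto (fun N => μ (G N)) atTop (𝓝 (μ (⋂ N, G N))) := by
    refine tendsto_measure_iInter_atTop (fun N => ?_) ?_ ⟨0, measure_ne_top _ _⟩
    · exact (Finset.measurableSet_biUnion _ fun n _ => measurableSet_Icc).compl.nullMeasurableSet
    · intro N M hNM
      refine compl_subset_compl.mpr ?_
      exact biUnion_subset_biUnion_left (fun n hn => Finset.mem_coe.mpr
        (Finset.mem_range.mpr (lt_of_lt_of_le (Finset.mem_range.mp (Finset.mem_coe.mp hn)) hNM)))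
  have hG0 : μ (⋂ N, G N) = 0 := by
    refine measure_mono_null ?_ hμS
    intro x hx hxS
    obtain ⟨n, hn⟩ := mem_iUnion.mp (hcov hxS)
    have hx1 := mem_iInter.mp hx (n + 1)
    refine hx1 ?_
    exact mem_biUnion (Finset.mem_coe.mpr (Finset.mem_range.mpr (Nat.lt_succ_self n))) hn
  rw [hG0] at hG
  obtain ⟨N, hN⟩ := (hG.eventually_lt_const (ENNReal.ofReal_pos.mpr hε)).exists
  refine ⟨(Finset.range N).image fun n => (a n, L n), ?_, ?_, ?_⟩
  · intro p hp
    obtain ⟨n, _, rfl⟩ := Finset.mem_image.mp hp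
    exact hL n
  · refine lt_of_le_of_lt ?_ (hsum (Finset.range N))
    refine Finset.sum_image_le_of_nonneg (f := fun p : ℝ × ℝ => p.2 ^ t) fun p hp => ?_
    obtain ⟨n, _, rfl⟩ := Finset.mem_image.mp hp
    exact Real.rpow_nonneg (hL n).le t
  · rw [Finset.set_biUnion_finset_image]
    exact hN.le

theorem udim_le_of_Zt (μ : Measure ℝ) [IsProbabilityMeasure μ] (t : ℝ) (ht : 0 < t)
    (h : Zt t μ) : udim μ ≤ ENNReal.ofReal t := by
  choose F hF0 hF1 hF2 using fun n : ℕ => h ((1 / 2) ^ n) (by positivity)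
  let E : ℕ → Set ℝ := fun n => ⋃ p ∈ F n, Icc p.1 (p.1 + p.2)
  let S : Set ℝ := ⋃ m, ⋂ n ∈ Ici m, E n
  have hE : ∀ n, MeasurableSet (E n) := fun n =>
    Finset.measurableSet_biUnion _ fun p _ => measurableSet_Icc
  have hS : MeasurableSet S := by
    refine MeasurableSet.iUnion fun m => ?_
    exact MeasurableSet.biInter (Set.to_countable _) fun n _ => hE n
  have hμ : μ Sᶜ = 0 := by
    have h1 : μ (limsup (fun n => (E n)ᶜ) atTop) = 0 := by
      refine measure_limsup_atTop_eq_zero ?_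
      have h2 : ∑' n, μ (E n)ᶜ ≤ ∑' n : ℕ, ENNReal.ofReal ((1 / 2) ^ n) :=
        ENNReal.tsum_le_tsum fun n => hF2 n
      refine ne_top_of_le_ne_top ?_ h2
      rw [← ENNReal.ofReal_tsum_of_nonneg (fun n => by positivity) summable_geometric_two]
      exact ENNReal.ofReal_ne_top
    refine measure_mono_null ?_ h1
    intro x hx
    rw [mem_limsup_iff_frequently_mem, frequently_atTop]
    intro m
    by_contra hcon
    push Not at hcon
    refine hx (mem_iUnion.mpr ⟨m, mem_iInter₂.mpr fun n hn => ?_⟩)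
    have h3 := hcon n hn
    exact notMem_compl_iff.mp h3
  have hr : Tendsto (fun n : ℕ => ENNReal.ofReal ((((1 : ℝ) / 2) ^ n) ^ (1 / t))) atTop (𝓝 0) := by
    have h1 : Tendsto (fun n : ℕ => ((1 : ℝ) / 2) ^ n) atTop (𝓝 0) :=
      tendsto_pow_atTop_nhds_zero_of_lt_one (by norm_num) (by norm_num)
    have h2 : Continuous fun x : ℝ => x ^ (1 / t) := Real.continuous_rpow_const (by positivity)
    have h3 := (h2.tendsto 0).comp h1
    have h4 := (ENNReal.continuous_ofReal.tendsto _).comp h3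
    simpa [Real.zero_rpow (by positivity : (1 / t) ≠ 0), Function.comp_def,
      Real.zero_rpow (inv_ne_zero ht.ne')] using h4
  have hdim : dimH S ≤ ENNReal.ofReal t := by
    rw [dimH_iUnion]
    refine iSup_le fun m => ?_
    have h1 : μH[t] (⋂ n ∈ Ici m, E n) ≤ 0 := by
      have hed : ∀ p : ℝ × ℝ, ediam (Icc p.1 (p.1 + p.2)) = ENNReal.ofReal p.2 := by
        intro p
        rw [Real.ediam_Icc, add_sub_cancel_left]
      have h2 := Measure.hausdorffMeasure_le_liminf_sum (ι := fun n : ℕ => ↥(F n)) t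
        (⋂ n ∈ Ici m, E n) (l := atTop)
        (fun n : ℕ => ENNReal.ofReal ((((1 : ℝ) / 2) ^ n) ^ (1 / t))) hr
        (fun n (p : ↥(F n)) => Icc p.1.1 (p.1.1 + p.1.2)) (by
          refine Eventually.of_forall fun n p => ?_
          rw [hed]
          refine ENNReal.ofReal_le_ofReal ?_
          have hp0 := hF0 n p.1 p.2
          have hp1 : p.1.2 ^ t ≤ (1 / 2) ^ n := by
            refine le_trans ?_ (hF1 n).le
            exact Finset.single_le_sum (f := fun p : ℝ × ℝ => p.2 ^ t)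
              (fun q hq => Real.rpow_nonneg (hF0 n q hq).le t) p.2
          have hp2 := Real.rpow_le_rpow (Real.rpow_nonneg hp0.le t) hp1
            (by positivity : 0 ≤ 1 / t)
          rwa [← Real.rpow_mul hp0.le, mul_one_div, div_self ht.ne', Real.rpow_one] at hp2) (by
          refine eventually_atTop.mpr ⟨m, fun n hn => ?_⟩
          intro x hx
          have hx1 := mem_iInter₂.mp hx n hn
          obtain ⟨p, hp, hxp⟩ := mem_iUnion₂.mp hx1
          exact mem_iUnion.mpr ⟨⟨p, hp⟩, hxp⟩)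
      refine h2.trans ?_
      have h3 : Tendsto (fun n : ℕ => ENNReal.ofReal (((1 : ℝ) / 2) ^ n)) atTop (𝓝 0) := by
        have h4 : Tendsto (fun n : ℕ => ((1 : ℝ) / 2) ^ n) atTop (𝓝 0) :=
          tendsto_pow_atTop_nhds_zero_of_lt_one (by norm_num) (by norm_num)
        have h5 := (ENNReal.continuous_ofReal.tendsto _).comp h4
        simpa [Function.comp_def] using h5
      rw [← h3.liminf_eq]
      refine liminf_le_liminf (Eventually.of_forall fun n => ?_)
      have h6 : ∑ i : ↥(F n), ediam (Icc i.1.1 (i.1.1 + i.1.2)) ^ t =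
          ENNReal.ofReal (∑ p ∈ F n, p.2 ^ t) := by
        rw [ENNReal.ofReal_sum_of_nonneg fun q hq => Real.rpow_nonneg (hF0 n q hq).le t,
          ← Finset.sum_coe_sort (F n)]
        refine Finset.sum_congr rfl fun p _ => ?_
        rw [hed, ENNReal.ofReal_rpow_of_nonneg (hF0 n p.1 p.2).le ht.le]
      show ∑ i : ↥(F n), ediam (Icc i.1.1 (i.1.1 + i.1.2)) ^ t ≤ _
      rw [h6]
      exact ENNReal.ofReal_le_ofReal (hF1 n).le
    have h7 : μH[((t.toNNReal : NNReal) : ℝ)] (⋂ n ∈ Ici m, E n) ≠ ⊤ := by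
      rw [Real.coe_toNNReal t ht.le]
      exact ne_top_of_le_ne_top ENNReal.zero_ne_top h1
    exact dimH_le_of_hausdorffMeasure_ne_top h7
  exact (iInf₂_le S ⟨hS, hμ⟩).trans hdim

theorem udim_le_iff (μ : Measure ℝ) [IsProbabilityMeasure μ] (t : ℝ) (ht : 0 ≤ t) :
    udim μ ≤ ENNReal.ofReal t ↔ ∀ t' > t, Zt t' μ := by
  constructor
  · intro h t' ht'
    have h0 : 0 < t' := lt_of_le_of_lt ht ht'
    exact Zt_of_udim_lt μ t' h0 (lt_of_le_of_lt h ((ENNReal.ofReal_lt_ofReal_iff h0).mpr ht'))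
  · intro h
    by_contra hcon
    rw [not_le] at hcon
    obtain ⟨q, hq0, hq1, hq2⟩ := ENNReal.lt_iff_exists_real_btwn.mp hcon
    have h1 : t < q := (ENNReal.ofReal_lt_ofReal_iff_of_nonneg ht).mp hq1
    exact absurd (udim_le_of_Zt μ q (lt_of_le_of_lt ht h1) (h q h1)) (not_le.mpr hq2)

theorem udim_eq_of (μ ν : Measure ℝ) [IsProbabilityMeasure μ] [IsProbabilityMeasure ν]
    (h : ∀ t : ℝ, 0 ≤ t → ((∀ t' > t, Zt t' μ) ↔ (∀ t' > t, Zt t' ν))) : udim μ = udim ν := by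
  refine eq_of_forall_ge_iff fun c => ?_
  rcases eq_or_ne c ⊤ with hc | hc
  · rw [hc]
    exact ⟨fun _ => le_top, fun _ => le_top⟩
  · rw [← ENNReal.ofReal_toReal hc, udim_le_iff μ _ ENNReal.toReal_nonneg,
      udim_le_iff ν _ ENNReal.toReal_nonneg]
    exact h _ ENNReal.toReal_nonneg

end Sturm
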