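import Pool.Agent.Lib.MP_e5ebf6_mp.Defs

/-! Module VAbs: the two real-variable lemmas about one passage (pure real analysis).
`ww (t, y, z) (p+1) = v_p`, where `v_{-1} = z`, `v_0 = y`, `v_{p+1} = t v_p - v_{p-1}`. -/

open Set
noncomputable section
namespace Sturm

private theorem vabs_sign {f : ℝ → ℝ} (hf : ContinuousOn f (Icc (-2) 2))
    (h : ∀ t ∈ Icc (-2 : ℝ) 2, 2 < |f t|) :
    (∀ t ∈ Icc (-2 : ℝ) 2, 2 < f t) ∨ (∀ t ∈ Icc (-2 : ℝ) 2, f t < -2) := by
  by_contra hcon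
  push Not at hcon
  obtain ⟨⟨t1, ht1, h1⟩, ⟨t2, ht2, h2⟩⟩ := hcon
  have h1' : f t1 < -2 := by
    rcases lt_abs.1 (h t1 ht1) with h3 | h3 <;> linarith
  have h2' : 2 < f t2 := by
    rcases lt_abs.1 (h t2 ht2) with h3 | h3 <;> linarith
  have hsub : uIcc t1 t2 ⊆ Icc (-2 : ℝ) 2 := (ordConnected_Icc).uIcc_subset ht1 ht2
  have hiv := intermediate_value_uIcc (hf.mono hsub)
  have h0 : (0 : ℝ) ∈ uIcc (f t1) (f t2) := by
    rw [mem_uIcc]
    left
    constructor <;> linarith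
  obtain ⟨t, ht, h3⟩ := hiv h0
  have h4 := h t (hsub ht)
  rw [h3] at h4
  norm_num at h4

theorem V2_abs {lam : ℝ} (hlam : 0 < lam) (y z : ℝ → ℝ) (hy : ContinuousOn y (Icc (-2) 2))
    (hz : ContinuousOn z (Icc (-2) 2))
    (hk : ∀ t ∈ Icc (-2 : ℝ) 2, kap ((t, y t, z t) : St ℝ) = 4 + lam ^ 2)
    (hne : ∀ t ∈ Icc (-2 : ℝ) 2, |y t| < 2 ∨ |z t| < 2) :
    ∃ t ∈ Icc (-2 : ℝ) 2, |y t| ≤ 2 ∨ |ww ((t, y t, z t) : St ℝ) 2| ≤ 2 := by
  by_contra hcon
  push Not at hcon
  have hw : ∀ t, ww ((t, y t, z t) : St ℝ) 2 = t * y t - z t := fun t => rfl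
  simp only [hw] at hcon
  have hzlt : ∀ t ∈ Icc (-2 : ℝ) 2, |z t| < 2 := by
    intro t ht
    rcases hne t ht with h | h
    · linarith [(hcon t ht).1]
    · exact h
  have hl : (-2 : ℝ) ∈ Icc (-2 : ℝ) 2 := by constructor <;> norm_num
  have hr : (2 : ℝ) ∈ Icc (-2 : ℝ) 2 := by constructor <;> norm_num
  have hv : ContinuousOn (fun t => t * y t - z t) (Icc (-2) 2) := (continuousOn_id.mul hy).sub hz
  have zl := abs_lt.1 (hzlt _ hl)
  have zr := abs_lt.1 (hzlt _ hr)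
  rcases vabs_sign hy (fun t ht => (hcon t ht).1) with h | h <;>
  rcases vabs_sign hv (fun t ht => (hcon t ht).2) with h' | h'
  · have a := h' _ hl
    have b := h _ hl
    linarith
  · have a := h' _ hr
    have b := h _ hr
    linarith
  · have a := h' _ hr
    have b := h _ hr
    linarith
  · have a := h' _ hl
    have b := h _ hl
    linarith

private theorem ww_cont {y z : ℝ → ℝ} (hy : ContinuousOn y (Icc (-2) 2))
    (hz : ContinuousOn z (Icc (-2) 2)) (p : ℕ) :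
    ContinuousOn (fun t => ww ((t, y t, z t) : St ℝ) p) (Icc (-2) 2) ∧
    ContinuousOn (fun t => ww ((t, y t, z t) : St ℝ) (p + 1)) (Icc (-2) 2) := by
  induction p with
  | zero => exact ⟨hz, hy⟩
  | succ p ih =>
    refine ⟨ih.2, ?_⟩
    exact (continuousOn_id.mul ih.2).sub ih.1

private theorem ww_two (y z : ℝ) (p : ℕ) :
    ww ((2, y, z) : St ℝ) p = z + p * (y - z) ∧
    ww ((2, y, z) : St ℝ) (p + 1) = z + (p + 1) * (y - z) := by
  induction p with
  | zero =>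
    constructor
    · simp [ww]
    · simp [ww]
  | succ p ih =>
    refine ⟨by rw [ih.2]; push_cast; ring, ?_⟩
    have : ww ((2, y, z) : St ℝ) (p + 1 + 1) =
      2 * ww ((2, y, z) : St ℝ) (p + 1) - ww ((2, y, z) : St ℝ) p := rfl
    rw [this, ih.1, ih.2]
    push_cast
    ring

private theorem ww_neg (t y z : ℝ) (p : ℕ) :
    ww ((t, -y, -z) : St ℝ) p = - ww ((t, y, z) : St ℝ) p ∧
    ww ((t, -y, -z) : St ℝ) (p + 1) = - ww ((t, y, z) : St ℝ) (p + 1) := by
  induction p with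
  | zero => exact ⟨rfl, rfl⟩
  | succ p ih =>
    refine ⟨ih.2, ?_⟩
    have e1 : ww ((t, -y, -z) : St ℝ) (p + 1 + 1) =
      t * ww ((t, -y, -z) : St ℝ) (p + 1) - ww ((t, -y, -z) : St ℝ) p := rfl
    have e2 : ww ((t, y, z) : St ℝ) (p + 1 + 1) =
      t * ww ((t, y, z) : St ℝ) (p + 1) - ww ((t, y, z) : St ℝ) p := rfl
    rw [e1, e2, ih.1, ih.2]
    ring

/-- running the recursion backwards from an explicit solution -/
private theorem ww_trig {θ a χ : ℝ} {s : St ℝ} (hs : s.1 = 2 * Real.cos θ) (c : ℕ)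
    (h1 : ww s (c + 1) = a * Real.cos χ) (h0 : ww s c = a * Real.cos (χ - θ)) (k : ℕ) :
    k ≤ c → ww s (c - k) = a * Real.cos (χ - (k + 1) * θ) ∧
      ww s (c - k + 1) = a * Real.cos (χ - k * θ) := by
  induction k with
  | zero =>
    intro _
    simpa using ⟨h0, h1⟩
  | succ k ih =>
    intro hk
    obtain ⟨i0, i1⟩ := ih (by omega)
    have e : c - k = (c - (k + 1)) + 1 := by omega
    have hrec : ww s (c - (k + 1) + 1 + 1) =
      s.1 * ww s (c - (k + 1) + 1) - ww s (c - (k + 1)) := rfl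
    rw [← e] at hrec
    rw [i1, i0, hs] at hrec
    constructor
    · have h2 : ww s (c - (k + 1)) = 2 * Real.cos θ * (a * Real.cos (χ - (k + 1) * θ)) -
          a * Real.cos (χ - k * θ) := by linarith
      rw [h2]
      have e1 : χ - k * θ = (χ - (k + 1) * θ) + θ := by ring
      have e2 : χ - ((k + 1 : ℕ) + 1) * θ = (χ - (k + 1) * θ) - θ := by
        push_cast
        ring
      rw [e1, e2, Real.cos_add (χ - (k + 1) * θ) θ, Real.cos_sub (χ - (k + 1) * θ) θ]
      ring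
    · rw [← e, i0]
      push_cast
      rfl

private theorem V1_core {lam : ℝ} (hlam : 0 < lam) (y z : ℝ → ℝ)
    (hy : ContinuousOn y (Icc (-2) 2)) (hz : ContinuousOn z (Icc (-2) 2))
    (hd : ∀ t ∈ Ioo (-2 : ℝ) 2, DifferentiableAt ℝ y t)
    (hS : ∀ t ∈ Ioo (-2 : ℝ) 2, |y t| < 2 → 0 < deriv y t * kz ((t, y t, z t) : St ℝ))
    (hk : ∀ t ∈ Icc (-2 : ℝ) 2, kap ((t, y t, z t) : St ℝ) = 4 + lam ^ 2)
    (hne : ∀ t ∈ Icc (-2 : ℝ) 2, |y t| < 2 ∨ |z t| < 2) (c : ℕ) (hc : 2 ≤ c)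
    (hbig : ∀ t ∈ Icc (-2 : ℝ) 2, 2 < ww ((t, y t, z t) : St ℝ) (c + 1)) : False := by
  have hπ := Real.pi_pos
  set T : ℝ → ℝ := fun θ => 2 * Real.cos θ with hTdef
  have hTc : Continuous T := by fun_prop
  have hT : ∀ θ, T θ ∈ Icc (-2 : ℝ) 2 := by
    intro θ
    constructor
    · have := Real.neg_one_le_cos θ
      simp only [hTdef]
      linarith
    · have := Real.cos_le_one θ
      simp only [hTdef]
      linarith
  set Y : ℝ → ℝ := fun θ => y (T θ) with hYdef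
  have hYc : Continuous Y := hy.comp_continuous hTc hT
  set V : ℝ → ℝ := fun θ => ww ((T θ, y (T θ), z (T θ)) : St ℝ) (c + 1) with hVdef
  set U : ℝ → ℝ := fun θ => ww ((T θ, y (T θ), z (T θ)) : St ℝ) c with hUdef
  have hVc : Continuous V := (ww_cont hy hz c).2.comp_continuous hTc hT
  have hUc : Continuous U := (ww_cont hy hz c).1.comp_continuous hTc hT
  have hV2 : ∀ θ, 2 < V θ := fun θ => hbig _ (hT θ)
  set q : ℝ → ℝ := fun θ => (2 * U θ - T θ * V θ) / (2 * Real.sin θ * V θ) with hqdef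
  set Φ : ℝ → ℝ := fun θ => c * θ - Real.arctan (q θ) with hΦdef
  have hsinpos : ∀ θ ∈ Ioo 0 Real.pi, 0 < Real.sin θ := fun θ hθ =>
    Real.sin_pos_of_pos_of_lt_pi hθ.1 hθ.2
  have hqc : ContinuousOn q (Ioo 0 Real.pi) := by
    apply ContinuousOn.div
    · exact ((continuous_const.mul hUc).sub (hTc.mul hVc)).continuousOn
    · exact ((continuous_const.mul Real.continuous_sin).mul hVc).continuousOn
    · intro θ hθ
      have h1 := hsinpos θ hθ
      have h2 := hV2 θ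
      positivity
  have hΦc : ContinuousOn Φ (Ioo 0 Real.pi) :=
    (continuous_const.mul continuous_id).continuousOn.sub
      (Real.continuous_arctan.comp_continuousOn hqc)
  have hΦl : ∀ θ, c * θ - Real.pi / 2 < Φ θ := by
    intro θ
    have := Real.arctan_lt_pi_div_two (q θ)
    simp only [hΦdef]
    linarith
  have hΦu : ∀ θ, Φ θ < c * θ + Real.pi / 2 := by
    intro θ
    have := Real.neg_pi_div_two_lt_arctan (q θ)
    simp only [hΦdef]
    linarith
  -- the key representation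
  have key : ∀ θ ∈ Ioo 0 Real.pi, ∃ a : ℝ, 2 < a ∧ Y θ = a * Real.cos (Φ θ) ∧
      kz ((T θ, y (T θ), z (T θ)) : St ℝ) = -2 * a * Real.sin θ * Real.sin (Φ θ) := by
    intro θ hθ
    have hs := hsinpos θ hθ
    have hV := hV2 θ
    set χ := Real.arctan (q θ) with hχ
    set a := V θ * Real.sqrt (1 + q θ ^ 2) with ha
    have hsq : 0 < Real.sqrt (1 + q θ ^ 2) := Real.sqrt_pos.2 (by positivity)
    have hapos : 0 < a := by positivity
    have hcosχ : a * Real.cos χ = V θ := by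
      rw [hχ, Real.cos_arctan, ha]
      field_simp
    have hsinχ : a * Real.sin χ = V θ * q θ := by
      rw [hχ, Real.sin_arctan, ha]
      field_simp
    have hqV : V θ * q θ * Real.sin θ = U θ - Real.cos θ * V θ := by
      simp only [hqdef, hTdef]
      field_simp
    have h1 : ww ((T θ, y (T θ), z (T θ)) : St ℝ) (c + 1) = a * Real.cos χ := hcosχ.symm
    have h0 : ww ((T θ, y (T θ), z (T θ)) : St ℝ) c = a * Real.cos (χ - θ) := by
      rw [Real.cos_sub]
      have : a * (Real.cos χ * Real.cos θ + Real.sin χ * Real.sin θ) =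
          (a * Real.cos χ) * Real.cos θ + (a * Real.sin χ) * Real.sin θ := by ring
      rw [this, hcosχ, hsinχ, hqV]
      change U θ = _
      ring
    obtain ⟨e0, e1⟩ := ww_trig (s := ((T θ, y (T θ), z (T θ)) : St ℝ)) (θ := θ) rfl c h1 h0 c le_rfl
    rw [Nat.sub_self] at e0 e1
    have ey : Y θ = a * Real.cos (Φ θ) := by
      have : ww ((T θ, y (T θ), z (T θ)) : St ℝ) (0 + 1) = Y θ := rfl
      rw [← this, e1, ← Real.cos_neg]
      congr 2
      simp only [hΦdef]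
      ring
    have ez : z (T θ) = a * Real.cos (Φ θ + θ) := by
      have : ww ((T θ, y (T θ), z (T θ)) : St ℝ) 0 = z (T θ) := rfl
      rw [← this, e0, ← Real.cos_neg]
      congr 2
      simp only [hΦdef]
      ring
    have ey' : y (T θ) = a * Real.cos (Φ θ) := ey
    have hkap := hk _ (hT θ)
    have ha2 : a ^ 2 * Real.sin θ ^ 2 = 4 * Real.sin θ ^ 2 + lam ^ 2 := by
      simp only [kap] at hkap
      rw [ey', ez, Real.cos_add] at hkap
      simp only [hTdef] at hkap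
      have hp := Real.sin_sq_add_cos_sq (Φ θ)
      have ht := Real.sin_sq_add_cos_sq θ
      have hcθ : Real.cos θ ^ 2 = 1 - Real.sin θ ^ 2 := by linarith
      have hcΦ : Real.cos (Φ θ) ^ 2 = 1 - Real.sin (Φ θ) ^ 2 := by linarith
      have e : (2 * Real.cos θ) ^ 2 + (a * Real.cos (Φ θ)) ^ 2 +
          (a * (Real.cos (Φ θ) * Real.cos θ - Real.sin (Φ θ) * Real.sin θ)) ^ 2 -
          2 * Real.cos θ * (a * Real.cos (Φ θ)) *
            (a * (Real.cos (Φ θ) * Real.cos θ - Real.sin (Φ θ) * Real.sin θ)) =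
          4 * Real.cos θ ^ 2 + a ^ 2 * (Real.cos (Φ θ) ^ 2 * (1 - Real.cos θ ^ 2) +
            Real.sin (Φ θ) ^ 2 * Real.sin θ ^ 2) := by ring
      rw [e, hcθ] at hkap
      have e2 : Real.cos (Φ θ) ^ 2 * (1 - (1 - Real.sin θ ^ 2)) +
            Real.sin (Φ θ) ^ 2 * Real.sin θ ^ 2 = Real.sin θ ^ 2 := by
        rw [hcΦ]; ring
      rw [e2] at hkap
      linarith
    refine ⟨a, ?_, ey, ?_⟩
    · have hl2 : 0 < lam ^ 2 := by positivity
      have hs2 : 0 < Real.sin θ ^ 2 := by positivity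
      have h4 : 4 < a ^ 2 := by
        by_contra hcon
        have hcon' : a ^ 2 ≤ 4 := not_lt.1 hcon
        have := mul_le_mul_of_nonneg_right hcon' hs2.le
        linarith
      nlinarith
    · simp only [kz]
      rw [ey', ez, Real.cos_add]
      simp only [hTdef]
      ring
  -- Lemma A
  have lemA : ∀ θ ∈ Ioo 0 Real.pi, Real.pi ≤ Φ θ → ∃ θ', 0 < θ' ∧ θ' ≤ θ ∧ Y θ' ≤ -2 := by
    intro θ hθ hΦθ
    have hcpos : (0 : ℝ) < c := by
      have : (2 : ℝ) ≤ c := by exact_mod_cast hc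
      linarith
    set ε := min θ (Real.pi / (4 * c)) with hε
    have hε0 : 0 < ε := lt_min hθ.1 (by positivity)
    have hεθ : ε ≤ θ := min_le_left _ _
    have hεπ : c * ε ≤ Real.pi / 4 := by
      calc c * ε ≤ c * (Real.pi / (4 * c)) :=
            mul_le_mul_of_nonneg_left (min_le_right _ _) hcpos.le
        _ = Real.pi / 4 := by field_simp
    have hsub : Icc ε θ ⊆ Ioo 0 Real.pi := fun x hx =>
      ⟨lt_of_lt_of_le hε0 hx.1, lt_of_le_of_lt hx.2 hθ.2⟩
    have hiv := intermediate_value_Icc hεθ (hΦc.mono hsub)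
    have hmem : Real.pi ∈ Icc (Φ ε) (Φ θ) := ⟨by linarith [hΦu ε], hΦθ⟩
    obtain ⟨θ', hθ', hΦ'⟩ := hiv hmem
    refine ⟨θ', (hsub hθ').1, hθ'.2, ?_⟩
    obtain ⟨a, ha, hya, -⟩ := key θ' (hsub hθ')
    rw [hya, hΦ', Real.cos_pi]
    linarith
  -- value at 0
  have hY0 : -2 < Y 0 := by
    by_contra hcon
    have hcon' : Y 0 ≤ -2 := not_lt.1 hcon
    have hT0 : T 0 = 2 := by simp [hTdef]
    have hy2 : y 2 ≤ -2 := by
      have : Y 0 = y 2 := by
        simp only [hYdef]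
        rw [hT0]
      linarith
    have hr : (2 : ℝ) ∈ Icc (-2 : ℝ) 2 := by constructor <;> norm_num
    have hb := hbig 2 hr
    rw [(ww_two (y 2) (z 2) c).2] at hb
    have hcpos : (0 : ℝ) < c := by
      have : (2 : ℝ) ≤ c := by exact_mod_cast hc
      linarith
    have hpos : 0 < y 2 - z 2 := by
      by_contra hneg
      have hneg' : y 2 - z 2 ≤ 0 := not_lt.1 hneg
      have : (c : ℝ) * (y 2 - z 2) ≤ 0 := mul_nonpos_of_nonneg_of_nonpos hcpos.le hneg'
      nlinarith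
    rcases hne 2 hr with h | h
    · linarith [(abs_lt.1 h).1]
    · linarith [(abs_lt.1 h).1]
  -- the first point where Y ≤ -2
  have hc2 : (2 : ℝ) ≤ c := by exact_mod_cast hc
  obtain ⟨θ', hθ'0, hθ'1, hYθ'⟩ := lemA (9 * Real.pi / 10) ⟨by positivity, by linarith⟩ (by
    have h1 := hΦl (9 * Real.pi / 10)
    have h2 : 2 * (9 * Real.pi / 10) ≤ c * (9 * Real.pi / 10) :=
      mul_le_mul_of_nonneg_right hc2 (by positivity)
    linarith)
  have hcomp : IsCompact (Icc 0 Real.pi ∩ {θ | Y θ ≤ -2}) :=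
    isCompact_Icc.inter_right (isClosed_le hYc continuous_const)
  obtain ⟨θ2, ⟨hθ2m, hθ2Y⟩, hmin⟩ := hcomp.exists_isLeast
    ⟨θ', ⟨hθ'0.le, by linarith⟩, hYθ'⟩
  have hθ2Y' : Y θ2 ≤ -2 := hθ2Y
  have hmin' : ∀ θ, 0 ≤ θ → θ < θ2 → -2 < Y θ := by
    intro θ h0 h1
    by_contra hcon
    have h2 : θ2 ≤ θ := hmin ⟨⟨h0, by linarith [hθ2m.2]⟩, not_lt.1 hcon⟩
    linarith
  have hθ2pos : 0 < θ2 := by
    rcases eq_or_lt_of_le hθ2m.1 with h | h
    · rw [← h] at hθ2Y'
      linarith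
    · exact h
  have hθ2lt : θ2 < Real.pi := by
    have h2 : θ2 ≤ θ' := hmin ⟨⟨hθ'0.le, by linarith⟩, hYθ'⟩
    linarith
  -- neighbourhood where Y < 0
  have hev : ∀ᶠ θ in nhds θ2, Y θ < 0 :=
    (hYc.tendsto θ2).eventually (gt_mem_nhds (by linarith))
  obtain ⟨η, hη, hball⟩ := Metric.eventually_nhds_iff.1 hev
  set θ1 := max (θ2 / 2) (θ2 - η / 2) with hθ1
  have hθ1pos : 0 < θ1 := lt_of_lt_of_le (by linarith) (le_max_left _ _)
  have hθ1lt : θ1 < θ2 := max_lt (by linarith) (by linarith)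
  have hθ1η : θ2 - η / 2 ≤ θ1 := le_max_right _ _
  have hneg : ∀ θ ∈ Icc θ1 θ2, Y θ < 0 := by
    intro θ hθ
    apply hball
    rw [Real.dist_eq, abs_lt]
    constructor <;> linarith [hθ.1, hθ.2]
  have hder : ∀ θ ∈ Ioo θ1 θ2, ∃ D : ℝ, 0 < D ∧ HasDerivAt Y D θ := by
    intro θ hθ
    have hθπ : θ ∈ Ioo 0 Real.pi := ⟨by linarith [hθ.1], by linarith [hθ.2]⟩
    have hs := hsinpos θ hθπ
    have hTI : T θ ∈ Ioo (-2 : ℝ) 2 := by
      have h1 := Real.sin_sq_add_cos_sq θ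
      have h2 : Real.cos θ ^ 2 < 1 := by nlinarith
      have h3 := abs_lt.1 ((sq_lt_one_iff_abs_lt_one _).1 h2)
      simp only [hTdef]
      constructor <;> linarith
    have hYneg := hneg θ ⟨hθ.1.le, hθ.2.le⟩
    have hYgt := hmin' θ (by linarith [hθ.1]) hθ.2
    have hYabs : |y (T θ)| < 2 := abs_lt.2 ⟨hYgt, by
      have : y (T θ) < 0 := hYneg
      linarith⟩
    obtain ⟨a, ha, hya, hkz⟩ := key θ hθπ
    have hΦlt : Φ θ < Real.pi := by
      by_contra hcon
      obtain ⟨θ'', h1, h2, h3⟩ := lemA θ hθπ (not_lt.1 hcon)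
      have := hmin' θ'' h1.le (lt_of_le_of_lt h2 hθ.2)
      linarith
    have hΦgt : Real.pi / 2 < Φ θ := by
      by_contra hcon
      have h1 : 0 ≤ Real.cos (Φ θ) := by
        apply Real.cos_nonneg_of_mem_Icc
        constructor
        · have := hΦl θ
          have h2 : 0 < c * θ := mul_pos (by linarith) hθπ.1
          linarith
        · exact not_lt.1 hcon
      have h2 : 0 ≤ Y θ := by
        rw [hya]
        exact mul_nonneg (by linarith) h1
      linarith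
    have hsinΦ : 0 < Real.sin (Φ θ) := Real.sin_pos_of_pos_of_lt_pi (by linarith) hΦlt
    have hSS := hS _ hTI hYabs
    rw [hkz] at hSS
    have hprod : 0 < 2 * a * Real.sin θ * Real.sin (Φ θ) := by positivity
    have hdneg : deriv y (T θ) < 0 := by
      by_contra hcon
      have h1 : 0 ≤ deriv y (T θ) := not_lt.1 hcon
      have h2 := mul_nonneg h1 hprod.le
      nlinarith
    refine ⟨deriv y (T θ) * (2 * -Real.sin θ), ?_, ?_⟩
    · nlinarith
    · have h1 : HasDerivAt y (deriv y (T θ)) (T θ) := (hd _ hTI).hasDerivAt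
      have h2 : HasDerivAt T (2 * -Real.sin θ) θ := (Real.hasDerivAt_cos θ).const_mul 2
      exact h1.comp θ h2
  have hmono : MonotoneOn Y (Icc θ1 θ2) := by
    apply monotoneOn_of_deriv_nonneg (convex_Icc θ1 θ2) hYc.continuousOn
    · intro θ hθ
      rw [interior_Icc] at hθ
      obtain ⟨D, -, hD⟩ := hder θ hθ
      exact hD.differentiableAt.differentiableWithinAt
    · intro θ hθ
      rw [interior_Icc] at hθ
      obtain ⟨D, hD0, hD⟩ := hder θ hθ
      rw [hD.deriv]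
      exact hD0.le
  have h1 := hmono ⟨le_rfl, hθ1lt.le⟩ ⟨hθ1lt.le, le_rfl⟩ hθ1lt.le
  have h2 := hmin' θ1 hθ1pos.le hθ1lt
  linarith

theorem V1_abs {lam : ℝ} (hlam : 0 < lam) (y z : ℝ → ℝ) (hy : ContinuousOn y (Icc (-2) 2))
    (hz : ContinuousOn z (Icc (-2) 2))
    (hd : ∀ t ∈ Ioo (-2 : ℝ) 2, DifferentiableAt ℝ y t)
    (hS : ∀ t ∈ Ioo (-2 : ℝ) 2, |y t| < 2 → 0 < deriv y t * kz ((t, y t, z t) : St ℝ))
    (hk : ∀ t ∈ Icc (-2 : ℝ) 2, kap ((t, y t, z t) : St ℝ) = 4 + lam ^ 2)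
    (hne : ∀ t ∈ Icc (-2 : ℝ) 2, |y t| < 2 ∨ |z t| < 2) (c : ℕ) (hc : 2 ≤ c) :
    ∃ t ∈ Icc (-2 : ℝ) 2, |ww ((t, y t, z t) : St ℝ) (c + 1)| ≤ 2 := by
  by_contra hcon
  push Not at hcon
  rcases vabs_sign (ww_cont hy hz c).2 hcon with h | h
  · exact V1_core hlam y z hy hz hd hS hk hne c hc h
  · refine V1_core hlam (fun t => -y t) (fun t => -z t) hy.neg hz.neg (fun t ht => (hd t ht).neg)
      ?_ ?_ ?_ c hc ?_
    · intro t ht hyt
      rw [abs_neg] at hyt
      have h1 := hS t ht hyt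
      have h2 : deriv (fun t => -y t) t = -deriv y t := deriv.neg
      rw [h2]
      simp only [kz] at h1 ⊢
      linarith
    · intro t ht
      have h1 := hk t ht
      simp only [kap] at h1 ⊢
      linarith
    · intro t ht
      simpa only [abs_neg] using hne t ht
    · intro t ht
      rw [(ww_neg t (y t) (z t) c).2]
      linarith [h t ht]

end Sturm
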