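import Pool.Agent.Lib.MP_e5ebf6_mp.StateAlg
import Pool.Agent.Lib.MP_e5ebf6_mp.TMBasic

/-! Module Words: `T = tr A` on the circle is the trace of a word in `D Rot φ` and `J⁻¹`. -/

noncomputable section
namespace Sturm

/-- letters: `true ↦ D Rot φ`, `false ↦ J⁻¹` -/
def Lt (lam : ℝ) (φ : ℂ) : Bool → M2 ℂ
  | true => !![((RR lam + lam) / 2 : ℂ) * Complex.cos φ, -(((RR lam + lam) / 2 : ℂ) * Complex.sin φ);
               ((RR lam - lam) / 2 : ℂ) * Complex.sin φ, ((RR lam - lam) / 2 : ℂ) * Complex.cos φ]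
  | false => !![0, 1; -1, 0]

def wpr (lam : ℝ) (φ : ℂ) (w : List Bool) : M2 ℂ := (w.map (Lt lam φ)).prod

private lemma words_sq (lam : ℝ) : (RR lam : ℂ) ^ 2 = 4 + (lam : ℂ) ^ 2 := by
  have h := RR_sq lam
  exact_mod_cast h

private lemma words_det (lam : ℝ) (φ : ℂ) (b : Bool) : (Lt lam φ b).det = 1 := by
  cases b with
  | false => simp [Lt, Matrix.det_fin_two]
  | true =>
    have h := words_sq lam
    have h2 := Complex.cos_sq_add_sin_sq φ
    simp only [Lt, Matrix.det_fin_two_of]
    linear_combination (1 / 4 : ℂ) * h + ((RR lam : ℂ) ^ 2 - (lam : ℂ) ^ 2) / 4 * h2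

private lemma words_append (lam : ℝ) (φ : ℂ) (w w' : List Bool) :
    wpr lam φ (w ++ w') = wpr lam φ w * wpr lam φ w' := by
  simp [wpr]

private lemma words_pow (lam : ℝ) (φ : ℂ) (w : List Bool) (k : ℕ) :
    wpr lam φ (List.replicate k w).flatten = (wpr lam φ w) ^ k := by
  induction k with
  | zero => simp [wpr]
  | succ k ih => rw [List.replicate_succ, List.flatten_cons, words_append, ih, pow_succ']

private lemma words_adj_adj (A : M2 ℂ) : A.adjugate.adjugate = A := by
  rw [Matrix.adjugate_fin_two, Matrix.adjugate_fin_two]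
  ext i j
  fin_cases i <;> fin_cases j <;> simp

private lemma words_trace_adj (A : M2 ℂ) : A.adjugate.trace = A.trace := by
  rw [Matrix.adjugate_fin_two, Matrix.trace_fin_two_of, Matrix.trace_fin_two]
  ring

/-- the top pair -/
private def wtop (lam : ℝ) (φ : ℂ) : TM ℂ where
  A := Lt lam φ true
  B := !![0, -1; 1, 0]
  LA := 0
  LB := 0

private lemma words_good (lam : ℝ) (φ : ℂ) : (wtop lam φ).Good where
  dA := words_det lam φ true
  dB := by simp [wtop, Matrix.det_fin_two]
  tA := by simp [wtop]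
  tB := by simp [wtop]

private lemma words_stt (lam : ℝ) (φ : ℂ) : (wtop lam φ).stt = topC lam φ := by
  simp only [TM.stt, wtop, topC, Lt]
  refine Prod.ext ?_ (Prod.ext ?_ ?_)
  · simp only [Matrix.trace_fin_two_of]
    ring
  · simp [Matrix.trace_fin_two_of]
  · simp only [Matrix.mul_fin_two, Matrix.trace_fin_two_of]
    ring

private lemma words_inv (lam : ℝ) (l : List ℕ) (hl : Pos l) :
    ∃ w1 w2 : List Bool, true ∈ w1 ∧
      ((∀ φ, (TM.prevs l (wtop lam φ)).A = wpr lam φ w1 ∧
          (TM.prevs l (wtop lam φ)).B.adjugate = wpr lam φ w2) ∨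
        (∀ φ, (TM.prevs l (wtop lam φ)).A.adjugate = wpr lam φ w1 ∧
          (TM.prevs l (wtop lam φ)).B = wpr lam φ w2)) := by
  induction l with
  | nil =>
    refine ⟨[true], [false], by simp, Or.inl ?_⟩
    intro φ
    constructor
    · simp [TM.prevs, wtop, wpr]
    · simp [TM.prevs, wtop, wpr, Lt, Matrix.adjugate_fin_two]
  | cons b l ih =>
    have hb : 1 ≤ b := hl b (by simp)
    obtain ⟨w1, w2, ht, h⟩ := ih (fun c hc => hl c (by simp [hc]))
    have hmem : true ∈ (List.replicate b w1).flatten := by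
      rw [List.mem_flatten]
      refine ⟨w1, ?_, ht⟩
      rw [List.mem_replicate]
      exact ⟨by omega, rfl⟩
    rcases h with h | h
    · refine ⟨(List.replicate b w1).flatten ++ w2, w1, by simp [hmem], Or.inr ?_⟩
      intro φ
      obtain ⟨hA, hB⟩ := h φ
      constructor
      · simp only [TM.prevs, TM.prev]
        rw [Matrix.adjugate_mul_distrib, Matrix.adjugate_pow, words_adj_adj, hA, hB, words_append,
          words_pow]
      · simp only [TM.prevs, TM.prev]
        exact hA
    · refine ⟨w2 ++ (List.replicate b w1).flatten, w1, by simp [hmem], Or.inl ?_⟩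
      intro φ
      obtain ⟨hA, hB⟩ := h φ
      constructor
      · simp only [TM.prevs, TM.prev]
        rw [hA, hB, words_append, words_pow]
      · simp only [TM.prevs, TM.prev]
        exact hA

theorem exists_word (lam : ℝ) (l : List ℕ) (hl : Pos l) :
    ∃ w : List Bool, true ∈ w ∧ ∀ φ : ℂ, TT lam l φ = (wpr lam φ w).trace := by
  obtain ⟨w1, w2, ht, h⟩ := words_inv lam l hl
  refine ⟨w1, ht, ?_⟩
  intro φ
  have h1 : TT lam l φ = (TM.prevs l (wtop lam φ)).A.trace := by
    have h2 := TM.stt_prevs l (words_good lam φ)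
    rw [words_stt] at h2
    have h3 := congrArg Prod.fst h2
    exact h3.symm
  rw [h1]
  rcases h with h | h
  · rw [(h φ).1]
  · rw [← (h φ).1, words_trace_adj]

theorem det_wpr (lam : ℝ) (φ : ℂ) (w : List Bool) : (wpr lam φ w).det = 1 := by
  induction w with
  | nil => simp [wpr]
  | cons b w ih =>
    unfold wpr at ih ⊢
    rw [List.map_cons, List.prod_cons, Matrix.det_mul, ih, words_det, one_mul]

end Sturm
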